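import Pool.Agent.MP_d4f4ab_ag.W.Defs

/-! [WR-B1] the rank function and flats (WR_PROOF.md section 1). -/

open Finset

namespace Pool.Agent.MP_d4f4ab_ag.W

variable {F : Type*} [Field F] {K : Type*} [Fintype K] [DecidableEq K]
  {L : Submodule F (K → F)} {e : ℕ}

theorem mem_van {X : Finset K} {c : K → F} : c ∈ van L X ↔ c ∈ L ∧ ∀ y ∈ X, c y = 0 := Iff.rfl

theorem van_empty : van L ∅ = L := by
  ext c
  simp [mem_van]

theorem van_univ : van L univ = ⊥ := by
  ext c
  simp only [mem_van, Finset.mem_univ, true_implies, Submodule.mem_bot]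
  constructor
  · rintro ⟨_, h⟩
    funext y
    exact h y
  · rintro rfl
    exact ⟨L.zero_mem, fun y => rfl⟩

theorem van_anti {X Y : Finset K} (h : X ⊆ Y) : van L Y ≤ van L X := by
  intro c hc
  exact ⟨hc.1, fun y hy => hc.2 y (h hy)⟩

theorem van_van {X Y : Finset K} : van (van L X) Y = van L (X ∪ Y) := by
  ext c
  simp only [mem_van, Finset.mem_union]
  constructor
  · rintro ⟨⟨h1, h2⟩, h3⟩
    exact ⟨h1, fun y hy => hy.elim (h2 y) (h3 y)⟩
  · rintro ⟨h1, h2⟩
    exact ⟨⟨h1, fun y hy => h2 y (Or.inl hy)⟩, fun y hy => h2 y (Or.inr hy)⟩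

theorem van_inf {X Y : Finset K} : van L X ⊓ van L Y = van L (X ∪ Y) := by
  ext c
  simp only [Submodule.mem_inf, mem_van, Finset.mem_union]
  constructor
  · rintro ⟨⟨h1, h2⟩, ⟨_, h3⟩⟩
    exact ⟨h1, fun y hy => hy.elim (h2 y) (h3 y)⟩
  · rintro ⟨h1, h2⟩
    exact ⟨⟨h1, fun y hy => h2 y (Or.inl hy)⟩, ⟨h1, fun y hy => h2 y (Or.inr hy)⟩⟩

theorem qq_empty : qq L ∅ = 0 := by
  unfold qq
  rw [van_empty, sub_self]

theorem b1_finrank_le {U V : Submodule F (K → F)} (h : U ≤ V) :
    Module.finrank F U ≤ Module.finrank F V :=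
  Submodule.finrank_mono h

theorem qq_mono {X Y : Finset K} (h : X ⊆ Y) : qq L X ≤ qq L Y := by
  unfold qq
  have := b1_finrank_le (van_anti (L := L) h)
  omega

/-- `dim (L_X) - dim (L_{X ∪ Y}) ≤ dim (L_{X ∩ Y}) - dim (L_Y)`: dimension formula -/
theorem qq_submod (X Y : Finset K) : qq L (X ∪ Y) + qq L (X ∩ Y) ≤ qq L X + qq L Y := by
  have h1 := Submodule.finrank_sup_add_finrank_inf_eq (van L X) (van L Y)
  rw [van_inf] at h1
  have h2 : van L X ⊔ van L Y ≤ van L (X ∩ Y) :=
    sup_le (van_anti Finset.inter_subset_left) (van_anti Finset.inter_subset_right)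
  have h3 := b1_finrank_le h2
  unfold qq
  omega

theorem b1_qq_singleton_le (y : K) : qq L {y} ≤ 1 := by
  let f : L →ₗ[F] F := (LinearMap.proj y).comp L.subtype
  have h1 := LinearMap.finrank_range_add_finrank_ker f
  have h2 : Module.finrank F (LinearMap.range f) ≤ 1 := by
    have := Submodule.finrank_le (LinearMap.range f)
    rwa [Module.finrank_self] at this
  have h3 : Module.finrank F (LinearMap.ker f) = Module.finrank F (van L {y}) := by
    have hmap : (LinearMap.ker f).map L.subtype = van L {y} := by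
      ext c
      simp only [Submodule.mem_map, LinearMap.mem_ker, mem_van, Finset.mem_singleton,
        forall_eq]
      constructor
      · rintro ⟨⟨x, hx⟩, h, rfl⟩
        exact ⟨hx, h⟩
      · rintro ⟨h1, h2⟩
        exact ⟨⟨c, h1⟩, h2, rfl⟩
    rw [← hmap]
    exact (LinearEquiv.finrank_eq
      (Submodule.equivMapOfInjective L.subtype (Submodule.injective_subtype L) _))
  unfold qq
  omega

theorem qq_insert_le (y : K) (X : Finset K) : qq L (insert y X) ≤ qq L X + 1 := by
  by_cases hy : y ∈ X
  · rw [Finset.insert_eq_of_mem hy]; omega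
  · have h1 := qq_submod (L := L) {y} X
    have h2 : ({y} : Finset K) ∩ X = ∅ := by
      ext z
      simp only [Finset.mem_inter, Finset.mem_singleton, Finset.notMem_empty, iff_false, not_and]
      rintro rfl
      exact hy
    rw [h2, qq_empty, ← Finset.insert_eq] at h1
    have h3 := b1_qq_singleton_le (L := L) y
    omega

theorem nn_empty : nn L e ∅ = 0 := by
  unfold nn
  rw [qq_empty]
  simp

theorem nn_submod (X Y : Finset K) : nn L e (X ∪ Y) + nn L e (X ∩ Y) ≤ nn L e X + nn L e Y := by
  have h1 := qq_submod (L := L) X Y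
  have h2 : ((X ∪ Y).card : ℤ) + (X ∩ Y).card = X.card + Y.card := by
    exact_mod_cast Finset.card_union_add_card_inter X Y
  have h3 : (e : ℤ) * (qq L (X ∪ Y) + qq L (X ∩ Y)) ≤ e * (qq L X + qq L Y) :=
    mul_le_mul_of_nonneg_left h1 (by positivity)
  have h4 : ((e : ℤ) - 1) * (((X ∪ Y).card : ℤ) + (X ∩ Y).card) =
      ((e : ℤ) - 1) * (X.card + Y.card) := by rw [h2]
  unfold nn
  linarith

theorem nn_insert_le (y : K) (X : Finset K) : nn L e (insert y X) ≤ nn L e X + 1 := by
  by_cases hy : y ∈ X
  · rw [Finset.insert_eq_of_mem hy]; omega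
  · have h1 := qq_insert_le (L := L) y X
    have h2 : ((insert y X).card : ℤ) = X.card + 1 := by
      rw [Finset.card_insert_of_notMem hy]; push_cast; ring
    have h3 : (e : ℤ) * qq L (insert y X) ≤ e * (qq L X + 1) :=
      mul_le_mul_of_nonneg_left h1 (by positivity)
    unfold nn
    rw [h2]
    linarith

theorem Dense.nonneg (h : Dense L e) (S : Finset K) : 0 ≤ nn L e S := by
  rcases S.eq_empty_or_nonempty with rfl | hS
  · rw [nn_empty]
  · have := h.pos S hS
    omega

theorem isFlat_univ : IsFlat L e (univ : Finset K) := by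
  intro G hG
  exact absurd (Finset.subset_univ G) hG.2

theorem isFlat_empty (h : Dense L e) : IsFlat L e (∅ : Finset K) := by
  intro G hG
  rw [nn_empty]
  have := h.pos G (Finset.empty_ssubset.1 hG)
  omega

theorem IsFlat.inter {X Y : Finset K} (hX : IsFlat L e X) (hY : IsFlat L e Y) :
    IsFlat L e (X ∩ Y) := by
  intro G hG
  by_contra hcon
  push Not at hcon
  -- the main step: for any `G ⊇ X ∩ Y` and a flat `X` not containing `G`
  have step : ∀ (Z A : Finset K), IsFlat L e Z → ¬ A ⊆ Z → nn L e (A ∩ Z) < nn L e A := by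
    intro Z A hZ hA
    have h1 := nn_submod (L := L) (e := e) A Z
    have h2 : Z ⊂ A ∪ Z := by
      refine Finset.ssubset_iff_subset_ne.2 ⟨Finset.subset_union_right, ?_⟩
      intro h
      exact hA (by rw [h]; exact Finset.subset_union_left)
    have h3 := hZ _ h2
    omega
  by_cases hGX : G ⊆ X
  · have hGY : ¬ G ⊆ Y := by
      intro h
      exact hG.2 (Finset.subset_inter hGX h)
    have h1 := step Y G hY hGY
    have h2 : G ∩ Y = X ∩ Y := by
      apply Finset.Subset.antisymm
      · exact Finset.inter_subset_inter_right hGX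
      · exact Finset.subset_inter hG.1 Finset.inter_subset_right
    rw [h2] at h1
    omega
  · have h1 := step X G hX hGX
    by_cases hGY : G ∩ X ⊆ Y
    · have h2 : G ∩ X = X ∩ Y := by
        apply Finset.Subset.antisymm
        · exact Finset.subset_inter Finset.inter_subset_right hGY
        · exact Finset.subset_inter hG.1 Finset.inter_subset_left
      rw [h2] at h1
      omega
    · have h2 := step Y (G ∩ X) hY hGY
      have h3 : G ∩ X ∩ Y = X ∩ Y := by
        apply Finset.Subset.antisymm
        · exact Finset.inter_subset_inter_right Finset.inter_subset_right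
        · exact Finset.subset_inter (Finset.subset_inter hG.1 Finset.inter_subset_left)
            Finset.inter_subset_right
      rw [h3] at h2
      omega

theorem b1_mem_cl {X : Finset K} {y : K} :
    y ∈ cl L e X ↔ ∀ G : Finset K, X ⊆ G → IsFlat L e G → y ∈ G := by
  unfold cl
  simp

theorem subset_cl (X : Finset K) : X ⊆ cl L e X := by
  intro y hy
  rw [b1_mem_cl]
  intro G hG _
  exact hG hy

theorem cl_subset {X G : Finset K} (h : X ⊆ G) (hG : IsFlat L e G) : cl L e X ⊆ G := by
  intro y hy
  exact b1_mem_cl.1 hy G h hG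

/-- there is a least flat containing `X` -/
theorem b1_exists_least (X : Finset K) :
    ∃ G : Finset K, X ⊆ G ∧ IsFlat L e G ∧ cl L e X = G := by
  classical
  -- a flat of minimal cardinality containing `X`
  have hne : ((univ : Finset (Finset K)).filter (fun G => X ⊆ G ∧ IsFlat L e G)).Nonempty :=
    ⟨univ, by simp [isFlat_univ]⟩
  obtain ⟨G, hG, hmin⟩ := Finset.exists_min_image _ (fun G : Finset K => G.card) hne
  simp only [Finset.mem_filter, Finset.mem_univ, true_and] at hG hmin
  refine ⟨G, hG.1, hG.2, ?_⟩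
  apply Finset.Subset.antisymm (cl_subset hG.1 hG.2)
  intro y hy
  rw [b1_mem_cl]
  intro G' hXG' hG'
  have h1 := hmin (G ∩ G') ⟨Finset.subset_inter hG.1 hXG', hG.2.inter hG'⟩
  have h2 : G ∩ G' = G := Finset.eq_of_subset_of_card_le Finset.inter_subset_left h1
  rw [← h2] at hy
  exact (Finset.mem_inter.1 hy).2

theorem isFlat_cl (X : Finset K) : IsFlat L e (cl L e X) := by
  obtain ⟨G, _, hG, h⟩ := b1_exists_least (L := L) (e := e) X
  rw [h]
  exact hG

theorem IsFlat.cl_eq {X : Finset K} (h : IsFlat L e X) : cl L e X = X :=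
  Finset.Subset.antisymm (cl_subset (Finset.Subset.refl X) h) (subset_cl X)

theorem cl_mono {X Y : Finset K} (h : X ⊆ Y) : cl L e X ⊆ cl L e Y :=
  cl_subset (h.trans (subset_cl Y)) (isFlat_cl Y)

/-- `n (cl X) = min` over supersets: a maximal minimiser is flat, and it equals `cl X` -/
theorem nn_cl_le {X G : Finset K} (h : X ⊆ G) : nn L e (cl L e X) ≤ nn L e G := by
  classical
  -- for a flat `C ⊇ X`: the minimum over supersets of `X` is attained inside `C`, and also at a flat
  obtain ⟨M, hM, hmin⟩ := Finset.exists_min_image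
    ((univ : Finset (Finset K)).filter (fun G => X ⊆ G)) (fun G : Finset K => nn L e G)
    ⟨X, by simp⟩
  simp only [Finset.mem_filter, Finset.mem_univ, true_and] at hM hmin
  obtain ⟨M', hM', hmax⟩ := Finset.exists_max_image
    ((univ : Finset (Finset K)).filter (fun G => X ⊆ G ∧ nn L e G = nn L e M))
    (fun G : Finset K => G.card) ⟨M, by simp [hM]⟩
  simp only [Finset.mem_filter, Finset.mem_univ, true_and] at hM' hmax
  have hflat : IsFlat L e M' := by
    intro G' hG'
    have h1 := hmin G' (hM'.1.trans hG'.1)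
    rw [hM'.2]
    rcases lt_or_eq_of_le h1 with h2 | h2
    · exact h2
    · exfalso
      have h3 := hmax G' ⟨hM'.1.trans hG'.1, h2.symm⟩
      exact absurd (Finset.card_lt_card hG') (not_lt.2 h3)
  have h1 : cl L e X ⊆ M' := cl_subset hM'.1 hflat
  -- `cl X = cl X ∩ M'` and `n (cl X) ≤ n M'` as flats are strictly monotone
  have h2 : nn L e (cl L e X) ≤ nn L e M' := by
    rcases eq_or_ssubset_of_subset h1 with h3 | h3
    · rw [h3]
    · exact (isFlat_cl X _ h3).le
  have h3 := hmin G h
  omega

/-- flats: strict monotonicity -/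
theorem IsFlat.nn_lt {X Y : Finset K} (hX : IsFlat L e X) (h : X ⊂ Y) : nn L e X < nn L e Y :=
  hX Y h

/-- adding one element to a flat raises `n` of the closure by one -/
theorem IsFlat.nn_cl_insert {X : Finset K} (hX : IsFlat L e X) {y : K} (hy : y ∉ X) :
    nn L e (cl L e (insert y X)) = nn L e X + 1 := by
  have h1 := nn_cl_le (L := L) (e := e) (Finset.Subset.refl (insert y X))
  have h2 := nn_insert_le (L := L) (e := e) y X
  have h3 : X ⊂ cl L e (insert y X) :=
    lt_of_lt_of_le (Finset.ssubset_insert hy) (subset_cl _)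
  have h4 := hX _ h3
  omega

theorem nn_cl_insert_le (X : Finset K) (y : K) :
    nn L e (cl L e (insert y X)) ≤ nn L e (cl L e X) + 1 := by
  have h1 : insert y X ⊆ insert y (cl L e X) := Finset.insert_subset_insert y (subset_cl X)
  have h2 := nn_cl_le (L := L) (e := e) h1
  have h3 := nn_insert_le (L := L) (e := e) y (cl L e X)
  omega

theorem IsFlat.nn_union {G S : Finset K} (hG : IsFlat L e G) (h : ¬ S ⊆ G) :
    nn L e G + 1 ≤ nn L e (G ∪ S) := by
  have h2 : G ⊂ G ∪ S := by
    refine Finset.ssubset_iff_subset_ne.2 ⟨Finset.subset_union_left, ?_⟩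
    intro h'
    exact h (by rw [h']; exact Finset.subset_union_right)
  have := hG _ h2
  omega

/-- distinct flats `H, H'` of the same `n = n(X) + 1` containing the flat `X` meet in `X` -/
theorem IsFlat.inter_eq {X H H' : Finset K} (hX : IsFlat L e X) (hH : IsFlat L e H)
    (hH' : IsFlat L e H') (h : X ⊆ H) (h' : X ⊆ H') (hn : nn L e H = nn L e X + 1)
    (hn' : nn L e H' = nn L e X + 1) (hne : H ≠ H') : H ∩ H' = X := by
  by_contra hcon
  have h1 : X ⊂ H ∩ H' :=
    Finset.ssubset_iff_subset_ne.2 ⟨Finset.subset_inter h h', fun h => hcon h.symm⟩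
  have h2 := hX _ h1
  have h3 : H ∩ H' = H := by
    by_contra h4
    have h5 : H ∩ H' ⊂ H := Finset.ssubset_iff_subset_ne.2 ⟨Finset.inter_subset_left, h4⟩
    have := (hH.inter hH') _ h5
    omega
  have h4 : H ∩ H' = H' := by
    by_contra h4
    have h5 : H ∩ H' ⊂ H' := Finset.ssubset_iff_subset_ne.2 ⟨Finset.inter_subset_right, h4⟩
    have := (hH.inter hH') _ h5
    omega
  exact hne (h3.symm.trans h4)

/-- flat between `X` and `Y` through a given element -/
theorem IsFlat.exists_between {X Y : Finset K} (hX : IsFlat L e X) (hY : IsFlat L e Y)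
    {y : K} (hy : y ∉ X) (hy' : y ∈ Y) (h : X ⊆ Y) :
    ∃ H, IsFlat L e H ∧ y ∈ H ∧ X ⊂ H ∧ H ⊆ Y ∧ nn L e H = nn L e X + 1 := by
  refine ⟨cl L e (insert y X), isFlat_cl _, subset_cl _ (Finset.mem_insert_self y X),
    lt_of_lt_of_le (Finset.ssubset_insert hy) (subset_cl _), ?_, hX.nn_cl_insert hy⟩
  exact cl_subset (Finset.insert_subset hy' h) hY

end Pool.Agent.MP_d4f4ab_ag.W
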