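import Pool.Agent.MP_d4f4ab_ag.W.B1

/-! [WR-B2] flags and independent lists. -/

open Finset

namespace Pool.Agent.MP_d4f4ab_ag.W

variable {F : Type*} [Field F] {K : Type*} [Fintype K] [DecidableEq K]
  {L : Submodule F (K → F)} {e : ℕ}

theorem Flag.isFlat_left {G₁ G₀ : Finset K} {σ} (h : Flag L e G₁ G₀ σ) : IsFlat L e G₀ := by
  cases σ with
  | nil => exact h.1
  | cons X σ => exact h.1

theorem Flag.isFlat_right {G₁ G₀ : Finset K} {σ} (h : Flag L e G₁ G₀ σ) : IsFlat L e G₁ := by
  induction σ generalizing G₀ with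
  | nil => exact h.2.1
  | cons X σ ih => exact ih h.2.2.2.2

theorem Flag.isFlat_mem {G₁ G₀ : Finset K} {σ} (h : Flag L e G₁ G₀ σ) {X} (hX : X ∈ σ) :
    IsFlat L e X := by
  induction σ generalizing G₀ with
  | nil => exact absurd hX List.not_mem_nil
  | cons Y σ ih =>
    rcases List.mem_cons.1 hX with rfl | hX
    · exact h.2.1
    · exact ih h.2.2.2.2 hX

theorem Flag.ssubset {G₁ G₀ : Finset K} {σ} (h : Flag L e G₁ G₀ σ) : G₀ ⊂ G₁ := by
  induction σ generalizing G₀ with
  | nil => exact h.2.2.1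
  | cons Y σ ih => exact h.2.2.1.trans (ih h.2.2.2.2)

theorem Flag.ssubset_mem {G₁ G₀ : Finset K} {σ} (h : Flag L e G₁ G₀ σ) {X} (hX : X ∈ σ) :
    G₀ ⊂ X ∧ X ⊂ G₁ := by
  induction σ generalizing G₀ with
  | nil => exact absurd hX List.not_mem_nil
  | cons Y σ ih =>
    rcases List.mem_cons.1 hX with rfl | hX
    · exact ⟨h.2.2.1, Flag.ssubset h.2.2.2.2⟩
    · have h1 := ih h.2.2.2.2 hX
      exact ⟨h.2.2.1.trans h1.1, h1.2⟩

theorem Flag.nn_eq {G₁ G₀ : Finset K} {σ} (h : Flag L e G₁ G₀ σ) :
    nn L e G₁ = nn L e G₀ + σ.length + 1 := by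
  induction σ generalizing G₀ with
  | nil =>
    have h1 : nn L e G₁ = nn L e G₀ + 1 := h.2.2.2
    simp [h1]
  | cons Y σ ih =>
    have h1 := ih h.2.2.2.2
    have h2 : nn L e Y = nn L e G₀ + 1 := h.2.2.2.1
    rw [h1, h2, List.length_cons]
    push_cast
    ring

/-- cutting a flag at one of its members -/
theorem flag_append {G₁ G₀ : Finset K} {σ₁ : List (Finset K)} {X : Finset K}
    {σ₂ : List (Finset K)} :
    Flag L e G₁ G₀ (σ₁ ++ X :: σ₂) ↔ Flag L e X G₀ σ₁ ∧ Flag L e G₁ X σ₂ := by
  induction σ₁ generalizing G₀ with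
  | nil => simp only [List.nil_append, Flag, and_assoc]
  | cons Y σ₁ ih => simp only [List.cons_append, Flag, ih, and_assoc]

/-- `n` of the member at position `σ₁.length` -/
theorem Flag.nn_mem {G₁ G₀ : Finset K} {σ₁ : List (Finset K)} {X : Finset K}
    {σ₂ : List (Finset K)} (h : Flag L e G₁ G₀ (σ₁ ++ X :: σ₂)) :
    nn L e X = nn L e G₀ + σ₁.length + 1 :=
  (flag_append.1 h).1.nn_eq

/-! independent lists -/

theorem nn_cl_toFinset_le (Z : List K) : nn L e (cl L e Z.toFinset) ≤ (Z.length : ℤ) := by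
  induction Z with
  | nil =>
    have h := nn_cl_le (L := L) (e := e) (Finset.Subset.refl (∅ : Finset K))
    rw [nn_empty] at h
    simpa using h
  | cons y Z ih =>
    rw [List.toFinset_cons, List.length_cons]
    have h := nn_cl_insert_le (L := L) (e := e) Z.toFinset y
    push_cast
    linarith

theorem ind_nil (h : Dense L e) : Ind L e ([] : List K) := by
  unfold Ind
  rw [List.toFinset_nil, (isFlat_empty h).cl_eq, nn_empty]
  simp

theorem b2_cl_insert_cl (y : K) (X : Finset K) :
    cl L e (insert y (cl L e X)) = cl L e (insert y X) := by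
  apply Finset.Subset.antisymm
  · apply cl_subset _ (isFlat_cl _)
    apply Finset.insert_subset
    · exact subset_cl _ (Finset.mem_insert_self _ _)
    · exact cl_mono (Finset.subset_insert _ _)
  · exact cl_mono (Finset.insert_subset_insert _ (subset_cl _))

theorem ind_cons {y : K} {Z : List K} :
    Ind L e (y :: Z) ↔ Ind L e Z ∧ y ∉ cl L e Z.toFinset := by
  unfold Ind
  rw [List.toFinset_cons, List.length_cons]
  constructor
  · intro h
    have h1 := nn_cl_insert_le (L := L) (e := e) Z.toFinset y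
    have h2 := nn_cl_toFinset_le (L := L) (e := e) Z
    push_cast at h
    have h3 : nn L e (cl L e Z.toFinset) = (Z.length : ℤ) := by linarith
    refine ⟨h3, fun hy => ?_⟩
    have h4 : cl L e (insert y Z.toFinset) = cl L e Z.toFinset := by
      apply Finset.Subset.antisymm
      · exact cl_subset (Finset.insert_subset hy (subset_cl _)) (isFlat_cl _)
      · exact cl_mono (Finset.subset_insert _ _)
    rw [h4] at h
    linarith
  · rintro ⟨h1, h2⟩
    rw [← b2_cl_insert_cl, (isFlat_cl Z.toFinset).nn_cl_insert h2, h1]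
    push_cast
    ring

theorem Ind.cl_cons {y : K} {Z : List K} (h : Ind L e (y :: Z)) :
    cl L e Z.toFinset ⊂ cl L e (y :: Z).toFinset ∧
      nn L e (cl L e (y :: Z).toFinset) = nn L e (cl L e Z.toFinset) + 1 := by
  obtain ⟨h1, h2⟩ := ind_cons.1 h
  constructor
  · rw [List.toFinset_cons]
    refine Finset.ssubset_iff_subset_ne.2 ⟨cl_mono (Finset.subset_insert _ _), fun heq => h2 ?_⟩
    rw [heq]
    exact subset_cl _ (Finset.mem_insert_self _ _)
  · unfold Ind at h h1
    rw [h, h1, List.length_cons]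
    push_cast
    ring

theorem Ind.nodup {Z : List K} (h : Ind L e Z) : Z.Nodup := by
  induction Z with
  | nil => exact List.nodup_nil
  | cons y Z ih =>
    obtain ⟨h1, h2⟩ := ind_cons.1 h
    exact List.nodup_cons.2 ⟨fun hy => h2 (subset_cl _ (List.mem_toFinset.2 hy)), ih h1⟩

theorem Ind.perm {Z Z' : List K} (h : Ind L e Z) (hp : Z.Perm Z') : Ind L e Z' := by
  unfold Ind at h ⊢
  rw [← List.toFinset_eq_of_perm _ _ hp, ← hp.length_eq]
  exact h

theorem b2_ind_of_append {Z' Z : List K} (h : Ind L e (Z' ++ Z)) : Ind L e Z := by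
  induction Z' with
  | nil => exact h
  | cons y Z' ih => exact ih (ind_cons.1 h).1

theorem b2_ind_sublist {Z' Z : List K} (h : Ind L e Z) (hs : Z'.Sublist Z) : Ind L e Z' := by
  obtain ⟨l, hl⟩ := hs.exists_perm_append
  exact b2_ind_of_append (h.perm (hl.trans List.perm_append_comm))

theorem b2_nn_mono {X Y : Finset K} (hX : IsFlat L e X) (h : X ⊆ Y) : nn L e X ≤ nn L e Y := by
  rcases h.eq_or_ssubset with rfl | h
  · exact le_rfl
  · exact (hX.nn_lt h).le

/-- an independent list has at most `n(X)` entries in the flat `X` -/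
theorem Ind.countP_le {Z : List K} (h : Ind L e Z) {X : Finset K} (hX : IsFlat L e X) :
    (Z.countP (· ∈ X) : ℤ) ≤ nn L e X := by
  have h1 : Ind L e (Z.filter (· ∈ X)) := b2_ind_sublist h List.filter_sublist
  rw [List.countP_eq_length_filter]
  unfold Ind at h1
  rw [← h1]
  apply b2_nn_mono (isFlat_cl _)
  apply cl_subset _ hX
  intro y hy
  rw [List.mem_toFinset, List.mem_filter] at hy
  simpa using hy.2

/-- an independent list inside the flat `X` with `n(X)` entries spans `X` -/
theorem Ind.cl_eq {Z : List K} (h : Ind L e Z) {X : Finset K} (hX : IsFlat L e X)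
    (hZ : Z.toFinset ⊆ X) (hn : (Z.length : ℤ) = nn L e X) : cl L e Z.toFinset = X := by
  rcases (cl_subset hZ hX).eq_or_ssubset with h1 | h1
  · exact h1
  · have h2 := (isFlat_cl Z.toFinset).nn_lt h1
    unfold Ind at h
    linarith

theorem ind_iff {Z : List K} :
    Ind L e Z ↔ ∀ S : Finset K, Z.toFinset ⊆ S → (Z.length : ℤ) ≤ nn L e S := by
  unfold Ind
  constructor
  · intro h S hS
    rw [← h]
    exact nn_cl_le hS
  · intro h
    exact le_antisymm (nn_cl_toFinset_le Z) (h _ (subset_cl _))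

end Pool.Agent.MP_d4f4ab_ag.W
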