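import Pool.Agent.MP_d4f4ab_ag.W.B2

/-! [WR-B3] splitting cycles (WR_PROOF.md (2.1)). -/

open Finset

namespace Pool.Agent.MP_d4f4ab_ag.W

variable {F : Type*} [Field F] {K : Type*} [Fintype K] [DecidableEq K]
  {L : Submodule F (K → F)} {e : ℕ}

/-- higher thresholds are stronger -/
theorem Fil.mono {ι : Type*} [Fintype ι] {G₀ X : Finset K} {t t' : ℕ} {T : (ι → K → F) → F}
    (h : Fil L G₀ X t T) (htt : t' ≤ t) : Fil L G₀ X t' T := by
  intro c hc hcard
  exact h c hc (by omega)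

/-- only the first `l` thresholds matter -/
theorem Cyc.congr_thr {ι : Type*} [Fintype ι] [DecidableEq ι] {G₀ G₁ : Finset K} {t t' : ℕ → ℕ}
    {g : List (Finset K) → (ι → K → F) → F} {l : ℕ} (hn : nn L e G₁ = nn L e G₀ + l + 1)
    (h : Cyc L e G₀ G₁ t g) (ht : ∀ j < l, t' j ≤ t j) : Cyc L e G₀ G₁ t' g := by
  refine ⟨h.ml, h.supp, h.top, ?_, h.sum⟩
  intro σ₁ X σ₂
  by_cases hl : σ₁.length < l
  · exact (h.fil σ₁ X σ₂).mono (ht _ hl)
  · intro c hc _
    refine h.supp _ ?_ c hc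
    intro hfl
    have h1 := hfl.nn_eq
    rw [List.length_append, List.length_cons] at h1
    push_cast at h1
    omega

theorem Van.congr_thr {l d : ℕ} {t t' : ℕ → ℕ} (h : Van L e l t d) (ht : ∀ j < l, t j ≤ t' j) :
    Van L e l t' d := by
  intro ι _ _ hd G₀ G₁ g hn hg
  exact h ι hd G₀ G₁ g hn (hg.congr_thr hn ht)

/-- the number of slots in `L_X`, for slots split in `J` and the complement -/
theorem ncard_split {ι : Type*} [Fintype ι] [DecidableEq ι] (J : Finset ι) (p : ι → Prop) :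
    {i | p i}.ncard = {i : {i // i ∈ J} | p i}.ncard + {i : {i // i ∉ J} | p i}.ncard := by
  have h1 : {i : {i // i ∈ J} | p i}.ncard = {i | p i ∧ i ∈ J}.ncard := by
    rw [← Set.ncard_image_of_injective _ Subtype.val_injective]
    congr 1
    ext i
    constructor
    · rintro ⟨⟨j, hj⟩, hp, rfl⟩
      exact ⟨hp, hj⟩
    · rintro ⟨hp, hj⟩
      exact ⟨⟨i, hj⟩, hp, rfl⟩
  have h2 : {i : {i // i ∉ J} | p i}.ncard = {i | p i ∧ i ∉ J}.ncard := by
    rw [← Set.ncard_image_of_injective _ Subtype.val_injective]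
    congr 1
    ext i
    constructor
    · rintro ⟨⟨j, hj⟩, hp, rfl⟩
      exact ⟨hp, hj⟩
    · rintro ⟨hp, hj⟩
      exact ⟨⟨i, hj⟩, hp, rfl⟩
  rw [h1, h2, ← Set.ncard_union_eq _ (Set.toFinite _) (Set.toFinite _)]
  · congr 1
    ext i
    by_cases hi : i ∈ J <;> simp [hi]
  · rw [Set.disjoint_left]
    rintro i ⟨_, hi⟩ ⟨_, hi'⟩
    exact hi' hi

theorem b3a_update {ι : Type*} [DecidableEq ι] {P : ι → Prop} [DecidablePred P]
    (c₀ : ι → K → F) (c : {j // P j} → K → F) (i : {j // P j}) (a : K → F) :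
    (fun j => if h : P j then (Function.update c i a) ⟨j, h⟩ else c₀ j) =
      Function.update (fun j => if h : P j then c ⟨j, h⟩ else c₀ j) i.1 a := by
  funext j
  by_cases hj : j = i.1
  · subst hj
    rw [Function.update_self, dif_pos i.2, Function.update_self]
  · rw [Function.update_of_ne hj]
    by_cases hP : P j
    · rw [dif_pos hP, dif_pos hP, Function.update_of_ne]
      intro hh
      exact hj (congrArg Subtype.val hh)
    · rw [dif_neg hP, dif_neg hP]

theorem b3a_mem {ι : Type*} {P : ι → Prop} [DecidablePred P] {U U' : Submodule F (K → F)}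
    (hU : U' ≤ U) {c₀ : ι → K → F} (hc₀ : ∀ j, c₀ j ∈ U) {c : {j // P j} → K → F}
    (hc : ∀ j, c j ∈ U') (j : ι) : (if h : P j then c ⟨j, h⟩ else c₀ j) ∈ U := by
  by_cases hP : P j
  · rw [dif_pos hP]; exact hU (hc _)
  · rw [dif_neg hP]; exact hc₀ j

theorem b3a_ml {ι : Type*} [DecidableEq ι] {P : ι → Prop} [DecidablePred P]
    {U U' : Submodule F (K → F)} (hU : U' ≤ U) {T : (ι → K → F) → F} (h : IsML U T)
    {c₀ : ι → K → F} (hc₀ : ∀ j, c₀ j ∈ U) :
    IsML U' (fun c : {j // P j} → K → F => T (fun j => if h : P j then c ⟨j, h⟩ else c₀ j)) := by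
  constructor
  · intro c i a b hc ha hb
    simp only [b3a_update]
    exact h.add _ _ _ _ (b3a_mem hU hc₀ hc) (hU ha) (hU hb)
  · intro c i s a hc ha
    simp only [b3a_update]
    exact h.smul _ _ _ _ (b3a_mem hU hc₀ hc) (hU ha)

/-- lower part of a cycle: the part above `X` is fixed and the slots in `J` have fixed arguments in `L_X`,
`b` is the number of the other slots -/
theorem Cyc.low {ι : Type} [Fintype ι] [DecidableEq ι] {G₀ G₁ : Finset K} {t : ℕ → ℕ}
    {g : List (Finset K) → (ι → K → F) → F} (h : Cyc L e G₀ G₁ t g) {i b : ℕ} (hb : t i = b)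
    (X : Finset K) (hX : nn L e X = nn L e G₀ + i + 1) (σ₂ : List (Finset K)) (J : Finset ι)
    (hJ : J.card + b = Fintype.card ι) (c₀ : ι → K → F) (hc₀ : ∀ j, c₀ j ∈ van L G₀)
    (hcJ : ∀ j ∈ J, c₀ j ∈ van L X) :
    Cyc L e G₀ X t (fun σ₁ (c : {j // j ∉ J} → K → F) =>
      g (σ₁ ++ X :: σ₂) (fun j => if h : j ∉ J then c ⟨j, h⟩ else c₀ j)) := by
  have hsupp : ∀ σ, ¬ Flag L e X G₀ σ → ∀ c : {j // j ∉ J} → K → F, (∀ i, c i ∈ van L G₀) →
      g (σ ++ X :: σ₂) (fun j => if h : j ∉ J then c ⟨j, h⟩ else c₀ j) = 0 := by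
    intro σ hσ c hc
    exact h.supp _ (fun hfl => hσ (flag_append.1 hfl).1) _ (b3a_mem le_rfl hc₀ hc)
  have hcount : ∀ (Y : Finset K), van L X ≤ van L Y → ∀ c : {j // j ∉ J} → K → F,
      {i | (fun j => if h : j ∉ J then c ⟨j, h⟩ else c₀ j) i ∈ van L Y}.ncard =
        J.card + {i | c i ∈ van L Y}.ncard := by
    intro Y hY c
    rw [ncard_split J]
    congr 1
    · have : {i : {i // i ∈ J} | (fun j => if h : j ∉ J then c ⟨j, h⟩ else c₀ j) i.1 ∈ van L Y} =
          Set.univ := by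
        ext i
        simp only [Set.mem_ofPred_eq, Set.mem_univ, iff_true]
        rw [dif_neg (not_not.2 i.2)]
        exact hY (hcJ _ i.2)
      rw [this, Set.ncard_univ, Nat.card_eq_fintype_card, Fintype.card_coe]
    · congr 1
      ext i
      simp only [Set.mem_ofPred_eq]
      rw [dif_pos i.2]
  have hcard' : Fintype.card {j // j ∉ J} + J.card = Fintype.card ι := by
    have h1 := Fintype.card_subtype_compl (fun j => j ∈ J)
    have h2 : Fintype.card {j // j ∈ J} = J.card := Fintype.card_coe J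
    rw [h2] at h1
    omega
  refine ⟨fun σ => b3a_ml le_rfl (h.ml _) hc₀, hsupp, ?_, ?_, ?_⟩
  · intro σ c hc hcard
    by_cases hfl : Flag L e X G₀ σ
    swap
    · exact hsupp σ hfl c hc
    have hlen : σ.length = i := by
      have := hfl.nn_eq
      omega
    refine h.fil σ X σ₂ _ (b3a_mem le_rfl hc₀ hc) ?_
    rw [hcount X le_rfl, hlen, hb]
    omega
  · intro τ₁ Y τ₂ c hc hcard
    by_cases hfl : Flag L e X G₀ (τ₁ ++ Y :: τ₂)
    swap
    · exact hsupp _ hfl c hc
    have hYX : Y ⊆ X := (flag_append.1 hfl).2.ssubset.subset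
    have := h.fil τ₁ Y (τ₂ ++ X :: σ₂) (fun j => if h : j ∉ J then c ⟨j, h⟩ else c₀ j)
      (b3a_mem le_rfl hc₀ hc) (by
        rw [hcount Y (van_anti hYX)]
        omega)
    simpa [List.append_assoc] using this
  · intro τ₁ τ₂ c hc
    have := h.sum τ₁ (τ₂ ++ X :: σ₂) (fun j => if h : j ∉ J then c ⟨j, h⟩ else c₀ j)
      (b3a_mem le_rfl hc₀ hc)
    simpa [List.append_assoc] using this

/-- upper part of a cycle: the part below `X` is fixed, the slots outside `J` have fixed arguments, and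
the slots in `J` take arguments in `L_X` -/
theorem Cyc.up {ι : Type} [Fintype ι] [DecidableEq ι] {G₀ G₁ : Finset K} {t : ℕ → ℕ}
    {g : List (Finset K) → (ι → K → F) → F} (h : Cyc L e G₀ G₁ t g)
    (X : Finset K) (hX : G₀ ⊆ X) (σ₁ : List (Finset K)) (J : Finset ι) {b : ℕ}
    (hJ : J.card + b = Fintype.card ι) (c₀ : ι → K → F) (hc₀ : ∀ j, c₀ j ∈ van L G₀) :
    Cyc L e X G₁ (fun j => t (σ₁.length + 1 + j) - b) (fun σ₂ (c : {j // j ∈ J} → K → F) =>
      g (σ₁ ++ X :: σ₂) (fun j => if h : j ∈ J then c ⟨j, h⟩ else c₀ j)) := by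
  have hU : van L X ≤ van L G₀ := van_anti hX
  have hcount : ∀ (Y : Finset K), ∀ c : {j // j ∈ J} → K → F,
      {i | c i ∈ van L Y}.ncard ≤
        {i | (fun j => if h : j ∈ J then c ⟨j, h⟩ else c₀ j) i ∈ van L Y}.ncard := by
    intro Y c
    rw [ncard_split J]
    have : {i : {i // i ∈ J} | (fun j => if h : j ∈ J then c ⟨j, h⟩ else c₀ j) i.1 ∈ van L Y} =
          {i | c i ∈ van L Y} := by
      ext i
      simp only [Set.mem_ofPred_eq]
      rw [dif_pos i.2]
    rw [this]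
    exact Nat.le_add_right _ _
  have hcardJ : Fintype.card {j // j ∈ J} = J.card := Fintype.card_coe J
  refine ⟨fun σ => b3a_ml hU (h.ml _) hc₀, ?_, ?_, ?_, ?_⟩
  · intro σ hσ c hc
    exact h.supp _ (fun hfl => hσ (flag_append.1 hfl).2) _ (b3a_mem hU hc₀ hc)
  · intro σ c hc hcard
    have h1 := hcount G₁ c
    have h2 : Fintype.card ι + 1 ≤ Fintype.card ι +
        {i | (fun j => if h : j ∈ J then c ⟨j, h⟩ else c₀ j) i ∈ van L G₁}.ncard := by omega
    exact h.top (σ₁ ++ X :: σ) _ (b3a_mem hU hc₀ hc) h2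
  · intro τ₁ Y τ₂ c hc hcard
    have hle := hcount Y c
    have hle' : {i | c i ∈ van L Y}.ncard ≤ J.card := by
      rw [← hcardJ, ← Nat.card_eq_fintype_card, ← Set.ncard_univ]
      exact Set.ncard_le_ncard (Set.subset_univ _) (Set.toFinite _)
    have hlen : (σ₁ ++ X :: τ₁).length = σ₁.length + 1 + τ₁.length := by
      rw [List.length_append, List.length_cons]; omega
    have h2 : Fintype.card ι + 1 ≤ t (σ₁ ++ X :: τ₁).length +
        {i | (fun j => if h : j ∈ J then c ⟨j, h⟩ else c₀ j) i ∈ van L Y}.ncard := by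
      rw [hlen]
      omega
    have := h.fil (σ₁ ++ X :: τ₁) Y τ₂ (fun j => if h : j ∈ J then c ⟨j, h⟩ else c₀ j)
      (b3a_mem hU hc₀ hc) h2
    simpa [List.append_assoc] using this
  · intro τ₁ τ₂ c hc
    have := h.sum (σ₁ ++ X :: τ₁) τ₂ (fun j => if h : j ∈ J then c ⟨j, h⟩ else c₀ j)
      (b3a_mem hU hc₀ hc)
    simpa [List.append_assoc] using this

theorem b3c_card_not_mem {ι : Type} [Fintype ι] [DecidableEq ι] (J : Finset ι) {b : ℕ}
    (hJ : J.card + b = Fintype.card ι) : Fintype.card {j // j ∉ J} = b := by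
  have h1 := Fintype.card_subtype_compl (fun j => j ∈ J)
  have h2 : Fintype.card {j // j ∈ J} = J.card := Fintype.card_coe J
  rw [h2] at h1
  omega

/-- the decomposition principle -/
theorem DP {l i : ℕ} (hi : i < l) {t : ℕ → ℕ} {d b : ℕ} (hb : t i = b) (hbd : b < d)
    (hv : Van L e i t b ∨ Van L e (l - 1 - i) (fun j => t (i + 1 + j) - b) (d - b))
    {ι : Type} [Fintype ι] [DecidableEq ι] (hd : Fintype.card ι = d) {G₀ G₁ : Finset K}
    {g : List (Finset K) → (ι → K → F) → F} (hn : nn L e G₁ = nn L e G₀ + l + 1)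
    (h : Cyc L e G₀ G₁ t g) : Cyc L e G₀ G₁ (Function.update t i (b + 1)) g := by
  refine ⟨h.ml, h.supp, h.top, ?_, h.sum⟩
  intro σ₁ X σ₂
  by_cases hσ : σ₁.length = i
  swap
  · rw [Function.update_of_ne hσ]
    exact h.fil σ₁ X σ₂
  subst hσ
  rw [Function.update_self]
  intro c hc hcard
  by_cases hfl : Flag L e G₁ G₀ (σ₁ ++ X :: σ₂)
  swap
  · exact h.supp _ hfl c hc
  have hX : nn L e X = nn L e G₀ + σ₁.length + 1 := hfl.nn_mem
  have hGX : G₀ ⊆ X := (flag_append.1 hfl).1.ssubset.subset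
  classical
  have hcard' : d - b ≤ (univ.filter fun i => c i ∈ van L X).card := by
    rw [Set.ncard_eq_toFinset_card' {i | c i ∈ van L X}] at hcard
    have hs : Set.toFinset {i | c i ∈ van L X} = univ.filter fun i => c i ∈ van L X := by
      ext j; simp
    rw [hs] at hcard
    omega
  obtain ⟨J, hJs, hJc⟩ := Finset.exists_subset_card_eq hcard'
  have hJX : ∀ j ∈ J, c j ∈ van L X := fun j hj => (Finset.mem_filter.1 (hJs hj)).2
  have hJb : J.card + b = Fintype.card ι := by omega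
  rcases hv with hv | hv
  · have hc1 := Cyc.low h hb X hX σ₂ J hJb c hc hJX
    have hz := hv {j // j ∉ J} (b3c_card_not_mem J hJb) G₀ X _ hX hc1 σ₁ (fun j => c j.1)
      (fun j => hc j.1)
    simpa using hz
  · have hc1 := Cyc.up h X hGX σ₁ J hJb c hc
    have hcJ : Fintype.card {j // j ∈ J} = d - b := by
      rw [Fintype.card_coe J, hJc]
    have hn1 : nn L e G₁ = nn L e X + ((l - 1 - σ₁.length : ℕ) : ℤ) + 1 := by
      rw [hn, hX]
      have : ((l - 1 - σ₁.length : ℕ) : ℤ) = (l : ℤ) - 1 - σ₁.length := by omega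
      rw [this]
      ring
    have hz := hv {j // j ∈ J} hcJ X G₁ _ hn1 hc1 σ₂ (fun j => c j.1) (fun j => hJX j.1 j.2)
    simpa using hz

/-- the decomposition principle for `Van` -/
theorem Van.of_update {l i : ℕ} (hi : i < l) {t : ℕ → ℕ} {d b : ℕ} (hb : t i = b) (hbd : b < d)
    (hv : Van L e i t b ∨ Van L e (l - 1 - i) (fun j => t (i + 1 + j) - b) (d - b))
    (h : Van L e l (Function.update t i (b + 1)) d) : Van L e l t d := by
  intro ι _ _ hd G₀ G₁ g hn hg
  exact h ι hd G₀ G₁ g hn (DP hi hb hbd hv hd hn hg)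

theorem b3d_top {k l d : ℕ} (hl : k ≤ l) (h : Van L e k (fun _ => d) d) :
    Van L e l (fun _ => d) d := by
  intro ι _ _ hd G₀ G₁ g hn hg σ c hc
  by_cases hfl : Flag L e G₁ G₀ σ
  swap
  · exact hg.supp _ hfl c hc
  have hlen : σ.length = l := by
    have := hfl.nn_eq
    omega
  rcases hl.eq_or_lt with hkl | hkl
  · subst hkl
    exact h ι hd G₀ G₁ g hn hg σ c hc
  · obtain ⟨σ₁, X, σ₂, rfl, hσ₁⟩ : ∃ σ₁ X σ₂, σ = σ₁ ++ X :: σ₂ ∧ σ₁.length = k := by
      refine ⟨σ.take k, σ[k], σ.drop (k + 1), ?_, ?_⟩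
      · rw [← List.drop_eq_getElem_cons (by omega), List.take_append_drop]
      · rw [List.length_take]; omega
    have hX : nn L e X = nn L e G₀ + k + 1 := by
      rw [← hσ₁]
      exact hfl.nn_mem
    have hc1 := Cyc.low hg (i := k) (b := d) rfl X hX σ₂ ∅ (by simp [hd]) c hc (by simp)
    have hz := h {j // j ∉ (∅ : Finset ι)} (b3c_card_not_mem ∅ (by simp [hd])) G₀ X _ hX hc1 σ₁
      (fun j => c j.1) (fun j => hc j.1)
    simpa using hz

/-- cycles for one interior flat only, with all thresholds `d`, vanish as soon as `Van L e 1 (fun _ => d) d` -/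
theorem Van.top_of_one {l d : ℕ} (hl : 1 ≤ l) (h : Van L e 1 (fun _ => d) d) :
    Van L e l (fun _ => d) d :=
  b3d_top hl h

/-- from two interior flats to more, when all thresholds are `d` -/
theorem Van.top_of_two {l d : ℕ} (hl : 2 ≤ l) (h : Van L e 2 (fun _ => d) d) :
    Van L e l (fun _ => d) d :=
  b3d_top hl h

end Pool.Agent.MP_d4f4ab_ag.W
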