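import Pool.Agent.MP_d4f4ab_ag.W.B3

/-! [WR-C1] ISO and F1 (WR_PROOF.md section 3). -/

open Finset

namespace Pool.Agent.MP_d4f4ab_ag.W

variable {F : Type*} [Field F] {K : Type*} [Fintype K] [DecidableEq K]
  {L : Submodule F (K → F)} {e : ℕ}

/-- bilinear on the subspace `U` -/
structure IsBil (U : Submodule F (K → F)) (D : (K → F) → (K → F) → F) : Prop where
  add_left : ∀ a ∈ U, ∀ b ∈ U, ∀ c ∈ U, D (a + b) c = D a c + D b c
  smul_left : ∀ (s : F), ∀ a ∈ U, ∀ c ∈ U, D (s • a) c = s * D a c
  add_right : ∀ a ∈ U, ∀ b ∈ U, ∀ c ∈ U, D a (b + c) = D a b + D a c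
  smul_right : ∀ (s : F), ∀ a ∈ U, ∀ c ∈ U, D a (s • c) = s * D a c

theorem c1a_finrank_comap {U V : Submodule F (K → F)} (h : V ≤ U) :
    Module.finrank F (V.comap U.subtype) = Module.finrank F V :=
  LinearEquiv.finrank_eq (Submodule.comapSubtypeEquivOfLe h)

/-- the space `A` has small codimension (abstract version) -/
theorem c1a_abs {F : Type*} [Field F] {V : Type*} [AddCommGroup V] [Module F V]
    [FiniteDimensional F V] {J : Type*} [Fintype J] [DecidableEq J] (Up : J → Submodule F V)
    (a : J → V) :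
    ∃ A : Submodule F (J → F), (∀ s ∈ A, ∃ c : V, ∀ p, c - s p • a p ∈ Up p) ∧
      (Module.finrank F V : ℤ) + Fintype.card J - (∑ p, ((Module.finrank F V : ℤ) -
        Module.finrank F (Up p))) - Module.finrank F (⨅ p, Up p : Submodule F V) ≤
          Module.finrank F A := by
  classical
  let Φ : (V × (J → F)) →ₗ[F] (∀ p : J, V ⧸ Up p) :=
    LinearMap.pi (fun p => (Up p).mkQ ∘ₗ (LinearMap.fst F V (J → F) -
      (LinearMap.toSpanSingleton F V (a p)) ∘ₗ (LinearMap.proj p) ∘ₗ (LinearMap.snd F V (J → F))))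
  have hΦ : ∀ x : V × (J → F), x ∈ LinearMap.ker Φ ↔
      ∀ p : J, x.1 - x.2 p • a p ∈ Up p := by
    intro x
    rw [LinearMap.mem_ker]
    constructor
    · intro h p
      have h1 := congrFun h p
      simp only [Φ, LinearMap.pi_apply, LinearMap.comp_apply, LinearMap.sub_apply,
        LinearMap.fst_apply, LinearMap.snd_apply, LinearMap.proj_apply,
        LinearMap.toSpanSingleton_apply, Submodule.mkQ_apply, Pi.zero_apply,
        Submodule.Quotient.mk_eq_zero] at h1
      exact h1
    · intro h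
      funext p
      simp only [Φ, LinearMap.pi_apply, LinearMap.comp_apply, LinearMap.sub_apply,
        LinearMap.fst_apply, LinearMap.snd_apply, LinearMap.proj_apply,
        LinearMap.toSpanSingleton_apply, Submodule.mkQ_apply, Pi.zero_apply,
        Submodule.Quotient.mk_eq_zero]
      exact h p
  refine ⟨(LinearMap.ker Φ).map (LinearMap.snd F V (J → F)), ?_, ?_⟩
  · rintro s ⟨x, hx, rfl⟩
    exact ⟨x.1, (hΦ x).1 hx⟩
  · -- dimension count
    have h1 := LinearMap.finrank_range_add_finrank_ker Φ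
    have h2 : Module.finrank F (V × (J → F)) = Module.finrank F V + Fintype.card J := by
      rw [Module.finrank_prod, Module.finrank_fintype_fun_eq_card]
    have h3 : (Module.finrank F (LinearMap.range Φ) : ℤ) ≤
        ∑ p, ((Module.finrank F V : ℤ) - Module.finrank F (Up p)) := by
      have h31 : Module.finrank F (LinearMap.range Φ) ≤ Module.finrank F (∀ p : J, V ⧸ Up p) :=
        Submodule.finrank_le _
      rw [Module.finrank_pi_fintype] at h31
      have h32 : ∀ p : J, (Module.finrank F (V ⧸ Up p) : ℤ) =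
          (Module.finrank F V : ℤ) - Module.finrank F (Up p) := by
        intro p
        have h33 := Submodule.finrank_quotient_add_finrank (Up p)
        omega
      calc (Module.finrank F (LinearMap.range Φ) : ℤ)
          ≤ ((∑ p : J, Module.finrank F (V ⧸ Up p) : ℕ) : ℤ) := by exact_mod_cast h31
        _ = ∑ p, ((Module.finrank F V : ℤ) - Module.finrank F (Up p)) := by
          push_cast
          exact Finset.sum_congr rfl (fun p _ => h32 p)
    let f : LinearMap.ker Φ →ₗ[F] (J → F) := (LinearMap.snd F V (J → F)).domRestrict _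
    have h4 := LinearMap.finrank_range_add_finrank_ker f
    have h5 : LinearMap.range f = (LinearMap.ker Φ).map (LinearMap.snd F V (J → F)) :=
      LinearMap.range_domRestrict _ _
    have h6 : Module.finrank F (LinearMap.ker f) ≤
        Module.finrank F (⨅ p, Up p : Submodule F V) := by
      let g : LinearMap.ker f →ₗ[F] (⨅ p, Up p : Submodule F V) :=
        { toFun := fun x => ⟨x.1.1.1, by
            rw [Submodule.mem_iInf]
            intro p
            have hx1 := (hΦ x.1.1).1 x.1.2 p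
            have hx2 : x.1.1.2 = 0 := x.2
            rw [hx2] at hx1
            simpa only [Pi.zero_apply, zero_smul, sub_zero] using hx1⟩
          map_add' := fun x y => rfl
          map_smul' := fun s x => rfl }
      apply LinearMap.finrank_le_finrank_of_injective (f := g)
      intro x y hxy
      have h61 : x.1.1.1 = y.1.1.1 := congrArg Subtype.val hxy
      have hx2 : x.1.1.2 = 0 := x.2
      have hy2 : y.1.1.2 = 0 := y.2
      apply Subtype.ext
      apply Subtype.ext
      apply Prod.ext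
      · exact h61
      · rw [hx2, hy2]
    rw [h5] at h4
    rw [h2] at h1
    zify at h1 h4 h6
    linarith

/-- the space `A` has small codimension -/
theorem c1a_dim (U : Submodule F (K → F)) (J : Finset (Finset K)) (a : J → U) :
    ∃ A : Submodule F (J → F),
      (∀ s ∈ A, ∃ c ∈ U, ∀ p : J, c - s p • (a p : K → F) ∈ van U (p : Finset K)) ∧
      (J.card : ℤ) - (∑ p ∈ J, qq U p - qq U (J.biUnion id)) ≤ Module.finrank F A := by
  classical
  have hle : ∀ X : Finset K, van U X ≤ U := fun X c hc => hc.1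
  obtain ⟨A, h1, h2⟩ := c1a_abs (fun p : J => (van U (p : Finset K)).comap U.subtype) a
  refine ⟨A, ?_, ?_⟩
  · intro s hs
    obtain ⟨c, hc⟩ := h1 s hs
    exact ⟨c, c.2, fun p => hc p⟩
  · have h3 : (⨅ p : J, (van U (p : Finset K)).comap U.subtype : Submodule F U) =
        (van U (J.biUnion id)).comap U.subtype := by
      ext x
      simp only [Submodule.mem_iInf, Submodule.mem_comap, Submodule.coe_subtype]
      constructor
      · intro h
        refine ⟨x.2, ?_⟩
        intro y hy
        rw [Finset.mem_biUnion] at hy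
        obtain ⟨p, hp, hyp⟩ := hy
        exact (h ⟨p, hp⟩).2 y hyp
      · intro h p
        refine ⟨x.2, ?_⟩
        intro y hy
        exact h.2 y (Finset.mem_biUnion.2 ⟨p, p.2, hy⟩)
    rw [h3, c1a_finrank_comap (hle _), Fintype.card_coe] at h2
    have h4 : ∑ p : J, ((Module.finrank F U : ℤ) -
        Module.finrank F ((van U (p : Finset K)).comap U.subtype)) = ∑ p ∈ J, qq U p := by
      rw [← Finset.sum_coe_sort J (fun p => qq U p)]
      apply Finset.sum_congr rfl
      intro p _
      rw [c1a_finrank_comap (hle _)]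
      rfl
    rw [h4] at h2
    have h7 : qq U (J.biUnion id) =
      (Module.finrank F U : ℤ) - Module.finrank F (van U (J.biUnion id)) := rfl
    rw [h7]
    linarith

/-- orthogonality for a nondegenerate diagonal form -/
theorem c1a_orth {I : Type*} [Fintype I] [DecidableEq I] (A B : Submodule F (I → F)) (d : I → F)
    (hd : ∀ p, d p ≠ 0) (h : ∀ s ∈ A, ∀ t ∈ B, ∑ p, s p * t p * d p = 0) :
    Module.finrank F A + Module.finrank F B ≤ Fintype.card I := by
  let θ : (I → F) →ₗ[F] Module.Dual F (I → F) :=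
    LinearMap.mk₂ F (fun t s => ∑ p, s p * t p * d p)
      (by intro m₁ m₂ n; simp only [Pi.add_apply]; rw [← Finset.sum_add_distrib]
          exact Finset.sum_congr rfl (fun p _ => by ring))
      (by intro c m n; simp only [Pi.smul_apply, smul_eq_mul]; rw [Finset.mul_sum]
          exact Finset.sum_congr rfl (fun p _ => by ring))
      (by intro m n₁ n₂; simp only [Pi.add_apply]; rw [← Finset.sum_add_distrib]
          exact Finset.sum_congr rfl (fun p _ => by ring))
      (by intro c m n; simp only [Pi.smul_apply, smul_eq_mul]; rw [Finset.mul_sum]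
          exact Finset.sum_congr rfl (fun p _ => by ring))
  have hθ : ∀ t s, θ t s = ∑ p, s p * t p * d p := fun t s => rfl
  have hinj : Function.Injective θ := by
    rw [injective_iff_map_eq_zero]
    intro t ht
    funext p
    have h1 : θ t (Pi.single p 1) = 0 := by rw [ht]; rfl
    rw [hθ, Finset.sum_eq_single p] at h1
    · simp only [Pi.single_eq_same, one_mul] at h1
      exact (mul_eq_zero.1 h1).resolve_right (hd p)
    · intro q _ hq
      rw [Pi.single_eq_of_ne hq]
      ring
    · intro h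
      exact absurd (Finset.mem_univ p) h
  have h1 : B.map θ ≤ A.dualAnnihilator := by
    rintro _ ⟨t, ht, rfl⟩
    rw [Submodule.mem_dualAnnihilator]
    intro s hs
    rw [hθ]
    exact h s hs t ht
  have h2 : Module.finrank F (B.map θ) = Module.finrank F B :=
    (LinearEquiv.finrank_eq (Submodule.equivMapOfInjective θ hinj B)).symm
  have h3 := Subspace.finrank_add_finrank_dualAnnihilator_eq A
  rw [Module.finrank_fintype_fun_eq_card] at h3
  have h4 := Submodule.finrank_mono h1
  omega

theorem c1a_zero_left {U : Submodule F (K → F)} {D : (K → F) → (K → F) → F} (hD : IsBil U D)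
    {a : K → F} (ha : a ∈ U) {c : K → F} (hc : c ∈ U) {s : F} {x : K → F} (hx : x ∈ U)
    (h : D (c - s • a) x = 0) : D c x = s * D a x := by
  have h1 : c = (c - s • a) + s • a := by abel
  have h2 := hD.add_left (c - s • a) (U.sub_mem hc (U.smul_mem s ha)) (s • a) (U.smul_mem s ha) x hx
  rw [← h1, h, zero_add, hD.smul_left s a ha x hx] at h2
  exact h2

theorem c1a_zero_right {U : Submodule F (K → F)} {D : (K → F) → (K → F) → F} (hD : IsBil U D)
    {a : K → F} (ha : a ∈ U) {c : K → F} (hc : c ∈ U) {s : F} {x : K → F} (hx : x ∈ U)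
    (h : D x (c - s • a) = 0) : D x c = s * D x a := by
  have h1 : c = (c - s • a) + s • a := by abel
  have h2 := hD.add_right x hx (c - s • a) (U.sub_mem hc (U.smul_mem s ha)) (s • a)
    (U.smul_mem s ha)
  rw [← h1, h, zero_add, hD.smul_right s x hx a ha] at h2
  exact h2

/-- a purely linear-algebraic lemma: `A = {s | ∃ c ∈ U, c - s p • a p ∈ U_p for all p}` has codimension at most
`∑ dim U/U_p - dim U/⋂ U_p` (here `U_p = van U (p)`), and two such spaces for `a`, `b` which are orthogonal for a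
nondegenerate diagonal form satisfy `dim A + dim B ≤ |J|`. -/
theorem iso_linear (U : Submodule F (K → F)) (J : Finset (Finset K))
    (D : Finset K → (K → F) → (K → F) → F) (hD : ∀ p ∈ J, IsBil U (D p))
    (hl : ∀ p ∈ J, ∀ c ∈ van U p, ∀ c' ∈ U, D p c c' = 0)
    (hr : ∀ p ∈ J, ∀ c ∈ U, ∀ c' ∈ van U p, D p c c' = 0)
    (hsum : ∀ c ∈ U, ∀ c' ∈ U, ∑ p ∈ J, D p c c' = 0)
    (hne : ∀ p ∈ J, ∃ a ∈ U, ∃ b ∈ U, D p a b ≠ 0) :
    (J.card : ℤ) ≤ 2 * (∑ p ∈ J, qq U p - qq U (J.biUnion id)) := by
  classical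
  have hne' : ∀ p : J, ∃ a : U, ∃ b : U, D p a b ≠ 0 := by
    intro p
    obtain ⟨a, ha, b, hb, h⟩ := hne p p.2
    exact ⟨⟨a, ha⟩, ⟨b, hb⟩, h⟩
  choose a b hab using hne'
  obtain ⟨A, hA, hA'⟩ := c1a_dim U J a
  obtain ⟨B, hB, hB'⟩ := c1a_dim U J b
  have h1 := c1a_orth A B (fun p : J => D p (a p) (b p)) hab (by
    intro s hs t ht
    obtain ⟨c, hc, hcs⟩ := hA s hs
    obtain ⟨c', hc', hct⟩ := hB t ht
    have h2 := hsum c hc c' hc'
    rw [← Finset.sum_coe_sort J (fun p => D p c c')] at h2
    rw [← h2]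
    apply Finset.sum_congr rfl
    intro p _
    have h3 : D p c c' = s p * D p (a p) c' :=
      c1a_zero_left (hD p p.2) (a p).2 hc hc' (hl p p.2 _ (hcs p) c' hc')
    have h4 : D p (a p) c' = t p * D p (a p) (b p) :=
      c1a_zero_right (hD p p.2) (b p).2 hc' (a p).2 (hr p p.2 _ (a p).2 _ (hct p))
    rw [h3, h4]
    ring)
  rw [Fintype.card_coe] at h1
  zify at h1
  linarith

theorem c1b_van {G p : Finset K} : van (van L G) p = van L (G ∪ p) := van_van

theorem c1b_qq {G p : Finset K} : qq (van L G) p = qq L (G ∪ p) - qq L G := by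
  unfold qq
  rw [c1b_van]
  ring

theorem c1b_nn {G p : Finset K} :
    nn L e (G ∪ p) - nn L e G = (e : ℤ) * qq (van L G) p - ((e : ℤ) - 1) * ((p \ G).card : ℤ) := by
  have h1 : ((G ∪ p).card : ℤ) = G.card + (p \ G).card := by
    rw [← Finset.union_sdiff_self_eq_union, Finset.card_union_of_disjoint Finset.disjoint_sdiff]
    push_cast
    ring
  unfold nn
  rw [c1b_qq, h1]
  ring

/-- ISO. `G` is flat, the `p ∈ I` are pairwise disjoint outside `G`. -/
theorem iso (hd : Dense L e) {G : Finset K} (hG : IsFlat L e G) (I : Finset (Finset K))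
    (hdis : ∀ p ∈ I, ∀ p' ∈ I, p ≠ p' → p ∩ p' ⊆ G) (hn : ∀ p ∈ I, nn L e (G ∪ p) = nn L e G + 1)
    (D : Finset K → (K → F) → (K → F) → F) (hD : ∀ p ∈ I, IsBil (van L G) (D p))
    (hl : ∀ p ∈ I, ∀ c ∈ van L (G ∪ p), ∀ c' ∈ van L G, D p c c' = 0)
    (hr : ∀ p ∈ I, ∀ c ∈ van L G, ∀ c' ∈ van L (G ∪ p), D p c c' = 0)
    (hsum : ∀ c ∈ van L G, ∀ c' ∈ van L G, ∑ p ∈ I, D p c c' = 0) :
    ∀ p ∈ I, ∀ c ∈ van L G, ∀ c' ∈ van L G, D p c c' = 0 := by
  classical
  by_contra hcon
  push Not at hcon
  obtain ⟨p₀, hp₀, a₀, ha₀, b₀, hb₀, hab₀⟩ := hcon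
  set J := I.filter (fun p => ∃ a ∈ van L G, ∃ b ∈ van L G, D p a b ≠ 0) with hJdef
  have hJI : ∀ p ∈ J, p ∈ I := fun p hp => (Finset.mem_filter.1 hp).1
  have hJne : ∀ p ∈ J, ∃ a ∈ van L G, ∃ b ∈ van L G, D p a b ≠ 0 := fun p hp =>
    (Finset.mem_filter.1 hp).2
  have hp₀J : p₀ ∈ J := Finset.mem_filter.2 ⟨hp₀, a₀, ha₀, b₀, hb₀, hab₀⟩
  have h1 := iso_linear (van L G) J D (fun p hp => hD p (hJI p hp))
    (fun p hp c hc c' hc' => hl p (hJI p hp) c (by rwa [c1b_van] at hc) c' hc')
    (fun p hp c hc c' hc' => hr p (hJI p hp) c hc c' (by rwa [c1b_van] at hc')) ?_ hJne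
  · set S := J.biUnion id with hSdef
    have h2 : ∀ p ∈ J, (1 : ℤ) = (e : ℤ) * qq (van L G) p -
        ((e : ℤ) - 1) * ((p \ G).card : ℤ) := by
      intro p hp
      rw [← c1b_nn, hn p (hJI p hp)]
      ring
    have h3 : (S \ G).card = ∑ p ∈ J, (p \ G).card := by
      have h4 : S \ G = J.biUnion (fun p => p \ G) := by
        ext y
        simp only [hSdef, Finset.mem_sdiff, Finset.mem_biUnion, id]
        constructor
        · rintro ⟨⟨p, hp, hy⟩, hyG⟩
          exact ⟨p, hp, hy, hyG⟩
        · rintro ⟨p, hp, hy, hyG⟩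
          exact ⟨⟨p, hp, hy⟩, hyG⟩
      rw [h4, Finset.card_biUnion]
      intro p hp p' hp' hne
      simp only [Function.onFun]
      rw [Finset.disjoint_left]
      intro y hy hy'
      rw [Finset.mem_sdiff] at hy hy'
      exact hy.2 (hdis p (hJI p hp) p' (hJI p' hp') hne (Finset.mem_inter.2 ⟨hy.1, hy'.1⟩))
    have h5 : (J.card : ℤ) = (e : ℤ) * ∑ p ∈ J, qq (van L G) p -
        ((e : ℤ) - 1) * ((S \ G).card : ℤ) := by
      rw [h3]
      push_cast
      rw [Finset.mul_sum, Finset.mul_sum, ← Finset.sum_sub_distrib]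
      rw [← Finset.sum_congr rfl h2]
      simp
    have h6 : ¬ S ⊆ G := by
      intro hS
      have h7 : p₀ ⊆ G := fun y hy => hS (Finset.mem_biUnion.2 ⟨p₀, hp₀J, hy⟩)
      have h8 := hn p₀ hp₀
      rw [Finset.union_eq_left.2 h7] at h8
      omega
    have h7 := hG.nn_union h6
    have h8 := c1b_nn (L := L) (e := e) (G := G) (p := S)
    have he : (2 : ℤ) ≤ e := by exact_mod_cast hd.two_le
    have hJ1 : (1 : ℤ) ≤ J.card := by
      have : 0 < J.card := Finset.card_pos.2 ⟨p₀, hp₀J⟩
      exact_mod_cast this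
    have h9 : (e : ℤ) * (∑ p ∈ J, qq (van L G) p - qq (van L G) S) ≤ J.card - 1 := by
      linarith
    nlinarith
  · intro c hc c' hc'
    rw [← hsum c hc c' hc']
    apply Finset.sum_subset (Finset.filter_subset _ _)
    intro p hp hp'
    by_contra hne
    exact hp' (Finset.mem_filter.2 ⟨hp, c, hc, c', hc', hne⟩)

/-- ISO for forms with at least two slots: forms `T p` (`p ∈ I`) on `L_G`, zero as soon as one argument is in
`L_{G ∪ p}`, with sum zero. Fix all but two slots and use `iso`. -/
theorem iso_multi (hd : Dense L e) {G : Finset K} (hG : IsFlat L e G) (I : Finset (Finset K))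
    (hdis : ∀ p ∈ I, ∀ p' ∈ I, p ≠ p' → p ∩ p' ⊆ G) (hn : ∀ p ∈ I, nn L e (G ∪ p) = nn L e G + 1)
    {ι : Type*} [Fintype ι] [DecidableEq ι] (hι : 2 ≤ Fintype.card ι)
    (T : Finset K → (ι → K → F) → F) (hT : ∀ p ∈ I, IsML (van L G) (T p))
    (hz : ∀ p ∈ I, ∀ c : ι → K → F, (∀ i, c i ∈ van L G) → (∃ i, c i ∈ van L (G ∪ p)) → T p c = 0)
    (hsum : ∀ c : ι → K → F, (∀ i, c i ∈ van L G) → ∑ p ∈ I, T p c = 0) :
    ∀ p ∈ I, ∀ c : ι → K → F, (∀ i, c i ∈ van L G) → T p c = 0 := by
  intro p hp c hc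
  obtain ⟨i, j, hij⟩ := Fintype.exists_pair_of_one_lt_card (α := ι) (by omega)
  set D : Finset K → (K → F) → (K → F) → F := fun p a b =>
    T p (Function.update (Function.update c i a) j b) with hDdef
  have hcom : ∀ a b : K → F, Function.update (Function.update c i a) j b =
      Function.update (Function.update c j b) i a := fun a b => Function.update_comm hij a b c
  have hmem : ∀ (s : ι) (a : K → F) (c : ι → K → F), a ∈ van L G → (∀ t, c t ∈ van L G) →
      ∀ t, Function.update c s a t ∈ van L G := by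
    intro s a c ha hc t
    by_cases hts : t = s
    · subst hts
      rw [Function.update_self]
      exact ha
    · rw [Function.update_of_ne hts]
      exact hc t
  have key := iso hd hG I hdis hn D ?_ ?_ ?_ ?_ p hp (c i) (hc i) (c j) (hc j)
  · simpa [hDdef] using key
  · intro p hp
    refine ⟨?_, ?_, ?_, ?_⟩
    · intro a ha b hb c' hc'
      simp only [hDdef]
      rw [hcom, hcom, hcom]
      exact (hT p hp).add _ i a b (hmem j c' c hc' hc) ha hb
    · intro r a ha c' hc'
      simp only [hDdef]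
      rw [hcom, hcom]
      exact (hT p hp).smul _ i r a (hmem j c' c hc' hc) ha
    · intro a ha b hb c' hc'
      simp only [hDdef]
      exact (hT p hp).add _ j b c' (hmem i a c ha hc) hb hc'
    · intro r a ha c' hc'
      simp only [hDdef]
      exact (hT p hp).smul _ j r c' (hmem i a c ha hc) hc'
  · intro p hp a ha b hb
    have ha' : a ∈ van L G := van_anti Finset.subset_union_left ha
    refine hz p hp _ (hmem j b _ hb (hmem i a c ha' hc)) ⟨i, ?_⟩
    rw [Function.update_of_ne hij, Function.update_self]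
    exact ha
  · intro p hp a ha b hb
    have hb' : b ∈ van L G := van_anti Finset.subset_union_left hb
    refine hz p hp _ (hmem j b _ hb' (hmem i a c ha hc)) ⟨j, ?_⟩
    rw [Function.update_self]
    exact hb
  · intro a ha b hb
    exact hsum _ (hmem j b _ hb (hmem i a c ha hc))

theorem F1 (hd : Dense L e) {d : ℕ} (h2 : 2 ≤ d) : Van L e 1 (fun _ => d) d := by
  classical
  intro ι _ _ hcard G₀ G₁ g hn hcyc σ c hc
  by_cases hfl : Flag L e G₁ G₀ σ
  · have hlen : σ.length = 1 := by
      have h1 := hfl.nn_eq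
      rw [hn] at h1
      have h3 : ((1 : ℕ) : ℤ) = (σ.length : ℤ) := by linarith
      exact_mod_cast h3.symm
    obtain ⟨X, rfl⟩ := List.length_eq_one_iff.1 hlen
    have hG := hfl.isFlat_left
    let I : Finset (Finset K) := Finset.univ.filter (fun p => Flag L e G₁ G₀ [p])
    have hI : ∀ p, p ∈ I ↔ Flag L e G₁ G₀ [p] := fun p => by
      simp only [I, Finset.mem_filter, Finset.mem_univ, true_and]
    have hIn : ∀ p ∈ I, nn L e p = nn L e G₀ + 1 := fun p hp => ((hI p).1 hp).2.2.2.1
    have hIf : ∀ p ∈ I, IsFlat L e p := fun p hp => ((hI p).1 hp).2.1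
    have hIs : ∀ p ∈ I, G₀ ⊆ p := fun p hp => ((hI p).1 hp).2.2.1.subset
    refine iso_multi hd hG I ?_ ?_ (by omega) (fun p => g [p]) (fun p _ => hcyc.ml [p]) ?_ ?_ X
      ((hI X).2 hfl) c hc
    · intro p hp p' hp' hne
      rw [hG.inter_eq (hIf p hp) (hIf p' hp') (hIs p hp) (hIs p' hp') (hIn p hp) (hIn p' hp') hne]
    · intro p hp
      rw [Finset.union_eq_right.2 (hIs p hp)]
      exact hIn p hp
    · rintro p hp c' hc' ⟨i, hi⟩
      refine hcyc.fil [] p [] c' hc' ?_
      have h1 : i ∈ {i | c' i ∈ van L p} := van_anti Finset.subset_union_right hi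
      have h3 : 0 < {i | c' i ∈ van L p}.ncard :=
        (Set.ncard_pos (Set.toFinite _)).2 ⟨i, h1⟩
      omega
    · intro c' hc'
      have h1 := hcyc.sum [] [] c' hc'
      simp only [List.nil_append] at h1
      rw [← h1]
      apply Finset.sum_subset (Finset.subset_univ _)
      intro p _ hp
      exact hcyc.supp [p] (fun h => hp ((hI p).2 h)) c' hc'
  · exact hcyc.supp σ hfl c hc

theorem F1' (hd : Dense L e) {l d : ℕ} (hl : 1 ≤ l) (h2 : 2 ≤ d) : Van L e l (fun _ => d) d :=
  Van.top_of_one hl (F1 hd h2)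

end Pool.Agent.MP_d4f4ab_ag.W
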