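import Pool.Agent.MP_d4f4ab_ag.W.C1

/-! [WR-C2] rank 3: COUNT, LD, CL (WR_PROOF.md section 4). -/

open Finset

namespace Pool.Agent.MP_d4f4ab_ag.W

variable {F : Type*} [Field F] {K : Type*} [Fintype K] [DecidableEq K]
  {L : Submodule F (K → F)} {e : ℕ}

/-- functionals on `L_{G₀}` vanishing on `L_X` -/
noncomputable def Qs (L : Submodule F (K → F)) (G₀ X : Finset K) :
    Submodule F (Module.Dual F (van L G₀)) where
  carrier := {f | ∀ c : van L G₀, (c : K → F) ∈ van L X → f c = 0}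
  add_mem' := by
    intro a b ha hb c hc
    simp [ha c hc, hb c hc]
  zero_mem' := by intro c _; rfl
  smul_mem' := by
    intro s a ha c hc
    simp [ha c hc]

open Classical in
/-- points (`n = n(G₀) + 1`) of the interval `[G₀, G₁]` -/
noncomputable def pts (L : Submodule F (K → F)) (e : ℕ) (G₀ G₁ : Finset K) : Finset (Finset K) :=
  univ.filter fun p => IsFlat L e p ∧ G₀ ⊂ p ∧ p ⊂ G₁ ∧ nn L e p = nn L e G₀ + 1

open Classical in
/-- lines (`n = n(G₀) + 2`) of the interval `[G₀, G₁]` -/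
noncomputable def lns (L : Submodule F (K → F)) (e : ℕ) (G₀ G₁ : Finset K) : Finset (Finset K) :=
  univ.filter fun l => IsFlat L e l ∧ G₀ ⊂ l ∧ l ⊂ G₁ ∧ nn L e l = nn L e G₀ + 2

/-- solutions supported on the lines in `Λ`: `g p l ∈ Qs p` for incident `p ⊂ l ∈ Λ`, zero otherwise, all sums zero -/
noncomputable def Sol (L : Submodule F (K → F)) (e : ℕ) (G₀ G₁ : Finset K)
    (Λ : Finset (Finset K)) :
    Submodule F (Finset K → Finset K → Module.Dual F (van L G₀)) where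
  carrier := {g | (∀ p l, g p l ∈ Qs L G₀ p) ∧
    (∀ p l, ¬ (p ∈ pts L e G₀ G₁ ∧ l ∈ Λ ∧ p ⊂ l) → g p l = 0) ∧
    (∀ l, ∑ p ∈ pts L e G₀ G₁, g p l = 0) ∧ (∀ p, ∑ l ∈ Λ, g p l = 0)}
  add_mem' := by
    rintro a b ⟨h1, h2, h3, h4⟩ ⟨h1', h2', h3', h4'⟩
    refine ⟨fun p l => Submodule.add_mem _ (h1 p l) (h1' p l), fun p l h => ?_, fun l => ?_,
      fun p => ?_⟩
    · simp [h2 p l h, h2' p l h]
    · simp [Finset.sum_add_distrib, h3 l, h3' l]
    · simp [Finset.sum_add_distrib, h4 p, h4' p]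
  zero_mem' := ⟨fun p l => Submodule.zero_mem _, fun p l _ => rfl, fun l => by simp,
    fun p => by simp⟩
  smul_mem' := by
    rintro s a ⟨h1, h2, h3, h4⟩
    refine ⟨fun p l => Submodule.smul_mem _ s (h1 p l), fun p l h => ?_, fun l => ?_, fun p => ?_⟩
    · simp [h2 p l h]
    · simp [← Finset.smul_sum, h3 l]
    · simp [← Finset.smul_sum, h4 p]

theorem c2a_Qs_eq (G₀ X : Finset K) :
    Qs L G₀ X = ((van L X).comap (van L G₀).subtype).dualAnnihilator := by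
  ext f
  rw [Submodule.mem_dualAnnihilator]
  exact Iff.rfl

theorem finrank_Qs (G₀ X : Finset K) (h : G₀ ⊆ X) :
    (Module.finrank F (Qs L G₀ X) : ℤ) = qq L X - qq L G₀ := by
  have h1 := Subspace.finrank_add_finrank_dualAnnihilator_eq
    ((van L X).comap (van L G₀).subtype)
  have h2 : Module.finrank F ((van L X).comap (van L G₀).subtype) = Module.finrank F (van L X) :=
    (Submodule.comapSubtypeEquivOfLe (van_anti h)).finrank_eq
  rw [← c2a_Qs_eq, h2] at h1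
  unfold qq
  omega

/-- `Qs X` is spanned by the coordinate functionals: `Qs (X ∪ Y) = Qs X + Qs Y` -/
theorem Qs_union (G₀ X Y : Finset K) : Qs L G₀ (X ∪ Y) = Qs L G₀ X ⊔ Qs L G₀ Y := by
  rw [c2a_Qs_eq, c2a_Qs_eq, c2a_Qs_eq, ← van_inf, Submodule.comap_inf]
  exact Subspace.dualAnnihilator_inf_eq _ _

/-- the relations between the `Qs p`, `p ∈ I` -/
noncomputable def Rel (L : Submodule F (K → F)) (G₀ : Finset K) (I : Finset (Finset K)) :
    Submodule F (Finset K → Module.Dual F (van L G₀)) where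
  carrier := {r | (∀ p, r p ∈ Qs L G₀ p) ∧ (∀ p ∉ I, r p = 0) ∧ ∑ p ∈ I, r p = 0}
  add_mem' := by
    rintro a b ⟨h1, h2, h3⟩ ⟨h1', h2', h3'⟩
    refine ⟨fun p => Submodule.add_mem _ (h1 p) (h1' p), fun p h => ?_, ?_⟩
    · simp [h2 p h, h2' p h]
    · simp [Finset.sum_add_distrib, h3, h3']
  zero_mem' := ⟨fun p => Submodule.zero_mem _, fun p _ => rfl, by simp⟩
  smul_mem' := by
    rintro s a ⟨h1, h2, h3⟩
    refine ⟨fun p => Submodule.smul_mem _ s (h1 p), fun p h => ?_, ?_⟩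
    · simp [h2 p h]
    · simp [← Finset.smul_sum, h3]

theorem c2a_Qs_mono {G₀ X Y : Finset K} (h : X ⊆ Y) : Qs L G₀ X ≤ Qs L G₀ Y := by
  have h1 : Y = X ∪ Y := (Finset.union_eq_right.2 h).symm
  rw [h1, Qs_union]
  exact le_sup_left

/-- the relations between subspaces `Q p`, `p ∈ I` -/
def c2a_rel {V α : Type*} [AddCommGroup V] [Module F V] (Q : α → Submodule F V)
    (I : Finset α) : Submodule F (α → V) where
  carrier := {r | (∀ p, r p ∈ Q p) ∧ (∀ p ∉ I, r p = 0) ∧ ∑ p ∈ I, r p = 0}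
  add_mem' := by
    rintro a b ⟨h1, h2, h3⟩ ⟨h1', h2', h3'⟩
    refine ⟨fun p => Submodule.add_mem _ (h1 p) (h1' p), fun p h => ?_, ?_⟩
    · simp [h2 p h, h2' p h]
    · simp [Finset.sum_add_distrib, h3, h3']
  zero_mem' := ⟨fun p => Submodule.zero_mem _, fun p _ => rfl, by simp⟩
  smul_mem' := by
    rintro s a ⟨h1, h2, h3⟩
    refine ⟨fun p => Submodule.smul_mem _ s (h1 p), fun p h => ?_, ?_⟩
    · simp [h2 p h]
    · simp [← Finset.smul_sum, h3]

theorem c2a_gen {V α : Type*} [AddCommGroup V] [Module F V] [FiniteDimensional F V]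
    (Q : α → Submodule F V) (I : Finset α) :
    Module.finrank F (⨆ p : I, Q p : Submodule F V) + Module.finrank F (c2a_rel Q I) =
      ∑ p ∈ I, Module.finrank F (Q p) := by
  classical
  let ψ : (∀ p : I, Q (p : α)) →ₗ[F] V :=
    ∑ p : I, (Q (p : α)).subtype ∘ₗ LinearMap.proj p
  have hψ : ∀ r, ψ r = ∑ p : I, (r p : V) := by
    intro r
    simp [ψ, LinearMap.sum_apply]
  let θ : c2a_rel Q I →ₗ[F] (∀ p : I, Q (p : α)) :=
    { toFun := fun r p => ⟨r.1 p, r.2.1 p⟩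
      map_add' := fun _ _ => rfl
      map_smul' := fun _ _ => rfl }
  have hθ : Function.Injective θ := by
    intro r r' h
    apply Subtype.ext
    funext p
    by_cases hp : p ∈ I
    · exact congrArg Subtype.val (congrFun h ⟨p, hp⟩)
    · rw [r.2.2.1 p hp, r'.2.2.1 p hp]
  have hrange : LinearMap.range θ = LinearMap.ker ψ := by
    ext s
    rw [LinearMap.mem_range, LinearMap.mem_ker, hψ]
    constructor
    · rintro ⟨r, rfl⟩
      have h1 := r.2.2.2
      rw [← Finset.sum_coe_sort] at h1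
      exact h1
    · intro hs
      refine ⟨⟨fun p => if h : p ∈ I then (s ⟨p, h⟩ : V) else 0, ?_, ?_, ?_⟩, ?_⟩
      · intro p
        by_cases hp : p ∈ I
        · simp only [hp, dif_pos]
          exact (s ⟨p, hp⟩).2
        · simp only [hp, dif_neg, not_false_eq_true]
          exact Submodule.zero_mem _
      · intro p hp
        simp only [hp, dif_neg, not_false_eq_true]
      · rw [← Finset.sum_coe_sort, ← hs]
        apply Finset.sum_congr rfl
        intro p _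
        simp only [p.2, dif_pos]
      · funext p
        apply Subtype.ext
        change (if h : (p : α) ∈ I then (s ⟨p, h⟩ : V) else 0) = s p
        simp only [p.2, dif_pos]
  have hle : ∀ p : I, Q (p : α) ≤ LinearMap.range ψ := by
    intro p f hf
    refine ⟨Pi.single p ⟨f, hf⟩, ?_⟩
    rw [hψ, Finset.sum_eq_single p]
    · simp
    · intro b _ hb
      rw [Pi.single_eq_of_ne hb]
      rfl
    · intro h
      exact absurd (Finset.mem_univ p) h
  have hψr : LinearMap.range ψ = ⨆ p : I, Q p := by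
    apply le_antisymm
    · rintro _ ⟨r, rfl⟩
      rw [hψ]
      apply Submodule.sum_mem
      intro p _
      exact (le_iSup (fun p : I => Q (p : α)) p) (r p).2
    · exact iSup_le hle
  have h1 : Module.finrank F (LinearMap.range ψ) + Module.finrank F (LinearMap.ker ψ) =
      Module.finrank F (∀ p : I, Q (p : α)) :=
    LinearMap.finrank_range_add_finrank_ker (V := ∀ p : I, Q (p : α)) ψ
  have h2 : Module.finrank F (LinearMap.ker ψ) = Module.finrank F (c2a_rel Q I) := by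
    rw [← hrange]
    exact LinearMap.finrank_range_of_inj hθ
  rw [hψr, h2, Module.finrank_pi_fintype] at h1
  rw [h1]
  exact Finset.sum_coe_sort I (fun p => Module.finrank F (Q p))

theorem c2a_sup (G₀ : Finset K) (I : Finset (Finset K)) :
    (⨆ p : I, Qs L G₀ (p : Finset K)) = Qs L G₀ (I.biUnion id) := by
  classical
  apply le_antisymm
  · exact iSup_le (fun p => c2a_Qs_mono (Finset.subset_biUnion_of_mem id p.2))
  · have key : ∀ J : Finset (Finset K), J ⊆ I →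
        Qs L G₀ (J.biUnion id) ≤ ⨆ p : I, Qs L G₀ (p : Finset K) := by
      intro J
      induction J using Finset.induction_on with
      | empty =>
        intro _ f hf
        have h1 : f = 0 := by
          ext c
          have h2 : (c : K → F) ∈ van L (∅ : Finset K) := by
            rw [van_empty]
            exact c.2.1
          simpa using hf c h2
        rw [h1]
        exact Submodule.zero_mem _
      | insert p J hp ih =>
        intro hJ
        rw [Finset.biUnion_insert, Qs_union]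
        exact sup_le (le_iSup (fun p : I => Qs L G₀ (p : Finset K))
          ⟨p, hJ (Finset.mem_insert_self _ _)⟩)
          (ih ((Finset.subset_insert _ _).trans hJ))
    exact key I subset_rfl

/-- `dim Rel(I) = ∑ q_p - q_{⋃}` -/
theorem finrank_Rel (G₀ : Finset K) (I : Finset (Finset K)) (hI : ∀ p ∈ I, G₀ ⊆ p)
    (hne : I.Nonempty) :
    (Module.finrank F (Rel L G₀ I) : ℤ) =
      ∑ p ∈ I, (qq L p - qq L G₀) - (qq L (I.biUnion id) - qq L G₀) := by
  have h0 : Rel L G₀ I = c2a_rel (Qs L G₀) I := rfl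
  have h1 := c2a_gen (Qs L G₀) I
  rw [c2a_sup, ← h0] at h1
  have h3 : ((∑ p ∈ I, Module.finrank F (Qs L G₀ p) : ℕ) : ℤ) =
      ∑ p ∈ I, (qq L p - qq L G₀) := by
    push_cast
    exact Finset.sum_congr rfl (fun p hp => finrank_Qs G₀ p (hI p hp))
  have h4 : G₀ ⊆ I.biUnion id := by
    obtain ⟨p, hp⟩ := hne
    exact (hI p hp).trans (Finset.subset_biUnion_of_mem id hp)
  have h5 := finrank_Qs (L := L) G₀ (I.biUnion id) h4
  rw [← h3, ← h1, ← h5]
  push_cast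
  ring

theorem c2b_mem {G₀ G₁ p : Finset K} (h : p ∈ pts L e G₀ G₁) :
    IsFlat L e p ∧ G₀ ⊂ p ∧ p ⊂ G₁ ∧ nn L e p = nn L e G₀ + 1 := by
  classical
  have h1 := h
  unfold pts at h1
  exact (Finset.mem_filter.1 h1).2

omit [Fintype K] in
theorem c2b_card (G₀ : Finset K) (I : Finset (Finset K)) (hI : ∀ p ∈ I, G₀ ⊆ p)
    (hint : ∀ p ∈ I, ∀ p' ∈ I, p ≠ p' → p ∩ p' = G₀) (hne : I.Nonempty) :
    ((I.biUnion id).card : ℤ) - G₀.card = ∑ p ∈ I, ((p.card : ℤ) - G₀.card) := by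
  have h1 : I.biUnion id = G₀ ∪ I.biUnion (fun p => p \ G₀) := by
    ext x
    simp only [Finset.mem_union, Finset.mem_biUnion, id, Finset.mem_sdiff]
    constructor
    · rintro ⟨p, hp, hx⟩
      by_cases h : x ∈ G₀
      · exact Or.inl h
      · exact Or.inr ⟨p, hp, hx, h⟩
    · rintro (h | ⟨p, hp, hx, -⟩)
      · obtain ⟨p, hp⟩ := hne
        exact ⟨p, hp, hI p hp h⟩
      · exact ⟨p, hp, hx⟩
  have h2 : Disjoint G₀ (I.biUnion (fun p => p \ G₀)) := by
    rw [Finset.disjoint_left]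
    intro x hx hx'
    obtain ⟨p, -, hp⟩ := Finset.mem_biUnion.1 hx'
    exact (Finset.mem_sdiff.1 hp).2 hx
  have h3 : (I.biUnion (fun p => p \ G₀)).card = ∑ p ∈ I, (p \ G₀).card := by
    apply Finset.card_biUnion
    intro p hp p' hp' hpp
    show Disjoint (p \ G₀) (p' \ G₀)
    rw [Finset.disjoint_left]
    intro x hx hx'
    rw [Finset.mem_sdiff] at hx hx'
    apply hx.2
    rw [← hint p (Finset.mem_coe.1 hp) p' (Finset.mem_coe.1 hp') hpp]
    exact Finset.mem_inter.2 ⟨hx.1, hx'.1⟩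
  rw [h1, Finset.card_union_of_disjoint h2, h3]
  push_cast
  have h4 : ∀ p ∈ I, (((p \ G₀).card : ℕ) : ℤ) = (p.card : ℤ) - G₀.card := by
    intro p hp
    have := Finset.card_sdiff_add_card_eq_card (hI p hp)
    omega
  rw [Finset.sum_congr rfl h4]
  ring

/-- for a set `I` of points: `|I| - e dim Rel(I) = n(⋃ I) - n(G₀)` -/
theorem card_sub_Rel (hd : Dense L e) {G₀ G₁ : Finset K} (hG₀ : IsFlat L e G₀)
    (I : Finset (Finset K)) (hI : I ⊆ pts L e G₀ G₁) (hne : I.Nonempty) :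
    (I.card : ℤ) - e * Module.finrank F (Rel L G₀ I) = nn L e (I.biUnion id) - nn L e G₀ := by
  have hpt : ∀ p ∈ I, IsFlat L e p ∧ G₀ ⊂ p ∧ p ⊂ G₁ ∧ nn L e p = nn L e G₀ + 1 :=
    fun p hp => c2b_mem (hI hp)
  have hint : ∀ p ∈ I, ∀ p' ∈ I, p ≠ p' → p ∩ p' = G₀ := by
    intro p hp p' hp' hne'
    obtain ⟨f1, s1, -, n1⟩ := hpt p hp
    obtain ⟨f2, s2, -, n2⟩ := hpt p' hp'
    exact hG₀.inter_eq f1 f2 s1.1 s2.1 n1 n2 hne'
  have hcard := c2b_card G₀ I (fun p hp => (hpt p hp).2.1.1) hint hne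
  have hR := finrank_Rel (L := L) G₀ I (fun p hp => (hpt p hp).2.1.1) hne
  rw [hR]
  have hsum : ∑ p ∈ I, (e : ℤ) * (qq L p - qq L G₀) =
      (I.card : ℤ) + ((e : ℤ) - 1) * ∑ p ∈ I, ((p.card : ℤ) - G₀.card) := by
    have h1 : ∀ p ∈ I, (e : ℤ) * (qq L p - qq L G₀) =
        1 + ((e : ℤ) - 1) * ((p.card : ℤ) - G₀.card) := by
      intro p hp
      have h2 := (hpt p hp).2.2.2
      unfold nn at h2
      linear_combination h2
    rw [Finset.sum_congr rfl h1, Finset.sum_add_distrib, ← Finset.mul_sum]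
    simp
  have h3 : (e : ℤ) * (∑ p ∈ I, (qq L p - qq L G₀) - (qq L (I.biUnion id) - qq L G₀)) =
      ∑ p ∈ I, (e : ℤ) * (qq L p - qq L G₀) - e * (qq L (I.biUnion id) - qq L G₀) := by
    rw [mul_sub, Finset.mul_sum]
  rw [h3, hsum, ← hcard]
  unfold nn
  ring

/-- a set of at least two points: at least `e dim Rel + 2` members -/
theorem two_add_Rel_le (hd : Dense L e) {G₀ G₁ : Finset K} (hG₀ : IsFlat L e G₀)
    (I : Finset (Finset K)) (hI : I ⊆ pts L e G₀ G₁) (h2 : 2 ≤ I.card) :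
    (e : ℤ) * Module.finrank F (Rel L G₀ I) + 2 ≤ I.card := by
  have hne : I.Nonempty := Finset.card_pos.1 (by omega)
  have h1 := card_sub_Rel hd hG₀ I hI hne
  obtain ⟨p, hp, p', hp', hne'⟩ := Finset.one_lt_card.1 (by omega : 1 < I.card)
  obtain ⟨f1, s1, -, n1⟩ := c2b_mem (hI hp)
  obtain ⟨f2, s2, -, n2⟩ := c2b_mem (hI hp')
  have hint := hG₀.inter_eq f1 f2 s1.1 s2.1 n1 n2 hne'
  have hss : p ⊂ I.biUnion id := by
    refine ⟨Finset.subset_biUnion_of_mem id hp, fun hsub => ?_⟩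
    have h2 : p' ⊆ p := (Finset.subset_biUnion_of_mem id hp').trans hsub
    have h3 : p' ⊆ G₀ := by
      rw [← hint]
      exact Finset.subset_inter h2 (Finset.Subset.refl p')
    exact s2.2 h3
  have h4 := f1 _ hss
  omega

theorem c2c_mem_pts {G₀ G₁ p : Finset K} : p ∈ pts L e G₀ G₁ ↔
    IsFlat L e p ∧ G₀ ⊂ p ∧ p ⊂ G₁ ∧ nn L e p = nn L e G₀ + 1 := by
  simp [pts]

theorem c2c_mem_lns {G₀ G₁ p : Finset K} : p ∈ lns L e G₀ G₁ ↔
    IsFlat L e p ∧ G₀ ⊂ p ∧ p ⊂ G₁ ∧ nn L e p = nn L e G₀ + 2 := by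
  simp [lns]

theorem c2c_point {G₀ G₁ l : Finset K} (hG₀ : IsFlat L e G₀) (hl : l ∈ lns L e G₀ G₁)
    {y : K} (hy : y ∈ l) (hy0 : y ∉ G₀) :
    ∃ p ∈ pts L e G₀ G₁, p ⊂ l ∧ y ∈ p := by
  obtain ⟨h1, h2, h3, h4⟩ := c2c_mem_lns.1 hl
  obtain ⟨H, hH, hyH, h5, h6, h7⟩ := hG₀.exists_between h1 hy0 hy h2.1
  have h8 : H ⊂ l := by
    refine Finset.ssubset_iff_subset_ne.2 ⟨h6, ?_⟩
    rintro rfl
    omega
  exact ⟨H, c2c_mem_pts.2 ⟨hH, h5, h8.trans h3, h7⟩, h8, hyH⟩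

theorem c2c_biUnion {G₀ G₁ l : Finset K} (hG₀ : IsFlat L e G₀) (hl : l ∈ lns L e G₀ G₁) :
    ((pts L e G₀ G₁).filter (fun p => p ⊂ l)).biUnion id = l := by
  obtain ⟨h1, h2, h3, h4⟩ := c2c_mem_lns.1 hl
  ext y
  simp only [Finset.mem_biUnion, Finset.mem_filter, id]
  constructor
  · rintro ⟨p, ⟨_, hp⟩, hy⟩
    exact hp.1 hy
  · intro hy
    by_cases hy0 : y ∈ G₀
    · obtain ⟨z, hz, hz0⟩ := Finset.exists_of_ssubset h2
      obtain ⟨p, hp, hpl, _⟩ := c2c_point hG₀ hl hz hz0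
      exact ⟨p, ⟨hp, hpl⟩, (c2c_mem_pts.1 hp).2.1.1 hy0⟩
    · obtain ⟨p, hp, hpl, hyp⟩ := c2c_point hG₀ hl hy hy0
      exact ⟨p, ⟨hp, hpl⟩, hyp⟩

theorem c2c_nonempty {G₀ G₁ l : Finset K} (hG₀ : IsFlat L e G₀) (hl : l ∈ lns L e G₀ G₁) :
    ((pts L e G₀ G₁).filter (fun p => p ⊂ l)).Nonempty := by
  obtain ⟨h1, h2, h3, h4⟩ := c2c_mem_lns.1 hl
  obtain ⟨z, hz, hz0⟩ := Finset.exists_of_ssubset h2
  obtain ⟨p, hp, hpl, _⟩ := c2c_point hG₀ hl hz hz0
  exact ⟨p, Finset.mem_filter.2 ⟨hp, hpl⟩⟩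

/-! abstract versions (the space of functionals is an abstract vector space) -/

section abs

variable {D : Type*} [AddCommGroup D] [Module F D]

def c2c_RelA (Q : Finset K → Submodule F D) (I : Finset (Finset K)) :
    Submodule F (Finset K → D) where
  carrier := {r | (∀ p, r p ∈ Q p) ∧ (∀ p ∉ I, r p = 0) ∧ ∑ p ∈ I, r p = 0}
  add_mem' := by
    rintro a b ⟨h1, h2, h3⟩ ⟨h1', h2', h3'⟩
    refine ⟨fun p => Submodule.add_mem _ (h1 p) (h1' p), fun p h => ?_, ?_⟩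
    · simp [h2 p h, h2' p h]
    · simp [Finset.sum_add_distrib, h3, h3']
  zero_mem' := ⟨fun p => Submodule.zero_mem _, fun p _ => rfl, by simp⟩
  smul_mem' := by
    rintro s a ⟨h1, h2, h3⟩
    refine ⟨fun p => Submodule.smul_mem _ s (h1 p), fun p h => ?_, ?_⟩
    · simp [h2 p h]
    · simp [← Finset.smul_sum, h3]

def c2c_SolA (Q : Finset K → Submodule F D) (P Λ : Finset (Finset K)) :
    Submodule F (Finset K → Finset K → D) where
  carrier := {g | (∀ p l, g p l ∈ Q p) ∧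
    (∀ p l, ¬ (p ∈ P ∧ l ∈ Λ ∧ p ⊂ l) → g p l = 0) ∧
    (∀ l, ∑ p ∈ P, g p l = 0) ∧ (∀ p, ∑ l ∈ Λ, g p l = 0)}
  add_mem' := by
    rintro a b ⟨h1, h2, h3, h4⟩ ⟨h1', h2', h3', h4'⟩
    refine ⟨fun p l => Submodule.add_mem _ (h1 p l) (h1' p l), fun p l h => ?_, fun l => ?_,
      fun p => ?_⟩
    · simp [h2 p l h, h2' p l h]
    · simp [Finset.sum_add_distrib, h3 l, h3' l]
    · simp [Finset.sum_add_distrib, h4 p, h4' p]
  zero_mem' := ⟨fun p l => Submodule.zero_mem _, fun p l _ => rfl, fun l => by simp,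
    fun p => by simp⟩
  smul_mem' := by
    rintro s a ⟨h1, h2, h3, h4⟩
    refine ⟨fun p l => Submodule.smul_mem _ s (h1 p l), fun p l h => ?_, fun l => ?_, fun p => ?_⟩
    · simp [h2 p l h]
    · simp [← Finset.smul_sum, h3 l]
    · simp [← Finset.smul_sum, h4 p]

/-- the map `⨁ Rel(I_l) → Rel(⋃ I_l)` -/
def c2c_map (Q : Finset K → Submodule F D) (P Λ : Finset (Finset K)) :
    ((l : Λ) → c2c_RelA Q (P.filter (fun p => p ⊂ (l : Finset K)))) →ₗ[F] (Finset K → D) where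
  toFun r := ∑ l : Λ, (r l : Finset K → D)
  map_add' a b := by simp [Finset.sum_add_distrib]
  map_smul' s a := by simp [Finset.smul_sum]

theorem c2c_range (Q : Finset K → Submodule F D) (P Λ : Finset (Finset K)) :
    LinearMap.range (c2c_map Q P Λ) ≤ c2c_RelA Q (P.filter (fun p => ∃ l ∈ Λ, p ⊂ l)) := by
  rintro _ ⟨r, rfl⟩
  have hr : ∀ l : Λ, _ := fun l => (r l).2
  refine ⟨fun p => ?_, fun p hp => ?_, ?_⟩
  · show (∑ l : Λ, (r l : Finset K → D)) p ∈ Q p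
    rw [Finset.sum_apply]
    exact Submodule.sum_mem _ (fun l _ => (hr l).1 p)
  · show (∑ l : Λ, (r l : Finset K → D)) p = 0
    rw [Finset.sum_apply]
    refine Finset.sum_eq_zero (fun l _ => (hr l).2.1 p ?_)
    intro hp'
    rw [Finset.mem_filter] at hp'
    exact hp (Finset.mem_filter.2 ⟨hp'.1, l, l.2, hp'.2⟩)
  · show ∑ p ∈ P.filter (fun p => ∃ l ∈ Λ, p ⊂ l), (∑ l : Λ, (r l : Finset K → D)) p = 0
    simp only [Finset.sum_apply]
    rw [Finset.sum_comm]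
    refine Finset.sum_eq_zero (fun l _ => ?_)
    rw [← (hr l).2.2]
    symm
    refine Finset.sum_subset ?_ ?_
    · intro p hp
      rw [Finset.mem_filter] at hp
      exact Finset.mem_filter.2 ⟨hp.1, l, l.2, hp.2⟩
    · intro p _ hp
      exact (hr l).2.1 p hp

/-- the kernel embeds into the solutions -/
def c2c_ker (Q : Finset K → Submodule F D) (P Λ : Finset (Finset K)) :
    LinearMap.ker (c2c_map Q P Λ) →ₗ[F] c2c_SolA Q P Λ where
  toFun r := ⟨fun p l => if h : l ∈ Λ then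
      ((r : (l : Λ) → c2c_RelA Q (P.filter (fun p => p ⊂ (l : Finset K)))) ⟨l, h⟩ :
        Finset K → D) p else 0, by
    obtain ⟨r, hr0⟩ := r
    have hr : ∀ l : Λ, _ := fun l => (r l).2
    refine ⟨fun p l => ?_, fun p l hpl => ?_, fun l => ?_, fun p => ?_⟩
    · dsimp only
      split_ifs with h
      · exact (hr ⟨l, h⟩).1 p
      · exact Submodule.zero_mem _
    · dsimp only
      split_ifs with h
      · refine (hr ⟨l, h⟩).2.1 p ?_
        intro hp'
        rw [Finset.mem_filter] at hp'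
        exact hpl ⟨hp'.1, h, hp'.2⟩
      · rfl
    · dsimp only
      split_ifs with h
      · rw [← (hr ⟨l, h⟩).2.2]
        symm
        refine Finset.sum_subset (Finset.filter_subset _ _) ?_
        intro p _ hp
        exact (hr ⟨l, h⟩).2.1 p hp
      · simp
    · dsimp only
      have h0 : (∑ l : Λ, (r l : Finset K → D)) p = 0 := by
        have := LinearMap.mem_ker.1 hr0
        have h1 : (∑ l : Λ, (r l : Finset K → D)) = 0 := this
        rw [h1]; rfl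
      rw [Finset.sum_apply] at h0
      rw [← h0, ← Finset.sum_coe_sort Λ]
      refine Finset.sum_congr rfl (fun l _ => ?_)
      rw [dif_pos l.2]⟩
  map_add' a b := by
    ext p l : 3
    by_cases h : l ∈ Λ <;> simp [h]
  map_smul' s a := by
    ext p l : 3
    by_cases h : l ∈ Λ <;> simp [h]

theorem c2c_ker_inj (Q : Finset K → Submodule F D) (P Λ : Finset (Finset K)) :
    Function.Injective (c2c_ker Q P Λ) := by
  refine (injective_iff_map_eq_zero _).2 ?_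
  intro r hr
  have h1 : ∀ p l, (c2c_ker Q P Λ r : Finset K → Finset K → D) p l = 0 := by
    intro p l; rw [hr]; rfl
  apply Subtype.ext
  funext l
  apply Subtype.ext
  funext p
  have h2 := h1 p l
  simp only [c2c_ker, LinearMap.coe_mk, AddHom.coe_mk] at h2
  rw [dif_pos l.2] at h2
  exact h2

theorem c2c_dimA [Module.Finite F D] (Q : Finset K → Submodule F D) (P Λ : Finset (Finset K)) :
    ∑ l ∈ Λ, Module.finrank F (c2c_RelA Q (P.filter (fun p => p ⊂ l))) ≤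
      Module.finrank F (c2c_RelA Q (P.filter (fun p => ∃ l ∈ Λ, p ⊂ l))) +
        Module.finrank F (c2c_SolA Q P Λ) := by
  have h1 := LinearMap.finrank_range_add_finrank_ker (c2c_map Q P Λ)
  rw [Module.finrank_pi_fintype] at h1
  rw [← Finset.sum_coe_sort Λ, ← h1]
  exact add_le_add (Submodule.finrank_mono (c2c_range Q P Λ))
    (LinearMap.finrank_le_finrank_of_injective (c2c_ker_inj Q P Λ))

end abs

theorem c2c_dim (G₀ G₁ : Finset K) (Λ : Finset (Finset K)) :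
    ∑ l ∈ Λ, Module.finrank F (Rel L G₀ ((pts L e G₀ G₁).filter (fun p => p ⊂ l))) ≤
      Module.finrank F (Rel L G₀ ((pts L e G₀ G₁).filter (fun p => ∃ l ∈ Λ, p ⊂ l))) +
        Module.finrank F (Sol L e G₀ G₁ Λ) :=
  c2c_dimA (D := Module.Dual F (van L G₀)) (Qs L G₀) (pts L e G₀ G₁) Λ

theorem c2c_sum (P Λ : Finset (Finset K)) :
    ∑ p ∈ P.filter (fun p => ∃ l ∈ Λ, p ⊂ l), (Λ.filter fun l => p ⊂ l).card =
      ∑ l ∈ Λ, (P.filter (fun p => p ⊂ l)).card := by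
  simp only [Finset.card_filter]
  rw [Finset.sum_comm]
  refine Finset.sum_congr rfl (fun l hl => ?_)
  refine Finset.sum_subset (Finset.filter_subset _ _) ?_
  intro p hp hp'
  rw [if_neg]
  intro h
  exact hp' (Finset.mem_filter.2 ⟨hp, l, hl, h⟩)

/-- (4.1) COUNT -/
theorem count (hd : Dense L e) {G₀ G₁ : Finset K} (hG₀ : IsFlat L e G₀) (hG₁ : IsFlat L e G₁)
    (h01 : G₀ ⊂ G₁) (hn : nn L e G₁ = nn L e G₀ + 3) (Λ : Finset (Finset K))
    (hΛ : Λ ⊆ lns L e G₀ G₁) (h2 : 2 ≤ Λ.card) :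
    ∑ p ∈ (pts L e G₀ G₁).filter (fun p => ∃ l ∈ Λ, p ⊂ l),
        (((Λ.filter fun l => p ⊂ l).card : ℤ) - 1) ≤
      2 * Λ.card + e * Module.finrank F (Sol L e G₀ G₁ Λ) - 3 := by
  have hpos : 2 ≤ e := hd.two_le
  -- the union
  have hU : ((pts L e G₀ G₁).filter (fun p => ∃ l ∈ Λ, p ⊂ l)).biUnion id = Λ.biUnion id := by
    ext y
    simp only [Finset.mem_biUnion, Finset.mem_filter, id]
    constructor
    · rintro ⟨p, ⟨_, l, hl, hpl⟩, hy⟩
      exact ⟨l, hl, hpl.1 hy⟩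
    · rintro ⟨l, hl, hy⟩
      have := hy
      rw [← c2c_biUnion hG₀ (hΛ hl)] at this
      simp only [Finset.mem_biUnion, Finset.mem_filter, id] at this
      obtain ⟨p, ⟨hp, hpl⟩, hyp⟩ := this
      exact ⟨p, ⟨hp, l, hl, hpl⟩, hyp⟩
  obtain ⟨l, hl, l', hl', hne⟩ := Finset.one_lt_card.1 h2
  have hne0 : ((pts L e G₀ G₁).filter (fun p => ∃ l ∈ Λ, p ⊂ l)).Nonempty := by
    obtain ⟨p, hp⟩ := c2c_nonempty hG₀ (hΛ hl)
    rw [Finset.mem_filter] at hp
    exact ⟨p, Finset.mem_filter.2 ⟨hp.1, l, hl, hp.2⟩⟩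
  have hnU : nn L e G₀ + 3 ≤ nn L e (Λ.biUnion id) := by
    obtain ⟨h1, h3, h4, h5⟩ := c2c_mem_lns.1 (hΛ hl)
    obtain ⟨h1', h3', h4', h5'⟩ := c2c_mem_lns.1 (hΛ hl')
    have h6 : l ⊂ Λ.biUnion id := by
      refine Finset.ssubset_iff_subset_ne.2 ⟨?_, ?_⟩
      · exact Finset.subset_biUnion_of_mem id hl
      · intro h7
        have h8 : l' ⊆ l := by
          rw [h7]
          exact Finset.subset_biUnion_of_mem id hl'
        have h9 : l' ⊂ l := Finset.ssubset_iff_subset_ne.2 ⟨h8, fun h => hne h.symm⟩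
        have := h1' l h9
        omega
    have := h1 _ h6
    omega
  have hcU := card_sub_Rel hd hG₀ (G₁ := G₁)
    ((pts L e G₀ G₁).filter (fun p => ∃ l ∈ Λ, p ⊂ l)) (Finset.filter_subset _ _) hne0
  rw [hU] at hcU
  have hcl : ∀ l ∈ Λ, (((pts L e G₀ G₁).filter (fun p => p ⊂ l)).card : ℤ) =
      e * Module.finrank F (Rel L G₀ ((pts L e G₀ G₁).filter (fun p => p ⊂ l))) + 2 := by
    intro l hl
    have h1 := card_sub_Rel hd hG₀ (G₁ := G₁)
      ((pts L e G₀ G₁).filter (fun p => p ⊂ l)) (Finset.filter_subset _ _)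
      (c2c_nonempty hG₀ (hΛ hl))
    rw [c2c_biUnion hG₀ (hΛ hl), (c2c_mem_lns.1 (hΛ hl)).2.2.2] at h1
    linarith
  have hdim := c2c_dim (L := L) (e := e) G₀ G₁ Λ
  have hsum := c2c_sum (pts L e G₀ G₁) Λ
  have hsum' : (∑ p ∈ (pts L e G₀ G₁).filter (fun p => ∃ l ∈ Λ, p ⊂ l),
      ((Λ.filter fun l => p ⊂ l).card : ℤ)) =
      e * (∑ l ∈ Λ, Module.finrank F (Rel L G₀ ((pts L e G₀ G₁).filter (fun p => p ⊂ l))) : ℕ) +
        2 * Λ.card := by
    have h3 : (∑ p ∈ (pts L e G₀ G₁).filter (fun p => ∃ l ∈ Λ, p ⊂ l),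
      ((Λ.filter fun l => p ⊂ l).card : ℤ)) =
        ∑ l ∈ Λ, (((pts L e G₀ G₁).filter (fun p => p ⊂ l)).card : ℤ) := by
      exact_mod_cast hsum
    rw [h3, Finset.sum_congr rfl hcl, Finset.sum_add_distrib, ← Finset.mul_sum]
    push_cast
    simp
    ring
  rw [Finset.sum_sub_distrib, hsum', Finset.sum_const, nsmul_eq_mul, mul_one]
  have h5 : (e : ℤ) * (∑ l ∈ Λ, Module.finrank F
      (Rel L G₀ ((pts L e G₀ G₁).filter (fun p => p ⊂ l))) : ℕ) ≤
      e * (Module.finrank F (Rel L G₀ ((pts L e G₀ G₁).filter (fun p => ∃ l ∈ Λ, p ⊂ l))) +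
        Module.finrank F (Sol L e G₀ G₁ Λ)) := by
    refine mul_le_mul_of_nonneg_left ?_ (by positivity)
    exact_mod_cast hdim
  linarith [hcU, hnU, h5]

theorem c2d_count (P Λ : Finset (Finset K)) (I : Finset K → Finset (Finset K))
    (hI : ∀ l ∈ Λ, I l ⊆ P.filter (fun p => p ⊂ l))
    (hI2 : ∀ l ∈ Λ, ∀ p ∈ I l, ∃ l' ∈ Λ, l' ≠ l ∧ p ⊂ l') :
    ∑ l ∈ Λ, ((I l).card : ℤ) ≤
      2 * ∑ p ∈ P.filter (fun p => ∃ l ∈ Λ, p ⊂ l), (((Λ.filter fun l => p ⊂ l).card : ℤ) - 1) := by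
  have h1 : ∑ l ∈ Λ, ((I l).card : ℤ) =
      ∑ p ∈ P.filter (fun p => ∃ l ∈ Λ, p ⊂ l), ((Λ.filter fun l => p ∈ I l).card : ℤ) := by
    have h2 : ∑ l ∈ Λ, (I l).card =
      ∑ p ∈ P.filter (fun p => ∃ l ∈ Λ, p ⊂ l), (Λ.filter fun l => p ∈ I l).card := by
      have h3 : ∀ l ∈ Λ, (I l).card =
          ∑ p ∈ P.filter (fun p => ∃ l ∈ Λ, p ⊂ l), if p ∈ I l then 1 else 0 := by
        intro l hl
        rw [← Finset.card_filter]
        congr 1
        ext p
        simp only [Finset.mem_filter]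
        constructor
        · intro hp
          have := Finset.mem_filter.1 (hI l hl hp)
          exact ⟨⟨this.1, l, hl, this.2⟩, hp⟩
        · exact fun h => h.2
      rw [Finset.sum_congr rfl h3, Finset.sum_comm]
      refine Finset.sum_congr rfl (fun p _ => ?_)
      rw [Finset.card_filter]
    exact_mod_cast h2
  rw [h1, Finset.mul_sum]
  refine Finset.sum_le_sum (fun p hp => ?_)
  obtain ⟨hpP, l0, hl0, hpl0⟩ := Finset.mem_filter.1 hp
  have hsub : (Λ.filter fun l => p ∈ I l) ⊆ (Λ.filter fun l => p ⊂ l) := by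
    intro l hl
    rw [Finset.mem_filter] at hl ⊢
    exact ⟨hl.1, (Finset.mem_filter.1 (hI l hl.1 hl.2)).2⟩
  have hle := Finset.card_le_card hsub
  by_cases hex : (Λ.filter fun l => p ∈ I l).Nonempty
  · obtain ⟨l, hl⟩ := hex
    obtain ⟨hlΛ, hlI⟩ := Finset.mem_filter.1 hl
    obtain ⟨l', hl', hne, hpl'⟩ := hI2 l hlΛ p hlI
    have h2 : 1 < (Λ.filter fun l => p ⊂ l).card := by
      rw [Finset.one_lt_card]
      exact ⟨l, hsub hl, l', Finset.mem_filter.2 ⟨hl', hpl'⟩, fun h => hne h.symm⟩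
    omega
  · rw [Finset.not_nonempty_iff_eq_empty] at hex
    rw [hex]
    have h2 : 0 < (Λ.filter fun l => p ⊂ l).card :=
      Finset.card_pos.2 ⟨l0, Finset.mem_filter.2 ⟨hl0, hpl0⟩⟩
    simp only [Finset.card_empty]
    push_cast
    omega

section abs2

variable {D : Type*} [AddCommGroup D] [Module F D]

theorem c2d_SolA_mono (Q : Finset K → Submodule F D) (P : Finset (Finset K))
    {Λ Λ' : Finset (Finset K)} (h : Λ ⊆ Λ') : c2c_SolA Q P Λ ≤ c2c_SolA Q P Λ' := by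
  rintro g ⟨h1, h2, h3, h4⟩
  refine ⟨h1, fun p l hpl => h2 p l (fun hh => hpl ⟨hh.1, h hh.2.1, hh.2.2⟩), h3, fun p => ?_⟩
  rw [← h4 p]
  symm
  refine Finset.sum_subset h ?_
  intro l _ hl
  exact h2 p l (fun hh => hl hh.2.1)

/-- minimal support -/
theorem c2d_min (Q : Finset K → Submodule F D) (P Λ₀ : Finset (Finset K))
    (hne : c2c_SolA Q P Λ₀ ≠ ⊥) :
    ∃ Λ : Finset (Finset K), Λ ⊆ Λ₀ ∧ c2c_SolA Q P Λ ≠ ⊥ ∧
      ∀ g ∈ c2c_SolA Q P Λ, g ≠ 0 → ∀ l ∈ Λ, ∃ p, g p l ≠ 0 := by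
  classical
  obtain ⟨Λ, hΛ, hmin⟩ := Finset.exists_min_image
    (Λ₀.powerset.filter (fun Λ => c2c_SolA Q P Λ ≠ ⊥)) Finset.card
    ⟨Λ₀, Finset.mem_filter.2 ⟨Finset.mem_powerset_self _, hne⟩⟩
  rw [Finset.mem_filter, Finset.mem_powerset] at hΛ
  refine ⟨Λ, hΛ.1, hΛ.2, ?_⟩
  intro g hg hg0 l hl
  by_contra hcon
  push Not at hcon
  have h1 : g ∈ c2c_SolA Q P (Λ.erase l) := by
    obtain ⟨h1, h2, h3, h4⟩ := hg
    refine ⟨h1, fun p l' hpl => ?_, h3, fun p => ?_⟩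
    · by_cases hll : l' = l
      · rw [hll]; exact hcon p
      · exact h2 p l' (fun hh => hpl ⟨hh.1, Finset.mem_erase.2 ⟨hll, hh.2.1⟩, hh.2.2⟩)
    · rw [← h4 p, ← Finset.add_sum_erase Λ _ hl, hcon p, zero_add]
  have h2 : c2c_SolA Q P (Λ.erase l) ≠ ⊥ := by
    intro h3
    rw [h3] at h1
    exact hg0 ((Submodule.mem_bot F).1 h1)
  have h3 := hmin (Λ.erase l) (Finset.mem_filter.2 ⟨Finset.mem_powerset.2
    ((Finset.erase_subset _ _).trans hΛ.1), h2⟩)
  rw [Finset.card_erase_of_mem hl] at h3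
  have h4 : 0 < Λ.card := Finset.card_pos.2 ⟨l, hl⟩
  omega

open Classical in
/-- points of the line `l` which are used by a solution -/
noncomputable def c2d_I (Q : Finset K → Submodule F D) (P Λ : Finset (Finset K)) (l : Finset K) :
    Finset (Finset K) :=
  P.filter (fun p => p ⊂ l ∧ ∃ g ∈ c2c_SolA Q P Λ, g p l ≠ 0)

theorem c2d_mem_I (Q : Finset K → Submodule F D) (P Λ : Finset (Finset K)) (l p : Finset K) :
    p ∈ c2d_I Q P Λ l ↔ p ∈ P ∧ p ⊂ l ∧ ∃ g ∈ c2c_SolA Q P Λ, g p l ≠ 0 := by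
  classical
  unfold c2d_I
  exact Finset.mem_filter

/-- evaluation at a line -/
noncomputable def c2d_ev (Q : Finset K → Submodule F D) (P Λ : Finset (Finset K))
    (l : Finset K) : c2c_SolA Q P Λ →ₗ[F] c2c_RelA Q (c2d_I Q P Λ l) where
  toFun g := ⟨fun p => (g : Finset K → Finset K → D) p l, by
    obtain ⟨g, hg⟩ := g
    have hg' := hg
    obtain ⟨h1, h2, h3, h4⟩ := hg
    have h5 : ∀ p ∉ c2d_I Q P Λ l, g p l = 0 := by
      intro p hp
      by_contra hne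
      apply hp
      have h6 : p ∈ P ∧ l ∈ Λ ∧ p ⊂ l := by
        by_contra h7
        exact hne (h2 p l h7)
      exact (c2d_mem_I _ _ _ _ _).2 ⟨h6.1, h6.2.2, g, hg', hne⟩
    refine ⟨fun p => h1 p l, h5, ?_⟩
    show ∑ p ∈ c2d_I Q P Λ l, g p l = 0
    rw [← h3 l]
    refine Finset.sum_subset ?_ (fun p _ hp => h5 p hp)
    intro p hp
    exact ((c2d_mem_I _ _ _ _ _).1 hp).1⟩
  map_add' a b := rfl
  map_smul' s a := rfl

theorem c2d_ev_inj (Q : Finset K → Submodule F D) (P Λ : Finset (Finset K))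
    (h : ∀ g ∈ c2c_SolA Q P Λ, g ≠ 0 → ∀ l ∈ Λ, ∃ p, g p l ≠ 0) {l : Finset K} (hl : l ∈ Λ) :
    Function.Injective (c2d_ev Q P Λ l) := by
  refine (injective_iff_map_eq_zero _).2 ?_
  intro g hg
  by_contra hne
  obtain ⟨p, hp⟩ := h g g.2 (fun h0 => hne (Subtype.ext h0)) l hl
  apply hp
  have : (c2d_ev Q P Λ l g : Finset K → D) p = 0 := by rw [hg]; rfl
  exact this

theorem c2d_fin [Module.Finite F D] (Q : Finset K → Submodule F D) (P Λ : Finset (Finset K))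
    (h : ∀ g ∈ c2c_SolA Q P Λ, g ≠ 0 → ∀ l ∈ Λ, ∃ p, g p l ≠ 0) {l : Finset K} (hl : l ∈ Λ) :
    Module.finrank F (c2c_SolA Q P Λ) ≤ Module.finrank F (c2c_RelA Q (c2d_I Q P Λ l)) :=
  LinearMap.finrank_le_finrank_of_injective (c2d_ev_inj Q P Λ h hl)

theorem c2d_pos [Module.Finite F D] (Q : Finset K → Submodule F D) (P Λ : Finset (Finset K))
    (hne : c2c_SolA Q P Λ ≠ ⊥) : 1 ≤ Module.finrank F (c2c_SolA Q P Λ) := by
  have h1 : Module.finrank F (c2c_SolA Q P Λ) ≠ 0 := by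
    intro h
    exact hne (Submodule.finrank_eq_zero.1 h)
  omega

/-- every used line has at least two used points -/
theorem c2d_two (Q : Finset K → Submodule F D) (P Λ : Finset (Finset K))
    (hne : c2c_SolA Q P Λ ≠ ⊥)
    (h : ∀ g ∈ c2c_SolA Q P Λ, g ≠ 0 → ∀ l ∈ Λ, ∃ p, g p l ≠ 0) {l : Finset K} (hl : l ∈ Λ) :
    2 ≤ (c2d_I Q P Λ l).card := by
  obtain ⟨g, hg, hg0⟩ := Submodule.exists_mem_ne_zero_of_ne_bot hne
  obtain ⟨p, hp⟩ := h g hg hg0 l hl
  have hpI : ∀ p, g p l ≠ 0 → p ∈ c2d_I Q P Λ l := by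
    intro p hp
    obtain ⟨h1, h2, h3, h4⟩ := id hg
    have h6 : p ∈ P ∧ l ∈ Λ ∧ p ⊂ l := by
      by_contra h7
      exact hp (h2 p l h7)
    exact (c2d_mem_I _ _ _ _ _).2 ⟨h6.1, h6.2.2, g, hg, hp⟩
  have h5 : ∃ p' ∈ P, p' ≠ p ∧ g p' l ≠ 0 := by
    by_contra hcon
    push Not at hcon
    obtain ⟨h1, h2, h3, h4⟩ := id hg
    have h6 := h3 l
    rw [Finset.sum_eq_single_of_mem p ((c2d_mem_I _ _ _ _ _).1 (hpI p hp)).1
      (fun b hb hbp => hcon b hb hbp)] at h6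
    exact hp h6
  obtain ⟨p', _, hpp', hp'⟩ := h5
  exact Finset.one_lt_card.2 ⟨p, hpI p hp, p', hpI p' hp', fun h => hpp' h.symm⟩

/-- every used point is on a second line -/
theorem c2d_other (Q : Finset K → Submodule F D) (P Λ : Finset (Finset K)) {l p : Finset K}
    (hl : l ∈ Λ) (hp : p ∈ c2d_I Q P Λ l) : ∃ l' ∈ Λ, l' ≠ l ∧ p ⊂ l' := by
  obtain ⟨h1, h2, g, hg, hne⟩ := (c2d_mem_I _ _ _ _ _).1 hp
  obtain ⟨g1, g2, g3, g4⟩ := hg
  by_contra hcon
  push Not at hcon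
  have h6 := g4 p
  rw [Finset.sum_eq_single_of_mem l hl] at h6
  · exact hne h6
  · intro b hb hbl
    exact g2 p b (fun hh => hcon b hb hbl hh.2.2)

end abs2

/-- (4.2) LD -/
theorem LD (hd : Dense L e) {G₀ G₁ : Finset K} (hG₀ : IsFlat L e G₀) (hG₁ : IsFlat L e G₁)
    (h01 : G₀ ⊂ G₁) (hn : nn L e G₁ = nn L e G₀ + 3) :
    Sol L e G₀ G₁ (lns L e G₀ G₁) = ⊥ := by
  by_contra hne
  have hne' : c2c_SolA (F := F) (D := Module.Dual F (van L G₀)) (Qs L G₀) (pts L e G₀ G₁)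
    (lns L e G₀ G₁) ≠ ⊥ := hne
  obtain ⟨Λ, hΛ, hΛne, hmin⟩ := c2d_min _ _ _ hne'
  have hδ : 1 ≤ Module.finrank F (Sol L e G₀ G₁ Λ) := c2d_pos _ _ _ hΛne
  have hpos : 2 ≤ e := hd.two_le
  have hI : ∀ l ∈ Λ, (e : ℤ) * Module.finrank F (Sol L e G₀ G₁ Λ) + 2 ≤
      (c2d_I (F := F) (D := Module.Dual F (van L G₀)) (Qs L G₀) (pts L e G₀ G₁) Λ l).card := by
    intro l hl
    have h1 := two_add_Rel_le hd hG₀ (G₁ := G₁)
      (c2d_I (F := F) (D := Module.Dual F (van L G₀)) (Qs L G₀) (pts L e G₀ G₁) Λ l)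
      (fun p hp => ((c2d_mem_I _ _ _ _ _).1 hp).1) (c2d_two _ _ _ hΛne hmin hl)
    have h2 : Module.finrank F (Sol L e G₀ G₁ Λ) ≤ Module.finrank F (Rel L G₀
      (c2d_I (F := F) (D := Module.Dual F (van L G₀)) (Qs L G₀) (pts L e G₀ G₁) Λ l)) :=
      c2d_fin _ _ _ hmin hl
    have h3 : (e : ℤ) * Module.finrank F (Sol L e G₀ G₁ Λ) ≤ e * Module.finrank F (Rel L G₀
      (c2d_I (F := F) (D := Module.Dual F (van L G₀)) (Qs L G₀) (pts L e G₀ G₁) Λ l)) := by
      exact_mod_cast Nat.mul_le_mul_left e h2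
    linarith
  have hΛcard : 2 ≤ Λ.card := by
    obtain ⟨g, hg, hg0⟩ := Submodule.exists_mem_ne_zero_of_ne_bot hΛne
    have hnonempty : Λ.Nonempty := by
      by_contra hemp
      rw [Finset.not_nonempty_iff_eq_empty] at hemp
      apply hg0
      funext p l
      refine hg.2.1 p l (fun hh => ?_)
      rw [hemp] at hh
      exact absurd hh.2.1 (Finset.notMem_empty _)
    obtain ⟨l, hl⟩ := hnonempty
    have h2 := c2d_two _ _ _ hΛne hmin hl
    obtain ⟨p, hp⟩ := Finset.card_pos.1 (lt_of_lt_of_le Nat.zero_lt_two h2)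
    obtain ⟨l', hl', hll, _⟩ := c2d_other _ _ _ hl hp
    exact Finset.one_lt_card.2 ⟨l, hl, l', hl', fun h => hll h.symm⟩
  have hc := count hd hG₀ hG₁ h01 hn Λ hΛ hΛcard
  have hs := c2d_count (pts L e G₀ G₁) Λ
    (c2d_I (F := F) (D := Module.Dual F (van L G₀)) (Qs L G₀) (pts L e G₀ G₁) Λ)
    (fun l _ p hp => Finset.mem_filter.2 ⟨((c2d_mem_I _ _ _ _ _).1 hp).1,
      ((c2d_mem_I _ _ _ _ _).1 hp).2.1⟩)
    (fun l hl p hp => c2d_other _ _ _ hl hp)
  have hs2 : (Λ.card : ℤ) * ((e : ℤ) * Module.finrank F (Sol L e G₀ G₁ Λ) + 2) ≤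
      ∑ l ∈ Λ, ((c2d_I (F := F) (D := Module.Dual F (van L G₀)) (Qs L G₀)
        (pts L e G₀ G₁) Λ l).card : ℤ) := by
    rw [← nsmul_eq_mul]
    exact Finset.card_nsmul_le_sum _ _ _ hI
  have hδ' : (1 : ℤ) ≤ (Module.finrank F (Sol L e G₀ G₁ Λ) : ℤ) := by exact_mod_cast hδ
  generalize (Module.finrank F (Sol L e G₀ G₁ Λ) : ℤ) = δ at *
  have he' : (2 : ℤ) ≤ (e : ℤ) := by exact_mod_cast hpos
  have hs' : (2 : ℤ) ≤ (Λ.card : ℤ) := by exact_mod_cast hΛcard
  have hx : (2 : ℤ) ≤ (e : ℤ) * δ := by nlinarith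
  nlinarith [mul_nonneg (sub_nonneg.2 hs') (sub_nonneg.2 hx)]

/-- (4.3) CL -/
theorem CL (hd : Dense L e) {G₀ G₁ : Finset K} (hG₀ : IsFlat L e G₀) (hG₁ : IsFlat L e G₁)
    (h01 : G₀ ⊂ G₁) (hn : nn L e G₁ = nn L e G₀ + 3) (Λ : Finset (Finset K))
    (hΛ : Λ ⊆ lns L e G₀ G₁) (hne : Λ.Nonempty) :
    ∃ l ∈ Λ, ((pts L e G₀ G₁).filter
      (fun p => p ⊂ l ∧ ∃ l' ∈ Λ, l' ≠ l ∧ p ⊂ l')).card ≤ 3 := by
  by_contra hcon
  push Not at hcon
  obtain ⟨l0, hl0⟩ := hne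
  have hΛcard : 2 ≤ Λ.card := by
    have h1 := hcon l0 hl0
    obtain ⟨p, hp⟩ := Finset.card_pos.1 (lt_trans (by norm_num) h1)
    obtain ⟨_, _, l', hl', hll, _⟩ := Finset.mem_filter.1 hp
    exact Finset.one_lt_card.2 ⟨l0, hl0, l', hl', fun h => hll h.symm⟩
  have h0 : c2c_SolA (F := F) (D := Module.Dual F (van L G₀)) (Qs L G₀) (pts L e G₀ G₁) Λ = ⊥ := by
    have h1 := c2d_SolA_mono (F := F) (D := Module.Dual F (van L G₀)) (Qs L G₀)
      (pts L e G₀ G₁) hΛ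
    have h2 : c2c_SolA (F := F) (D := Module.Dual F (van L G₀)) (Qs L G₀) (pts L e G₀ G₁)
      (lns L e G₀ G₁) = ⊥ := LD hd hG₀ hG₁ h01 hn
    rw [h2] at h1
    exact le_bot_iff.1 h1
  have hδ : Module.finrank F (Sol L e G₀ G₁ Λ) = 0 := by
    have : Module.finrank F (c2c_SolA (F := F) (D := Module.Dual F (van L G₀)) (Qs L G₀)
      (pts L e G₀ G₁) Λ) = 0 := by
      rw [h0]; exact finrank_bot F _
    exact this
  have hc := count hd hG₀ hG₁ h01 hn Λ hΛ hΛcard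
  rw [hδ] at hc
  have hs := c2d_count (pts L e G₀ G₁) Λ
    (fun l => (pts L e G₀ G₁).filter (fun p => p ⊂ l ∧ ∃ l' ∈ Λ, l' ≠ l ∧ p ⊂ l'))
    (fun l _ p hp => Finset.mem_filter.2 ⟨(Finset.mem_filter.1 hp).1,
      (Finset.mem_filter.1 hp).2.1⟩)
    (fun l _ p hp => (Finset.mem_filter.1 hp).2.2)
  have hs2 : (Λ.card : ℤ) * 4 ≤
      ∑ l ∈ Λ, (((pts L e G₀ G₁).filter
        (fun p => p ⊂ l ∧ ∃ l' ∈ Λ, l' ≠ l ∧ p ⊂ l')).card : ℤ) := by
    rw [← nsmul_eq_mul]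
    refine Finset.card_nsmul_le_sum _ _ _ (fun l hl => ?_)
    exact_mod_cast hcon l hl
  push_cast at hc
  linarith

/-- a full flag with two interior members: position of the members -/
theorem c2e_flag {G₀ G₁ p l : Finset K} (h : Flag L e G₁ G₀ [p, l]) :
    p ∈ pts L e G₀ G₁ ∧ l ∈ lns L e G₀ G₁ ∧ p ⊂ l := by
  obtain ⟨h0, hp, h0p, hnp, -, hl, hpl, hnl, -, h1, hl1, hn1⟩ := h
  refine ⟨?_, ?_, hpl⟩
  · simp only [pts, Finset.mem_filter, Finset.mem_univ, true_and]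
    exact ⟨hp, h0p, hpl.trans hl1, hnp⟩
  · simp only [lns, Finset.mem_filter, Finset.mem_univ, true_and]
    refine ⟨hl, h0p.trans hpl, hl1, ?_⟩
    rw [hnl, hnp]; ring

omit [Field F] [Fintype K] [DecidableEq K] in
theorem c2e_update {ι : Type*} [DecidableEq ι] (hu : ∀ i j : ι, i = j) (c : ι → K → F) (i : ι)
    (a : K → F) : Function.update c i a = fun _ => a := by
  funext j
  rw [hu j i, Function.update_self]

theorem F2 (hd : Dense L e) : Van L e 2 (fun _ => 1) 1 := by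
  intro ι _ _ hι G₀ G₁ g hn hg σ c hc
  by_cases hσ : Flag L e G₁ G₀ σ
  swap
  · exact hg.supp σ hσ c hc
  have hlen : (σ.length : ℤ) = 2 := by
    have h1 := hσ.nn_eq
    rw [hn] at h1
    push_cast at h1
    linarith
  have hlen' : σ.length = 2 := by exact_mod_cast hlen
  obtain ⟨p₀, l₀, rfl⟩ := List.length_eq_two.1 hlen'
  have hG₀ := hσ.isFlat_left
  have hG₁ := hσ.isFlat_right
  have h01 := hσ.ssubset
  have hn3 : nn L e G₁ = nn L e G₀ + 3 := by
    rw [hn]; push_cast; ring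
  have hu : ∀ i j : ι, i = j := by
    have := Fintype.card_le_one_iff.1 hι.le
    exact this
  obtain ⟨i₀⟩ : Nonempty ι := Fintype.card_pos_iff.1 (by rw [hι]; exact one_pos)
  -- the functionals
  have hadd : ∀ (σ : List (Finset K)) (a b : K → F), a ∈ van L G₀ → b ∈ van L G₀ →
      g σ (fun _ => a + b) = g σ (fun _ => a) + g σ (fun _ => b) := by
    intro σ a b ha hb
    have := (hg.ml σ).add (fun _ => a) i₀ a b (fun _ => ha) ha hb
    simpa only [c2e_update hu] using this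
  have hsmul : ∀ (σ : List (Finset K)) (s : F) (a : K → F), a ∈ van L G₀ →
      g σ (fun _ => s • a) = s * g σ (fun _ => a) := by
    intro σ s a ha
    have := (hg.ml σ).smul (fun _ => a) i₀ s a (fun _ => ha) ha
    simpa only [c2e_update hu] using this
  set γ : Finset K → Finset K → Module.Dual F (van L G₀) := fun p l =>
    { toFun := fun v => g [p, l] (fun _ => (v : K → F))
      map_add' := fun a b => by
        simpa using hadd [p, l] a b a.2 b.2
      map_smul' := fun s a => by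
        simpa using hsmul [p, l] s a a.2 } with hγ
  have hγa : ∀ p l (v : van L G₀), γ p l v = g [p, l] (fun _ => (v : K → F)) := fun p l v => rfl
  have hzero : ∀ p l, ¬ (p ∈ pts L e G₀ G₁ ∧ l ∈ lns L e G₀ G₁ ∧ p ⊂ l) → γ p l = 0 := by
    intro p l h
    ext v
    rw [hγa]
    exact hg.supp _ (fun hf => h (c2e_flag hf)) _ (fun _ => v.2)
  have hsol : γ ∈ Sol L e G₀ G₁ (lns L e G₀ G₁) := by
    refine ⟨?_, hzero, ?_, ?_⟩
    · intro p l v hv
      rw [hγa]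
      have h1 := hg.fil [] p [l]
      refine h1 (fun _ => (v : K → F)) (fun _ => v.2) ?_
      have : {i : ι | (fun _ : ι => (v : K → F)) i ∈ van L p}.ncard = 1 := by
        have hh : {i : ι | (fun _ : ι => (v : K → F)) i ∈ van L p} = Set.univ := by
          ext i; simp [hv]
        rw [hh, Set.ncard_univ, Nat.card_eq_fintype_card, hι]
      rw [this, hι]
    · intro l
      have h1 : ∑ p ∈ pts L e G₀ G₁, γ p l = ∑ p : Finset K, γ p l := by
        refine Finset.sum_subset (Finset.subset_univ _) ?_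
        intro p _ hp
        exact hzero p l (fun h => hp h.1)
      rw [h1]
      ext v
      rw [LinearMap.sum_apply, LinearMap.zero_apply]
      simp only [hγa]
      exact hg.sum [] [l] _ (fun _ => v.2)
    · intro p
      have h1 : ∑ l ∈ lns L e G₀ G₁, γ p l = ∑ l : Finset K, γ p l := by
        refine Finset.sum_subset (Finset.subset_univ _) ?_
        intro l _ hl
        exact hzero p l (fun h => hl h.2.1)
      rw [h1]
      ext v
      rw [LinearMap.sum_apply, LinearMap.zero_apply]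
      simp only [hγa]
      exact hg.sum [p] [] _ (fun _ => v.2)
  rw [LD hd hG₀ hG₁ h01 hn3, Submodule.mem_bot] at hsol
  have hc' : c = fun _ => c i₀ := by
    funext j
    rw [hu j i₀]
  have h2 : γ p₀ l₀ ⟨c i₀, hc i₀⟩ = 0 := by
    rw [hsol]; rfl
  rw [hγa] at h2
  rw [hc']
  exact h2

theorem F2' (hd : Dense L e) {l : ℕ} (hl : 2 ≤ l) : Van L e l (fun _ => 1) 1 :=
  Van.top_of_two hl (F2 hd)

end Pool.Agent.MP_d4f4ab_ag.W
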