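import Pool.Agent.MP_d4f4ab_ag.W.C2

/-! [WR-C3] the lemmas for (P) (WR_PROOF.md section 5). -/

open Finset

namespace Pool.Agent.MP_d4f4ab_ag.W

variable {F : Type*} [Field F] {K : Type*} [Fintype K] [DecidableEq K]
  {L : Submodule F (K → F)} {e : ℕ}

theorem c3a_sup (hd : Dense L e) (X Y : Finset K)
    (h : nn L e X + nn L e Y ≤ nn L e (X ∪ Y) + nn L e (X ∩ Y)) :
    van L X ⊔ van L Y = van L (X ∩ Y) := by
  have hle : van L X ⊔ van L Y ≤ van L (X ∩ Y) :=
    sup_le (van_anti Finset.inter_subset_left) (van_anti Finset.inter_subset_right)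
  apply Submodule.eq_of_le_of_finrank_le hle
  have h1 := Submodule.finrank_sup_add_finrank_inf_eq (van L X) (van L Y)
  rw [van_inf] at h1
  have h2 := qq_submod (L := L) X Y
  have h3 : ((X ∪ Y).card : ℤ) + (X ∩ Y).card = X.card + Y.card := by
    exact_mod_cast Finset.card_union_add_card_inter X Y
  have he : (2 : ℤ) ≤ (e : ℤ) := by exact_mod_cast hd.two_le
  have h4 : (e : ℤ) * (qq L X + qq L Y) ≤ e * (qq L (X ∪ Y) + qq L (X ∩ Y)) := by
    have h5 : ((e : ℤ) - 1) * (((X ∪ Y).card : ℤ) + (X ∩ Y).card) =
      ((e : ℤ) - 1) * (X.card + Y.card) := by rw [h3]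
    unfold nn at h
    linarith
  have h5 : qq L X + qq L Y ≤ qq L (X ∪ Y) + qq L (X ∩ Y) :=
    le_of_mul_le_mul_left h4 (by linarith)
  unfold qq at h5
  omega

/-- two points are independent: `L_p + L_{p'} = L_{G₀}` -/
theorem van_sup_van (hd : Dense L e) {G₀ p p' : Finset K} (hG₀ : IsFlat L e G₀)
    (hp : IsFlat L e p) (hp' : IsFlat L e p') (h : G₀ ⊆ p) (h' : G₀ ⊆ p')
    (hn : nn L e p = nn L e G₀ + 1) (hn' : nn L e p' = nn L e G₀ + 1) (hne : p ≠ p') :
    van L p ⊔ van L p' = van L G₀ := by
  have h1 : p ∩ p' = G₀ := hG₀.inter_eq hp hp' h h' hn hn' hne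
  have h2 : ¬ p' ⊆ p := by
    intro h3
    have h4 : p' ⊂ p := Finset.ssubset_iff_subset_ne.2 ⟨h3, fun h5 => hne h5.symm⟩
    have := hp' _ h4
    omega
  have h3 := hp.nn_union h2
  rw [c3a_sup hd p p' (by rw [h1]; omega), h1]

/-- `n(G ∪ p') = n(G) + 1` for a flat `G` above the point `p` and a point `p'` not in `G` -/
theorem nn_union_point (hd : Dense L e) {G₀ G p' : Finset K} (hG₀ : IsFlat L e G₀)
    (hG : IsFlat L e G) (hp' : IsFlat L e p') (h : G₀ ⊆ G) (h' : G₀ ⊆ p')
    (hn' : nn L e p' = nn L e G₀ + 1) (hne : ¬ p' ⊆ G) :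
    p' ∩ G = G₀ ∧ nn L e (G ∪ p') = nn L e G + 1 := by
  have h1 : p' ∩ G = G₀ := by
    by_contra hcon
    have h2 : G₀ ⊂ p' ∩ G :=
      Finset.ssubset_iff_subset_ne.2 ⟨Finset.subset_inter h' h, fun h => hcon h.symm⟩
    have h3 := hG₀ _ h2
    have h4 : p' ∩ G ⊂ p' := by
      refine Finset.ssubset_iff_subset_ne.2 ⟨Finset.inter_subset_left, ?_⟩
      intro h5
      exact hne (by rw [← h5]; exact Finset.inter_subset_right)
    have h5 := (hp'.inter hG) _ h4
    omega
  refine ⟨h1, ?_⟩
  have h2 := hG.nn_union hne
  have h3 := nn_submod (L := L) (e := e) G p'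
  rw [Finset.inter_comm G p', h1] at h3
  omega

/-- `L_p = L_G + L_{p ∪ p'}` -/
theorem van_eq_sup (hd : Dense L e) {G₀ G p p' : Finset K} (hG₀ : IsFlat L e G₀)
    (hG : IsFlat L e G) (hp : IsFlat L e p) (hp' : IsFlat L e p') (h : G₀ ⊆ p) (h' : G₀ ⊆ p')
    (hpG : p ⊆ G) (hn : nn L e p = nn L e G₀ + 1) (hn' : nn L e p' = nn L e G₀ + 1)
    (hne : ¬ p' ⊆ G) : van L p = van L G ⊔ van L (p ∪ p') := by
  have h1 := nn_union_point hd hG₀ hG hp' (h.trans hpG) h' hn' hne
  have hne2 : ¬ p' ⊆ p := fun h3 => hne (h3.trans hpG)
  have h2 := nn_union_point hd hG₀ hp hp' h h' hn' hne2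
  have h3 : G ∩ (p ∪ p') = p := by
    rw [Finset.inter_union_distrib_left, Finset.inter_comm G p', h1.1,
      Finset.inter_eq_right.2 hpG]
    exact Finset.union_eq_left.2 h
  have h4 : G ∪ (p ∪ p') = G ∪ p' := by
    rw [← Finset.union_assoc, Finset.union_eq_left.2 hpG]
  rw [c3a_sup hd G (p ∪ p') (by rw [h3, h4]; omega), h3]

/-- `IsML` as a `MultilinearMap` -/
noncomputable def c3a_toML {ι : Type*} [inst : DecidableEq ι] {U : Submodule F (K → F)}
    {T : (ι → K → F) → F} (hT : IsML U T) : MultilinearMap F (fun _ : ι => U) F where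
  toFun := fun c => T (fun i => (c i : K → F))
  map_update_add' := by
    intro hdec c i x y
    have hdd : hdec = inst := Subsingleton.elim _ _
    subst hdd
    have h := hT.add (fun i => (c i : K → F)) i x y (fun j => (c j).2) x.2 y.2
    have key : ∀ z : U, (fun j => ((Function.update c i z) j : K → F)) =
        Function.update (fun j => (c j : K → F)) i (z : K → F) := by
      intro z
      funext j
      by_cases hj : j = i
      · subst hj; simp
      · simp [Function.update_of_ne hj]
    rw [key, key, key]
    exact h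
  map_update_smul' := by
    intro hdec c i s x
    have hdd : hdec = inst := Subsingleton.elim _ _
    subst hdd
    have h := hT.smul (fun i => (c i : K → F)) i s x (fun j => (c j).2) x.2
    have key : ∀ z : U, (fun j => ((Function.update c i z) j : K → F)) =
        Function.update (fun j => (c j : K → F)) i (z : K → F) := by
      intro z
      funext j
      by_cases hj : j = i
      · subst hj; simp
      · simp [Function.update_of_ne hj]
    rw [key, key]
    exact h

theorem c3a_toML_apply {ι : Type*} [DecidableEq ι] {U : Submodule F (K → F)}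
    {T : (ι → K → F) → F} (hT : IsML U T) (c : ι → U) :
    c3a_toML hT c = T (fun i => (c i : K → F)) := rfl

/-- expansion of `T (a + b)` -/
theorem c3a_expand {ι : Type*} [Fintype ι] [DecidableEq ι] {U : Submodule F (K → F)}
    {T : (ι → K → F) → F} (hT : IsML U T) (a b : ι → K → F) (ha : ∀ i, a i ∈ U)
    (hb : ∀ i, b i ∈ U) :
    T (fun i => a i + b i) = ∑ s : Finset ι, T (fun i => if i ∈ s then a i else b i) := by
  have h := (c3a_toML hT).map_add_univ (fun i => (⟨a i, ha i⟩ : U)) (fun i => (⟨b i, hb i⟩ : U))
  rw [c3a_toML_apply] at h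
  have h1 : (fun i => (((fun i => (⟨a i, ha i⟩ : U)) + (fun i => (⟨b i, hb i⟩ : U))) i : K → F)) =
      fun i => a i + b i := by
    funext i
    rfl
  rw [h1] at h
  rw [h]
  apply Finset.sum_congr rfl
  intro s _
  rw [c3a_toML_apply]
  congr 1
  funext i
  by_cases hi : i ∈ s
  · simp [Finset.piecewise, hi]
  · simp [Finset.piecewise, hi]

/-- Lemma (Z) -/
theorem lemZ {ι : Type*} [Fintype ι] [DecidableEq ι] {G₀ p p' : Finset K}
    (hs : van L p ⊔ van L p' = van L G₀) {T : (ι → K → F) → F} (hT : IsML (van L G₀) T)
    {s s' : ℕ} (h : Fil L G₀ p s T) (h' : Fil L G₀ p' s' T) (hss : Fintype.card ι < s + s') :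
    ∀ c : ι → K → F, (∀ i, c i ∈ van L G₀) → T c = 0 := by
  intro c hc
  have h1 : ∀ i, ∃ a ∈ van L p, ∃ b ∈ van L p', a + b = c i := by
    intro i
    have h2 := hc i
    rw [← hs] at h2
    exact Submodule.mem_sup.1 h2
  choose a ha b hb hab using h1
  have hpU : van L p ≤ van L G₀ := by rw [← hs]; exact le_sup_left
  have hpU' : van L p' ≤ van L G₀ := by rw [← hs]; exact le_sup_right
  have h2 : c = fun i => a i + b i := by
    funext i
    exact (hab i).symm
  rw [h2, c3a_expand hT a b (fun i => hpU (ha i)) (fun i => hpU' (hb i))]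
  apply Finset.sum_eq_zero
  intro I _
  have hmem : ∀ i, (if i ∈ I then a i else b i) ∈ van L G₀ := by
    intro i
    split_ifs
    · exact hpU (ha i)
    · exact hpU' (hb i)
  have hcard : I.card + Iᶜ.card = Fintype.card ι := Finset.card_add_card_compl I
  have hc1 : I.card ≤ {i | (if i ∈ I then a i else b i) ∈ van L p}.ncard := by
    rw [← Set.ncard_coe_finset]
    apply Set.ncard_le_ncard _ (Set.toFinite _)
    intro i hi
    have hi' : i ∈ I := hi
    simp only [Set.mem_ofPred_eq, if_pos hi']
    exact ha i
  have hc2 : Iᶜ.card ≤ {i | (if i ∈ I then a i else b i) ∈ van L p'}.ncard := by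
    rw [← Set.ncard_coe_finset]
    apply Set.ncard_le_ncard _ (Set.toFinite _)
    intro i hi
    have hi' : i ∉ I := by
      have : i ∈ Iᶜ := hi
      exact Finset.mem_compl.1 this
    simp only [Set.mem_ofPred_eq, if_neg hi']
    exact hb i
  by_cases hI : Fintype.card ι + 1 ≤ s + I.card
  · exact h _ hmem (by omega)
  · exact h' _ hmem (by omega)

omit [Fintype K] [DecidableEq K] in
theorem c3b_replace {ι : Type*} [DecidableEq ι] {U : Submodule F (K → F)}
    {T : (ι → K → F) → F} (hT : IsML U T) {c c' : ι → K → F} (hc : ∀ i, c i ∈ U)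
    (hc' : ∀ i, c' i ∈ U) (S : Finset ι)
    (hz : ∀ i ∈ S, ∀ m : ι → K → F, (∀ j, j ≠ i → m j = c j ∨ (j ∈ S ∧ m j = c' j)) →
      m i = c i - c' i → T m = 0) :
    T (S.piecewise c' c) = T c := by
  suffices H : ∀ R : Finset ι, R ⊆ S → T (R.piecewise c' c) = T c from H S (Finset.Subset.refl S)
  intro R
  induction R using Finset.induction_on with
  | empty => intro _; simp
  | insert i R hi ih =>
    intro hR
    have hRS : R ⊆ S := fun j hj => hR (Finset.mem_insert_of_mem hj)
    rw [← ih hRS, Finset.piecewise_insert]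
    have hU : ∀ j, R.piecewise c' c j ∈ U := by
      intro j
      by_cases hj : j ∈ R
      · rw [Finset.piecewise_eq_of_mem _ _ _ hj]; exact hc' j
      · rw [Finset.piecewise_eq_of_notMem _ _ _ hj]; exact hc j
    have h1 : Function.update (R.piecewise c' c) i (c' i + (c i - c' i)) = R.piecewise c' c := by
      rw [add_sub_cancel]
      funext j
      by_cases hj : j = i
      · subst hj
        rw [Function.update_self, Finset.piecewise_eq_of_notMem _ _ _ hi]
      · rw [Function.update_of_ne hj]
    have h2 := hT.add (R.piecewise c' c) i (c' i) (c i - c' i) hU (hc' i) (U.sub_mem (hc i) (hc' i))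
    rw [h1] at h2
    rw [h2]
    have h3 : T (Function.update (R.piecewise c' c) i (c i - c' i)) = 0 := by
      apply hz i (hR (Finset.mem_insert_self i R))
      · intro j hj
        rw [Function.update_of_ne hj]
        by_cases hjR : j ∈ R
        · right
          exact ⟨hRS hjR, Finset.piecewise_eq_of_mem _ _ _ hjR⟩
        · left
          exact Finset.piecewise_eq_of_notMem _ _ _ hjR
      · rw [Function.update_self]
    rw [h3, add_zero]

theorem c3b_ncard {ι : Type*} [Fintype ι] {s : Finset ι} {P : ι → Prop} (h : ∀ i ∈ s, P i) :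
    s.card ≤ {i | P i}.ncard := by
  rw [← Set.ncard_coe_finset]
  exact Set.ncard_le_ncard (fun i hi => h i hi) (Set.toFinite _)

/-- KILL: `A p'` (`p' ∈ I`) with `t` slots in `p` and `t` slots in `p'`, such that the sum vanishes when `t` slots are in
`L_G`, `G` a flat above `p` not above any `p' ∈ I`. Then all `A p' = 0`. -/
theorem kill (hd : Dense L e) {G₀ G p : Finset K} (hG₀ : IsFlat L e G₀) (hG : IsFlat L e G)
    (hp : IsFlat L e p) (h : G₀ ⊆ p) (hpG : p ⊆ G) (hn : nn L e p = nn L e G₀ + 1)
    (I : Finset (Finset K)) (hI : ∀ p' ∈ I, IsFlat L e p' ∧ G₀ ⊆ p' ∧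
      nn L e p' = nn L e G₀ + 1 ∧ ¬ p' ⊆ G)
    {ι : Type*} [Fintype ι] [DecidableEq ι] {t : ℕ} (ht : 2 ≤ t) (hι : Fintype.card ι = 2 * t)
    (A : Finset K → (ι → K → F) → F) (hA : ∀ p' ∈ I, IsML (van L G₀) (A p'))
    (hAp : ∀ p' ∈ I, Fil L G₀ p t (A p')) (hAp' : ∀ p' ∈ I, Fil L G₀ p' t (A p'))
    (hsum : ∀ c : ι → K → F, (∀ i, c i ∈ van L G₀) → t ≤ {i | c i ∈ van L G}.ncard →
      ∑ p' ∈ I, A p' c = 0) :
    ∀ p' ∈ I, ∀ c : ι → K → F, (∀ i, c i ∈ van L G₀) → A p' c = 0 := by
  classical
  have hG₀G : G₀ ⊆ G := h.trans hpG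
  have hvp : van L p ≤ van L G₀ := van_anti h
  have hvG : van L G ≤ van L p := van_anti hpG
  have hsup : ∀ p' ∈ I, van L p ⊔ van L p' = van L G₀ := by
    intro p' hp'
    obtain ⟨h1, h2, h3, h4⟩ := hI p' hp'
    exact van_sup_van hd hG₀ hp h1 h h2 hn h3 (fun hh => h4 (hh ▸ hpG))
  -- (b)
  have hb : ∀ p' ∈ I, ∀ J : Finset ι, J.card = t → ∀ c : ι → K → F, (∀ i, c i ∈ van L G₀) →
      (∀ j ∈ J, c j ∈ van L p) → (∃ j ∈ J, c j ∈ van L p') → A p' c = 0 := by
    rintro p' hp' J hJ c hc hcJ ⟨j₀, hj₀, hcj₀⟩
    have hdec : ∀ i, ∃ b ∈ van L p', c i - b ∈ van L p := by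
      intro i
      have h1 : c i ∈ van L p ⊔ van L p' := by rw [hsup p' hp']; exact hc i
      obtain ⟨a, ha, b, hb, hab⟩ := Submodule.mem_sup.1 h1
      exact ⟨b, hb, by rw [← hab, add_sub_cancel_right]; exact ha⟩
    choose b hb hcb using hdec
    have hvp' : van L p' ≤ van L G₀ := van_anti (hI p' hp').2.1
    have hbU : ∀ i, b i ∈ van L G₀ := fun i => hvp' (hb i)
    have h1 := c3b_replace (hA p' hp') hc hbU (univ \ J) (by
      intro i hi m hm hmi
      rw [Finset.mem_sdiff] at hi
      apply hAp p' hp' m
      · intro j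
        by_cases hj : j = i
        · rw [hj, hmi]; exact hvp (hcb i)
        · rcases hm j hj with h | ⟨_, h⟩
          · rw [h]; exact hc j
          · rw [h]; exact hbU j
      · have h2 : (insert i J).card ≤ {i | m i ∈ van L p}.ncard := by
          apply c3b_ncard
          intro j hj
          rw [Finset.mem_insert] at hj
          rcases hj with rfl | hj
          · rw [hmi]; exact hcb j
          · rcases hm j (fun hh => hi.2 (hh ▸ hj)) with h | ⟨h', _⟩
            · rw [h]; exact hcJ j hj
            · exact absurd hj (Finset.mem_sdiff.1 h').2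
        rw [Finset.card_insert_of_notMem hi.2] at h2
        omega)
    rw [← h1]
    apply hAp' p' hp'
    · intro i
      by_cases hi : i ∈ univ \ J
      · rw [Finset.piecewise_eq_of_mem _ _ _ hi]; exact hbU i
      · rw [Finset.piecewise_eq_of_notMem _ _ _ hi]; exact hc i
    · have h2 : (insert j₀ (univ \ J)).card ≤
          {i | (univ \ J).piecewise b c i ∈ van L p'}.ncard := by
        apply c3b_ncard
        intro j hj
        rw [Finset.mem_insert] at hj
        by_cases hjJ : j ∈ univ \ J
        · rw [Finset.piecewise_eq_of_mem _ _ _ hjJ]; exact hb j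
        · rcases hj with rfl | hj
          · rw [Finset.piecewise_eq_of_notMem _ _ _ hjJ]; exact hcj₀
          · exact absurd hj hjJ
      rw [Finset.card_insert_of_notMem (fun hh => (Finset.mem_sdiff.1 hh).2 hj₀),
        Finset.card_sdiff_of_subset (Finset.subset_univ J), Finset.card_univ] at h2
      omega
  -- (c)
  have hc1 : ∀ p' ∈ I, ∀ J : Finset ι, J.card = t → ∀ c : ι → K → F, (∀ i, c i ∈ van L G₀) →
      (∀ j ∈ J, c j ∈ van L G) → A p' c = 0 := by
    intro p' hp' J hJ c hc hcJ
    set ex : ({j // j ∈ J} → K → F) → (ι → K → F) := fun x j =>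
      if hj : j ∈ J then x ⟨j, hj⟩ else c j with hex
    have hexU : ∀ x : {j // j ∈ J} → K → F, (∀ i, x i ∈ van L G) → ∀ i, ex x i ∈ van L G₀ := by
      intro x hx i
      rw [hex]
      by_cases hi : i ∈ J
      · simp only [dif_pos hi]; exact van_anti hG₀G (hx _)
      · simp only [dif_neg hi]; exact hc i
    have hexm : ∀ (x : {j // j ∈ J} → K → F) (j : ι) (hj : j ∈ J), ex x j = x ⟨j, hj⟩ := by
      intro x j hj
      rw [hex]
      simp only [dif_pos hj]
    have hexu : ∀ (x : {j // j ∈ J} → K → F) (i : {j // j ∈ J}) (a : K → F),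
        ex (Function.update x i a) = Function.update (ex x) i.1 a := by
      intro x i a
      funext j
      by_cases hj : j ∈ J
      · rw [hexm _ j hj]
        by_cases hji : j = i.1
        · subst hji
          rw [Function.update_self, Function.update_self]
        · rw [Function.update_of_ne hji, hexm _ j hj, Function.update_of_ne]
          intro hh
          exact hji (congrArg Subtype.val hh)
      · have hji : j ≠ i.1 := fun hh => hj (hh ▸ i.2)
        rw [Function.update_of_ne hji]
        simp only [hex, dif_neg hj]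
    have hcard : Fintype.card {j // j ∈ J} = t := by rw [Fintype.card_coe, hJ]
    have key := iso_multi hd hG I (by
        intro q hq q' hq' hne
        obtain ⟨h1, h2, h3, _⟩ := hI q hq
        obtain ⟨h1', h2', h3', _⟩ := hI q' hq'
        rw [hG₀.inter_eq h1 h1' h2 h2' h3 h3' hne]
        exact hG₀G) (fun q hq => (nn_union_point hd hG₀ hG (hI q hq).1 hG₀G (hI q hq).2.1
          (hI q hq).2.2.1 (hI q hq).2.2.2).2) (ι := {j // j ∈ J}) (by rw [hcard]; exact ht)
      (fun q x => A q (ex x)) (by
        intro q hq
        constructor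
        · intro x i a b hx ha hb
          rw [hexu, hexu, hexu]
          exact (hA q hq).add _ _ _ _ (hexU x hx) (van_anti hG₀G ha) (van_anti hG₀G hb)
        · intro x i s a hx ha
          rw [hexu, hexu]
          exact (hA q hq).smul _ _ _ _ (hexU x hx) (van_anti hG₀G ha)) (by
        rintro q hq x hx ⟨i, hi⟩
        refine hb q hq J hJ (ex x) (hexU x hx) (fun j hj => ?_) ⟨i.1, i.2, ?_⟩
        · rw [hexm x j hj]; exact hvG (hx _)
        · rw [hexm x i.1 i.2]; exact van_anti Finset.subset_union_right hi) (by
        intro x hx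
        refine hsum (ex x) (hexU x hx) ?_
        rw [← hJ]
        apply c3b_ncard
        intro j hj
        rw [hexm x j hj]
        exact hx _) p' hp' (fun j => c j.1) (fun j => hcJ j.1 j.2)
    have he : ex (fun j => c j.1) = c := by
      funext j
      by_cases hj : j ∈ J
      · exact hexm (fun j => c j.1) j hj
      · simp only [hex, dif_neg hj]
    rw [he] at key
    exact key
  -- step 2
  have hc2 : ∀ p' ∈ I, ∀ J : Finset ι, J.card = t → ∀ c : ι → K → F, (∀ i, c i ∈ van L G₀) →
      (∀ j ∈ J, c j ∈ van L p) → A p' c = 0 := by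
    intro p' hp' J hJ c hc hcJ
    obtain ⟨g1, g2, g3, g4⟩ := hI p' hp'
    have hsup2 := van_eq_sup hd hG₀ hG hp g1 h g2 hpG hn g3 g4
    have hdec : ∀ i, ∃ a ∈ van L G₀, (i ∈ J → a ∈ van L G) ∧
        (i ∈ J → c i - a ∈ van L (p ∪ p')) := by
      intro i
      by_cases hi : i ∈ J
      · have h1 : c i ∈ van L G ⊔ van L (p ∪ p') := by rw [← hsup2]; exact hcJ i hi
        obtain ⟨a, ha, b, hb, hab⟩ := Submodule.mem_sup.1 h1
        exact ⟨a, van_anti hG₀G ha, fun _ => ha, fun _ => by
          rw [← hab, add_sub_cancel_left]; exact hb⟩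
      · exact ⟨c i, hc i, fun hh => absurd hh hi, fun hh => absurd hh hi⟩
    choose a haU haG hca using hdec
    have h1 := c3b_replace (hA p' hp') hc haU J (by
      intro i hi m hm hmi
      refine hb p' hp' J hJ m ?_ ?_ ⟨i, hi, ?_⟩
      · intro j
        by_cases hj : j = i
        · rw [hj, hmi]; exact (van L G₀).sub_mem (hc i) (haU i)
        · rcases hm j hj with h | ⟨_, h⟩
          · rw [h]; exact hc j
          · rw [h]; exact haU j
      · intro j hjJ
        by_cases hj : j = i
        · rw [hj, hmi]; exact van_anti Finset.subset_union_left (hca i hi)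
        · rcases hm j hj with h | ⟨_, h⟩
          · rw [h]; exact hcJ j hjJ
          · rw [h]; exact hvG (haG j hjJ)
      · rw [hmi]; exact van_anti Finset.subset_union_right (hca i hi))
    rw [← h1]
    refine hc1 p' hp' J hJ _ ?_ ?_
    · intro i
      by_cases hi : i ∈ J
      · rw [Finset.piecewise_eq_of_mem _ _ _ hi]; exact haU i
      · rw [Finset.piecewise_eq_of_notMem _ _ _ hi]; exact hc i
    · intro j hj
      rw [Finset.piecewise_eq_of_mem _ _ _ hj]; exact haG j hj
  -- step 3
  intro p' hp'
  refine lemZ (hsup p' hp') (hA p' hp') (s := t + 1) (s' := t) ?_ (hAp' p' hp') (by omega)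
  intro c hc hcard
  have h1 : t ≤ {i | c i ∈ van L p}.ncard := by omega
  have h2 : t ≤ (univ.filter fun i => c i ∈ van L p).card := by
    rw [← Set.ncard_coe_finset]
    simpa using h1
  obtain ⟨J, hJ1, hJ2⟩ := Finset.exists_subset_card_eq h2
  exact hc2 p' hp' J hJ2 c hc fun j hj => (Finset.mem_filter.1 (hJ1 hj)).2

/-- a functional vanishing on `L_{G₀ ∪ ⋃ J}` is a sum of functionals vanishing on the `L_p` -/
theorem c3c_decomp {G₀ : Finset K} (J : Finset (Finset K)) :
    ∀ f ∈ Qs L G₀ (G₀ ∪ J.biUnion id), ∃ r : Finset K → Module.Dual F (van L G₀),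
      (∀ p, r p ∈ Qs L G₀ p) ∧ (∀ p ∉ J, r p = 0) ∧ ∑ p ∈ J, r p = f := by
  classical
  induction J using Finset.induction_on with
  | empty =>
    intro f hf
    refine ⟨fun _ => 0, fun p => Submodule.zero_mem _, fun _ _ => rfl, ?_⟩
    have : f = 0 := by
      ext c
      apply hf c
      have hc := c.2
      refine ⟨hc.1, fun y hy => ?_⟩
      simp only [Finset.biUnion_empty, Finset.union_empty] at hy
      exact hc.2 y hy
    simp [this]
  | insert a J ha ih =>
    intro f hf
    have e1 : G₀ ∪ (insert a J).biUnion id = a ∪ (G₀ ∪ J.biUnion id) := by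
      rw [Finset.biUnion_insert]
      simp only [id]
      rw [Finset.union_left_comm]
    rw [e1, Qs_union] at hf
    obtain ⟨u, hu, v, hv, huv⟩ := Submodule.mem_sup.1 hf
    obtain ⟨r, h1, h2, h3⟩ := ih v hv
    refine ⟨Function.update r a u, fun p => ?_, fun p hp => ?_, ?_⟩
    · by_cases hpa : p = a
      · subst hpa
        simpa using hu
      · simpa [Function.update_of_ne hpa] using h1 p
    · have hpa : p ≠ a := fun h => hp (by simp [h])
      rw [Function.update_of_ne hpa]
      exact h2 p (fun h => hp (Finset.mem_insert_of_mem h))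
    · rw [Finset.sum_insert ha, Function.update_self,
        Finset.sum_congr rfl (fun p hp => Function.update_of_ne
          (show p ≠ a from fun h => ha (by rw [← h]; exact hp)) u r), h3, huv]

/-- projections for independent points -/
theorem exists_proj {G₀ : Finset K} (I : Finset (Finset K)) (hI : ∀ p ∈ I, G₀ ⊆ p)
    (hR : Rel L G₀ I = ⊥) :
    ∃ π : Finset K → ((K → F) →ₗ[F] (K → F)),
      (∀ p ∈ I, ∀ c ∈ van L G₀, π p c ∈ van L G₀) ∧
      (∀ p ∈ I, ∀ p' ∈ I, p ≠ p' → ∀ c ∈ van L G₀, π p c ∈ van L p') ∧
      (∀ p ∈ I, ∀ c ∈ van L G₀, c - π p c ∈ van L p) := by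
  classical
  have key : ∀ p ∈ I, ∃ π : (K → F) →ₗ[F] (K → F), (∀ c ∈ van L G₀, π c ∈ van L G₀) ∧
      (∀ p' ∈ I, p ≠ p' → ∀ c ∈ van L G₀, π c ∈ van L p') ∧
      (∀ c ∈ van L G₀, c - π c ∈ van L p) := by
    intro p hp
    set Y := G₀ ∪ (I.erase p).biUnion id with hY
    set P : Submodule F (van L G₀) := (van L p).comap (van L G₀).subtype with hP
    set W : Submodule F (van L G₀) := (van L Y).comap (van L G₀).subtype with hW
    have htop : W ⊔ P = ⊤ := by
      by_contra hne
      obtain ⟨f, hf0, hf⟩ := Submodule.exists_le_ker_of_lt_top (W ⊔ P) (lt_top_iff_ne_top.2 hne)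
      have hfP : f ∈ Qs L G₀ p := by
        intro c hc
        exact hf (Submodule.mem_sup_right (show c ∈ P from hc))
      have hfW : f ∈ Qs L G₀ Y := by
        intro c hc
        exact hf (Submodule.mem_sup_left (show c ∈ W from hc))
      obtain ⟨r, h1, h2, h3⟩ := c3c_decomp (I.erase p) f hfW
      have hmem : Function.update r p (-f) ∈ Rel L G₀ I := by
        refine ⟨fun q => ?_, fun q hq => ?_, ?_⟩
        · by_cases hqp : q = p
          · subst hqp
            rw [Function.update_self]
            exact Submodule.neg_mem _ hfP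
          · rw [Function.update_of_ne hqp]
            exact h1 q
        · have hqp : q ≠ p := fun h => hq (h ▸ hp)
          rw [Function.update_of_ne hqp]
          exact h2 q (fun h => hq (Finset.mem_of_mem_erase h))
        · rw [← Finset.add_sum_erase I _ hp, Function.update_self,
            Finset.sum_congr rfl (fun q hq => Function.update_of_ne (Finset.ne_of_mem_erase hq) _ r),
            h3, neg_add_cancel]
      rw [hR, Submodule.mem_bot] at hmem
      have := congrFun hmem p
      rw [Function.update_self] at this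
      exact hf0 (by simpa using this)
    have hsurj : LinearMap.range (LinearMap.coprod W.subtype P.subtype) = ⊤ := by
      rw [LinearMap.range_coprod, Submodule.range_subtype, Submodule.range_subtype, htop]
    obtain ⟨s, hs⟩ := LinearMap.exists_rightInverse_of_surjective _ hsurj
    obtain ⟨g, hg⟩ := LinearMap.exists_extend
      ((van L G₀).subtype ∘ₗ W.subtype ∘ₗ (LinearMap.fst F W P) ∘ₗ s)
    have hgc : ∀ c (hc : c ∈ van L G₀), g c = (((s ⟨c, hc⟩).1 : van L G₀) : K → F) := by
      intro c hc
      have := LinearMap.congr_fun hg ⟨c, hc⟩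
      simpa using this
    have hsc : ∀ c (hc : c ∈ van L G₀),
        c = (((s ⟨c, hc⟩).1 : van L G₀) : K → F) + (((s ⟨c, hc⟩).2 : van L G₀) : K → F) := by
      intro c hc
      have := LinearMap.congr_fun hs ⟨c, hc⟩
      have h2 := congrArg (fun z : van L G₀ => (z : K → F)) this
      simpa using h2.symm
    refine ⟨g, fun c hc => ?_, fun p' hp' hne c hc => ?_, fun c hc => ?_⟩
    · rw [hgc c hc]
      exact ((s ⟨c, hc⟩).1 : van L G₀).2
    · rw [hgc c hc]
      have h1 : (((s ⟨c, hc⟩).1 : van L G₀) : K → F) ∈ van L Y := (s ⟨c, hc⟩).1.2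
      refine ⟨h1.1, fun y hy => h1.2 y ?_⟩
      rw [hY]
      refine Finset.mem_union_right _ (Finset.mem_biUnion.2 ⟨p', ?_, hy⟩)
      exact Finset.mem_erase.2 ⟨hne.symm, hp'⟩
    · have h2 : (((s ⟨c, hc⟩).2 : van L G₀) : K → F) ∈ van L p := (s ⟨c, hc⟩).2.2
      have h3 : c - g c = (((s ⟨c, hc⟩).2 : van L G₀) : K → F) := by
        rw [hgc c hc]
        exact sub_eq_iff_eq_add'.2 (hsc c hc)
      rw [h3]
      exact h2
  choose! π h1 h2 h3 using key
  exact ⟨π, fun p hp => h1 p hp, fun p hp => h2 p hp, fun p hp => h3 p hp⟩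

/-- the bundled multilinear map on the subspace -/
def c3c_ml {ι : Type*} [dι : DecidableEq ι] {U : Submodule F (K → F)} {T : (ι → K → F) → F}
    (hT : IsML U T) : MultilinearMap F (fun _ : ι => U) F where
  toFun c := T (fun i => (c i : K → F))
  map_update_add' := by
    intro inst c i x y
    have hi : dι = inst := Subsingleton.elim _ _
    subst hi
    have hu : ∀ z : U, (fun j => ((Function.update c i z j : U) : K → F)) =
        Function.update (fun j => (c j : K → F)) i (z : K → F) := by
      intro z
      funext j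
      by_cases h : j = i
      · subst h; simp
      · simp [Function.update_of_ne h]
    rw [hu, hu, hu]
    exact hT.add _ i _ _ (fun j => (c j).2) x.2 y.2
  map_update_smul' := by
    intro inst c i s x
    have hi : dι = inst := Subsingleton.elim _ _
    subst hi
    have hu : ∀ z : U, (fun j => ((Function.update c i z j : U) : K → F)) =
        Function.update (fun j => (c j : K → F)) i (z : K → F) := by
      intro z
      funext j
      by_cases h : j = i
      · subst h; simp
      · simp [Function.update_of_ne h]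
    rw [hu, hu, smul_eq_mul]
    exact hT.smul _ i _ _ (fun j => (c j).2) x.2

/-- expansion of `T (∑ g)` -/
theorem c3c_expand {ι : Type*} [Fintype ι] [DecidableEq ι] {U : Submodule F (K → F)}
    {T : (ι → K → F) → F} (hT : IsML U T) {α : Type*} [Fintype α] (g : ι → α → K → F)
    (hg : ∀ i j, g i j ∈ U) :
    T (fun i => ∑ j, g i j) = ∑ r : ι → α, T (fun i => g i (r i)) := by
  classical
  have h := (c3c_ml hT).map_sum (fun i (j : α) => (⟨g i j, hg i j⟩ : U))
  have e1 : (c3c_ml hT) (fun i => ∑ j, (⟨g i j, hg i j⟩ : U)) = T (fun i => ∑ j, g i j) := by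
    show T _ = _
    congr 1
    funext i
    simp
  rw [← e1, h]
  rfl

/-- a zero argument -/
theorem c3c_zero {ι : Type*} [Fintype ι] [DecidableEq ι] {U : Submodule F (K → F)}
    {T : (ι → K → F) → F} (hT : IsML U T) (c : ι → K → F) (hc : ∀ i, c i ∈ U) (i : ι)
    (hi : c i = 0) : T c = 0 := by
  have h := hT.smul c i 0 0 hc U.zero_mem
  rw [smul_zero, zero_mul, ← hi, Function.update_eq_self] at h
  exact h

/-- counting: if `T c ≠ 0` then at least `t` slots are not in `L_p` -/
theorem c3c_count {ι : Type*} [Fintype ι] [DecidableEq ι] {G₀ p : Finset K} {t : ℕ}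
    {T : (ι → K → F) → F} (hf : Fil L G₀ p t T) (c : ι → K → F) (hc : ∀ i, c i ∈ van L G₀)
    (hne : T c ≠ 0) (P : ι → Prop) [DecidablePred P] (hP : ∀ i, ¬ P i → c i ∈ van L p) :
    t ≤ (univ.filter P).card := by
  classical
  by_contra hlt
  push Not at hlt
  apply hne
  apply hf c hc
  have h1 : (univ.filter P).card + (univ.filter fun i => ¬ P i).card = Fintype.card ι := by
    rw [Finset.card_filter_add_card_filter_not, Finset.card_univ]
  have h2 : (univ.filter fun i => ¬ P i).card ≤ {i | c i ∈ van L p}.ncard := by
    rw [← Set.ncard_coe_finset]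
    apply Set.ncard_le_ncard
    · intro i hi
      simp only [coe_filter, mem_univ, true_and, Set.mem_ofPred_eq] at hi
      exact hP i hi
    · exact Set.toFinite _
  omega

/-- Lemma (K): the Koszul form for at most three independent points -/
theorem lemK {G₀ : Finset K} (I : Finset (Finset K)) (hI : ∀ p ∈ I, G₀ ⊆ p)
    (hR : Rel L G₀ I = ⊥) (h3 : I.card ≤ 3) {ι : Type*} [Fintype ι] [DecidableEq ι] {t : ℕ}
    (hι : Fintype.card ι ≤ 2 * t) (T : Finset K → (ι → K → F) → F)
    (hT : ∀ p ∈ I, IsML (van L G₀) (T p)) (hf : ∀ p ∈ I, Fil L G₀ p t (T p))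
    (hsum : ∀ c : ι → K → F, (∀ i, c i ∈ van L G₀) → ∑ p ∈ I, T p c = 0) :
    ∃ A : Finset K → Finset K → (ι → K → F) → F,
      (∀ p ∈ I, ∀ p' ∈ I, IsML (van L G₀) (A p p')) ∧
      (∀ p ∈ I, ∀ p' ∈ I, p ≠ p' → Fil L G₀ p t (A p p') ∧ Fil L G₀ p' t (A p p')) ∧
      (∀ p ∈ I, ∀ p' ∈ I, ∀ c : ι → K → F, (∀ i, c i ∈ van L G₀) → A p p' c = - A p' p c) ∧
      (∀ p ∈ I, ∀ c : ι → K → F, (∀ i, c i ∈ van L G₀) → T p c = ∑ p' ∈ I.erase p, A p p' c) := by
  classical
  rcases Nat.eq_zero_or_pos t with ht0 | ht
  · -- no slots
    subst ht0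
    have hcard : Fintype.card ι = 0 := by omega
    have hemp : IsEmpty ι := Fintype.card_eq_zero_iff.1 hcard
    have hML : ∀ S : (ι → K → F) → F, IsML (van L G₀) S := fun S =>
      ⟨fun c i => (hemp.false i).elim, fun c i => (hemp.false i).elim⟩
    have hFil : ∀ (S : (ι → K → F) → F) (X : Finset K), Fil L G₀ X 0 S := by
      intro S X c hc h
      exfalso
      have : {i | c i ∈ van L X}.ncard = 0 := by
        rw [Set.ncard_eq_zero]
        exact Set.eq_empty_of_isEmpty _
      omega
    rcases I.eq_empty_or_nonempty with hI0 | ⟨p0, hp0⟩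
    · subst hI0
      exact ⟨fun _ _ _ => 0, by simp, by simp, by simp, by simp⟩
    · refine ⟨fun p p' c => if p = p0 then (if p' = p0 then 0 else - T p' c) else
        (if p' = p0 then T p c else 0), fun _ _ _ _ => hML _, fun _ _ _ _ _ => ⟨hFil _ _, hFil _ _⟩,
        ?_, ?_⟩
      · intro p _ p' _ c _
        by_cases h1 : p = p0 <;> by_cases h2 : p' = p0 <;> simp [h1, h2]
      · intro p hp c hc
        by_cases h1 : p = p0
        · subst h1
          have h2 : ∑ p' ∈ I.erase p, (if p = p then (if p' = p then 0 else - T p' c) else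
              (if p' = p then T p c else 0)) = ∑ p' ∈ I.erase p, - T p' c := by
            apply Finset.sum_congr rfl
            intro p' hp'
            simp [Finset.ne_of_mem_erase hp']
          rw [h2, Finset.sum_neg_distrib]
          have := hsum c hc
          rw [← Finset.add_sum_erase I _ hp] at this
          exact eq_neg_of_add_eq_zero_left this
        · rw [Finset.sum_eq_single p0]
          · simp [h1]
          · intro p' _ hne
            simp [h1, hne]
          · intro h
            exact absurd (Finset.mem_erase.2 ⟨fun h' => h1 h'.symm, hp0⟩) h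
  · obtain ⟨π, hπ0, hπ1, hπ2⟩ := exists_proj I hI hR
    -- the main definition
    set A : Finset K → Finset K → (ι → K → F) → F := fun p p' c =>
      if p = p' then 0 else T p (fun s => (π p + π p') (c s)) with hA
    have hVp : ∀ p ∈ I, van L p ≤ van L G₀ := by
      intro p hp c hc
      exact ⟨hc.1, fun y hy => hc.2 y (hI p hp hy)⟩
    have hmem : ∀ p ∈ I, ∀ p' ∈ I, ∀ c ∈ van L G₀, (π p + π p') c ∈ van L G₀ := by
      intro p hp p' hp' c hc
      exact Submodule.add_mem _ (hπ0 p hp c hc) (hπ0 p' hp' c hc)
    have hML : ∀ p ∈ I, ∀ p' ∈ I, IsML (van L G₀) (A p p') := by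
      intro p hp p' hp'
      by_cases hpp : p = p'
      · have : A p p' = fun _ => 0 := by
          funext c
          simp [hA, hpp]
        rw [this]
        exact ⟨fun _ _ _ _ _ _ _ => by simp, fun _ _ _ _ _ _ => by simp⟩
      · have hupd : ∀ (c : ι → K → F) (i : ι) (a : K → F),
            (fun s => (π p + π p') (Function.update c i a s)) =
              Function.update (fun s => (π p + π p') (c s)) i ((π p + π p') a) := by
          intro c i a
          funext s
          by_cases h : s = i
          · subst h; simp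
          · simp [Function.update_of_ne h]
        refine ⟨fun c i a b hc ha hb => ?_, fun c i s a hc ha => ?_⟩
        · simp only [hA, if_neg hpp]
          rw [hupd, hupd, hupd, map_add]
          exact (hT p hp).add _ i _ _ (fun j => hmem p hp p' hp' _ (hc j)) (hmem p hp p' hp' _ ha)
            (hmem p hp p' hp' _ hb)
        · simp only [hA, if_neg hpp]
          rw [hupd, hupd, map_smul]
          exact (hT p hp).smul _ i _ _ (fun j => hmem p hp p' hp' _ (hc j)) (hmem p hp p' hp' _ ha)
    have hanti : ∀ p ∈ I, ∀ p' ∈ I, ∀ c : ι → K → F, (∀ i, c i ∈ van L G₀) →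
        A p p' c = - A p' p c := by
      intro p hp p' hp' c hc
      by_cases hpp : p = p'
      · subst hpp
        simp [hA]
      · have hpp' : p' ≠ p := fun h => hpp h.symm
        simp only [hA, if_neg hpp, if_neg hpp']
        have hcomm : (fun s => (π p' + π p) (c s)) = fun s => (π p + π p') (c s) := by
          funext s
          rw [add_comm (π p') (π p)]
        rw [hcomm]
        have hx : ∀ s, (π p + π p') (c s) ∈ van L G₀ := fun s => hmem p hp p' hp' _ (hc s)
        have h := hsum (fun s => (π p + π p') (c s)) hx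
        rw [← Finset.add_sum_erase I _ hp, ← Finset.add_sum_erase (I.erase p) _
          (Finset.mem_erase.2 ⟨hpp', hp'⟩), Finset.sum_eq_zero, add_zero] at h
        · exact eq_neg_of_add_eq_zero_left h
        · intro q hq
          have hq' : q ≠ p' := Finset.ne_of_mem_erase hq
          have hq2 := Finset.mem_of_mem_erase hq
          have hqp : q ≠ p := Finset.ne_of_mem_erase hq2
          have hqI : q ∈ I := Finset.mem_of_mem_erase hq2
          apply hf q hqI _ hx
          have hall : {i | (π p + π p') (c i) ∈ van L q} = Set.univ := by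
            apply Set.eq_univ_of_forall
            intro i
            exact Submodule.add_mem _ (hπ1 p hp q hqI hqp.symm _ (hc i))
              (hπ1 p' hp' q hqI hq'.symm _ (hc i))
          rw [hall, Set.ncard_univ, Nat.card_eq_fintype_card]
          omega
    have hFil1 : ∀ p ∈ I, ∀ p' ∈ I, p ≠ p' → Fil L G₀ p t (A p p') := by
      intro p hp p' hp' hne c hc hcount
      simp only [hA, if_neg hne]
      apply hf p hp _ (fun s => hmem p hp p' hp' _ (hc s))
      refine hcount.trans (Nat.add_le_add_left ?_ t)
      apply Set.ncard_le_ncard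
      · intro i hi
        have hi' : c i ∈ van L p := hi
        show (π p + π p') (c i) ∈ van L p
        apply Submodule.add_mem
        · have h1 := Submodule.sub_mem _ hi' (hπ2 p hp _ (hc i))
          rwa [sub_sub_cancel] at h1
        · exact hπ1 p' hp' p hp hne.symm _ (hc i)
      · exact Set.toFinite _
    refine ⟨A, hML, fun p hp p' hp' hne => ⟨hFil1 p hp p' hp' hne, ?_⟩, hanti, ?_⟩
    · intro c hc hcount
      rw [hanti p hp p' hp' c hc, hFil1 p' hp' p hp hne.symm c hc hcount, neg_zero]
    · -- the expansion
      intro p hp c hc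
      set g : ι → Option (Finset K) → K → F := fun s j => match j with
        | none => c s - ∑ q ∈ I, π q (c s)
        | some q => if q ∈ I then π q (c s) else 0 with hg
      have hgnone : ∀ s, g s none = c s - ∑ q ∈ I, π q (c s) := fun s => rfl
      have hgsome : ∀ s q, g s (some q) = if q ∈ I then π q (c s) else 0 := fun s q => rfl
      have hgU : ∀ s j, g s j ∈ van L G₀ := by
        intro s j
        cases j with
        | none =>
          rw [hgnone]
          exact Submodule.sub_mem _ (hc s) (Submodule.sum_mem _ fun q hq => hπ0 q hq _ (hc s))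
        | some q =>
          rw [hgsome]
          split_ifs with hq
          · exact hπ0 q hq _ (hc s)
          · exact Submodule.zero_mem _
      have hgV : ∀ q ∈ I, ∀ s j, j ≠ some q → g s j ∈ van L q := by
        intro q hq s j hj
        cases j with
        | none =>
          rw [hgnone, ← Finset.add_sum_erase I _ hq, ← sub_sub]
          refine Submodule.sub_mem _ (hπ2 q hq _ (hc s)) (Submodule.sum_mem _ fun q' hq' => ?_)
          exact hπ1 q' (Finset.mem_of_mem_erase hq') q hq (Finset.ne_of_mem_erase hq') _ (hc s)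
        | some q' =>
          rw [hgsome]
          split_ifs with hq'
          · exact hπ1 q' hq' q hq (fun h => hj (by rw [h])) _ (hc s)
          · exact Submodule.zero_mem _
      have hgsum : ∀ s, ∑ j, g s j = c s := by
        intro s
        rw [Fintype.sum_option, hgnone]
        have : ∑ q, g s (some q) = ∑ q ∈ I, π q (c s) := by
          simp only [hgsome]
          rw [Finset.sum_ite_mem, Finset.univ_inter]
        rw [this, sub_add_cancel]
      -- masked components
      set m : Finset K → ι → Option (Finset K) → K → F := fun p' s j =>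
        if j = some p ∨ j = some p' then g s j else 0 with hm
      have hmU : ∀ p' s j, m p' s j ∈ van L G₀ := by
        intro p' s j
        simp only [hm]
        split_ifs
        · exact hgU s j
        · exact Submodule.zero_mem _
      have hmsum : ∀ p' ∈ I.erase p, ∀ s, ∑ j, m p' s j = (π p + π p') (c s) := by
        intro p' hp' s
        have hne : p' ≠ p := Finset.ne_of_mem_erase hp'
        have hpI : p' ∈ I := Finset.mem_of_mem_erase hp'
        have : ∀ j, m p' s j = (if j = some p then g s j else 0) +
            (if j = some p' then g s j else 0) := by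
          intro j
          simp only [hm]
          by_cases h1 : j = some p
          · have h2 : ¬ j = some p' := by
              rw [h1]
              intro h
              exact hne (Option.some.inj h).symm
            simp [h1, hne.symm]
          · by_cases h2 : j = some p'
            · simp [h2, hne]
            · simp [h1, h2]
        rw [Finset.sum_congr rfl fun j _ => this j, Finset.sum_add_distrib]
        simp [hgsome, hp, hpI]
      have hTp : T p c = ∑ r : ι → Option (Finset K), T p (fun s => g s (r s)) := by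
        rw [← c3c_expand (hT p hp) g hgU]
        congr 1
        funext s
        exact (hgsum s).symm
      have hAp : ∀ p' ∈ I.erase p, A p p' c =
          ∑ r : ι → Option (Finset K), T p (fun s => m p' s (r s)) := by
        intro p' hp'
        have hne : p ≠ p' := (Finset.ne_of_mem_erase hp').symm
        rw [← c3c_expand (hT p hp) (m p') (hmU p')]
        simp only [hA, if_neg hne]
        congr 1
        funext s
        exact (hmsum p' hp' s).symm
      rw [hTp, Finset.sum_congr rfl hAp, Finset.sum_comm]
      apply Finset.sum_congr rfl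
      intro r _
      -- masked component: equal or zero
      have hmask : ∀ p' ∈ I.erase p, (∀ s, r s = some p ∨ r s = some p') →
          T p (fun s => m p' s (r s)) = T p (fun s => g s (r s)) := by
        intro p' _ h
        congr 1
        funext s
        simp only [hm, if_pos (h s)]
      have hmask0 : ∀ p' ∈ I.erase p, (∃ s, ¬ (r s = some p ∨ r s = some p')) →
          T p (fun s => m p' s (r s)) = 0 := by
        rintro p' _ ⟨s, hs⟩
        apply c3c_zero (hT p hp) _ (fun s => hmU p' s _) s
        simp only [hm, if_neg hs]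
      by_cases hz : T p (fun s => g s (r s)) = 0
      · rw [hz]
        symm
        apply Finset.sum_eq_zero
        intro p' hp'
        by_cases hs : ∀ s, r s = some p ∨ r s = some p'
        · rw [hmask p' hp' hs, hz]
        · push Not at hs
          apply hmask0 p' hp'
          obtain ⟨s, hs1, hs2⟩ := hs
          exact ⟨s, fun h => h.elim hs1 hs2⟩
      · have hgr : ∀ s, g s (r s) ∈ van L G₀ := fun s => hgU s _
        have c1 := c3c_count (hf p hp) _ hgr hz (fun s => r s = some p)
          (fun s hs => hgV p hp s _ hs)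
        -- another nonzero one
        have hex : ∃ p' ∈ I.erase p, T p' (fun s => g s (r s)) ≠ 0 := by
          by_contra hno
          push Not at hno
          have h := hsum _ hgr
          rw [← Finset.add_sum_erase I _ hp, Finset.sum_eq_zero hno, add_zero] at h
          exact hz h
        obtain ⟨p', hp', hne'⟩ := hex
        have hpI : p' ∈ I := Finset.mem_of_mem_erase hp'
        have hpne : p' ≠ p := Finset.ne_of_mem_erase hp'
        have c2 := c3c_count (hf p' hpI) _ hgr hne' (fun s => r s = some p')
          (fun s hs => hgV p' hpI s _ hs)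
        have hdisj : Disjoint (univ.filter fun s => r s = some p)
            (univ.filter fun s => r s = some p') := by
          rw [Finset.disjoint_filter]
          intro s _ h1 h2
          rw [h1] at h2
          exact hpne (Option.some.inj h2).symm
        have hun := Finset.card_union_of_disjoint hdisj
        have hle : ((univ.filter fun s => r s = some p) ∪
            (univ.filter fun s => r s = some p')).card ≤ Fintype.card ι := Finset.card_le_univ _
        have heq : (univ.filter fun s => r s = some p) ∪ (univ.filter fun s => r s = some p') =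
            univ := by
          apply Finset.eq_univ_of_card
          omega
        have hall : ∀ s, r s = some p ∨ r s = some p' := by
          intro s
          have : s ∈ (univ.filter fun s => r s = some p) ∪ (univ.filter fun s => r s = some p') := by
            rw [heq]; exact mem_univ s
          simpa using this
        rw [Finset.sum_eq_single p']
        · exact (hmask p' hp' hall).symm
        · intro q hq hqp
          apply hmask0 q hq
          have : (univ.filter fun s => r s = some p').Nonempty := by
            rw [← Finset.card_pos]; omega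
          obtain ⟨s, hs⟩ := this
          refine ⟨s, ?_⟩
          simp only [mem_filter, mem_univ, true_and] at hs
          rw [hs]
          rintro (h | h)
          · exact hpne (Option.some.inj h)
          · exact hqp (Option.some.inj h).symm
        · intro h
          exact absurd hp' h

end Pool.Agent.MP_d4f4ab_ag.W
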