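import Pool.Agent.MP_d4f4ab_ag.W.C3

/-! [WR-C4] (P) (WR_PROOF.md section 5). -/

open Finset

namespace Pool.Agent.MP_d4f4ab_ag.W

variable {F : Type*} [Field F] {K : Type*} [Fintype K] [DecidableEq K]
  {L : Submodule F (K → F)} {e : ℕ}

/-- the line `l` is processed: `g [p, l]` is in Koszul form -/
def Proc (L : Submodule F (K → F)) (e : ℕ) {ι : Type*} [Fintype ι] [DecidableEq ι]
    (G₀ G₁ : Finset K) (t : ℕ) (g : List (Finset K) → (ι → K → F) → F) (l : Finset K) : Prop :=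
  ∃ A : Finset K → Finset K → (ι → K → F) → F,
    (∀ p ∈ pts L e G₀ G₁, p ⊂ l → ∀ p' ∈ pts L e G₀ G₁, p' ⊂ l → p ≠ p' →
      IsML (van L G₀) (A p p') ∧ Fil L G₀ p t (A p p') ∧ Fil L G₀ p' t (A p p') ∧
      ∀ c : ι → K → F, (∀ i, c i ∈ van L G₀) → A p p' c = - A p' p c) ∧
    ∀ p ∈ pts L e G₀ G₁, p ⊂ l → ∀ c : ι → K → F, (∀ i, c i ∈ van L G₀) →
      g [p, l] c = ∑ p' ∈ (pts L e G₀ G₁).filter (fun p' => p' ⊂ l ∧ p' ≠ p), A p p' c

omit [Fintype K] [DecidableEq K] in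
theorem c4a_isML_zero {ι : Type*} [DecidableEq ι] (U : Submodule F (K → F)) :
    IsML U (fun _ : ι → K → F => (0 : F)) :=
  ⟨fun _ _ _ _ _ _ _ => by simp, fun _ _ _ _ _ _ => by simp⟩

omit [Fintype K] [DecidableEq K] in
theorem c4a_isML_sum {ι : Type*} [DecidableEq ι] (U : Submodule F (K → F)) {κ : Type*}
    (s : Finset κ) (T : κ → (ι → K → F) → F) (h : ∀ k ∈ s, IsML U (T k)) :
    IsML U (fun c => ∑ k ∈ s, T k c) := by
  constructor
  · intro c i a b hc ha hb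
    rw [← Finset.sum_add_distrib]
    exact Finset.sum_congr rfl fun k hk => (h k hk).add c i a b hc ha hb
  · intro c i s' a hc ha
    rw [Finset.mul_sum]
    exact Finset.sum_congr rfl fun k hk => (h k hk).smul c i s' a hc ha

theorem c4a_mem_pts {G₀ G₁ p : Finset K} : p ∈ pts L e G₀ G₁ ↔
    IsFlat L e p ∧ G₀ ⊂ p ∧ p ⊂ G₁ ∧ nn L e p = nn L e G₀ + 1 := by
  simp [pts]

theorem c4a_mem_lns {G₀ G₁ l : Finset K} : l ∈ lns L e G₀ G₁ ↔
    IsFlat L e l ∧ G₀ ⊂ l ∧ l ⊂ G₁ ∧ nn L e l = nn L e G₀ + 2 := by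
  simp [lns]

/-- two lines through two points are equal -/
theorem c4a_unique {G₀ G₁ p p' l l' : Finset K} (hp : p ∈ pts L e G₀ G₁)
    (hp' : p' ∈ pts L e G₀ G₁) (hl : l ∈ lns L e G₀ G₁) (hl' : l' ∈ lns L e G₀ G₁)
    (hne : p ≠ p') (h1 : p ⊂ l) (h2 : p' ⊂ l) (h1' : p ⊂ l') (h2' : p' ⊂ l') : l = l' := by
  rw [c4a_mem_pts] at hp hp'
  rw [c4a_mem_lns] at hl hl'
  by_contra hll
  have hF : IsFlat L e (l ∩ l') := hl.1.inter hl'.1
  have hlt : l ∩ l' ⊂ l := by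
    refine Finset.ssubset_iff_subset_ne.2 ⟨Finset.inter_subset_left, fun hh => ?_⟩
    have h3 : l ⊆ l' := by rw [← hh]; exact Finset.inter_subset_right
    have h4 : l ⊂ l' := Finset.ssubset_iff_subset_ne.2 ⟨h3, hll⟩
    have := hl.1 l' h4
    omega
  have h5 := hF l hlt
  have h6 : p ⊂ l ∩ l' := by
    refine Finset.ssubset_iff_subset_ne.2 ⟨Finset.subset_inter h1.1 h1'.1, fun hh => ?_⟩
    have h7 : p' ⊆ p := by rw [hh]; exact Finset.subset_inter h2.1 h2'.1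
    have h8 := hp'.1 p (Finset.ssubset_iff_subset_ne.2 ⟨h7, hne.symm⟩)
    omega
  have h9 := hp.1 _ h6
  omega

/-- flags with two members -/
theorem c4a_flag {G₀ G₁ p l : Finset K} (h : Flag L e G₁ G₀ [p, l]) :
    p ∈ pts L e G₀ G₁ ∧ l ∈ lns L e G₀ G₁ ∧ p ⊂ l := by
  obtain ⟨h1, h2, h3, h4, h5, h6, h7, h8, h9, h10, h11, h12⟩ := h
  rw [c4a_mem_pts, c4a_mem_lns]
  exact ⟨⟨h2, h3, h7.trans h11, h4⟩, ⟨h6, h3.trans h7, h11, by omega⟩, h7⟩

open Classical in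
/-- the sum over the lines through a point -/
theorem c4a_sum_lines {ι : Type*} [Fintype ι] [DecidableEq ι] {G₀ G₁ : Finset K}
    {t : ℕ → ℕ} {g : List (Finset K) → (ι → K → F) → F} (h : Cyc L e G₀ G₁ t g)
    (p : Finset K) (c : ι → K → F) (hc : ∀ i, c i ∈ van L G₀) :
    ∑ l ∈ (lns L e G₀ G₁).filter (fun l => p ⊂ l), g [p, l] c = 0 := by
  have h1 := h.sum [p] [] c hc
  rw [← h1]
  apply Finset.sum_subset (Finset.subset_univ _)
  intro X _ hX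
  apply h.supp _ _ c hc
  intro hF
  obtain ⟨_, h3, h4⟩ := c4a_flag hF
  exact hX (Finset.mem_filter.2 ⟨h3, h4⟩)

open Classical in
/-- the sum over the points of a line -/
theorem c4a_sum_points {ι : Type*} [Fintype ι] [DecidableEq ι] {G₀ G₁ : Finset K}
    {t : ℕ → ℕ} {g : List (Finset K) → (ι → K → F) → F} (h : Cyc L e G₀ G₁ t g)
    (l : Finset K) (c : ι → K → F) (hc : ∀ i, c i ∈ van L G₀) :
    ∑ p ∈ (pts L e G₀ G₁).filter (fun p => p ⊂ l), g [p, l] c = 0 := by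
  have h1 := h.sum [] [l] c hc
  rw [← h1]
  apply Finset.sum_subset (Finset.subset_univ _)
  intro X _ hX
  apply h.supp _ _ c hc
  intro hF
  obtain ⟨h2, _, h4⟩ := c4a_flag hF
  exact hX (Finset.mem_filter.2 ⟨h2, h4⟩)

open Classical in
/-- private points -/
theorem c4a_private (hd : Dense L e) {ι : Type*} [Fintype ι] [DecidableEq ι] {G₀ G₁ : Finset K}
    {t : ℕ → ℕ} {g : List (Finset K) → (ι → K → F) → F} (h : Cyc L e G₀ G₁ t g)
    (hG₀ : IsFlat L e G₀)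
    (ht : (Fintype.card ι < 2 * t 0 ∧ 1 ≤ t 0) ∨
      (Fintype.card ι = 2 * t 0 ∧ 2 ≤ t 0 ∧ t 0 + 1 ≤ t 1))
    (l : Finset K) (hl : l ∈ lns L e G₀ G₁) (p : Finset K) (hp : p ∈ pts L e G₀ G₁) (hpl : p ⊂ l)
    (hpr : ∀ l' ∈ lns L e G₀ G₁, l' ≠ l → p ⊂ l' → Proc L e G₀ G₁ (t 0) g l')
    (c : ι → K → F) (hc : ∀ i, c i ∈ van L G₀) : g [p, l] c = 0 := by
  have hp0 := c4a_mem_pts.1 hp
  have hl0 := c4a_mem_lns.1 hl
  -- choose the forms
  have hex : ∀ l' : Finset K, ∃ A : Finset K → Finset K → (ι → K → F) → F,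
      (l' ∈ lns L e G₀ G₁ → l' ≠ l → p ⊂ l' →
      (∀ p ∈ pts L e G₀ G₁, p ⊂ l' → ∀ p' ∈ pts L e G₀ G₁, p' ⊂ l' → p ≠ p' →
      IsML (van L G₀) (A p p') ∧ Fil L G₀ p (t 0) (A p p') ∧ Fil L G₀ p' (t 0) (A p p') ∧
      ∀ c : ι → K → F, (∀ i, c i ∈ van L G₀) → A p p' c = - A p' p c) ∧
      ∀ p ∈ pts L e G₀ G₁, p ⊂ l' → ∀ c : ι → K → F, (∀ i, c i ∈ van L G₀) →
        g [p, l'] c = ∑ p' ∈ (pts L e G₀ G₁).filter (fun p' => p' ⊂ l' ∧ p' ≠ p), A p p' c) := by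
    intro l'
    by_cases hh : l' ∈ lns L e G₀ G₁ ∧ l' ≠ l ∧ p ⊂ l'
    · obtain ⟨A, hA⟩ := hpr l' hh.1 hh.2.1 hh.2.2
      exact ⟨A, fun _ _ _ => hA⟩
    · exact ⟨fun _ _ _ => 0, fun h1 h2 h3 => absurd ⟨h1, h2, h3⟩ hh⟩
  choose A hA using hex
  set Ln := (lns L e G₀ G₁).filter (fun l' => p ⊂ l' ∧ l' ≠ l) with hLn
  set B : Finset K → (ι → K → F) → F := fun p' c =>
    ∑ l' ∈ Ln.filter (fun l' => p' ⊂ l'), A l' p p' c with hB
  set I := (pts L e G₀ G₁).filter (fun p' => ¬ p' ⊆ l) with hI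
  have hLnm : ∀ l' ∈ Ln, l' ∈ lns L e G₀ G₁ ∧ p ⊂ l' ∧ l' ≠ l := fun l' hl' => by
    rw [hLn, Finset.mem_filter] at hl'
    exact hl'
  have hmI : ∀ p' ∈ I, p' ∈ pts L e G₀ G₁ ∧ ¬ p' ⊆ l := fun p' hp' => by
    rw [hI, Finset.mem_filter] at hp'
    exact hp'
  have hIne : ∀ p' ∈ I, p ≠ p' := fun p' hp' hh => (hmI p' hp').2 (hh ▸ hpl.1)
  -- `g [p, l] = - ∑ B`
  have hgB : ∀ c : ι → K → F, (∀ i, c i ∈ van L G₀) → g [p, l] c = - ∑ p' ∈ I, B p' c := by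
    intro c hc
    have h1 := c4a_sum_lines h p c hc
    have h2 : (lns L e G₀ G₁).filter (fun l' => p ⊂ l') = insert l Ln := by
      ext l'
      rw [Finset.mem_filter, Finset.mem_insert, hLn, Finset.mem_filter]
      constructor
      · rintro ⟨h3, h4⟩
        by_cases h5 : l' = l
        · exact Or.inl h5
        · exact Or.inr ⟨h3, h4, h5⟩
      · rintro (rfl | ⟨h3, h4, _⟩)
        · exact ⟨hl, hpl⟩
        · exact ⟨h3, h4⟩
    rw [h2, Finset.sum_insert (fun hh => (hLnm l hh).2.2 rfl)] at h1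
    have h3 : ∑ l' ∈ Ln, g [p, l'] c = ∑ p' ∈ I, B p' c := by
      have h4 : ∀ l' ∈ Ln, g [p, l'] c =
          ∑ p' ∈ I, if p' ⊂ l' then A l' p p' c else 0 := by
        intro l' hl'
        obtain ⟨h5, h6, h7⟩ := hLnm l' hl'
        rw [(hA l' h5 h7 h6).2 p hp h6 c hc, ← Finset.sum_filter]
        refine Finset.sum_congr ?_ fun _ _ => rfl
        ext p'
        rw [Finset.mem_filter, Finset.mem_filter, hI, Finset.mem_filter]
        constructor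
        · rintro ⟨h8, h9, h10⟩
          refine ⟨⟨h8, fun h11 => ?_⟩, h9⟩
          have h12 : p' ⊂ l := by
            refine Finset.ssubset_iff_subset_ne.2 ⟨h11, fun hh => ?_⟩
            have := (c4a_mem_pts.1 h8).2.2.2
            rw [hh] at this
            omega
          exact h7 (c4a_unique hp h8 h5 hl (fun hh => h10 hh.symm) h6 h9 hpl h12)
        · rintro ⟨⟨h8, h9⟩, h10⟩
          exact ⟨h8, h10, fun hh => h9 (hh ▸ hpl.1)⟩
      rw [Finset.sum_congr rfl h4, Finset.sum_comm]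
      refine Finset.sum_congr rfl fun p' _ => ?_
      exact (Finset.sum_filter _ _).symm
    rw [h3] at h1
    exact eq_neg_of_add_eq_zero_left h1
  -- properties of `B`
  have hprop : ∀ p' ∈ I, ∀ l' ∈ Ln.filter (fun l' => p' ⊂ l'),
      IsML (van L G₀) (A l' p p') ∧ Fil L G₀ p (t 0) (A l' p p') ∧
        Fil L G₀ p' (t 0) (A l' p p') := by
    intro p' hp' l' hl'
    rw [Finset.mem_filter] at hl'
    obtain ⟨h5, h6, h7⟩ := hLnm l' hl'.1
    obtain ⟨h8, h9, h10, _⟩ := (hA l' h5 h7 h6).1 p hp h6 p' (hmI p' hp').1 hl'.2 (hIne p' hp')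
    exact ⟨h8, h9, h10⟩
  have hBml : ∀ p' ∈ I, IsML (van L G₀) (B p') := fun p' hp' =>
    c4a_isML_sum _ _ (fun l' => A l' p p') fun l' hl' => (hprop p' hp' l' hl').1
  have hBp : ∀ p' ∈ I, Fil L G₀ p (t 0) (B p') := fun p' hp' c hc hn =>
    Finset.sum_eq_zero fun l' hl' => (hprop p' hp' l' hl').2.1 c hc hn
  have hBp' : ∀ p' ∈ I, Fil L G₀ p' (t 0) (B p') := fun p' hp' c hc hn =>
    Finset.sum_eq_zero fun l' hl' => (hprop p' hp' l' hl').2.2 c hc hn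
  have hB0 : ∀ p' ∈ I, B p' c = 0 := by
    rcases ht with ⟨ht1, ht2⟩ | ⟨ht1, ht2, ht3⟩
    · intro p' hp'
      have hq := c4a_mem_pts.1 (hmI p' hp').1
      exact lemZ (van_sup_van hd hG₀ hp0.1 hq.1 hp0.2.1.1 hq.2.1.1 hp0.2.2.2 hq.2.2.2
        (hIne p' hp')) (hBml p' hp') (hBp p' hp') (hBp' p' hp') (by omega) c hc
    · intro p' hp'
      refine kill hd hG₀ hl0.1 hp0.1 hp0.2.1.1 hpl.1 hp0.2.2.2 I (fun q hq => ?_) ht2 ht1 B hBml
        hBp hBp' (fun c hc hn => ?_) p' hp' c hc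
      · have hq' := c4a_mem_pts.1 (hmI q hq).1
        exact ⟨hq'.1, hq'.2.1.1, hq'.2.2.2, (hmI q hq).2⟩
      · have h1 := hgB c hc
        have h2 : g [p, l] c = 0 := by
          have h3 := h.fil [p] l [] c hc
          apply h3
          simp only [List.length_cons, List.length_nil, zero_add]
          omega
        rw [h2] at h1
        exact (neg_eq_zero.1 h1.symm)
  rw [hgB c hc, Finset.sum_eq_zero hB0, neg_zero]

/-- at most three points of a line are independent -/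
theorem c4a_rel (hd : Dense L e) {G₀ G₁ : Finset K} (hG₀ : IsFlat L e G₀)
    (I : Finset (Finset K)) (hI : I ⊆ pts L e G₀ G₁) (h3 : I.card ≤ 3) : Rel L G₀ I = ⊥ := by
  rcases Nat.lt_or_ge I.card 2 with h2 | h2
  · rw [eq_bot_iff]
    rintro r ⟨h4, h5, h6⟩
    rw [Submodule.mem_bot]
    funext p
    by_cases hp : p ∈ I
    · have h7 : I = {p} := by
        rw [Finset.eq_singleton_iff_unique_mem]
        refine ⟨hp, fun q hq => ?_⟩
        have h8 : I.card ≤ 1 := by omega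
        exact Finset.card_le_one.1 h8 q hq p hp
      rw [h7, Finset.sum_singleton] at h6
      exact h6
    · exact h5 p hp
  · have h4 := two_add_Rel_le hd hG₀ I hI h2
    have h5 : (I.card : ℤ) ≤ 3 := by exact_mod_cast h3
    have h6 : (2 : ℤ) ≤ e := by exact_mod_cast hd.two_le
    have h7 : Module.finrank F (Rel L G₀ I) = 0 := by
      by_contra h8
      have h9 : (1 : ℤ) ≤ Module.finrank F (Rel L G₀ I) := by
        exact_mod_cast Nat.one_le_iff_ne_zero.2 h8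
      nlinarith
    exact Submodule.finrank_eq_zero.1 h7

open Classical in
/-- a line `l` such that all but at most three of its points `p` are private: all other lines through `p` are
processed -/
theorem proc_step (hd : Dense L e) {ι : Type*} [Fintype ι] [DecidableEq ι] {G₀ G₁ : Finset K}
    {t : ℕ → ℕ} {g : List (Finset K) → (ι → K → F) → F} (h : Cyc L e G₀ G₁ t g)
    (hG₀ : IsFlat L e G₀) (hG₁ : IsFlat L e G₁) (h01 : G₀ ⊂ G₁)
    (hn : nn L e G₁ = nn L e G₀ + 3)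
    (ht : (Fintype.card ι < 2 * t 0 ∧ 1 ≤ t 0) ∨
      (Fintype.card ι = 2 * t 0 ∧ 2 ≤ t 0 ∧ t 0 + 1 ≤ t 1))
    (l : Finset K) (hl : l ∈ lns L e G₀ G₁)
    (h3 : ((pts L e G₀ G₁).filter (fun p => p ⊂ l ∧
      ∃ l' ∈ lns L e G₀ G₁, l' ≠ l ∧ p ⊂ l' ∧ ¬ Proc L e G₀ G₁ (t 0) g l')).card ≤ 3) :
    Proc L e G₀ G₁ (t 0) g l := by
  set N := (pts L e G₀ G₁).filter (fun p => p ⊂ l ∧
      ∃ l' ∈ lns L e G₀ G₁, l' ≠ l ∧ p ⊂ l' ∧ ¬ Proc L e G₀ G₁ (t 0) g l') with hN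
  have hNm : ∀ p ∈ N, p ∈ pts L e G₀ G₁ ∧ p ⊂ l := fun p hp => by
    rw [hN, Finset.mem_filter] at hp
    exact ⟨hp.1, hp.2.1⟩
  have hpriv : ∀ p ∈ pts L e G₀ G₁, p ⊂ l → p ∉ N → ∀ c : ι → K → F,
      (∀ i, c i ∈ van L G₀) → g [p, l] c = 0 := by
    intro p hp hpl hpN c hc
    refine c4a_private hd h hG₀ ht l hl p hp hpl (fun l' hl' hne hpl' => ?_) c hc
    by_contra hcon
    exact hpN (Finset.mem_filter.2 ⟨hp, hpl, l', hl', hne, hpl', hcon⟩)
  obtain ⟨A, hA1, hA2, hA3, hA4⟩ := lemK N (fun p hp => (c4a_mem_pts.1 (hNm p hp).1).2.1.1)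
    (c4a_rel hd hG₀ N (Finset.filter_subset _ _) h3) h3 (t := t 0) (ι := ι) (by
      rcases ht with ht | ht <;> omega) (fun p => g [p, l]) (fun p _ => h.ml _)
    (fun p _ => h.fil [] p [l]) (fun c hc => by
      rw [← c4a_sum_points h l c hc]
      apply Finset.sum_subset
      · intro p hp
        exact Finset.mem_filter.2 (hNm p hp)
      · intro p hp hpN
        rw [Finset.mem_filter] at hp
        exact hpriv p hp.1 hp.2 hpN c hc)
  refine ⟨fun p p' => if p ∈ N ∧ p' ∈ N then A p p' else fun _ => 0, ?_, ?_⟩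
  · intro p hp hpl p' hp' hpl' hne
    by_cases hh : p ∈ N ∧ p' ∈ N
    · have hh' : p' ∈ N ∧ p ∈ N := ⟨hh.2, hh.1⟩
      simp only [if_pos hh, if_pos hh']
      exact ⟨hA1 p hh.1 p' hh.2, (hA2 p hh.1 p' hh.2 hne).1, (hA2 p hh.1 p' hh.2 hne).2,
        hA3 p hh.1 p' hh.2⟩
    · have hh' : ¬ (p' ∈ N ∧ p ∈ N) := fun h1 => hh ⟨h1.2, h1.1⟩
      simp only [if_neg hh, if_neg hh']
      exact ⟨c4a_isML_zero _, fun _ _ _ => rfl, fun _ _ _ => rfl, fun _ _ => by simp⟩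
  · intro p hp hpl c hc
    by_cases hpN : p ∈ N
    · rw [hA4 p hpN c hc]
      have h5 : ∀ p' ∈ N.erase p, A p p' c =
          (if p ∈ N ∧ p' ∈ N then A p p' else fun _ => 0) c := by
        intro p' hp'
        rw [if_pos ⟨hpN, (Finset.mem_erase.1 hp').2⟩]
      rw [Finset.sum_congr rfl h5]
      apply Finset.sum_subset
      · intro p' hp'
        rw [Finset.mem_erase] at hp'
        exact Finset.mem_filter.2 ⟨(hNm p' hp'.2).1, (hNm p' hp'.2).2, hp'.1⟩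
      · intro p' hp' hp'N
        rw [Finset.mem_filter] at hp'
        rw [if_neg]
        rintro ⟨_, h6⟩
        exact hp'N (Finset.mem_erase.2 ⟨hp'.2.2, h6⟩)
    · rw [hpriv p hp hpl hpN c hc]
      symm
      apply Finset.sum_eq_zero
      intro p' _
      simp only [hpN, false_and, if_false]

/-- all lines are processed (by `CL`) -/
theorem proc_all (hd : Dense L e) {ι : Type*} [Fintype ι] [DecidableEq ι] {G₀ G₁ : Finset K}
    {t : ℕ → ℕ} {g : List (Finset K) → (ι → K → F) → F} (h : Cyc L e G₀ G₁ t g)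
    (hG₀ : IsFlat L e G₀) (hG₁ : IsFlat L e G₁) (h01 : G₀ ⊂ G₁)
    (hn : nn L e G₁ = nn L e G₀ + 3)
    (ht : (Fintype.card ι < 2 * t 0 ∧ 1 ≤ t 0) ∨
      (Fintype.card ι = 2 * t 0 ∧ 2 ≤ t 0 ∧ t 0 + 1 ≤ t 1)) :
    ∀ l ∈ lns L e G₀ G₁, Proc L e G₀ G₁ (t 0) g l := by
  classical
  by_contra hno
  push Not at hno
  obtain ⟨l₀, hl₀, hl₀'⟩ := hno
  set Λ := (lns L e G₀ G₁).filter (fun l => ¬ Proc L e G₀ G₁ (t 0) g l) with hΛ
  have hne : Λ.Nonempty := ⟨l₀, by rw [hΛ, Finset.mem_filter]; exact ⟨hl₀, hl₀'⟩⟩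
  obtain ⟨l, hl, hcard⟩ := CL hd hG₀ hG₁ h01 hn Λ (Finset.filter_subset _ _) hne
  have hl2 := (Finset.mem_filter.1 hl)
  apply hl2.2
  refine proc_step hd h hG₀ hG₁ h01 hn ht l hl2.1 (le_trans (Finset.card_le_card ?_) hcard)
  intro p hp
  rw [Finset.mem_filter] at hp ⊢
  obtain ⟨hp1, hp2, l', hl', h1, h2, h3⟩ := hp
  refine ⟨hp1, hp2, l', ?_, h1, h2⟩
  rw [hΛ, Finset.mem_filter]
  exact ⟨hl', h3⟩

theorem c4b_mem_pts {G₀ G₁ p : Finset K} :
    p ∈ pts L e G₀ G₁ ↔ IsFlat L e p ∧ G₀ ⊂ p ∧ p ⊂ G₁ ∧ nn L e p = nn L e G₀ + 1 := by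
  classical
  unfold pts
  simp

theorem c4b_mem_lns {G₀ G₁ l : Finset K} :
    l ∈ lns L e G₀ G₁ ↔ IsFlat L e l ∧ G₀ ⊂ l ∧ l ⊂ G₁ ∧ nn L e l = nn L e G₀ + 2 := by
  classical
  unfold lns
  simp

theorem c4b_flag {G₀ G₁ p l : Finset K} (hG₀ : IsFlat L e G₀) (hG₁ : IsFlat L e G₁)
    (hn : nn L e G₁ = nn L e G₀ + 3) :
    Flag L e G₁ G₀ [p, l] ↔ p ∈ pts L e G₀ G₁ ∧ l ∈ lns L e G₀ G₁ ∧ p ⊂ l := by
  rw [c4b_mem_pts, c4b_mem_lns]
  simp only [Flag]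
  constructor
  · rintro ⟨_, h1, h2, h3, _, h4, h5, h6, _, _, h7, h8⟩
    exact ⟨⟨h1, h2, h5.trans h7, h3⟩, ⟨h4, h2.trans h5, h7, by omega⟩, h5⟩
  · rintro ⟨⟨h1, h2, h3, h4⟩, ⟨h5, h6, h7, h8⟩, h9⟩
    exact ⟨hG₀, h1, h2, h4, h1, h5, h9, by omega, h5, hG₁, h7, by omega⟩

/-- the line through two points -/
theorem c4b_line {G₀ G₁ p p' : Finset K} (hG₀ : IsFlat L e G₀) (hG₁ : IsFlat L e G₁)
    (hn : nn L e G₁ = nn L e G₀ + 3) (hp : p ∈ pts L e G₀ G₁) (hp' : p' ∈ pts L e G₀ G₁)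
    (hne : p ≠ p') :
    cl L e (p ∪ p') ∈ lns L e G₀ G₁ ∧ p ⊂ cl L e (p ∪ p') ∧ p' ⊂ cl L e (p ∪ p') ∧
      ∀ l ∈ lns L e G₀ G₁, p ⊂ l → p' ⊂ l → cl L e (p ∪ p') = l := by
  rw [c4b_mem_pts] at hp hp'
  obtain ⟨h1, h2, h3, h4⟩ := hp
  obtain ⟨h1', h2', h3', h4'⟩ := hp'
  have hint : p ∩ p' = G₀ := hG₀.inter_eq h1 h1' h2.subset h2'.subset h4 h4' hne
  have hsub := nn_submod (L := L) (e := e) p p'
  rw [hint] at hsub
  have hcl : nn L e (cl L e (p ∪ p')) ≤ nn L e (p ∪ p') := nn_cl_le (Finset.Subset.refl _)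
  have hp1 : p ⊆ cl L e (p ∪ p') := Finset.subset_union_left.trans (subset_cl _)
  have hp2 : p' ⊆ cl L e (p ∪ p') := Finset.subset_union_right.trans (subset_cl _)
  have hnn : ∀ {a b : Finset K}, IsFlat L e a → a ⊆ b → nn L e b ≤ nn L e a → a = b := by
    intro a b ha hab hle
    by_contra hne
    have := ha.nn_lt (Finset.ssubset_iff_subset_ne.2 ⟨hab, hne⟩)
    omega
  have hs1 : p ⊂ cl L e (p ∪ p') := by
    refine Finset.ssubset_iff_subset_ne.2 ⟨hp1, fun heq => ?_⟩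
    have : p' ⊆ p := heq ▸ hp2
    exact hne (hnn h1' this (by omega)).symm
  have hs2 : p' ⊂ cl L e (p ∪ p') := by
    refine Finset.ssubset_iff_subset_ne.2 ⟨hp2, fun heq => ?_⟩
    have : p ⊆ p' := heq ▸ hp1
    exact hne (hnn h1 this (by omega))
  have hlt := h1.nn_lt hs1
  have hflat : IsFlat L e (cl L e (p ∪ p')) := isFlat_cl _
  have hG1 : cl L e (p ∪ p') ⊆ G₁ := cl_subset (Finset.union_subset h3.subset h3'.subset) hG₁
  refine ⟨?_, hs1, hs2, ?_⟩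
  · rw [c4b_mem_lns]
    refine ⟨hflat, h2.trans hs1, Finset.ssubset_iff_subset_ne.2 ⟨hG1, fun heq => ?_⟩, by omega⟩
    rw [heq] at hcl
    omega
  · intro l hl hpl hpl'
    rw [c4b_mem_lns] at hl
    exact hnn hflat (cl_subset (Finset.union_subset hpl.subset hpl'.subset) hl.1) (by omega)

/-- (P), two interior flats -/
theorem P2 (hd : Dense L e) {t : ℕ → ℕ} {d : ℕ}
    (ht : (d < 2 * t 0 ∧ 1 ≤ t 0) ∨ (d = 2 * t 0 ∧ 2 ≤ t 0 ∧ t 0 + 1 ≤ t 1)) :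
    Van L e 2 t d := by
  classical
  intro ι _ _ hι G₀ G₁ g hn h σ c hc
  by_cases hflag : Flag L e G₁ G₀ σ
  swap
  · exact h.supp σ hflag c hc
  have hG₀ := hflag.isFlat_left
  have hG₁ := hflag.isFlat_right
  have h01 := hflag.ssubset
  have hlen := hflag.nn_eq
  have hn3 : nn L e G₁ = nn L e G₀ + 3 := by
    rw [hn]; push_cast; ring
  have hlen2 : σ.length = 2 := by omega
  obtain ⟨p₀, l₀, rfl⟩ : ∃ p l, σ = [p, l] := List.length_eq_two.1 hlen2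
  obtain ⟨hp₀, hl₀, hpl₀⟩ := (c4b_flag hG₀ hG₁ hn3).1 hflag
  subst hι
  have hproc := proc_all hd h hG₀ hG₁ h01 hn3 ht
  have hproc' : ∀ l, ∃ A : Finset K → Finset K → (ι → K → F) → F, l ∈ lns L e G₀ G₁ →
      (∀ p ∈ pts L e G₀ G₁, p ⊂ l → ∀ p' ∈ pts L e G₀ G₁, p' ⊂ l → p ≠ p' →
        IsML (van L G₀) (A p p') ∧ Fil L G₀ p (t 0) (A p p') ∧ Fil L G₀ p' (t 0) (A p p') ∧
        ∀ c : ι → K → F, (∀ i, c i ∈ van L G₀) → A p p' c = - A p' p c) ∧
      ∀ p ∈ pts L e G₀ G₁, p ⊂ l → ∀ c : ι → K → F, (∀ i, c i ∈ van L G₀) →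
        g [p, l] c = ∑ p' ∈ (pts L e G₀ G₁).filter (fun p' => p' ⊂ l ∧ p' ≠ p), A p p' c := by
    intro l
    by_cases hl : l ∈ lns L e G₀ G₁
    · obtain ⟨A, hA⟩ := hproc l hl
      exact ⟨A, fun _ => hA⟩
    · exact ⟨fun _ _ _ => 0, fun hl' => absurd hl' hl⟩
  choose A hA using hproc'
  have hptsne : ∀ p ∈ pts L e G₀ G₁, ∀ p' ∈ pts L e G₀ G₁, p ≠ p' →
      van L p ⊔ van L p' = van L G₀ := by
    intro p hp p' hp' hne
    rw [c4b_mem_pts] at hp hp'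
    exact van_sup_van hd hG₀ hp.1 hp'.1 hp.2.1.subset hp'.2.1.subset hp.2.2.2 hp'.2.2.2 hne
  rw [(hA l₀ hl₀).2 p₀ hp₀ hpl₀ c hc]
  apply Finset.sum_eq_zero
  intro p' hp'
  rw [Finset.mem_filter] at hp'
  obtain ⟨hp'1, hp'2, hp'3⟩ := hp'
  rcases ht with ⟨ht1, ht2⟩ | ⟨ht1, ht2, ht3⟩
  · -- strict case
    obtain ⟨hml, hf1, hf2, _⟩ := (hA l₀ hl₀).1 p₀ hp₀ hpl₀ p' hp'1 hp'2 hp'3.symm
    exact lemZ (hptsne p₀ hp₀ p' hp'1 hp'3.symm) hml hf1 hf2 (by omega) c hc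
  · -- equality
    set I := (pts L e G₀ G₁).erase p₀ with hI
    have hp₀' := c4b_mem_pts.1 hp₀
    have hline : ∀ q ∈ I, cl L e (p₀ ∪ q) ∈ lns L e G₀ G₁ ∧ p₀ ⊂ cl L e (p₀ ∪ q) ∧
        q ⊂ cl L e (p₀ ∪ q) ∧ ∀ l ∈ lns L e G₀ G₁, p₀ ⊂ l → q ⊂ l → cl L e (p₀ ∪ q) = l := by
      intro q hq
      exact c4b_line hG₀ hG₁ hn3 hp₀ (Finset.mem_of_mem_erase hq)
        (Finset.ne_of_mem_erase hq).symm
    have hfacts : ∀ q ∈ I, IsML (van L G₀) (A (cl L e (p₀ ∪ q)) p₀ q) ∧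
        Fil L G₀ p₀ (t 0) (A (cl L e (p₀ ∪ q)) p₀ q) ∧
        Fil L G₀ q (t 0) (A (cl L e (p₀ ∪ q)) p₀ q) := by
      intro q hq
      obtain ⟨h1, h2, h3, _⟩ := hline q hq
      obtain ⟨a1, a2, a3, _⟩ := (hA _ h1).1 p₀ hp₀ h2 q (Finset.mem_of_mem_erase hq) h3
        (Finset.ne_of_mem_erase hq).symm
      exact ⟨a1, a2, a3⟩
    have hsum0 : ∀ c : ι → K → F, (∀ i, c i ∈ van L G₀) →
        ∑ q ∈ I, A (cl L e (p₀ ∪ q)) p₀ q c = 0 := by
      intro c hc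
      have h1 := h.sum [p₀] [] c hc
      have h2 : ∑ X : Finset K, g ([p₀] ++ X :: []) c =
          ∑ l ∈ (lns L e G₀ G₁).filter (fun l => p₀ ⊂ l), g [p₀, l] c := by
        symm
        apply Finset.sum_subset_zero_on_sdiff (Finset.subset_univ _)
        · intro X hX
          rw [Finset.mem_sdiff, Finset.mem_filter] at hX
          apply h.supp _ _ c hc
          intro hfl
          have := (c4b_flag hG₀ hG₁ hn3).1 hfl
          exact hX.2 ⟨this.2.1, this.2.2⟩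
        · intro X _
          rfl
      rw [h2] at h1
      rw [← h1, ← Finset.sum_fiberwise_of_maps_to (s := I)
        (t := (lns L e G₀ G₁).filter (fun l => p₀ ⊂ l)) (g := fun q => cl L e (p₀ ∪ q))]
      · apply Finset.sum_congr rfl
        intro l hl
        rw [Finset.mem_filter] at hl
        rw [(hA l hl.1).2 p₀ hp₀ hl.2 c hc]
        apply Finset.sum_congr
        · ext q
          rw [Finset.mem_filter, Finset.mem_filter]
          constructor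
          · rintro ⟨hq, heq⟩
            have := hline q hq
            rw [heq] at this
            exact ⟨Finset.mem_of_mem_erase hq, this.2.2.1, Finset.ne_of_mem_erase hq⟩
          · rintro ⟨hq1, hq2, hq3⟩
            have hqI : q ∈ I := Finset.mem_erase.2 ⟨hq3, hq1⟩
            exact ⟨hqI, (hline q hqI).2.2.2 l hl.1 hl.2 hq2⟩
        · intro q hq
          rw [Finset.mem_filter] at hq
          have hqI : q ∈ I := Finset.mem_erase.2 ⟨hq.2.2, hq.1⟩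
          rw [(hline q hqI).2.2.2 l hl.1 hl.2 hq.2.1]
      · intro q hq
        rw [Finset.mem_filter]
        exact ⟨(hline q hq).1, (hline q hq).2.1⟩
    have hkill := kill hd hG₀ hp₀'.1 hp₀'.1 hp₀'.2.1.subset (Finset.Subset.refl p₀) hp₀'.2.2.2 I
      (fun q hq => by
        have hq' := c4b_mem_pts.1 (Finset.mem_of_mem_erase hq)
        refine ⟨hq'.1, hq'.2.1.subset, hq'.2.2.2, fun hsub => ?_⟩
        have hne := Finset.ne_of_mem_erase hq
        have := hq'.1.nn_lt (Finset.ssubset_iff_subset_ne.2 ⟨hsub, hne⟩)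
        have h4 := hq'.2.2.2
        have h5 := hp₀'.2.2.2
        omega) ht2 ht1 (fun q => A (cl L e (p₀ ∪ q)) p₀ q) (fun q hq => (hfacts q hq).1)
      (fun q hq => (hfacts q hq).2.1) (fun q hq => (hfacts q hq).2.2)
      (fun c hc _ => hsum0 c hc)
    have hp'I : p' ∈ I := Finset.mem_erase.2 ⟨hp'3, hp'1⟩
    have := hkill p' hp'I c hc
    rwa [(hline p' hp'I).2.2.2 l₀ hl₀ hpl₀ hp'2] at this

/-- `t 2 = d`: cut at the third flat -/
theorem c4b_top {l : ℕ} (hl : 3 ≤ l) {t : ℕ → ℕ} {d : ℕ} (h2 : t 2 = d)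
    (h : Van L e 2 t d) : Van L e l t d := by
  classical
  intro ι _ _ hι G₀ G₁ g hn hc σ c hcU
  by_cases hflag : Flag L e G₁ G₀ σ
  swap
  · exact hc.supp σ hflag c hcU
  have hlen := hflag.nn_eq
  have hlen2 : σ.length = l := by omega
  have hlt : 2 < σ.length := by omega
  obtain ⟨σ₁, X, σ₂, hσ, hσ₁⟩ : ∃ σ₁ X σ₂, σ = σ₁ ++ X :: σ₂ ∧ σ₁.length = 2 := by
    refine ⟨σ.take 2, σ[2], σ.drop 3, ?_, ?_⟩
    · rw [List.getElem_cons_drop, List.take_append_drop]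
    · rw [List.length_take]; omega
  subst hσ
  have hX := hflag.nn_mem
  rw [hσ₁] at hX
  have hlow := hc.low (i := 2) (b := d) h2 X hX σ₂ (∅ : Finset ι) (by simp [hι]) (fun _ => 0)
    (fun _ => Submodule.zero_mem _) (fun j hj => absurd hj (Finset.notMem_empty j))
  have hcard : Fintype.card {j : ι // j ∉ (∅ : Finset ι)} = d := by
    rw [← hι]
    apply Fintype.card_congr
    exact Equiv.subtypeUnivEquiv (fun j => Finset.notMem_empty j)
  have hz := h _ hcard G₀ X _ (by rw [hX]) hlow σ₁ (fun j => c j.1) (fun j => hcU j.1)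
  simpa using hz

/-- (P) in general -/
theorem P (hd : Dense L e) {l : ℕ} (hl : 2 ≤ l) {t : ℕ → ℕ} {d : ℕ}
    (ht : (d < 2 * t 0 ∧ 1 ≤ t 0) ∨ (d = 2 * t 0 ∧ 2 ≤ t 0 ∧ t 0 + 1 ≤ t 1)) :
    Van L e l t d := by
  rcases Nat.lt_or_ge 2 l with hl3 | hl2
  swap
  · have : l = 2 := le_antisymm hl2 hl
    subst this
    exact P2 hd ht
  -- thresholds `t 2 ≤ d`, induction
  have key : ∀ k : ℕ, ∀ t : ℕ → ℕ, ((d < 2 * t 0 ∧ 1 ≤ t 0) ∨
      (d = 2 * t 0 ∧ 2 ≤ t 0 ∧ t 0 + 1 ≤ t 1)) → t 2 + k = d → Van L e l t d := by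
    intro k
    induction k with
    | zero =>
      intro t ht h2
      exact c4b_top (by omega) (by omega) (P2 hd ht)
    | succ k ih =>
      intro t ht h2
      have hbd : t 2 < d := by omega
      apply Van.of_update (i := 2) (b := t 2) hl3 rfl hbd
      · left
        apply P2 hd
        left
        rcases ht with ⟨h1, h3⟩ | ⟨h1, h3, _⟩
        · exact ⟨by omega, h3⟩
        · exact ⟨by omega, by omega⟩
      · apply ih
        · simpa [Function.update_apply] using ht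
        · simp [Function.update_apply]
          omega
  rcases Nat.lt_or_ge (t 2) d with hlt | hge
  · exact key (d - t 2) t ht (by omega)
  · have h1 : Van L e l (Function.update t 2 d) d := by
      apply key 0
      · simpa [Function.update_apply] using ht
      · simp
    apply h1.congr_thr
    intro j _
    by_cases hj : j = 2
    · subst hj; simpa using hge
    · simp [Function.update_of_ne hj]

end Pool.Agent.MP_d4f4ab_ag.W
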