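import Pool.Agent.MP_d4f4ab_ag.W.C4

/-! [WR-C5] the induction (WR_PROOF.md section 6). -/

open Finset

namespace Pool.Agent.MP_d4f4ab_ag.W

variable {F : Type*} [Field F] {K : Type*} [Fintype K] [DecidableEq K]
  {L : Submodule F (K → F)} {e : ℕ}

/-- equality of the first `l` thresholds -/
theorem c5_congr {l d : ℕ} {t t' : ℕ → ℕ} (h : Van L e l t d) (ht : ∀ j < l, t j = t' j) :
    Van L e l t' d :=
  h.congr_thr fun j hj => le_of_eq (ht j hj)

/-- raising the thresholds to `d` one after the other, from the right -/
theorem c5_raise (hd : Dense L e) {l k : ℕ} (hl : 2 ≤ l) :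
    ∀ i, i + 2 ≤ l → Van L e l (fun j => if j < i then j + 2 + k else l + 1 + k) (l + 1 + k) := by
  intro i
  induction i with
  | zero =>
    intro _
    refine c5_congr (F1' hd (l := l) (d := l + 1 + k) (by omega) (by omega)) ?_
    intro j _
    simp
  | succ i ih =>
    intro hi
    have h0 := ih (by omega)
    -- inner induction
    have key : ∀ s b, b + s = l + 1 + k → i + 2 + k ≤ b →
        Van L e l (Function.update (fun j => if j < i then j + 2 + k else l + 1 + k) i b)
          (l + 1 + k) := by
      intro s
      induction s with
      | zero =>
        intro b hb _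
        refine c5_congr h0 ?_
        intro j _
        by_cases hj : j = i
        · subst hj
          simp
          omega
        · rw [Function.update_of_ne hj]
      | succ s ihs =>
        intro b hb hbi
        have h1 := ihs (b + 1) (by omega) (by omega)
        refine Van.of_update (i := i) (b := b) (by omega) (by simp) (by omega) (Or.inr ?_) ?_
        · have h2 : Van L e (l - 1 - i) (fun _ => l + 1 + k - b) (l + 1 + k - b) := by
            rcases Nat.lt_or_ge (l + 1 + k - b) 2 with h3 | h3
            · have h4 : l + 1 + k - b = 1 := by omega
              rw [h4]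
              exact F2' hd (by omega)
            · exact F1' hd (by omega) h3
          refine c5_congr h2 ?_
          intro j _
          rw [Function.update_of_ne (by omega), if_neg (by omega)]
        · rw [Function.update_idem]
          exact h1
    have h5 := key (l + 1 + k - (i + 2 + k)) (i + 2 + k) (by omega) le_rfl
    refine c5_congr h5 ?_
    intro j _
    by_cases hj : j = i
    · subst hj
      simp
    · rw [Function.update_of_ne hj]
      by_cases hj2 : j < i
      · rw [if_pos hj2, if_pos (by omega)]
      · rw [if_neg hj2, if_neg (by omega)]

/-- A(k, l), B(k, l) and T(l) by strong induction on `l` -/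
theorem ABT (hd : Dense L e) (l : ℕ) :
    (1 ≤ l → Van L e l (fun j => j + 2) (l + 1)) ∧
    (2 ≤ l → ∀ k, 1 ≤ k → Van L e l (fun j => j + 1 + k) (l + 1 + k)) ∧
    (2 ≤ l → ∀ k, Van L e l (fun j => j + 2 + k) (l + 1 + k)) := by
  induction l using Nat.strong_induction_on with
  | _ l IH =>
    have hB : 2 ≤ l → ∀ k, Van L e l (fun j => j + 2 + k) (l + 1 + k) := by
      intro hl k
      rcases Nat.lt_or_ge (k + 3) l with h | h
      · -- `l ≥ k + 4`
        have hA := (IH (l - 2) (by omega)).2.1 (by omega) (k + 1) (by omega)
        have hS := c5_raise (k := k) hd hl (l - 2) (by omega)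
        refine Van.of_update (i := l - 2) (b := l + k) (by omega) (by omega) (by omega)
          (Or.inl ?_) ?_
        · have h1 : l - 2 + 1 + (k + 1) = l + k := by omega
          rw [h1] at hA
          refine c5_congr hA ?_
          intro j _
          omega
        · refine c5_congr hS ?_
          intro j hj
          by_cases hj1 : j = l - 2
          · subst hj1
            rw [Function.update_self, if_neg (by omega)]
            omega
          · rw [Function.update_of_ne hj1]
            by_cases hj2 : j < l - 2
            · rw [if_pos hj2]
            · rw [if_neg hj2]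
              omega
      · refine P hd hl ?_
        show (l + 1 + k < 2 * (0 + 2 + k) ∧ 1 ≤ 0 + 2 + k) ∨
          (l + 1 + k = 2 * (0 + 2 + k) ∧ 2 ≤ 0 + 2 + k ∧ 0 + 2 + k + 1 ≤ 1 + 2 + k)
        omega
    have hT : 1 ≤ l → Van L e l (fun j => j + 2) (l + 1) := by
      intro hl
      rcases Nat.lt_or_ge l 2 with h | h
      · have h1 : l = 1 := by omega
        subst h1
        refine c5_congr (F1 hd (d := 2) le_rfl) ?_
        intro j hj
        omega
      · exact hB h 0
    refine ⟨hT, ?_, hB⟩
    intro hl k hk
    rcases Nat.lt_or_ge l 3 with h | h
    · have h1 : l = 2 := by omega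
      subst h1
      refine P hd le_rfl ?_
      show (2 + 1 + k < 2 * (0 + 1 + k) ∧ 1 ≤ 0 + 1 + k) ∨
        (2 + 1 + k = 2 * (0 + 1 + k) ∧ 2 ≤ 0 + 1 + k ∧ 0 + 1 + k + 1 ≤ 1 + 1 + k)
      omega
    · -- `l ≥ 3`
      have key : ∀ i, i ≤ l →
          Van L e l (fun j => if j < i then j + 1 + k else j + 2 + k) (l + 1 + k) := by
        intro i
        induction i with
        | zero =>
          intro _
          refine c5_congr (hB hl k) ?_
          intro j _
          simp
        | succ i ih =>
          intro hi
          have h0 := ih (by omega)
          refine Van.of_update (i := i) (b := i + 1 + k) (by omega) (by simp) (by omega) ?_ ?_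
          · rcases Nat.lt_or_ge (i + 1) l with h1 | h1
            · right
              have hT' := (IH (l - 1 - i) (by omega)).1 (by omega)
              have h2 : l + 1 + k - (i + 1 + k) = l - 1 - i + 1 := by omega
              rw [h2]
              refine c5_congr hT' ?_
              intro j _
              rw [if_neg (by omega)]
              omega
            · left
              have h2 : i = l - 1 := by omega
              have hA := (IH (l - 1) (by omega)).2.1 (by omega) k hk
              subst h2
              refine c5_congr hA ?_
              intro j hj
              rw [if_pos (by omega)]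
          · refine c5_congr h0 ?_
            intro j _
            by_cases hj : j = i
            · subst hj
              rw [Function.update_self, if_neg (lt_irrefl _)]
              omega
            · rw [Function.update_of_ne hj]
              by_cases hj2 : j < i
              · rw [if_pos hj2, if_pos (by omega)]
              · rw [if_neg hj2, if_neg (by omega)]
      refine c5_congr (key l le_rfl) ?_
      intro j hj
      rw [if_pos hj]

theorem TT (hd : Dense L e) {l : ℕ} (hl : 1 ≤ l) : Van L e l (fun j => j + 2) (l + 1) :=
  (ABT hd l).1 hl

end Pool.Agent.MP_d4f4ab_ag.W
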