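import Pool.Agent.MP_d4f4ab_ag.W.C5

/-! [WR-D1] polynomial functions, Ord, polarisation (WR_PROOF.md section 7). -/

open Finset

namespace Pool.Agent.MP_d4f4ab_ag.W

variable {F : Type*} [Field F] {K : Type*} [Fintype K] [DecidableEq K]

/-- the polynomial `P (∑ i, λ_i c_i)` in the variables `λ_i` -/
noncomputable def polz {ι : Type*} [Fintype ι] (P : MvPolynomial K F) (c : ι → K → F) :
    MvPolynomial ι F :=
  MvPolynomial.aeval (fun y => ∑ i, MvPolynomial.C (c i y) * MvPolynomial.X i) P

/-- the coefficient of `λ ^ w` -/
noncomputable def pw {ι : Type*} [Fintype ι] (P : MvPolynomial K F) (w : ι →₀ ℕ) (c : ι → K → F) :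
    F :=
  (polz P c).coeff w

theorem eval_polz {ι : Type*} [Fintype ι] (P : MvPolynomial K F) (c : ι → K → F) (s : ι → F) :
    MvPolynomial.eval s (polz P c) = MvPolynomial.eval (∑ i, s i • c i) P := by
  unfold polz
  induction P using MvPolynomial.induction_on with
  | C r => simp
  | add p q hp hq => rw [map_add, map_add, map_add, hp, hq]
  | mul_X p y hp =>
    rw [map_mul, map_mul, map_mul, hp]
    simp only [MvPolynomial.aeval_X, MvPolynomial.eval_X, map_sum, map_mul, MvPolynomial.eval_C,
      Finset.sum_apply, Pi.smul_apply, smul_eq_mul, mul_comm (s _)]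

theorem d1a_hom {ι : Type*} [Fintype ι] {P : MvPolynomial K F} {m : ℕ}
    (hP : P.IsHomogeneous m) (c : ι → K → F) : (polz P c).IsHomogeneous m := by
  have h1 := hP.aeval (fun y => ∑ i, MvPolynomial.C (c i y) * MvPolynomial.X i)
    (n := 1) (fun y => MvPolynomial.IsHomogeneous.sum _ _ _ fun i _ => by
      simpa using (MvPolynomial.isHomogeneous_C ι (c i y)).mul (MvPolynomial.isHomogeneous_X F i))
  rw [one_mul] at h1
  exact h1

theorem pw_eq_zero_of_degree {ι : Type*} [Fintype ι] {P : MvPolynomial K F} {m : ℕ}
    (hP : P.IsHomogeneous m) {w : ι →₀ ℕ} (hw : ∑ i, w i ≠ m) (c : ι → K → F) :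
    pw P w c = 0 := by
  refine (d1a_hom hP c).coeff_eq_zero ?_
  rwa [Finsupp.degree_eq_sum]

theorem d1a_aeval_mul {A : Type*} [CommRing A] [Algebra F A] {P : MvPolynomial K F} {m : ℕ}
    (hP : P.IsHomogeneous m) (g : K → A) (t : A) :
    MvPolynomial.aeval (fun y => g y * t) P = MvPolynomial.aeval g P * t ^ m := by
  rw [MvPolynomial.aeval_def, MvPolynomial.aeval_def, MvPolynomial.eval₂_eq,
    MvPolynomial.eval₂_eq, Finset.sum_mul]
  refine Finset.sum_congr rfl fun d hd => ?_
  have h1 : d.degree = m := by
    by_contra hne
    exact MvPolynomial.mem_support_iff.1 hd (hP.coeff_eq_zero hne)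
  have h2 : ∏ i ∈ d.support, (g i * t) ^ d i = (∏ i ∈ d.support, g i ^ d i) * t ^ m := by
    rw [← h1, Finsupp.degree_apply, ← Finset.prod_pow_eq_pow_sum, ← Finset.prod_mul_distrib]
    exact Finset.prod_congr rfl fun i _ => mul_pow _ _ _
  rw [h2, mul_assoc]

/-- one slot: `pw P (m) = P` -/
theorem pw_one_slot {ι : Type*} [Fintype ι] [DecidableEq ι] (hι : Fintype.card ι = 1)
    {P : MvPolynomial K F} {m : ℕ} (hP : P.IsHomogeneous m) {w : ι →₀ ℕ} (hw : ∑ i, w i = m)
    (c : ι → K → F) (i : ι) : pw P w c = MvPolynomial.eval (c i) P := by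
  classical
  have huniv : (Finset.univ : Finset ι) = {i} := by
    apply (Finset.eq_of_subset_of_card_le (Finset.subset_univ _) _).symm
    rw [Finset.card_singleton, Finset.card_univ, hι]
  have h1 : polz P c = MvPolynomial.C (MvPolynomial.eval (c i) P) * MvPolynomial.X i ^ m := by
    unfold polz
    rw [huniv]
    simp only [Finset.sum_singleton]
    rw [d1a_aeval_mul hP (fun y => MvPolynomial.C (c i y)) (MvPolynomial.X i)]
    congr 1
    rw [← MvPolynomial.algebraMap_eq, ← MvPolynomial.coe_aeval_eq_eval]
    have h2 := MvPolynomial.aeval_algebraMap_apply (MvPolynomial ι F) (c i) P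
    exact h2
  have h3 : w = Finsupp.single i m := by
    rw [huniv, Finset.sum_singleton] at hw
    ext j
    have hj : j = i := by
      have := Finset.mem_univ j
      rwa [huniv, Finset.mem_singleton] at this
    subst hj
    rw [hw, Finsupp.single_eq_same]
  unfold pw
  rw [h1, h3, MvPolynomial.coeff_C_mul, MvPolynomial.coeff_X_pow, if_pos rfl, mul_one]

theorem d1a_rescale {ι : Type*} [Fintype ι] (r : ι → F) (Q : MvPolynomial ι F) (w : ι →₀ ℕ) :
    (MvPolynomial.aeval (fun j => MvPolynomial.C (r j) * MvPolynomial.X j) Q).coeff w =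
      (∏ j, r j ^ w j) * Q.coeff w := by
  classical
  induction Q using MvPolynomial.induction_on' with
  | monomial u a =>
    have h1 : MvPolynomial.aeval (fun j => MvPolynomial.C (r j) * MvPolynomial.X j)
        (MvPolynomial.monomial u a) = MvPolynomial.monomial u ((∏ j, r j ^ u j) * a) := by
      rw [MvPolynomial.aeval_monomial, MvPolynomial.monomial_eq, Finsupp.prod_fintype _ _
        (fun i => pow_zero _), Finsupp.prod_fintype _ _ (fun i => pow_zero _)]
      simp only [mul_pow, Finset.prod_mul_distrib, MvPolynomial.algebraMap_eq, map_mul, map_prod,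
        map_pow]
      ring
    rw [h1, MvPolynomial.coeff_monomial, MvPolynomial.coeff_monomial]
    split_ifs with h
    · rw [h]
    · rw [mul_zero]
  | add p q hp hq => rw [map_add, MvPolynomial.coeff_add, MvPolynomial.coeff_add, hp, hq, mul_add]

theorem pw_smul {ι : Type*} [Fintype ι] [DecidableEq ι] (P : MvPolynomial K F) (w : ι →₀ ℕ)
    (c : ι → K → F) (i : ι) (s : F) (a : K → F) :
    pw P w (Function.update c i (s • a)) = s ^ (w i) * pw P w (Function.update c i a) := by
  have h1 : polz P (Function.update c i (s • a)) =
      MvPolynomial.aeval (fun j => MvPolynomial.C (if j = i then s else 1) * MvPolynomial.X j)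
        (polz P (Function.update c i a)) := by
    unfold polz
    induction P using MvPolynomial.induction_on with
    | C r =>
      rw [MvPolynomial.aeval_C, MvPolynomial.aeval_C, MvPolynomial.algebraMap_eq,
        MvPolynomial.aeval_C, MvPolynomial.algebraMap_eq]
    | add p q hp hq => rw [map_add, map_add, map_add, hp, hq]
    | mul_X p y hp =>
      rw [map_mul, map_mul, map_mul, hp]
      congr 1
      rw [MvPolynomial.aeval_X, MvPolynomial.aeval_X, map_sum]
      refine Finset.sum_congr rfl fun j _ => ?_
      rw [map_mul, MvPolynomial.aeval_C, MvPolynomial.algebraMap_eq, MvPolynomial.aeval_X]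
      by_cases hj : j = i
      · subst hj
        rw [Function.update_self, Function.update_self, if_pos rfl, Pi.smul_apply, smul_eq_mul,
          map_mul]
        ring
      · rw [Function.update_of_ne hj, Function.update_of_ne hj, if_neg hj, map_one, one_mul]
  unfold pw
  rw [h1, d1a_rescale]
  congr 1
  rw [Finset.prod_eq_single i]
  · rw [if_pos rfl]
  · intro j _ hj
    rw [if_neg hj, one_pow]
  · intro h
    exact absurd (Finset.mem_univ i) h

omit [Fintype K] [DecidableEq K] in
theorem d1b_polz_map {ι κ : Type*} [Fintype ι] [Fintype κ] (P : MvPolynomial K F)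
    (c : ι → K → F) (c' : κ → K → F) (φ : MvPolynomial κ F →ₐ[F] MvPolynomial ι F)
    (h : ∀ y, ∑ i, MvPolynomial.C (c i y) * MvPolynomial.X i =
      φ (∑ i, MvPolynomial.C (c' i y) * MvPolynomial.X i)) :
    polz P c = φ (polz P c') := by
  unfold polz
  rw [← AlgHom.comp_apply, MvPolynomial.comp_aeval]
  congr 2
  funext y
  exact h y

theorem d1b_coeff_rename {ι κ : Type*} [DecidableEq ι] (f : κ → ι) (w : ι →₀ ℕ)
    (Q : MvPolynomial κ F) : (MvPolynomial.rename f Q).coeff w =
      ∑ v ∈ Q.support.filter (fun v => Finsupp.mapDomain f v = w), Q.coeff v := by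
  classical
  conv_lhs => rw [Q.as_sum, map_sum, MvPolynomial.coeff_sum]
  rw [Finset.sum_filter]
  refine Finset.sum_congr rfl fun v _ => ?_
  rw [MvPolynomial.rename_monomial, MvPolynomial.coeff_monomial]

omit [Fintype K] [DecidableEq K] in
theorem d1b_perm {ι κ : Type*} [Fintype ι] [Fintype κ] (P : MvPolynomial K F)
    (e : κ ≃ ι) (w : κ →₀ ℕ) (w' : ι →₀ ℕ) (c : κ → K → F) (c' : ι → K → F)
    (hw : ∀ k, w' (e k) = w k) (hc : ∀ k, c' (e k) = c k) : pw P w' c' = pw P w c := by
  have h1 : polz P c' = MvPolynomial.rename e (polz P c) := by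
    refine d1b_polz_map P _ _ _ fun y => ?_
    rw [map_sum, ← Equiv.sum_comp e]
    refine Finset.sum_congr rfl fun k _ => ?_
    rw [map_mul, MvPolynomial.rename_C, MvPolynomial.rename_X, hc]
  have h2 : w' = Finsupp.mapDomain e w := by
    ext i
    obtain ⟨k, rfl⟩ := e.surjective i
    rw [Finsupp.mapDomain_apply e.injective, hw]
  unfold pw
  rw [h1, h2, MvPolynomial.coeff_rename_mapDomain _ e.injective]

/-- splitting the argument in slot `i` in two: slots `Option ι`, `none` being the new slot -/
theorem pw_add {ι : Type*} [Fintype ι] [DecidableEq ι] (P : MvPolynomial K F) (w : ι →₀ ℕ)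
    (c : ι → K → F) (i : ι) (a b : K → F) :
    pw P w (Function.update c i (a + b)) =
      ∑ k ∈ Finset.range (w i + 1), pw P
        (Finsupp.equivFunOnFinite.symm
          (fun o : Option ι => o.elim k (fun j => if j = i then w i - k else w j)))
        (fun o : Option ι => o.elim b (Function.update c i a)) := by
  set c' : Option ι → K → F := fun o : Option ι => o.elim b (Function.update c i a) with hc'
  set u : ℕ → Option ι →₀ ℕ := fun k => Finsupp.equivFunOnFinite.symm
          (fun o : Option ι => o.elim k (fun j => if j = i then w i - k else w j)) with hu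
  have h1 : polz P (Function.update c i (a + b)) =
      MvPolynomial.rename (fun o : Option ι => o.elim i id) (polz P c') := by
    refine d1b_polz_map P _ _ _ fun y => ?_
    rw [map_sum, Fintype.sum_option]
    simp only [hc', map_mul, MvPolynomial.rename_C, MvPolynomial.rename_X, Option.elim]
    rw [← Finset.add_sum_erase _ _ (Finset.mem_univ i),
      ← Finset.add_sum_erase Finset.univ (fun j => MvPolynomial.C (Function.update c i a j y) *
        MvPolynomial.X (id j)) (Finset.mem_univ i)]
    rw [← add_assoc]
    congr 1
    · simp only [Function.update_self, id, Pi.add_apply, map_add]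
      ring
    · refine Finset.sum_congr rfl fun j hj => ?_
      rw [Function.update_of_ne (Finset.ne_of_mem_erase hj),
        Function.update_of_ne (Finset.ne_of_mem_erase hj), id]
  have hcoe : ∀ v : Option ι →₀ ℕ, Finsupp.mapDomain (fun o : Option ι => o.elim i id) v = w ↔
      ∃ k ∈ Finset.range (w i + 1), v = u k := by
    intro v
    have hmap : ∀ j, Finsupp.mapDomain (fun o : Option ι => o.elim i id) v j =
        (if i = j then v none else 0) + v (some j) := by
      intro j
      rw [Finsupp.mapDomain, Finsupp.sum_apply, Finsupp.sum_fintype _ _ (by simp),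
        Fintype.sum_option]
      simp only [Option.elim, id, Finsupp.single_apply]
      rw [Finset.sum_ite_eq' Finset.univ j fun l => v (some l)]
      simp
    constructor
    · intro h
      refine ⟨v none, ?_, ?_⟩
      · have := hmap i
        rw [h, if_pos rfl] at this
        rw [Finset.mem_range]
        omega
      · ext o
        cases o with
        | none => simp [hu]
        | some j =>
          have h2 := hmap j
          rw [h] at h2
          simp only [hu, Finsupp.coe_equivFunOnFinite_symm, Option.elim]
          split_ifs with hji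
          · subst hji
            rw [if_pos rfl] at h2
            omega
          · rw [if_neg (Ne.symm hji)] at h2
            omega
    · rintro ⟨k, hk, rfl⟩
      rw [Finset.mem_range] at hk
      ext j
      rw [hmap j]
      simp only [hu, Finsupp.coe_equivFunOnFinite_symm, Option.elim]
      by_cases hji : j = i
      · subst hji
        simp
        omega
      · rw [if_neg (Ne.symm hji), if_neg hji, zero_add]
  have hinj : ∀ k l, u k = u l → k = l := by
    intro k l h
    have := DFunLike.congr_fun h none
    simpa [hu] using this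
  unfold pw
  rw [h1, d1b_coeff_rename]
  rw [← Finset.sum_image (s := Finset.range (w i + 1)) (g := u) (f := fun v => (polz P c').coeff v)
    (fun k _ l _ h => hinj k l h)]
  refine Finset.sum_subset_zero_on_sdiff ?_ ?_ fun _ _ => rfl
  · intro v hv
    rw [Finset.mem_filter] at hv
    obtain ⟨k, hk, rfl⟩ := (hcoe v).1 hv.2
    exact Finset.mem_image_of_mem _ hk
  · intro v hv
    rw [Finset.mem_sdiff, Finset.mem_filter] at hv
    obtain ⟨k, hk, rfl⟩ := Finset.mem_image.1 hv.1
    by_contra h0
    exact hv.2 ⟨MvPolynomial.mem_support_iff.2 h0, (hcoe _).2 ⟨k, hk, rfl⟩⟩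

/-- a slot of weight `0` can be forgotten -/
theorem pw_option_zero {ι : Type*} [Fintype ι] [DecidableEq ι] (P : MvPolynomial K F)
    (w : Option ι →₀ ℕ) (hw : w none = 0) (c : Option ι → K → F) :
    pw P w c = pw P (Finsupp.equivFunOnFinite.symm fun i : ι => w (some i)) (fun i => c (some i)) := by
  set ψ : MvPolynomial (Option ι) F →ₐ[F] MvPolynomial ι F :=
    MvPolynomial.aeval (fun o : Option ι => o.elim 0 MvPolynomial.X) with hψ
  have h1 : polz P (fun i => c (some i)) = ψ (polz P c) := by
    refine d1b_polz_map P _ _ _ fun y => ?_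
    rw [map_sum, Fintype.sum_option]
    simp only [hψ, map_mul, MvPolynomial.aeval_X, Option.elim, mul_zero, zero_add,
      MvPolynomial.algHom_C]
    rfl
  have h2 : ∀ Q : MvPolynomial (Option ι) F,
      (ψ Q).coeff (Finsupp.equivFunOnFinite.symm fun i : ι => w (some i)) = Q.coeff w := by
    intro Q
    induction Q using MvPolynomial.induction_on' with
    | add p q hp hq => rw [map_add, MvPolynomial.coeff_add, hp, hq, MvPolynomial.coeff_add]
    | monomial u r =>
      rw [hψ, MvPolynomial.aeval_monomial, Finsupp.prod_fintype _ _ (by simp),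
        Fintype.prod_option]
      simp only [Option.elim]
      by_cases hu : u none = 0
      · rw [hu, pow_zero, one_mul]
        have h3 : (∏ i : ι, (MvPolynomial.X i : MvPolynomial ι F) ^ u (some i)) =
            MvPolynomial.monomial (Finsupp.equivFunOnFinite.symm fun i : ι => u (some i)) 1 := by
          rw [MvPolynomial.monomial_eq, Finsupp.prod_fintype _ _ (by simp)]
          simp
        rw [h3, MvPolynomial.algebraMap_eq, MvPolynomial.C_mul_monomial, mul_one,
          MvPolynomial.coeff_monomial, MvPolynomial.coeff_monomial]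
        congr 1
        apply propext
        constructor
        · intro h
          ext o
          cases o with
          | none => rw [hu, hw]
          | some i => exact DFunLike.congr_fun h i
        · intro h
          rw [h]
      · rw [zero_pow hu, zero_mul, mul_zero, MvPolynomial.coeff_zero, MvPolynomial.coeff_monomial,
          if_neg]
        rintro rfl
        exact hu hw
  unfold pw
  rw [h1, h2]

/-- additivity defect: for two decompositions with `k = 0` and `k = w i` -/
theorem pw_add_of_forall {ι : Type*} [Fintype ι] [DecidableEq ι] (P : MvPolynomial K F)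
    (w : ι →₀ ℕ) (c : ι → K → F) (i : ι) (a b : K → F) (hw : 1 ≤ w i)
    (h : ∀ k, 1 ≤ k → k < w i → pw P
        (Finsupp.equivFunOnFinite.symm
          (fun o : Option ι => o.elim k (fun j => if j = i then w i - k else w j)))
        (fun o : Option ι => o.elim b (Function.update c i a)) = 0) :
    pw P w (Function.update c i (a + b)) =
      pw P w (Function.update c i a) + pw P w (Function.update c i b) := by
  rw [pw_add]
  obtain ⟨m, hm⟩ : ∃ m, w i = m + 1 := ⟨w i - 1, by omega⟩
  rw [Finset.sum_range_succ, hm, Finset.sum_range_succ', Finset.sum_eq_zero, zero_add]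
  · congr 1
    · rw [pw_option_zero _ _ (by simp)]
      congr 1
      ext j
      simp only [Finsupp.coe_equivFunOnFinite_symm, Option.elim]
      split_ifs with h1
      · rw [h1, hm]; rfl
      · rfl
    · set e : Option ι ≃ Option ι := Equiv.swap none (some i) with he
      have h1 := d1b_perm P e
        (Finsupp.equivFunOnFinite.symm
          (fun o : Option ι => o.elim (m + 1) (fun j => if j = i then m + 1 - (m + 1) else w j)))
        (Finsupp.equivFunOnFinite.symm
          (fun o : Option ι => o.elim 0 (fun j => w j)))
        (fun o : Option ι => o.elim b (Function.update c i a))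
        (fun o : Option ι => o.elim a (Function.update c i b)) ?_ ?_
      · rw [← h1, pw_option_zero _ _ (by simp)]
        congr 1
        ext j
        rfl
      · intro o
        cases o with
        | none => simp [he, hm]
        | some j =>
          by_cases hj : j = i
          · subst hj
            simp [he]
          · rw [he, Equiv.swap_apply_of_ne_of_ne (by simp) (by simpa using hj)]
            simp [hj]
      · intro o
        cases o with
        | none => simp [he]
        | some j =>
          by_cases hj : j = i
          · subst hj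
            simp [he]
          · rw [he, Equiv.swap_apply_of_ne_of_ne (by simp) (by simpa using hj)]
            simp [hj]
  · intro k hk
    rw [Finset.mem_range] at hk
    have := h (k + 1) (by omega) (by omega)
    rw [hm] at this
    exact this

theorem pw_update_zero {ι : Type*} [Fintype ι] [DecidableEq ι] (P : MvPolynomial K F)
    (w : ι →₀ ℕ) (c : ι → K → F) (i : ι) (hi : 1 ≤ w i) (h0 : c i = 0) : pw P w c = 0 := by
  have h1 : c = Function.update c i ((0 : F) • (0 : K → F)) := by
    rw [smul_zero, ← h0, Function.update_eq_self]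
  rw [h1, pw_smul, zero_pow (by omega), zero_mul]

theorem pw_sum {ι : Type*} [Fintype ι] {β : Type*} (s : Finset β) (P : β → MvPolynomial K F)
    (w : ι →₀ ℕ) (c : ι → K → F) : pw (∑ x ∈ s, P x) w c = ∑ x ∈ s, pw (P x) w c := by
  unfold pw polz
  rw [map_sum, MvPolynomial.coeff_sum]

/-- two polynomials equal as functions on `U` have the same polarisations on `U` -/
theorem pw_congr [Infinite F] {ι : Type*} [Fintype ι] (U : Submodule F (K → F))
    {P Q : MvPolynomial K F} (h : ∀ c ∈ U, MvPolynomial.eval c P = MvPolynomial.eval c Q)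
    (w : ι →₀ ℕ) (c : ι → K → F) (hc : ∀ i, c i ∈ U) : pw P w c = pw Q w c := by
  have h1 : polz P c = polz Q c := by
    apply MvPolynomial.funext
    intro s
    rw [eval_polz, eval_polz]
    exact h _ (U.sum_mem fun i _ => U.smul_mem _ (hc i))
  unfold pw
  rw [h1]

/-- the polynomial obtained by multiplying the variables outside of `J` with the new variable -/
noncomputable def d1c_phi {ι : Type*} [Fintype ι] [DecidableEq ι] (J : Finset ι)
    (R : MvPolynomial ι F) : Polynomial (MvPolynomial ι F) :=
  MvPolynomial.aeval (fun i => if i ∈ J then Polynomial.C (MvPolynomial.X i) else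
    Polynomial.X * Polynomial.C (MvPolynomial.X i)) R

theorem d1c_eval {ι : Type*} [Fintype ι] [DecidableEq ι] (J : Finset ι) (R : MvPolynomial ι F)
    (s : ι → F) (ν : F) :
    ((d1c_phi J R).map (MvPolynomial.eval s)).eval ν =
      MvPolynomial.eval (fun i => if i ∈ J then s i else ν * s i) R := by
  unfold d1c_phi
  induction R using MvPolynomial.induction_on with
  | C r =>
    rw [MvPolynomial.aeval_C, MvPolynomial.eval_C]
    rw [Polynomial.algebraMap_apply, MvPolynomial.algebraMap_eq, Polynomial.map_C,
      Polynomial.eval_C, MvPolynomial.eval_C]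
  | add p q hp hq =>
    rw [map_add, map_add, Polynomial.map_add, Polynomial.eval_add, hp, hq]
  | mul_X p y hp =>
    rw [map_mul, map_mul, Polynomial.map_mul, Polynomial.eval_mul, hp]
    congr 1
    rw [MvPolynomial.aeval_X, MvPolynomial.eval_X]
    by_cases hy : y ∈ J
    · rw [if_pos hy, if_pos hy, Polynomial.map_C, Polynomial.eval_C, MvPolynomial.eval_X]
    · rw [if_neg hy, if_neg hy, Polynomial.map_mul, Polynomial.map_X, Polynomial.map_C,
        Polynomial.eval_mul, Polynomial.eval_X, Polynomial.eval_C, MvPolynomial.eval_X]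

theorem d1c_coeff {ι : Type*} [Fintype ι] [DecidableEq ι] (J : Finset ι) (R : MvPolynomial ι F)
    (j : ℕ) (w : ι →₀ ℕ) :
    ((d1c_phi J R).coeff j).coeff w =
      if ∑ i ∈ Finset.univ.filter (fun i => i ∉ J), w i = j then R.coeff w else 0 := by
  classical
  induction R using MvPolynomial.induction_on' with
  | monomial u a =>
    have h1 : d1c_phi J (MvPolynomial.monomial u a) =
        Polynomial.C (MvPolynomial.monomial u a) *
          Polynomial.X ^ (∑ i ∈ Finset.univ.filter (fun i => i ∉ J), u i) := by
      unfold d1c_phi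
      have h2 : ∀ i : ι, (if i ∈ J then Polynomial.C (MvPolynomial.X i) else
          Polynomial.X * Polynomial.C (MvPolynomial.X i) : Polynomial (MvPolynomial ι F)) =
          (if i ∈ J then 1 else Polynomial.X) * Polynomial.C (MvPolynomial.X i) := by
        intro i
        split_ifs
        · rw [one_mul]
        · rfl
      have h3 : (Finsupp.prod u fun i k => (if i ∈ J then Polynomial.C (MvPolynomial.X i) else
          Polynomial.X * Polynomial.C (MvPolynomial.X i) : Polynomial (MvPolynomial ι F)) ^ k) =
          (∏ i, (if i ∈ J then 1 else Polynomial.X : Polynomial (MvPolynomial ι F)) ^ u i) *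
            Polynomial.C (∏ i, MvPolynomial.X i ^ u i) := by
        rw [Finsupp.prod_fintype _ _ (fun i => pow_zero _), map_prod, ← Finset.prod_mul_distrib]
        refine Finset.prod_congr rfl fun i _ => ?_
        rw [h2, mul_pow, map_pow]
      have h4 : (∏ i, (if i ∈ J then 1 else Polynomial.X : Polynomial (MvPolynomial ι F)) ^ u i) =
          Polynomial.X ^ (∑ i ∈ Finset.univ.filter (fun i => i ∉ J), u i) := by
        rw [← Finset.prod_pow_eq_pow_sum, Finset.prod_filter]
        refine Finset.prod_congr rfl fun i _ => ?_
        by_cases hi : i ∈ J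
        · rw [if_pos hi, one_pow, if_neg (not_not.2 hi)]
        · rw [if_neg hi, if_pos hi]
      rw [MvPolynomial.aeval_monomial, h3, h4, MvPolynomial.monomial_eq,
        Finsupp.prod_fintype _ _ (fun i => pow_zero _), Polynomial.algebraMap_apply,
        MvPolynomial.algebraMap_eq, map_mul]
      ring
    rw [h1, Polynomial.coeff_C_mul, Polynomial.coeff_X_pow, MvPolynomial.coeff_monomial]
    by_cases hw : u = w
    · subst hw
      by_cases hj : ∑ i ∈ Finset.univ.filter (fun i => i ∉ J), u i = j
      · rw [if_pos hj.symm, if_pos hj, if_pos rfl, mul_one, MvPolynomial.coeff_monomial,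
          if_pos rfl]
      · rw [if_neg (fun h => hj h.symm), if_neg hj, mul_zero, MvPolynomial.coeff_zero]
    · rw [if_neg hw, ite_self]
      by_cases hj : j = ∑ i ∈ Finset.univ.filter (fun i => i ∉ J), u i
      · rw [if_pos hj, mul_one, MvPolynomial.coeff_monomial, if_neg hw]
      · rw [if_neg hj, mul_zero, MvPolynomial.coeff_zero]
  | add p q hp hq =>
    have h1 : d1c_phi J (p + q) = d1c_phi J p + d1c_phi J q := by
      unfold d1c_phi
      rw [map_add]
    rw [h1, Polynomial.coeff_add, MvPolynomial.coeff_add, hp, hq, MvPolynomial.coeff_add]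
    split_ifs
    · rfl
    · rw [add_zero]

open Classical in
/-- order of vanishing and polarisations -/
theorem pw_eq_zero_of_ord [Infinite F] {ι : Type*} [Fintype ι] {U : Submodule F (K → F)}
    {X : Finset K} {P : MvPolynomial K F} {m s : ℕ} (hP : P.IsHomogeneous m)
    (hO : Ord U X s fun c => MvPolynomial.eval c P) (w : ι →₀ ℕ) (c : ι → K → F)
    (hc : ∀ i, c i ∈ U) (hw : m + 1 ≤ s + ∑ i ∈ univ.filter (fun i => c i ∈ van U X), w i) :
    pw P w c = 0 := by
  by_cases hdeg : ∑ i, w i = m
  swap
  · exact pw_eq_zero_of_degree hP hdeg c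
  set J : Finset ι := univ.filter (fun i => c i ∈ van U X) with hJ
  have hJmem : ∀ i, i ∈ J ↔ c i ∈ van U X := fun i => by rw [hJ]; simp
  have hsplit : ∑ i ∈ J, w i + ∑ i ∈ Finset.univ.filter (fun i => i ∉ J), w i = m := by
    rw [← hdeg, ← Finset.sum_filter_add_sum_filter_not Finset.univ (fun i => i ∈ J) w]
    congr 1
    refine Finset.sum_congr ?_ fun _ _ => rfl
    ext i
    simp
  have hlt : ∑ i ∈ Finset.univ.filter (fun i => i ∉ J), w i < s := by omega
  obtain ⟨j, hj⟩ : ∃ j, j = ∑ i ∈ Finset.univ.filter (fun i => i ∉ J), w i := ⟨_, rfl⟩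
  have hcoef : (d1c_phi J (polz P c)).coeff j = 0 := by
    apply MvPolynomial.funext
    intro t
    rw [map_zero]
    have ha : ∑ i ∈ Finset.univ.filter (fun i => i ∉ J), t i • c i ∈ U :=
      U.sum_mem fun i _ => U.smul_mem _ (hc i)
    have hb : ∑ i ∈ J, t i • c i ∈ van U X :=
      (van U X).sum_mem fun i hi => (van U X).smul_mem _ ((hJmem i).1 hi)
    obtain ⟨Q, hQ⟩ := hO _ ha _ hb
    have hpoly : (d1c_phi J (polz P c)).map (MvPolynomial.eval t) = Polynomial.X ^ s * Q := by
      apply Polynomial.funext
      intro ν
      rw [d1c_eval, eval_polz, Polynomial.eval_mul, Polynomial.eval_pow, Polynomial.eval_X, ← hQ]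
      congr 2
      rw [Finset.smul_sum, ← Finset.sum_filter_add_sum_filter_not Finset.univ (fun i => i ∈ J)
        (fun i => (if i ∈ J then t i else ν * t i) • c i), add_comm]
      congr 1
      · refine Finset.sum_congr rfl fun i hi => ?_
        rw [if_neg (Finset.mem_filter.1 hi).2, mul_smul]
      · refine Finset.sum_congr ?_ fun i hi => ?_
        · ext i
          simp
        · rw [if_pos hi]
    have h5 := congrArg (fun p => Polynomial.coeff p j) hpoly
    simp only [Polynomial.coeff_map, Polynomial.coeff_X_pow_mul'] at h5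
    rw [h5, if_neg (by omega)]
  have h6 := d1c_coeff J (polz P c) j w
  rw [hcoef, MvPolynomial.coeff_zero, if_pos hj.symm] at h6
  exact h6.symm

end Pool.Agent.MP_d4f4ab_ag.W
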