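import Pool.Agent.MP_d4f4ab_ag.W.D1

/-! [WR-D2] the symmetric version `T^S` (WR_PROOF.md section 7). -/

open Finset

namespace Pool.Agent.MP_d4f4ab_ag.W

variable {F : Type*} [Field F] {K : Type*} [Fintype K] [DecidableEq K]
  {L : Submodule F (K → F)} {e : ℕ}

/-- a cycle of homogeneous polynomial functions of degree `m` in the interval `[G₀, K]` with the standard orders -/
structure PCyc (L : Submodule F (K → F)) (e m : ℕ) (G₀ : Finset K)
    (g : List (Finset K) → (K → F) → F) : Prop where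
  supp : ∀ σ, ¬ Flag L e univ G₀ σ → ∀ c ∈ van L G₀, g σ c = 0
  pol : ∀ σ, IsPol (van L G₀) m (g σ)
  ord : ∀ σ₁ X σ₂, Ord (van L G₀) X (σ₁.length + 2) (g (σ₁ ++ X :: σ₂))
  sum : ∀ σ₁ σ₂, ∀ c ∈ van L G₀, ∑ X : Finset K, g (σ₁ ++ X :: σ₂) c = 0

/-- one step of the f-trick: the base `B` is `G₀` or the last member of the prefix `pre` -/
theorem d2a_step (hd : Dense L e) (G₀ : Finset K) (ψ : List (Finset K) → (K → F) → F)
    (hsupp : ∀ σ, ¬ Flag L e univ G₀ σ → ∀ c ∈ van L G₀, ψ σ c = 0)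
    (hadd : ∀ σ, ∀ a ∈ van L G₀, ∀ b ∈ van L G₀, ψ σ (a + b) = ψ σ a + ψ σ b)
    (hsmul : ∀ σ, ∀ s : F, ∀ a ∈ van L G₀, ψ σ (s • a) = s * ψ σ a)
    (hsum : ∀ σ₁ σ₂, ∀ c ∈ van L G₀, ∑ X : Finset K, ψ (σ₁ ++ X :: σ₂) c = 0)
    (pre : List (Finset K)) (B : Finset K)
    (hpre : (pre = [] ∧ B = G₀) ∨ ∃ σ₁, pre = σ₁ ++ [B]) (σ₃ : List (Finset K))
    (hv : ∀ Y Z, ∀ c ∈ van L G₀, c ∈ van L Y → ψ (pre ++ Y :: Z :: σ₃) c = 0) :
    ∀ Y Z, ∀ c ∈ van L G₀, c ∈ van L B → ψ (pre ++ Y :: Z :: σ₃) c = 0 := by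
  intro Y Z c hc hcB
  by_cases hfl : Flag L e univ G₀ (pre ++ Y :: Z :: σ₃)
  swap
  · exact hsupp _ hfl c hc
  -- flags above `B`
  have hup : ∀ τ, Flag L e univ G₀ (pre ++ τ) → Flag L e univ B τ ∧ G₀ ⊆ B := by
    intro τ hτ
    rcases hpre with ⟨h1, h2⟩ | ⟨σ₁, h1⟩
    · rw [h1, List.nil_append] at hτ
      rw [h2]
      exact ⟨hτ, subset_refl _⟩
    · rw [h1, List.append_assoc, List.singleton_append] at hτ
      exact ⟨(flag_append.mp hτ).2, (flag_append.mp hτ).1.ssubset.subset⟩
  obtain ⟨hB, hGB⟩ := hup _ hfl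
  have hvB : ∀ c, c ∈ van L B → c ∈ van L G₀ := fun c hc => van_anti hGB hc
  -- the upper end
  obtain ⟨G₁, hG₁⟩ : ∃ G₁ : Finset K, ∀ τ, Flag L e univ B (τ ++ σ₃) → Flag L e G₁ B τ := by
    cases σ₃ with
    | nil => exact ⟨univ, fun τ h => by rwa [List.append_nil] at h⟩
    | cons W σ₄ => exact ⟨W, fun τ h => (flag_append.mp h).1⟩
  have hYZ := hG₁ [Y, Z] hB
  have hn : nn L e G₁ = nn L e B + ((2 : ℕ) : ℤ) + 1 := by
    have := hYZ.nn_eq
    simpa using this
  have hfl' : ∀ τ, ψ (pre ++ (τ ++ σ₃)) = ψ (pre ++ (τ ++ σ₃)) := fun _ => rfl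
  have hzero : ∀ τ, ¬ Flag L e G₁ B τ → ∀ c ∈ van L G₀, ψ (pre ++ (τ ++ σ₃)) c = 0 := by
    intro τ hτ c hc
    exact hsupp _ (fun h => hτ (hG₁ τ (hup _ h).1)) c hc
  set g : List (Finset K) → (Unit → K → F) → F := fun τ c =>
    if τ.length = 2 then ψ (pre ++ (τ ++ σ₃)) (c ()) else 0 with hg
  have hcyc : Cyc L e B G₁ (fun _ => 1) g := by
    refine ⟨?_, ?_, ?_, ?_, ?_⟩
    · intro τ
      refine ⟨?_, ?_⟩
      · intro c i a b _ ha hb
        simp only [hg]
        split_ifs
        · simp only [Function.update_self]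
          exact hadd _ a (hvB a ha) b (hvB b hb)
        · rw [add_zero]
      · intro c i r a _ ha
        simp only [hg]
        split_ifs
        · simp only [Function.update_self]
          exact hsmul _ r a (hvB a ha)
        · rw [mul_zero]
    · intro τ hτ c hc
      simp only [hg]
      split_ifs
      · exact hzero τ hτ _ (hvB _ (hc ()))
      · rfl
    · intro τ c hc hcard
      simp only [hg]
      split_ifs with hlen
      · have hmem : c () ∈ van L G₁ := by
          by_contra hcon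
          have : {i : Unit | c i ∈ van L G₁} = ∅ := by
            ext i
            simp only [Set.mem_ofPred_eq, Set.mem_empty_iff_false, iff_false]
            exact hcon
          rw [this, Set.ncard_empty] at hcard
          omega
        by_cases hτ : Flag L e G₁ B τ
        · obtain ⟨Y', Z', rfl⟩ := List.length_eq_two.mp hlen
          have h1 := (hτ.ssubset_mem (X := Y') (by simp)).2
          exact hv Y' Z' _ (hvB _ (hc ())) (van_anti h1.subset hmem)
        · exact hzero τ hτ _ (hvB _ (hc ()))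
      · rfl
    · intro τ₁ X τ₂ c hc hcard
      simp only [hg]
      split_ifs with hlen
      · have hmem : c () ∈ van L X := by
          by_contra hcon
          have : {i : Unit | c i ∈ van L X} = ∅ := by
            ext i
            simp only [Set.mem_ofPred_eq, Set.mem_empty_iff_false, iff_false]
            exact hcon
          rw [this, Set.ncard_empty] at hcard
          simp at hcard
        by_cases hτ : Flag L e G₁ B (τ₁ ++ X :: τ₂)
        · match τ₁, τ₂ with
          | [], [Z'] => exact hv X Z' _ (hvB _ (hc ())) hmem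
          | [Y'], [] =>
            have h1 : Flag L e X B [Y'] := (flag_append.mp hτ).1
            have h2 := (h1.ssubset_mem (X := Y') (by simp)).2
            exact hv Y' X _ (hvB _ (hc ())) (van_anti h2.subset hmem)
          | [], [] => simp at hlen
          | [], _ :: _ :: _ => simp at hlen
          | [_], _ :: _ => simp at hlen
          | _ :: _ :: _, τ₂ =>
            simp only [List.length_append, List.length_cons] at hlen
            omega
        · exact hzero _ hτ _ (hvB _ (hc ()))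
      · rfl
    · intro τ₁ τ₂ c hc
      by_cases hlen : τ₁.length + τ₂.length + 1 = 2
      · have h1 := hsum (pre ++ τ₁) (τ₂ ++ σ₃) (c ()) (hvB _ (hc ()))
        rw [← h1]
        refine Finset.sum_congr rfl fun X _ => ?_
        simp only [hg]
        rw [if_pos (by simp only [List.length_append, List.length_cons]; omega)]
        congr 1
        simp
      · refine Finset.sum_eq_zero fun X _ => ?_
        simp only [hg]
        rw [if_neg (by simp only [List.length_append, List.length_cons]; omega)]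
  have h := F2 hd Unit (by simp) B G₁ g hn hcyc [Y, Z] (fun _ => c) (fun _ => hcB)
  simpa [hg] using h

/-- the f-trick for linear functionals -/
theorem d2a_linear (hd : Dense L e) {l : ℕ} (hl : 2 ≤ l) (G₀ : Finset K)
    (hn : nn L e univ = nn L e G₀ + l + 1)
    (ψ : List (Finset K) → (K → F) → F)
    (hsupp : ∀ σ, ¬ Flag L e univ G₀ σ → ∀ c ∈ van L G₀, ψ σ c = 0)
    (hadd : ∀ σ, ∀ a ∈ van L G₀, ∀ b ∈ van L G₀, ψ σ (a + b) = ψ σ a + ψ σ b)
    (hsmul : ∀ σ, ∀ s : F, ∀ a ∈ van L G₀, ψ σ (s • a) = s * ψ σ a)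
    (hvan : ∀ σ₁ X Y, ∀ c ∈ van L G₀, c ∈ van L X → ψ (σ₁ ++ [X, Y]) c = 0)
    (hsum : ∀ σ₁ σ₂, ∀ c ∈ van L G₀, ∑ X : Finset K, ψ (σ₁ ++ X :: σ₂) c = 0) :
    ∀ σ, ∀ c ∈ van L G₀, ψ σ c = 0 := by
  have key : ∀ m, ∀ σ₁ X σ₂, σ₂.length = m + 1 → ∀ c ∈ van L G₀, c ∈ van L X →
      ψ (σ₁ ++ X :: σ₂) c = 0 := by
    intro m
    induction m with
    | zero =>
      intro σ₁ X σ₂ hlen c hc hcX
      obtain ⟨Y, rfl⟩ := List.length_eq_one_iff.mp hlen
      exact hvan σ₁ X Y c hc hcX
    | succ m ih =>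
      intro σ₁ X σ₂ hlen c hc hcX
      match σ₂ with
      | [] => simp at hlen
      | [Y] => simp at hlen
      | Y :: Z :: σ₃ =>
        have h := d2a_step hd G₀ ψ hsupp hadd hsmul hsum (σ₁ ++ [X]) X (Or.inr ⟨σ₁, rfl⟩) σ₃ (by
          intro Y' Z' c' hc' hcY'
          exact ih (σ₁ ++ [X]) Y' (Z' :: σ₃) (by
            simp only [List.length_cons] at hlen ⊢
            omega) c' hc' hcY') Y Z c hc hcX
        rw [List.append_assoc, List.singleton_append] at h
        exact h
  intro σ c hc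
  by_cases hfl : Flag L e univ G₀ σ
  swap
  · exact hsupp _ hfl c hc
  have hlen : σ.length = l := by
    have := hfl.nn_eq
    rw [hn] at this
    omega
  match σ with
  | [] => simp at hlen; omega
  | [Y] => simp at hlen; omega
  | Y :: Z :: σ₃ =>
    exact d2a_step hd G₀ ψ hsupp hadd hsmul hsum [] G₀ (Or.inl ⟨rfl, rfl⟩) σ₃ (by
      intro Y' Z' c' hc' hcY'
      exact key σ₃.length [] Y' (Z' :: σ₃) (by simp) c' hc' hcY') Y Z c hc hc

/-- functionals: a family indexed by flags, semilinear with respect to `s ↦ s ^ k`, vanishing on `L_{X}` for the member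
`X` at position `l - 2` (the last but one) of the flag, with sums zero, vanishes (the f-trick) -/
theorem ftrick (hd : Dense L e) [IsAlgClosed F] {l k : ℕ} (hl : 2 ≤ l) (G₀ : Finset K)
    (hn : nn L e univ = nn L e G₀ + l + 1)
    (φ : List (Finset K) → (K → F) → F)
    (hsupp : ∀ σ, ¬ Flag L e univ G₀ σ → ∀ c ∈ van L G₀, φ σ c = 0)
    (hadd : ∀ σ, ∀ a ∈ van L G₀, ∀ b ∈ van L G₀, φ σ (a + b) = φ σ a + φ σ b)
    (hsmul : ∀ σ, ∀ s : F, ∀ a ∈ van L G₀, φ σ (s • a) = s ^ k * φ σ a) (hk : 1 ≤ k)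
    (hvan : ∀ σ₁ X Y, ∀ c ∈ van L G₀, c ∈ van L X → φ (σ₁ ++ [X, Y]) c = 0)
    (hsum : ∀ σ₁ σ₂, ∀ c ∈ van L G₀, ∑ X : Finset K, φ (σ₁ ++ X :: σ₂) c = 0) :
    ∀ σ, ∀ c ∈ van L G₀, φ σ c = 0 := by
  by_contra hcon
  push Not at hcon
  obtain ⟨σ₀, c₀, hc₀, hne⟩ := hcon
  have hadd' : ∀ x y : F, (x + y) ^ k = x ^ k + y ^ k := by
    intro x y
    have h1 := hsmul σ₀ (x + y) c₀ hc₀
    rw [add_smul, hadd σ₀ _ ((van L G₀).smul_mem x hc₀) _ ((van L G₀).smul_mem y hc₀),
      hsmul σ₀ x c₀ hc₀, hsmul σ₀ y c₀ hc₀, ← add_mul] at h1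
    exact (mul_right_cancel₀ hne h1).symm
  let s : F →+* F :=
    { toFun := fun x => x ^ k
      map_one' := one_pow k
      map_mul' := fun x y => mul_pow x y k
      map_zero' := zero_pow (by omega)
      map_add' := hadd' }
  have hbij : Function.Bijective s :=
    ⟨s.injective, fun x => IsAlgClosed.exists_pow_nat_eq x (by omega)⟩
  let s' : F ≃+* F := RingEquiv.ofBijective s hbij
  have hs' : ∀ x, s' x = x ^ k := fun x => rfl
  have hs'symm : ∀ x, s'.symm (x ^ k) = x := fun x => by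
    rw [← hs', RingEquiv.symm_apply_apply]
  have h := d2a_linear hd hl G₀ hn (fun σ c => s'.symm (φ σ c))
    (fun σ hσ c hc => by rw [hsupp σ hσ c hc, map_zero])
    (fun σ a ha b hb => by rw [hadd σ a ha b hb, map_add])
    (fun σ r a ha => by rw [hsmul σ r a ha, map_mul, hs'symm])
    (fun σ₁ X Y c hc hcX => by rw [hvan σ₁ X Y c hc hcX, map_zero])
    (fun σ₁ σ₂ c hc => by rw [← map_sum, hsum σ₁ σ₂ c hc, map_zero]) σ₀ c₀ hc₀
  exact hne ((map_eq_zero_iff s'.symm s'.symm.injective).mp h)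

theorem d2b_pw_zero {ι : Type} [Fintype ι] (w : ι →₀ ℕ) (c : ι → K → F) :
    pw (0 : MvPolynomial K F) w c = 0 := by
  have h := pw_sum (F := F) (K := K) (∅ : Finset ℕ) (fun _ => 0) w c
  simpa using h

/-- a polynomial which vanishes on `U` has vanishing polarisations on `U` -/
theorem d2b_pw_van [Infinite F] {ι : Type} [Fintype ι] (U : Submodule F (K → F))
    {P : MvPolynomial K F} (h : ∀ c ∈ U, MvPolynomial.eval c P = 0) (w : ι →₀ ℕ)
    (c : ι → K → F) (hc : ∀ i, c i ∈ U) : pw P w c = 0 := by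
  rw [pw_congr U (Q := 0) (fun c hc => by rw [h c hc, map_zero]) w c hc, d2b_pw_zero]

theorem d2b_supp [Infinite F] {m : ℕ} (G₀ : Finset K) (g : List (Finset K) → (K → F) → F)
    (hg : PCyc L e m G₀ g) (P : List (Finset K) → MvPolynomial K F)
    (hPg : ∀ σ, ∀ c ∈ van L G₀, g σ c = MvPolynomial.eval c (P σ))
    {ι : Type} [Fintype ι] (w : ι →₀ ℕ) (c : ι → K → F) (hc : ∀ i, c i ∈ van L G₀)
    (σ : List (Finset K)) (hσ : ¬ Flag L e univ G₀ σ) : pw (P σ) w c = 0 :=
  d2b_pw_van (van L G₀) (fun x hx => by rw [← hPg σ x hx]; exact hg.supp σ hσ x hx) w c hc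

theorem d2b_sum [Infinite F] {m : ℕ} (G₀ : Finset K) (g : List (Finset K) → (K → F) → F)
    (hg : PCyc L e m G₀ g) (P : List (Finset K) → MvPolynomial K F)
    (hPg : ∀ σ, ∀ c ∈ van L G₀, g σ c = MvPolynomial.eval c (P σ))
    {ι : Type} [Fintype ι] (w : ι →₀ ℕ) (c : ι → K → F) (hc : ∀ i, c i ∈ van L G₀)
    (σ₁ σ₂ : List (Finset K)) : ∑ X : Finset K, pw (P (σ₁ ++ X :: σ₂)) w c = 0 := by
  rw [← pw_sum]
  refine d2b_pw_van (van L G₀) (fun x hx => ?_) w c hc
  rw [map_sum, ← hg.sum σ₁ σ₂ x hx]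
  exact Finset.sum_congr rfl fun X _ => (hPg _ x hx).symm

open Classical in
theorem d2b_ord [Infinite F] {m : ℕ} (G₀ : Finset K) (g : List (Finset K) → (K → F) → F)
    (hg : PCyc L e m G₀ g) (P : List (Finset K) → MvPolynomial K F)
    (hP : ∀ σ, (P σ).IsHomogeneous m)
    (hPg : ∀ σ, ∀ c ∈ van L G₀, g σ c = MvPolynomial.eval c (P σ))
    {ι : Type} [Fintype ι] (w : ι →₀ ℕ) (c : ι → K → F) (hc : ∀ i, c i ∈ van L G₀)
    (σ₁ σ₂ : List (Finset K)) (X : Finset K)
    (hw : m + 1 ≤ (σ₁.length + 2) + ∑ i ∈ univ.filter (fun i => c i ∈ van L X), w i) :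
    pw (P (σ₁ ++ X :: σ₂)) w c = 0 := by
  refine pw_eq_zero_of_ord (U := van L G₀) (X := X) (s := σ₁.length + 2) (hP _) ?_ w c hc ?_
  · intro a ha b hb
    obtain ⟨Q, hQ⟩ := hg.ord σ₁ X σ₂ a ha b hb
    refine ⟨Q, fun ν => ?_⟩
    have hmem : ν • a + b ∈ van L G₀ :=
      (van L G₀).add_mem ((van L G₀).smul_mem ν ha) (mem_van.1 hb).1
    show MvPolynomial.eval (ν • a + b) (P (σ₁ ++ X :: σ₂)) = _
    rw [← hPg _ _ hmem]
    exact hQ ν
  · have e1 : (univ.filter fun i => c i ∈ van (van L G₀) X) =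
        univ.filter (fun i => c i ∈ van L X) := by
      apply Finset.filter_congr
      intro i _
      rw [mem_van, mem_van]
      exact ⟨fun h => ⟨(mem_van.1 (hc i)).1, h.2⟩, fun h => ⟨hc i, h.2⟩⟩
    rw [e1]
    exact hw

/-- additivity in a slot from the vanishing for one more slot -/
theorem d2b_add {l : ℕ} (G₀ : Finset K) (P : List (Finset K) → MvPolynomial K F) {r : ℕ}
    (ih : ∀ (ι : Type) [Fintype ι] [DecidableEq ι], Fintype.card ι + r = l + 1 →
      ∀ w : ι →₀ ℕ, (∀ i, 1 ≤ w i) → ∑ i, w i = l + 1 → ∀ σ, ∀ c : ι → K → F,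
        (∀ i, c i ∈ van L G₀) → pw (P σ) w c = 0)
    {ι : Type} [Fintype ι] [DecidableEq ι] (hcard : Fintype.card ι + (r + 1) = l + 1)
    (w : ι →₀ ℕ) (hw : ∀ i, 1 ≤ w i) (hs : ∑ i, w i = l + 1) (σ : List (Finset K))
    (c : ι → K → F) (hc : ∀ i, c i ∈ van L G₀) (i : ι) (a b : K → F) (ha : a ∈ van L G₀)
    (hb : b ∈ van L G₀) :
    pw (P σ) w (Function.update c i (a + b)) =
      pw (P σ) w (Function.update c i a) + pw (P σ) w (Function.update c i b) := by
  refine pw_add_of_forall (P σ) w c i a b (hw i) ?_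
  intro k hk1 hk2
  refine ih (Option ι) (by rw [Fintype.card_option]; omega) _ ?_ ?_ σ _ ?_
  · rintro (_ | j)
    · simpa using hk1
    · by_cases hj : j = i
      · simp [hj]; omega
      · simp [hj, hw j]
  · rw [Fintype.sum_option]
    simp only [Finsupp.equivFunOnFinite_symm_apply_apply, Option.elim_none, Option.elim_some]
    rw [← hs, ← Finset.add_sum_erase _ _ (Finset.mem_univ i),
      ← Finset.add_sum_erase univ (fun j => w j) (Finset.mem_univ i)]
    rw [if_pos rfl]
    have e1 : ∑ x ∈ univ.erase i, (if x = i then w i - k else w x) =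
        ∑ x ∈ univ.erase i, w x := by
      apply Finset.sum_congr rfl
      intro x hx
      rw [if_neg (Finset.ne_of_mem_erase hx)]
    rw [e1]
    omega
  · rintro (_ | j)
    · simpa using hb
    · by_cases hj : j = i
      · subst hj
        simpa using ha
      · simpa [Function.update_of_ne hj] using hc j

/-- downward induction on the number of slots -/
theorem pcyc_pw (hd : Dense L e) [IsAlgClosed F] {l : ℕ} (hl : 2 ≤ l) (G₀ : Finset K)
    (hn : nn L e univ = nn L e G₀ + l + 1) (g : List (Finset K) → (K → F) → F)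
    (hg : PCyc L e (l + 1) G₀ g) (P : List (Finset K) → MvPolynomial K F)
    (hP : ∀ σ, (P σ).IsHomogeneous (l + 1))
    (hPg : ∀ σ, ∀ c ∈ van L G₀, g σ c = MvPolynomial.eval c (P σ))
    (r : ℕ) : ∀ (ι : Type) [Fintype ι] [DecidableEq ι], Fintype.card ι + r = l + 1 →
      ∀ w : ι →₀ ℕ, (∀ i, 1 ≤ w i) → ∑ i, w i = l + 1 → ∀ σ, ∀ c : ι → K → F,
        (∀ i, c i ∈ van L G₀) → pw (P σ) w c = 0 := by
  classical
  haveI : Infinite F := inferInstance
  induction r with
  | zero =>
    intro ι _ _ hcard w hw hs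
    -- all weights are one
    have hw1 : ∀ i, w i = 1 := by
      intro i
      by_contra hi
      have h1 : ∑ j : ι, 1 < ∑ j, w j :=
        Finset.sum_lt_sum (fun j _ => hw j) ⟨i, Finset.mem_univ i, by have := hw i; omega⟩
      simp only [Finset.sum_const, Finset.card_univ, smul_eq_mul, mul_one] at h1
      omega
    have hcyc : Cyc L e (ι := ι) G₀ univ (fun j => j + 2) (fun σ c => pw (P σ) w c) := by
      refine ⟨?_, ?_, ?_, ?_, ?_⟩
      · intro σ
        refine ⟨?_, ?_⟩
        · intro c i a b _ _ _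
          refine pw_add_of_forall (P σ) w c i a b (hw i) ?_
          intro k hk1 hk2
          rw [hw1 i] at hk2
          omega
        · intro c i s a _ _
          rw [pw_smul, hw1 i, pow_one]
      · intro σ hσ c hc
        exact d2b_supp G₀ g hg P hPg w c hc σ hσ
      · intro σ c hc hcount
        have hpos : 0 < {i | c i ∈ van L (univ : Finset K)}.ncard := by omega
        obtain ⟨i, hi⟩ := Set.nonempty_of_ncard_ne_zero hpos.ne'
        have hi0 : c i = 0 := by
          have : c i ∈ van L (univ : Finset K) := hi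
          rw [van_univ] at this
          simpa using this
        exact pw_update_zero (P σ) w c i (hw i) hi0
      · intro σ₁ X σ₂ c hc hcount
        refine d2b_ord G₀ g hg P hP hPg w c hc σ₁ σ₂ X ?_
        have e1 : ∑ i ∈ univ.filter (fun i => c i ∈ van L X), w i =
            {i | c i ∈ van L X}.ncard := by
          rw [Finset.sum_congr rfl (fun i _ => hw1 i), Finset.sum_const, smul_eq_mul, mul_one,
            ← Set.ncard_coe_finset]
          congr 1
          ext i
          simp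
        rw [e1]
        omega
      · intro σ₁ σ₂ c hc
        exact d2b_sum G₀ g hg P hPg w c hc σ₁ σ₂
    intro σ c hc
    exact TT hd (by omega : 1 ≤ l) ι (by omega) G₀ univ _ hn hcyc σ c hc
  | succ r ih =>
    intro ι _ _ hcard w hw hs σ c hc
    obtain ⟨f, hf⟩ : ∃ f, 2 ≤ w f := by
      by_contra hno
      push Not at hno
      have h1 : ∑ j, w j ≤ ∑ j : ι, 1 := Finset.sum_le_sum fun j _ => by
        have := hno j
        omega
      simp only [Finset.sum_const, Finset.card_univ, smul_eq_mul, mul_one] at h1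
      omega
    have hupd : ∀ x ∈ van L G₀, ∀ i, Function.update c f x i ∈ van L G₀ := by
      intro x hx i
      by_cases hi : i = f
      · subst hi; simpa using hx
      · rw [Function.update_of_ne hi]; exact hc i
    have key := ftrick hd hl G₀ hn (k := w f)
      (fun σ x => pw (P σ) w (Function.update c f x))
      (fun σ hσ x hx => d2b_supp G₀ g hg P hPg w _ (hupd x hx) σ hσ)
      (fun σ a ha b hb => d2b_add G₀ P ih hcard w hw hs σ c hc f a b ha hb)
      (fun σ s a ha => pw_smul (P σ) w c f s a)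
      (hw f)
      (by
        intro σ₁ X Y x hx hxX
        by_cases hfl : Flag L e univ G₀ (σ₁ ++ [X, Y])
        · have hlen := hfl.nn_eq
          rw [List.length_append] at hlen
          simp only [List.length_cons, List.length_nil] at hlen
          refine d2b_ord G₀ g hg P hP hPg w _ (hupd x hx) σ₁ [Y] X ?_
          have hmem : f ∈ univ.filter (fun i => Function.update c f x i ∈ van L X) := by
            rw [Finset.mem_filter]
            exact ⟨Finset.mem_univ _, by simpa using hxX⟩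
          have h1 : w f ≤ ∑ i ∈ univ.filter (fun i => Function.update c f x i ∈ van L X), w i :=
            Finset.single_le_sum (f := fun i => w i) (fun _ _ => Nat.zero_le _) hmem
          push_cast at hlen
          omega
        · exact d2b_supp G₀ g hg P hPg w _ (hupd x hx) _ hfl)
      (fun σ₁ σ₂ x hx => d2b_sum G₀ g hg P hPg w _ (hupd x hx) σ₁ σ₂)
      σ (c f) (hc f)
    simpa using key

/-- `T^S` -/
theorem TS (hd : Dense L e) [IsAlgClosed F] {l : ℕ} (hl : 2 ≤ l) (G₀ : Finset K)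
    (hn : nn L e univ = nn L e G₀ + l + 1) (g : List (Finset K) → (K → F) → F)
    (hg : PCyc L e (l + 1) G₀ g) : ∀ σ, ∀ c ∈ van L G₀, g σ c = 0 := by
  classical
  choose P hP hPg using hg.pol
  intro σ c hc
  rw [hPg σ c hc]
  have h1 := pcyc_pw hd hl G₀ hn g hg P hP hPg l (Fin 1) (by simp; omega)
    (Finsupp.equivFunOnFinite.symm fun _ => l + 1) (by simp) (by simp) σ (fun _ => c)
    (fun _ => hc)
  rw [pw_one_slot (by simp) (hP σ) (by simp) (fun _ => c) 0] at h1
  exact h1

end Pool.Agent.MP_d4f4ab_ag.W
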