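import Mathlib

/-!
# Definitions for the proof of quadratic generation for representable matroids

See WR_PROOF.md. `F` is a field, `K` a finite set, `L` a subspace of `F^K`, `e ≥ 2` a natural number.
Everything here is internal (not part of any final statement).
-/

open Finset

namespace Pool.Agent.MP_d4f4ab_ag.W

variable {F : Type*} [Field F] {K : Type*} [Fintype K] [DecidableEq K]

/-! ### Section 1: the rank function -/

/-- the elements of `L` vanishing on `X` -/
def van (L : Submodule F (K → F)) (X : Finset K) : Submodule F (K → F) where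
  carrier := {c | c ∈ L ∧ ∀ y ∈ X, c y = 0}
  add_mem' := by
    rintro a b ⟨ha, ha'⟩ ⟨hb, hb'⟩
    exact ⟨L.add_mem ha hb, fun y hy => by simp [ha' y hy, hb' y hy]⟩
  zero_mem' := ⟨L.zero_mem, fun y _ => rfl⟩
  smul_mem' := by
    rintro s a ⟨ha, ha'⟩
    exact ⟨L.smul_mem s ha, fun y hy => by simp [ha' y hy]⟩

/-- the dimension of the restriction of `L` to `X` -/
noncomputable def qq (L : Submodule F (K → F)) (X : Finset K) : ℤ :=
  (Module.finrank F L : ℤ) - Module.finrank F (van L X)

/-- `n(X) = e q(X) - (e - 1) |X|` -/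
noncomputable def nn (L : Submodule F (K → F)) (e : ℕ) (X : Finset K) : ℤ :=
  (e : ℤ) * qq L X - ((e : ℤ) - 1) * (X.card : ℤ)

/-- the standing assumption -/
structure Dense (L : Submodule F (K → F)) (e : ℕ) : Prop where
  two_le : 2 ≤ e
  pos : ∀ S : Finset K, S.Nonempty → 1 ≤ nn L e S

/-- flats -/
def IsFlat (L : Submodule F (K → F)) (e : ℕ) (X : Finset K) : Prop :=
  ∀ G : Finset K, X ⊂ G → nn L e X < nn L e G

open Classical in
/-- the closure: the intersection of all flats containing `X` -/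
noncomputable def cl (L : Submodule F (K → F)) (e : ℕ) (X : Finset K) : Finset K :=
  univ.filter fun y => ∀ G : Finset K, X ⊆ G → IsFlat L e G → y ∈ G

/-- `Flag L e G₁ G₀ σ`: `σ` is the list of the interior members of a full flag of flats from `G₀` to `G₁` -/
def Flag (L : Submodule F (K → F)) (e : ℕ) (G₁ : Finset K) : Finset K → List (Finset K) → Prop
  | G₀, [] => IsFlat L e G₀ ∧ IsFlat L e G₁ ∧ G₀ ⊂ G₁ ∧ nn L e G₁ = nn L e G₀ + 1
  | G₀, X :: σ => IsFlat L e G₀ ∧ IsFlat L e X ∧ G₀ ⊂ X ∧ nn L e X = nn L e G₀ + 1 ∧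
      Flag L e G₁ X σ

/-! ### Section 2: forms and cycles -/

/-- `T` is multilinear in `c : ι → K → F` as long as all `c i` are in `U` -/
structure IsML {ι : Type*} [DecidableEq ι] (U : Submodule F (K → F)) (T : (ι → K → F) → F) :
    Prop where
  add : ∀ (c : ι → K → F) (i : ι) (a b : K → F), (∀ j, c j ∈ U) → a ∈ U → b ∈ U →
    T (Function.update c i (a + b)) = T (Function.update c i a) + T (Function.update c i b)
  smul : ∀ (c : ι → K → F) (i : ι) (s : F) (a : K → F), (∀ j, c j ∈ U) → a ∈ U →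
    T (Function.update c i (s • a)) = s * T (Function.update c i a)

/-- threshold: `T c = 0` if at least `d - t + 1` of the `c i` vanish on `X` (`d` the number of slots) -/
def Fil (L : Submodule F (K → F)) {ι : Type*} [Fintype ι] (G₀ X : Finset K) (t : ℕ)
    (T : (ι → K → F) → F) : Prop :=
  ∀ c : ι → K → F, (∀ i, c i ∈ van L G₀) →
    Fintype.card ι + 1 ≤ t + {i | c i ∈ van L X}.ncard → T c = 0

/-- cycles. `t j` is the threshold of the member at position `j` (starting with `0`) of the list. -/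
structure Cyc (L : Submodule F (K → F)) (e : ℕ) {ι : Type*} [Fintype ι] [DecidableEq ι]
    (G₀ G₁ : Finset K) (t : ℕ → ℕ) (g : List (Finset K) → (ι → K → F) → F) : Prop where
  ml : ∀ σ, IsML (van L G₀) (g σ)
  supp : ∀ σ, ¬ Flag L e G₁ G₀ σ → ∀ c : ι → K → F, (∀ i, c i ∈ van L G₀) → g σ c = 0
  top : ∀ σ, Fil L G₀ G₁ (Fintype.card ι) (g σ)
  fil : ∀ σ₁ X σ₂, Fil L G₀ X (t σ₁.length) (g (σ₁ ++ X :: σ₂))
  sum : ∀ σ₁ σ₂, ∀ c : ι → K → F, (∀ i, c i ∈ van L G₀) →
    ∑ X : Finset K, g (σ₁ ++ X :: σ₂) c = 0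

/-- all cycles with `l` interior flats, thresholds `t` and `d` slots vanish -/
def Van (L : Submodule F (K → F)) (e l : ℕ) (t : ℕ → ℕ) (d : ℕ) : Prop :=
  ∀ (ι : Type) [Fintype ι] [DecidableEq ι], Fintype.card ι = d →
    ∀ (G₀ G₁ : Finset K) (g : List (Finset K) → (ι → K → F) → F),
      nn L e G₁ = nn L e G₀ + l + 1 → Cyc L e G₀ G₁ t g →
        ∀ σ, ∀ c : ι → K → F, (∀ i, c i ∈ van L G₀) → g σ c = 0

/-! ### Section 7: polynomial functions -/

/-- homogeneous polynomial functions of degree `b` on `U` -/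
def IsPol (U : Submodule F (K → F)) (b : ℕ) (g : (K → F) → F) : Prop :=
  ∃ P : MvPolynomial K F, P.IsHomogeneous b ∧ ∀ c ∈ U, g c = MvPolynomial.eval c P

/-- order of vanishing: `g (ν a + b) = ν ^ s * polynomial in ν` for `a ∈ U`, `b ∈ U` vanishing on `X` -/
def Ord (U : Submodule F (K → F)) (X : Finset K) (s : ℕ) (g : (K → F) → F) : Prop :=
  ∀ a ∈ U, ∀ b ∈ van U X, ∃ Q : Polynomial F, ∀ ν : F, g (ν • a + b) = ν ^ s * Q.eval ν

/-! ### Section 8: alternating functions of lists -/

/-- `T` changes sign under transposition of adjacent entries and vanishes if adjacent entries are equal -/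
structure Alt {A : Type*} [AddCommGroup A] (T : List K → A) : Prop where
  swap : ∀ Z₁ x y Z₂, T (Z₁ ++ x :: y :: Z₂) = - T (Z₁ ++ y :: x :: Z₂)
  same : ∀ Z₁ x Z₂, T (Z₁ ++ x :: x :: Z₂) = 0

/-- the Koszul differential `(dT)(Z)(c) = ∑ y, c y T(y, Z)(c)` -/
def dd (T : List K → (K → F) → F) : List K → (K → F) → F :=
  fun Z c => ∑ y, c y * T (y :: Z) c

/-- the boundary operator: alternating sum over all insertions of a set into the list -/
def bd {A : Type*} [AddCommGroup A] : (List (Finset K) → A) → List (Finset K) → A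
  | W, [] => ∑ X : Finset K, W [X]
  | W, Y :: σ => ∑ X : Finset K, W (X :: Y :: σ) - bd (fun τ => W (Y :: τ)) σ

/-- a list of elements of `K` is independent for `N` -/
def Ind (L : Submodule F (K → F)) (e : ℕ) (Z : List K) : Prop :=
  nn L e (cl L e Z.toFinset) = (Z.length : ℤ)

end Pool.Agent.MP_d4f4ab_ag.W
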