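import Pool.Agent.MP_d4f4ab_ag.W.B2

/-! [WR-E1] the two differentials (WR_PROOF.md section 8), basic facts on `IsPol` and `Ord`. -/

open Finset

namespace Pool.Agent.MP_d4f4ab_ag.W

variable {F : Type*} [Field F] {K : Type*} [Fintype K] [DecidableEq K]

/-! alternating functions -/

theorem Alt.zero {A : Type*} [AddCommGroup A] : Alt (fun _ : List K => (0 : A)) := by
  exact ⟨fun _ _ _ _ => neg_zero.symm, fun _ _ _ => rfl⟩

theorem Alt.sub {A : Type*} [AddCommGroup A] {T T' : List K → A} (h : Alt T) (h' : Alt T') :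
    Alt (fun Z => T Z - T' Z) := by
  refine ⟨fun Z₁ x y Z₂ => ?_, fun Z₁ x Z₂ => ?_⟩
  · show T _ - T' _ = -(T _ - T' _)
    rw [h.swap Z₁ x y Z₂, h'.swap Z₁ x y Z₂]
    abel
  · show T _ - T' _ = 0
    rw [h.same Z₁ x Z₂, h'.same Z₁ x Z₂, sub_zero]

theorem Alt.sum {A : Type*} [AddCommGroup A] {β : Type*} (s : Finset β) {T : β → List K → A}
    (h : ∀ x ∈ s, Alt (T x)) : Alt (fun Z => ∑ x ∈ s, T x Z) := by
  refine ⟨fun Z₁ x y Z₂ => ?_, fun Z₁ x Z₂ => ?_⟩
  · show ∑ b ∈ s, T b _ = - ∑ b ∈ s, T b _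
    rw [← Finset.sum_neg_distrib]
    exact Finset.sum_congr rfl fun b hb => (h b hb).swap Z₁ x y Z₂
  · exact Finset.sum_eq_zero fun b hb => (h b hb).same Z₁ x Z₂

theorem Alt.cons {A : Type*} [AddCommGroup A] {T : List K → A} (h : Alt T) (y : K) :
    Alt (fun Z => T (y :: Z)) := by
  exact ⟨fun Z₁ x z Z₂ => h.swap (y :: Z₁) x z Z₂, fun Z₁ x Z₂ => h.same (y :: Z₁) x Z₂⟩

/-- an alternating function multiplied with the indicator of a permutation invariant condition -/
theorem Alt.ite {A : Type*} [AddCommGroup A] {T : List K → A} (h : Alt T) (p : List K → Prop)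
    [DecidablePred p] (hp : ∀ Z Z' : List K, Z.Perm Z' → (p Z ↔ p Z')) :
    Alt (fun Z => if p Z then T Z else 0) := by
  refine ⟨fun Z₁ x y Z₂ => ?_, fun Z₁ x Z₂ => ?_⟩
  · have hperm : (Z₁ ++ x :: y :: Z₂).Perm (Z₁ ++ y :: x :: Z₂) :=
      List.Perm.append_left _ (List.Perm.swap _ _ _)
    show (if p _ then T _ else 0) = - (if p _ then T _ else 0)
    by_cases h1 : p (Z₁ ++ x :: y :: Z₂)
    · rw [if_pos h1, if_pos ((hp _ _ hperm).1 h1)]
      exact h.swap Z₁ x y Z₂
    · rw [if_neg h1, if_neg (fun h2 => h1 ((hp _ _ hperm).2 h2)), neg_zero]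
  · show (if p _ then T _ else 0) = 0
    by_cases h1 : p (Z₁ ++ x :: x :: Z₂)
    · rw [if_pos h1]
      exact h.same Z₁ x Z₂
    · rw [if_neg h1]

omit [Fintype K] in
theorem e1a_not_nodup {Z : List K} (hZ : ¬ Z.Nodup) :
    ∃ (Z₁ : List K) (x : K) (Z₂ Z₃ : List K), Z = Z₁ ++ x :: (Z₂ ++ x :: Z₃) := by
  induction Z with
  | nil => exact absurd List.nodup_nil hZ
  | cons a Z ih =>
    by_cases ha : a ∈ Z
    · obtain ⟨s, t, rfl⟩ := List.append_of_mem ha
      exact ⟨[], a, s, t, rfl⟩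
    · obtain ⟨Z₁, x, Z₂, Z₃, h⟩ := ih (fun h => hZ (List.nodup_cons.2 ⟨ha, h⟩))
      exact ⟨a :: Z₁, x, Z₂, Z₃, by rw [h, List.cons_append]⟩

omit [Fintype K] [DecidableEq K] in
theorem e1a_sep {A : Type*} [AddCommGroup A] {T : List K → A} (h : Alt T) (x : K)
    (Z₃ : List K) : ∀ Z₂ Z₁ : List K, T (Z₁ ++ x :: (Z₂ ++ x :: Z₃)) = 0 := by
  intro Z₂
  induction Z₂ with
  | nil => intro Z₁; exact h.same Z₁ x Z₃
  | cons w Z₂ ih =>
    intro Z₁
    rw [List.cons_append, h.swap Z₁ x w (Z₂ ++ x :: Z₃)]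
    have h1 : Z₁ ++ w :: x :: (Z₂ ++ x :: Z₃) = (Z₁ ++ [w]) ++ x :: (Z₂ ++ x :: Z₃) := by
      rw [List.append_assoc]
      rfl
    rw [h1, ih, neg_zero]

theorem Alt.eq_zero_of_not_nodup {A : Type*} [AddCommGroup A] {T : List K → A} (h : Alt T)
    {Z : List K} (hZ : ¬ Z.Nodup) : T Z = 0 := by
  obtain ⟨Z₁, x, Z₂, Z₃, rfl⟩ := e1a_not_nodup hZ
  exact e1a_sep h x Z₃ Z₂ Z₁

theorem Alt.dd {T : List K → (K → F) → F} (h : Alt T) : Alt (dd T) := by
  refine ⟨fun Z₁ x y Z₂ => ?_, fun Z₁ x Z₂ => ?_⟩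
  · funext c
    show ∑ w, c w * T (w :: (Z₁ ++ x :: y :: Z₂)) c =
      - ∑ w, c w * T (w :: (Z₁ ++ y :: x :: Z₂)) c
    rw [← Finset.sum_neg_distrib]
    refine Finset.sum_congr rfl fun w _ => ?_
    have h1 := congrFun (h.swap (w :: Z₁) x y Z₂) c
    rw [List.cons_append, List.cons_append, Pi.neg_apply] at h1
    rw [h1, mul_neg]
  · funext c
    show ∑ w, c w * T (w :: (Z₁ ++ x :: x :: Z₂)) c = 0
    refine Finset.sum_eq_zero fun w _ => ?_
    have h1 := congrFun (h.same (w :: Z₁) x Z₂) c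
    rw [List.cons_append, Pi.zero_apply] at h1
    rw [h1, mul_zero]

theorem dd_dd {T : List K → (K → F) → F} (h : Alt T) (Z : List K) (c : K → F) :
    dd (dd T) Z c = 0 := by
  show ∑ y, c y * (∑ z, c z * T (z :: y :: Z) c) = 0
  simp only [Finset.mul_sum]
  rw [← Finset.sum_product' (f := fun y z => c y * (c z * T (z :: y :: Z) c))]
  refine Finset.sum_involution (fun a _ => (a.2, a.1)) ?_ ?_ ?_ ?_
  · rintro ⟨y, z⟩ _
    have h1 := congrFun (h.swap [] z y Z) c
    rw [List.nil_append, List.nil_append, Pi.neg_apply] at h1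
    show c y * (c z * T (z :: y :: Z) c) + c z * (c y * T (y :: z :: Z) c) = 0
    rw [h1]
    ring
  · rintro ⟨y, z⟩ _ hne heq
    apply hne
    have hyz : z = y := congrArg Prod.fst heq
    subst hyz
    have h1 := congrFun (h.same [] z Z) c
    rw [List.nil_append, Pi.zero_apply] at h1
    show c z * (c z * T (z :: z :: Z) c) = 0
    rw [h1, mul_zero, mul_zero]
  · intro a _
    exact Finset.mem_product.2 ⟨Finset.mem_univ _, Finset.mem_univ _⟩
  · rintro ⟨y, z⟩ _
    rfl

theorem dd_sub (T T' : List K → (K → F) → F) : dd (T - T') = dd T - dd T' := by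
  funext Z c
  show ∑ y, c y * (T (y :: Z) c - T' (y :: Z) c) =
    ∑ y, c y * T (y :: Z) c - ∑ y, c y * T' (y :: Z) c
  rw [← Finset.sum_sub_distrib]
  exact Finset.sum_congr rfl fun y _ => mul_sub _ _ _

theorem dd_sum {β : Type*} (s : Finset β) (T : β → List K → (K → F) → F) :
    dd (∑ x ∈ s, T x) = ∑ x ∈ s, dd (T x) := by
  funext Z c
  rw [Finset.sum_apply, Finset.sum_apply]
  show ∑ y, c y * (∑ x ∈ s, T x) (y :: Z) c = ∑ x ∈ s, ∑ y, c y * T x (y :: Z) c
  rw [Finset.sum_comm]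
  refine Finset.sum_congr rfl fun y _ => ?_
  rw [Finset.sum_apply, Finset.sum_apply, Finset.mul_sum]

/-! the boundary operator -/

theorem bd_sub {A : Type*} [AddCommGroup A] (W W' : List (Finset K) → A) (σ : List (Finset K)) :
    bd (fun τ => W τ - W' τ) σ = bd W σ - bd W' σ := by
  induction σ generalizing W W' with
  | nil => simp [bd, Finset.sum_sub_distrib]
  | cons Y σ ih =>
    rw [bd, bd, bd, ih (fun τ => W (Y :: τ)) (fun τ => W' (Y :: τ)), Finset.sum_sub_distrib]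
    abel

theorem bd_sum {A : Type*} [AddCommGroup A] {β : Type*} (s : Finset β)
    (W : β → List (Finset K) → A) (σ : List (Finset K)) :
    bd (fun τ => ∑ x ∈ s, W x τ) σ = ∑ x ∈ s, bd (W x) σ := by
  induction σ generalizing W with
  | nil =>
    simp only [bd]
    rw [Finset.sum_comm]
  | cons Y σ ih =>
    simp only [bd]
    rw [ih (fun x τ => W x (Y :: τ)), Finset.sum_comm, ← Finset.sum_sub_distrib]

theorem bd_zero {A : Type*} [AddCommGroup A] (σ : List (Finset K)) :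
    bd (fun _ => (0 : A)) σ = 0 := by
  induction σ with
  | nil => simp [bd]
  | cons Y σ ih => rw [bd, ih]; simp

theorem bd_bd {A : Type*} [AddCommGroup A] (W : List (Finset K) → A) (σ : List (Finset K)) :
    bd (bd W) σ = 0 := by
  induction σ generalizing W with
  | nil =>
    simp only [bd, Finset.sum_sub_distrib]
    rw [Finset.sum_comm, sub_self]
  | cons Y σ ih =>
    have h1 : (fun τ => bd W (Y :: τ)) = fun τ =>
        (∑ X : Finset K, W (X :: Y :: τ)) - bd (fun τ' => W (Y :: τ')) τ := rfl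
    have h2 : bd (bd W) (Y :: σ) =
        ∑ X : Finset K, bd W (X :: Y :: σ) - bd (fun τ => bd W (Y :: τ)) σ := rfl
    rw [h2, h1, bd_sub (fun τ => ∑ X : Finset K, W (X :: Y :: τ)) (bd fun τ' => W (Y :: τ')) σ,
      ih, sub_zero, bd_sum Finset.univ (fun X τ => W (X :: Y :: τ))]
    simp only [bd, Finset.sum_sub_distrib]
    rw [Finset.sum_comm]
    abel

/-- the boundary only sees lists of length one more -/
theorem bd_congr {A : Type*} [AddCommGroup A] {W W' : List (Finset K) → A} (σ : List (Finset K))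
    (h : ∀ τ : List (Finset K), τ.length = σ.length + 1 → W τ = W' τ) : bd W σ = bd W' σ := by
  induction σ generalizing W W' with
  | nil =>
    simp only [bd]
    exact Finset.sum_congr rfl (fun X _ => h [X] rfl)
  | cons Y σ ih =>
    simp only [bd]
    rw [ih (W := fun τ => W (Y :: τ)) (W' := fun τ => W' (Y :: τ))
      (fun τ hτ => h (Y :: τ) (by simp [hτ]))]
    congr 1
    exact Finset.sum_congr rfl (fun X _ => h (X :: Y :: σ) (by simp))

theorem bd_map {A B : Type*} [AddCommGroup A] [AddCommGroup B] (f : A →+ B)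
    (W : List (Finset K) → A) (σ : List (Finset K)) :
    bd (fun τ => f (W τ)) σ = f (bd W σ) := by
  induction σ generalizing W with
  | nil => simp only [bd, map_sum]
  | cons Y σ ih =>
    simp only [bd, map_sum, map_sub]
    rw [ih (fun τ => W (Y :: τ))]

theorem bd_dd (W : List (Finset K) → List K → (K → F) → F) (σ : List (Finset K)) :
    bd (fun τ => dd (W τ)) σ = dd (bd W σ) := by
  have h : ∀ T T' : List K → (K → F) → F, dd (T + T') = dd T + dd T' := by
    intro T T'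
    funext Z c
    simp only [dd, Pi.add_apply, mul_add, Finset.sum_add_distrib]
  exact bd_map (AddMonoidHom.mk' dd h) W σ

/-- if a property holds for `0`, is closed under sums and differences, and holds for `W τ` for each list `τ` obtained
from `σ` by insertion of one set, then it holds for `bd W σ` -/
theorem bd_induction {A : Type*} [AddCommGroup A] (p : A → Prop) (h0 : p 0)
    (hadd : ∀ a b, p a → p b → p (a + b)) (hneg : ∀ a, p a → p (-a))
    (W : List (Finset K) → A) (σ : List (Finset K))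
    (h : ∀ σ₁ σ₂ X, σ = σ₁ ++ σ₂ → p (W (σ₁ ++ X :: σ₂))) : p (bd W σ) := by
  induction σ generalizing W with
  | nil =>
    simp only [bd]
    exact Finset.sum_induction _ p hadd h0 (fun X _ => h [] [] X rfl)
  | cons Y σ ih =>
    simp only [bd]
    rw [sub_eq_add_neg]
    refine hadd _ _ (Finset.sum_induction _ p hadd h0 (fun X _ => h [] (Y :: σ) X rfl))
      (hneg _ (ih (fun τ => W (Y :: τ)) ?_))
    intro σ₁ σ₂ X hσ
    exact h (Y :: σ₁) σ₂ X (by rw [hσ]; rfl)

/-! polynomial functions and orders -/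

theorem IsPol.zero (U : Submodule F (K → F)) (b : ℕ) : IsPol U b (fun _ => 0) :=
  ⟨0, MvPolynomial.isHomogeneous_zero _ _ _, fun c _ => by simp⟩

theorem IsPol.add {U : Submodule F (K → F)} {b : ℕ} {g g' : (K → F) → F} (h : IsPol U b g)
    (h' : IsPol U b g') : IsPol U b (fun c => g c + g' c) := by
  obtain ⟨P, hP, hP'⟩ := h
  obtain ⟨Q, hQ, hQ'⟩ := h'
  exact ⟨P + Q, hP.add hQ, fun c hc => by beta_reduce; rw [map_add, hP' c hc, hQ' c hc]⟩

theorem IsPol.neg {U : Submodule F (K → F)} {b : ℕ} {g : (K → F) → F} (h : IsPol U b g) :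
    IsPol U b (fun c => - g c) := by
  obtain ⟨P, hP, hP'⟩ := h
  exact ⟨-P, hP.neg, fun c hc => by beta_reduce; rw [map_neg, hP' c hc]⟩

theorem IsPol.sum {U : Submodule F (K → F)} {b : ℕ} {β : Type*} (s : Finset β)
    {g : β → (K → F) → F} (h : ∀ x ∈ s, IsPol U b (g x)) : IsPol U b (fun c => ∑ x ∈ s, g x c) := by
  classical
  induction s using Finset.induction_on with
  | empty => simpa using IsPol.zero U b
  | insert x s hx ih =>
    have h1 := (h x (Finset.mem_insert_self x s)).add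
      (ih fun z hz => h z (Finset.mem_insert_of_mem hz))
    obtain ⟨P, hP, hP'⟩ := h1
    exact ⟨P, hP, fun c hc => by beta_reduce; rw [Finset.sum_insert hx]; exact hP' c hc⟩

theorem IsPol.coord_mul {U : Submodule F (K → F)} {b : ℕ} {g : (K → F) → F} (h : IsPol U b g)
    (y : K) : IsPol U (b + 1) (fun c => c y * g c) := by
  obtain ⟨P, hP, hP'⟩ := h
  refine ⟨MvPolynomial.X y * P, ?_, fun c hc => by
    beta_reduce
    rw [map_mul, MvPolynomial.eval_X, hP' c hc]⟩
  rw [add_comm]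
  exact (MvPolynomial.isHomogeneous_X F y).mul hP

theorem IsPol.const (U : Submodule F (K → F)) (a : F) : IsPol U 0 (fun _ => a) :=
  ⟨MvPolynomial.C a, MvPolynomial.isHomogeneous_C _ _, fun c _ => by rw [MvPolynomial.eval_C]⟩

theorem IsPol.eq_of_zero {U : Submodule F (K → F)} {g : (K → F) → F} (h : IsPol U 0 g) :
    ∀ c ∈ U, g c = g 0 := by
  obtain ⟨P, hP, hP'⟩ := h
  intro c hc
  have h1 : P.totalDegree = 0 := Nat.le_zero.1 hP.totalDegree_le
  rw [MvPolynomial.totalDegree_eq_zero_iff_eq_C] at h1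
  rw [hP' c hc, hP' 0 U.zero_mem, h1, MvPolynomial.eval_C, MvPolynomial.eval_C]

theorem IsPol.mono {U U' : Submodule F (K → F)} (hU : U' ≤ U) {b : ℕ} {g : (K → F) → F}
    (h : IsPol U b g) : IsPol U' b g := by
  obtain ⟨P, hP, hP'⟩ := h
  exact ⟨P, hP, fun c hc => hP' c (hU hc)⟩

theorem Ord.zero (U : Submodule F (K → F)) (X : Finset K) (s : ℕ) : Ord U X s (fun _ => 0) :=
  fun _ _ _ _ => ⟨0, fun ν => by simp⟩

theorem Ord.add {U : Submodule F (K → F)} {X : Finset K} {s : ℕ} {g g' : (K → F) → F}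
    (h : Ord U X s g) (h' : Ord U X s g') : Ord U X s (fun c => g c + g' c) := by
  intro a ha b hb
  obtain ⟨Q, hQ⟩ := h a ha b hb
  obtain ⟨Q', hQ'⟩ := h' a ha b hb
  refine ⟨Q + Q', fun ν => ?_⟩
  beta_reduce
  rw [Polynomial.eval_add, mul_add, ← hQ, ← hQ']

theorem Ord.neg {U : Submodule F (K → F)} {X : Finset K} {s : ℕ} {g : (K → F) → F}
    (h : Ord U X s g) : Ord U X s (fun c => - g c) := by
  intro a ha b hb
  obtain ⟨Q, hQ⟩ := h a ha b hb
  refine ⟨-Q, fun ν => ?_⟩
  beta_reduce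
  rw [Polynomial.eval_neg, mul_neg, ← hQ]

theorem Ord.sum {U : Submodule F (K → F)} {X : Finset K} {s : ℕ} {β : Type*} (t : Finset β)
    {g : β → (K → F) → F} (h : ∀ x ∈ t, Ord U X s (g x)) : Ord U X s (fun c => ∑ x ∈ t, g x c) := by
  intro a ha b hb
  have h1 : ∀ x : β, ∃ Q : Polynomial F, x ∈ t → ∀ ν : F, g x (ν • a + b) = ν ^ s * Q.eval ν := by
    intro x
    by_cases hx : x ∈ t
    · obtain ⟨Q, hQ⟩ := h x hx a ha b hb
      exact ⟨Q, fun _ => hQ⟩
    · exact ⟨0, fun h' => absurd h' hx⟩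
  choose Q hQ using h1
  refine ⟨∑ x ∈ t, Q x, fun ν => ?_⟩
  beta_reduce
  rw [Polynomial.eval_finsetSum, Finset.mul_sum]
  exact Finset.sum_congr rfl fun x hx => hQ x hx ν

theorem Ord.le {U : Submodule F (K → F)} {X : Finset K} {s s' : ℕ} {g : (K → F) → F}
    (h : Ord U X s g) (hs : s' ≤ s) : Ord U X s' g := by
  intro a ha b hb
  obtain ⟨Q, hQ⟩ := h a ha b hb
  refine ⟨Polynomial.X ^ (s - s') * Q, fun ν => ?_⟩
  rw [hQ, Polynomial.eval_mul, Polynomial.eval_pow, Polynomial.eval_X, ← mul_assoc, ← pow_add,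
    Nat.add_sub_cancel' hs]

theorem Ord.coord_mul {U : Submodule F (K → F)} {X : Finset K} {s : ℕ} {g : (K → F) → F}
    (h : Ord U X s g) (y : K) : Ord U X s (fun c => c y * g c) := by
  intro a ha b hb
  obtain ⟨Q, hQ⟩ := h a ha b hb
  refine ⟨(Polynomial.X * Polynomial.C (a y) + Polynomial.C (b y)) * Q, fun ν => ?_⟩
  simp only [hQ, Polynomial.eval_mul, Polynomial.eval_add, Polynomial.eval_X, Polynomial.eval_C,
    Pi.add_apply, Pi.smul_apply, smul_eq_mul]
  ring

theorem Ord.coord_mul_mem {U : Submodule F (K → F)} {X : Finset K} {s : ℕ} {g : (K → F) → F}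
    (h : Ord U X s g) {y : K} (hy : y ∈ X) : Ord U X (s + 1) (fun c => c y * g c) := by
  intro a ha b hb
  obtain ⟨Q, hQ⟩ := h a ha b hb
  have hb0 : b y = 0 := hb.2 y hy
  refine ⟨Polynomial.C (a y) * Q, fun ν => ?_⟩
  simp only [hQ, Polynomial.eval_mul, Polynomial.eval_C, Pi.add_apply, Pi.smul_apply, smul_eq_mul,
    hb0]
  ring

theorem Ord.mono {U U' : Submodule F (K → F)} (hU : U' ≤ U) {X : Finset K} {s : ℕ}
    {g : (K → F) → F} (h : Ord U X s g) : Ord U' X s g :=
  fun a ha b hb => h a (hU ha) b ⟨hU hb.1, hb.2⟩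

theorem Ord.congr {U : Submodule F (K → F)} {X : Finset K} {s : ℕ} {g g' : (K → F) → F}
    (h : Ord U X s g) (hg : ∀ c ∈ U, g c = g' c) : Ord U X s g' := by
  intro a ha b hb
  obtain ⟨Q, hQ⟩ := h a ha b hb
  refine ⟨Q, fun ν => ?_⟩
  rw [← hQ]
  exact (hg _ (U.add_mem (U.smul_mem ν ha) hb.1)).symm

/-- the polynomial `P (ν a + b)` in `ν` -/
noncomputable def e1c_line (P : MvPolynomial K F) (a b : K → F) : Polynomial F :=
  MvPolynomial.aeval (fun y => Polynomial.X * Polynomial.C (a y) + Polynomial.C (b y)) P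

theorem e1c_eval_line (P : MvPolynomial K F) (a b : K → F) (ν : F) :
    (e1c_line P a b).eval ν = MvPolynomial.eval (ν • a + b) P := by
  unfold e1c_line
  induction P using MvPolynomial.induction_on with
  | C r => simp
  | add p q hp hq => rw [map_add, map_add, Polynomial.eval_add, hp, hq]
  | mul_X p y hp =>
    rw [map_mul, map_mul, Polynomial.eval_mul, hp]
    simp only [MvPolynomial.aeval_X, MvPolynomial.eval_X, Polynomial.eval_add,
      Polynomial.eval_mul, Polynomial.eval_X, Polynomial.eval_C, Pi.add_apply, Pi.smul_apply,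
      smul_eq_mul]

/-- a polynomial function has order `0` -/
theorem IsPol.ord_zero {U : Submodule F (K → F)} {b : ℕ} {g : (K → F) → F} (h : IsPol U b g)
    (X : Finset K) : Ord U X 0 g := by
  intro a ha b hb
  obtain ⟨P, -, hP⟩ := h
  refine ⟨e1c_line P a b, fun ν => ?_⟩
  rw [pow_zero, one_mul, e1c_eval_line, hP _ (U.add_mem (U.smul_mem ν ha) hb.1)]

/-- a polynomial function vanishing on `van U X` has order `1` -/
theorem IsPol.ord_one {U : Submodule F (K → F)} {b : ℕ} {g : (K → F) → F} (h : IsPol U b g)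
    {X : Finset K} (h0 : ∀ c ∈ van U X, g c = 0) : Ord U X 1 g := by
  intro a ha b hb
  obtain ⟨P, -, hP⟩ := h
  have h1 : (e1c_line P a b).eval 0 = 0 := by
    rw [e1c_eval_line, zero_smul, zero_add, ← hP b hb.1]
    exact h0 b hb
  obtain ⟨Q, hQ⟩ := Polynomial.dvd_iff_isRoot.2 h1
  refine ⟨Q, fun ν => ?_⟩
  rw [hP _ (U.add_mem (U.smul_mem ν ha) hb.1), ← e1c_eval_line, hQ]
  simp

theorem Ord.eq_zero {U : Submodule F (K → F)} {X : Finset K} {s : ℕ} {g : (K → F) → F}
    (h : Ord U X s g) (hs : 1 ≤ s) : ∀ c ∈ van U X, g c = 0 := by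
  intro c hc
  obtain ⟨Q, hQ⟩ := h 0 U.zero_mem c hc
  have h1 := hQ 0
  rw [zero_pow (by omega), zero_mul, smul_zero, zero_add] at h1
  exact h1

end Pool.Agent.MP_d4f4ab_ag.W
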