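import Pool.Agent.MP_d4f4ab_ag.W.E1

/-! [WR-E2] the upward chase (WR_PROOF.md section 8), formal part. -/

open Finset

namespace Pool.Agent.MP_d4f4ab_ag.W

variable {F : Type*} [Field F] {K : Type*} [Fintype K] [DecidableEq K]

open Classical in
/-- the forms `U(σ)` -/
noncomputable def UU (L : Submodule F (K → F)) (e : ℕ) (w : List K → F) :
    List (Finset K) → List K → (K → F) → F
  | [] => fun Z _ => w Z
  | X :: σ => fun Z c => if Ind L e Z ∧ cl L e Z.toFinset = X then dd (UU L e w σ) Z c else 0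

variable {L : Submodule F (K → F)} {e : ℕ} {w : List K → F} {n : ℕ}

theorem UU_alt (hw : Alt w) (σ : List (Finset K)) : Alt (UU L e w σ) := by
  classical
  induction σ with
  | nil =>
    refine ⟨fun Z₁ x y Z₂ => ?_, fun Z₁ x Z₂ => ?_⟩
    · funext c
      exact hw.swap Z₁ x y Z₂
    · funext c
      exact hw.same Z₁ x Z₂
  | cons X σ ih =>
    have h1 : UU L e w (X :: σ) = fun Z =>
        if Ind L e Z ∧ cl L e Z.toFinset = X then dd (UU L e w σ) Z else 0 := by
      funext Z c
      simp only [UU]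
      split_ifs <;> rfl
    rw [h1]
    refine Alt.ite ih.dd _ ?_
    intro Z Z' hp
    have h2 : Z.toFinset = Z'.toFinset := List.toFinset_eq_of_perm _ _ hp
    rw [h2]
    exact ⟨fun h => ⟨h.1.perm hp, h.2⟩, fun h => ⟨h.1.perm hp.symm, h.2⟩⟩

theorem UU_length (hlen : ∀ Z : List K, Z.length ≠ n → w Z = 0) (σ : List (Finset K))
    (Z : List K) (h : Z.length + σ.length ≠ n) (c : K → F) : UU L e w σ Z c = 0 := by
  induction σ generalizing Z with
  | nil => exact hlen Z (by simpa using h)
  | cons X σ ih =>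
    simp only [UU]
    split_ifs
    · simp only [dd]
      apply Finset.sum_eq_zero
      intro y _
      rw [ih (y :: Z) (by simp only [List.length_cons] at h ⊢; omega), mul_zero]
    · rfl

theorem UU_ind (hind : ∀ Z : List K, ¬ Ind L e Z → w Z = 0) (σ : List (Finset K)) (Z : List K)
    (h : ¬ Ind L e Z) (c : K → F) : UU L e w σ Z c = 0 := by
  cases σ with
  | nil => exact hind Z h
  | cons X σ =>
    simp only [UU]
    rw [if_neg (fun h' => h h'.1)]

theorem dd_UU_ind (hind : ∀ Z : List K, ¬ Ind L e Z → w Z = 0) (σ : List (Finset K)) (Z : List K)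
    (h : ¬ Ind L e Z) (c : K → F) : dd (UU L e w σ) Z c = 0 := by
  simp only [dd]
  apply Finset.sum_eq_zero
  intro y _
  rw [UU_ind hind σ (y :: Z) (fun h' => h (ind_cons.1 h').1), mul_zero]

/-- sum over the first member -/
theorem sum_UU_cons (hind : ∀ Z : List K, ¬ Ind L e Z → w Z = 0) (σ : List (Finset K)) :
    ∑ X : Finset K, UU L e w (X :: σ) = dd (UU L e w σ) := by
  classical
  funext Z c
  rw [Finset.sum_apply, Finset.sum_apply]
  simp only [UU]
  by_cases h : Ind L e Z
  · simp only [h, true_and]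
    rw [Finset.sum_ite_eq]
    simp
  · simp only [h, false_and, if_false, Finset.sum_const_zero]
    exact (dd_UU_ind hind σ Z h c).symm

/-- the operator `U(σ) ↦ U(Y :: σ)` -/
theorem e2a_cons (Y : Finset K) (σ : List (Finset K)) :
    UU L e w (Y :: σ) = fun Z c =>
      open Classical in if Ind L e Z ∧ cl L e Z.toFinset = Y then dd (UU L e w σ) Z c else 0 := rfl

theorem e2a_sum_cons {β : Type*} (s : Finset β) (Y : Finset K) (τ : β → List (Finset K)) :
    ∑ X ∈ s, UU L e w (Y :: τ X) = fun Z c =>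
      open Classical in if Ind L e Z ∧ cl L e Z.toFinset = Y then
        dd (∑ X ∈ s, UU L e w (τ X)) Z c else 0 := by
  classical
  funext Z c
  rw [Finset.sum_apply, Finset.sum_apply, dd_sum]
  simp only [UU]
  split_ifs with h
  · rw [Finset.sum_apply, Finset.sum_apply]
  · simp

/-- sums over the other members vanish -/
theorem sum_UU_cons_append (hw : Alt w) (hind : ∀ Z : List K, ¬ Ind L e Z → w Z = 0)
    (Y : Finset K) (σ₁ σ₂ : List (Finset K)) :
    ∑ X : Finset K, UU L e w (Y :: (σ₁ ++ X :: σ₂)) = 0 := by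
  classical
  induction σ₁ generalizing Y with
  | nil =>
    rw [e2a_sum_cons]
    funext Z c
    simp only [List.nil_append]
    rw [sum_UU_cons hind σ₂, dd_dd (UU_alt hw σ₂)]
    simp
  | cons Y' σ₁ ih =>
    rw [e2a_sum_cons]
    funext Z c
    simp only [List.cons_append]
    rw [ih Y']
    simp [dd]

/-- for every position, the sum of `dd U` vanishes -/
theorem sum_dd_UU (hw : Alt w) (hind : ∀ Z : List K, ¬ Ind L e Z → w Z = 0)
    (σ₁ σ₂ : List (Finset K)) :
    ∑ X : Finset K, dd (UU L e w (σ₁ ++ X :: σ₂)) = 0 := by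
  rw [← dd_sum]
  cases σ₁ with
  | nil =>
    simp only [List.nil_append]
    rw [sum_UU_cons hind σ₂]
    funext Z c
    exact dd_dd (UU_alt hw σ₂) Z c
  | cons Y σ₁ =>
    simp only [List.cons_append]
    rw [sum_UU_cons_append hw hind Y σ₁ σ₂]
    funext Z c
    simp [dd]

theorem bd_UU (hw : Alt w) (hind : ∀ Z : List K, ¬ Ind L e Z → w Z = 0)
    (σ : List (Finset K)) : bd (UU L e w) σ = dd (UU L e w σ) := by
  classical
  induction σ with
  | nil => exact sum_UU_cons hind []
  | cons Y σ ih =>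
    have h1 : bd (UU L e w) (Y :: σ) =
        ∑ X : Finset K, UU L e w (X :: Y :: σ) - bd (fun τ => UU L e w (Y :: τ)) σ := rfl
    let f : (List K → (K → F) → F) →+ (List K → (K → F) → F) :=
      AddMonoidHom.mk' (fun T Z c =>
        if Ind L e Z ∧ cl L e Z.toFinset = Y then dd T Z c else 0) (by
          intro T T'
          funext Z c
          simp only [Pi.add_apply, dd, mul_add, Finset.sum_add_distrib]
          split_ifs <;> simp)
    have h2 : bd (fun τ => UU L e w (Y :: τ)) σ = f (bd (UU L e w) σ) :=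
      bd_map f (UU L e w) σ
    have h3 : f (dd (UU L e w σ)) = 0 := by
      funext Z c
      have h4 : f (dd (UU L e w σ)) Z c =
        if Ind L e Z ∧ cl L e Z.toFinset = Y then dd (dd (UU L e w σ)) Z c else 0 := rfl
      rw [h4, dd_dd (UU_alt hw σ)]
      simp
    rw [h1, h2, ih, h3, sub_zero, sum_UU_cons hind (Y :: σ)]

omit [DecidableEq K] in
/-- a nonzero value of `dd T` comes from a nonzero value of `T` -/
theorem e2b_exists {T : List K → (K → F) → F} {Z : List K} {c : K → F} (h : dd T Z c ≠ 0) :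
    ∃ y, T (y :: Z) c ≠ 0 := by
  by_contra hcon
  push Not at hcon
  apply h
  simp only [dd]
  exact Finset.sum_eq_zero fun y _ => by rw [hcon y, mul_zero]

theorem e2b_UU_cons {X : Finset K} {σ : List (Finset K)} {Z : List K} {c : K → F}
    (h : UU L e w (X :: σ) Z c ≠ 0) :
    Ind L e Z ∧ cl L e Z.toFinset = X ∧ dd (UU L e w σ) Z c ≠ 0 := by
  simp only [UU] at h
  by_cases hc : Ind L e Z ∧ cl L e Z.toFinset = X
  · rw [if_pos hc] at h
    exact ⟨hc.1, hc.2, h⟩
  · rw [if_neg hc] at h
    exact absurd rfl h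

/-- support: `σ` is a full flag from `cl Z` to `K` -/
theorem flag_of_dd_UU (hn : nn L e univ = n) (hlen : ∀ Z : List K, Z.length ≠ n → w Z = 0)
    (hind : ∀ Z : List K, ¬ Ind L e Z → w Z = 0) (σ : List (Finset K)) (Z : List K) (c : K → F)
    (h : dd (UU L e w σ) Z c ≠ 0) : Ind L e Z ∧ Flag L e univ (cl L e Z.toFinset) σ := by
  induction σ generalizing Z with
  | nil =>
    obtain ⟨y, hy⟩ := e2b_exists h
    rw [UU] at hy
    have h1 : (y :: Z).length = n := by
      by_contra hcon
      exact hy (hlen _ hcon)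
    have h2 : Ind L e (y :: Z) := by
      by_contra hcon
      exact hy (hind _ hcon)
    have h3 := (ind_cons.1 h2).1
    have h4 : nn L e (cl L e Z.toFinset) = (Z.length : ℤ) := h3
    have h5 : nn L e (univ : Finset K) = nn L e (cl L e Z.toFinset) + 1 := by
      rw [hn, h4, ← h1, List.length_cons]
      push_cast
      ring
    refine ⟨h3, isFlat_cl _, isFlat_univ, ?_, h5⟩
    refine Finset.ssubset_univ_iff.2 ?_
    intro h6
    rw [h6] at h5
    linarith
  | cons X σ ih =>
    obtain ⟨y, hy⟩ := e2b_exists h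
    obtain ⟨h1, h2, h3⟩ := e2b_UU_cons hy
    obtain ⟨h4, h5⟩ := ih _ h3
    obtain ⟨h6, h7⟩ := h1.cl_cons
    rw [h2] at h5 h6 h7
    refine ⟨(ind_cons.1 h1).1, isFlat_cl _, ?_, h6, h7, h5⟩
    rw [← h2]
    exact isFlat_cl _

theorem flag_of_UU (hn : nn L e univ = n) (hlen : ∀ Z : List K, Z.length ≠ n → w Z = 0)
    (hind : ∀ Z : List K, ¬ Ind L e Z → w Z = 0) (X : Finset K) (σ : List (Finset K)) (Z : List K)
    (c : K → F) (h : UU L e w (X :: σ) Z c ≠ 0) :
    Ind L e Z ∧ cl L e Z.toFinset = X ∧ Flag L e univ X σ := by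
  obtain ⟨h1, h2, h3⟩ := e2b_UU_cons h
  obtain ⟨-, h4⟩ := flag_of_dd_UU hn hlen hind σ Z c h3
  rw [h2] at h4
  exact ⟨h1, h2, h4⟩

theorem UU_pol (U : Submodule F (K → F)) (σ : List (Finset K)) (Z : List K) :
    IsPol U σ.length (UU L e w σ Z) := by
  induction σ generalizing Z with
  | nil => exact IsPol.const U (w Z)
  | cons X σ ih =>
    by_cases hc : Ind L e Z ∧ cl L e Z.toFinset = X
    · have h1 : UU L e w (X :: σ) Z = fun c => ∑ y, c y * UU L e w σ (y :: Z) c := by
        funext c
        simp only [UU, if_pos hc]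
        rfl
      rw [h1, List.length_cons]
      exact IsPol.sum _ fun y _ => (ih (y :: Z)).coord_mul y
    · have h1 : UU L e w (X :: σ) Z = fun _ => 0 := by
        funext c
        simp only [UU, if_neg hc]
      rw [h1]
      exact IsPol.zero _ _

/-- the exponent of the order of vanishing required at `X` for the arguments `Z` -/
noncomputable def ex (L : Submodule F (K → F)) (e : ℕ) (X : Finset K) (Z : List K) : ℕ :=
  (nn L e X + 1).toNat - Z.countP (· ∈ X)

theorem ex_cons_mem (X : Finset K) (Z : List K) {y : K} (hy : y ∈ X) :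
    ex L e X Z ≤ ex L e X (y :: Z) + 1 := by
  have h : (y :: Z).countP (· ∈ X) = Z.countP (· ∈ X) + 1 := by
    rw [List.countP_cons_of_pos]
    simpa using hy
  simp only [ex, h]
  omega

theorem ex_cons_notMem (X : Finset K) (Z : List K) {y : K} (hy : y ∉ X) :
    ex L e X (y :: Z) = ex L e X Z := by
  have h : (y :: Z).countP (· ∈ X) = Z.countP (· ∈ X) := by
    rw [List.countP_cons_of_neg]
    simpa using hy
  simp only [ex, h]

/-- `dd` preserves orders of vanishing -/
theorem ord_dd {U : Submodule F (K → F)} {T : List K → (K → F) → F} {X : Finset K}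
    (h : ∀ Z, Ord U X (ex L e X Z) (T Z)) (Z : List K) : Ord U X (ex L e X Z) (dd T Z) := by
  have h1 : dd T Z = fun c => ∑ y, c y * T (y :: Z) c := rfl
  rw [h1]
  refine Ord.sum _ fun y _ => ?_
  by_cases hy : y ∈ X
  · exact ((h (y :: Z)).coord_mul_mem hy).le (ex_cons_mem X Z hy)
  · have h2 := (h (y :: Z)).coord_mul y
    rw [ex_cons_notMem X Z hy] at h2
    exact h2

end Pool.Agent.MP_d4f4ab_ag.W
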