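import Pool.Agent.MP_d4f4ab_ag.W.E2
import Pool.Agent.MP_d4f4ab_ag.W.D2

/-! [WR-E3] the upward chase: orders of vanishing (u2) (WR_PROOF.md section 8). -/

open Finset

namespace Pool.Agent.MP_d4f4ab_ag.W

variable {F : Type*} [Field F] {K : Type*} [Fintype K] [DecidableEq K]
  {L : Submodule F (K → F)} {e : ℕ} {w : List K → F} {n : ℕ}

/-- the hypotheses on `w` -/
structure Hyp (L : Submodule F (K → F)) (e n : ℕ) (w : List K → F) : Prop where
  alt : Alt w
  len : ∀ Z : List K, Z.length ≠ n → w Z = 0
  ind : ∀ Z : List K, ¬ Ind L e Z → w Z = 0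
  one : ∀ Z : List K, Ind L e Z → Z.length + 1 = n → ∀ c ∈ van L (cl L e Z.toFinset),
    ∑ y, c y * w (y :: Z) = 0
  two : ∀ Z : List K, Ind L e Z → Z.length + 2 = n → ∀ H : Finset K, IsFlat L e H →
    cl L e Z.toFinset ⊂ H → nn L e H = Z.length + 1 → ∀ c ∈ van L (cl L e Z.toFinset),
      ∑ y ∈ H, ∑ x, c x * c y * w (x :: y :: Z) = 0

omit [Fintype K] in
theorem e3_countP_le (X : Finset K) (Z : List K) : Z.countP (· ∈ X) ≤ Z.length :=
  List.countP_le_length

/-- `dd` of `UU` vanishes for the wrong length -/
theorem e3_dd_length (hlen : ∀ Z : List K, Z.length ≠ n → w Z = 0) (σ : List (Finset K))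
    (Z : List K) (h : Z.length + σ.length + 1 ≠ n) (c : K → F) : dd (UU L e w σ) Z c = 0 := by
  unfold dd
  refine Finset.sum_eq_zero fun y _ => ?_
  rw [UU_length hlen σ (y :: Z) (by rw [List.length_cons]; omega), mul_zero]

theorem e3_pol (U : Submodule F (K → F)) (σ : List (Finset K)) (Z : List K) :
    IsPol U (σ.length + 1) (dd (UU L e w σ) Z) := by
  have h := IsPol.sum (U := U) (b := σ.length + 1) univ
    (g := fun y => fun c => c y * UU L e w σ (y :: Z) c)
    (fun y _ => (UU_pol U σ (y :: Z)).coord_mul y)
  exact h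

theorem e3_ex_self {Z : List K} (hZ : Ind L e Z) : ex L e (cl L e Z.toFinset) Z = 1 := by
  have h1 : Z.countP (· ∈ cl L e Z.toFinset) = Z.length := by
    rw [List.countP_eq_length]
    intro y hy
    simpa using subset_cl (L := L) (e := e) Z.toFinset (List.mem_toFinset.2 hy)
  have h2 : nn L e (cl L e Z.toFinset) = (Z.length : ℤ) := hZ
  unfold ex
  rw [h1, h2]
  omega

theorem e3_two (hd : Dense L e) (hn : nn L e univ = n) (h : Hyp L e n w)
    (X : Finset K) (Z : List K) (hZ : Ind L e Z) :
    ∀ c ∈ van L (cl L e Z.toFinset), dd (UU L e w [X]) Z c = 0 := by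
  classical
  intro c hc
  by_cases hlen : Z.length + 2 = n
  swap
  · exact e3_dd_length h.len [X] Z (by simp; omega) c
  have hval : dd (UU L e w [X]) Z c =
      ∑ y, if Ind L e (y :: Z) ∧ cl L e (y :: Z).toFinset = X then
        ∑ x, c x * c y * w (x :: y :: Z) else 0 := by
    unfold dd
    refine Finset.sum_congr rfl fun y _ => ?_
    simp only [UU]
    split_ifs with h1
    · unfold dd
      rw [Finset.mul_sum]
      exact Finset.sum_congr rfl fun x _ => by ring
    · rw [mul_zero]
  by_cases hex : ∃ y, Ind L e (y :: Z) ∧ cl L e (y :: Z).toFinset = X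
  swap
  · rw [hval]
    refine Finset.sum_eq_zero fun y _ => ?_
    rw [if_neg fun h1 => hex ⟨y, h1⟩]
  obtain ⟨y0, hy0, hX⟩ := hex
  have hfl : IsFlat L e X := by rw [← hX]; exact isFlat_cl _
  have hsub : cl L e Z.toFinset ⊂ X := by rw [← hX]; exact hy0.cl_cons.1
  have hnX : nn L e X = Z.length + 1 := by
    rw [← hX, hy0.cl_cons.2]
    have : nn L e (cl L e Z.toFinset) = (Z.length : ℤ) := hZ
    rw [this]
  have h2 := h.two Z hZ hlen X hfl hsub hnX c hc
  rw [hval]
  refine Eq.trans ?_ h2
  symm
  refine Finset.sum_subset_zero_on_sdiff (Finset.subset_univ X) ?_ ?_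
  · intro y hy
    rw [Finset.mem_sdiff] at hy
    rw [if_neg]
    rintro ⟨-, h1⟩
    apply hy.2
    rw [← h1]
    exact subset_cl _ (by simp)
  · intro y hy
    split_ifs with h1
    · rfl
    · refine Finset.sum_eq_zero fun x _ => ?_
      rw [h.ind, mul_zero]
      intro h3
      have h4 : Ind L e (y :: Z) := (ind_cons.1 h3).1
      refine h1 ⟨h4, ?_⟩
      refine h4.cl_eq hfl ?_ ?_
      · intro z hz
        rw [List.mem_toFinset, List.mem_cons] at hz
        rcases hz with rfl | hz
        · exact hy
        · exact hsub.1 (subset_cl _ (List.mem_toFinset.2 hz))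
      · rw [hnX, List.length_cons]
        push_cast
        ring

/-- the head: `dd U(σ)` vanishes on `L_{cl Z}`; by the length of `σ`: `0`: `Hyp.one`; `1`: `Hyp.two`; `≥ 2`: `TS` for
`g τ = if τ.length = σ.length then dd (UU τ) Z else 0` in the interval `[cl Z, K]`; the orders at the members of `τ` are
given by `hord` -/
theorem dd_UU_vanish (hd : Dense L e) [IsAlgClosed F] (hn : nn L e univ = n) (h : Hyp L e n w)
    (σ : List (Finset K))
    (hord : ∀ τ : List (Finset K), τ.length = σ.length → ∀ X ∈ τ, ∀ Z : List K,
      Ord L X (ex L e X Z) (UU L e w τ Z))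
    (Z : List K) (hZ : Ind L e Z) : ∀ c ∈ van L (cl L e Z.toFinset), dd (UU L e w σ) Z c = 0 := by
  intro c hc
  by_cases hlen : Z.length + σ.length + 1 = n
  swap
  · exact e3_dd_length h.len σ Z hlen c
  have hnZ : nn L e (cl L e Z.toFinset) = (Z.length : ℤ) := hZ
  rcases Nat.lt_or_ge σ.length 2 with hσ | hσ
  · match σ, hσ, hlen with
    | [], _, hlen =>
      show ∑ y, c y * w (y :: Z) = 0
      exact h.one Z hZ (by simpa using hlen) c hc
    | [X], _, _ => exact e3_two hd hn h X Z hZ c hc
  · let g : List (Finset K) → (K → F) → F := fun τ =>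
      if τ.length = σ.length then dd (UU L e w τ) Z else fun _ => 0
    have hg : PCyc L e (σ.length + 1) (cl L e Z.toFinset) g := by
      constructor
      · intro τ hτ c' hc'
        by_cases h1 : τ.length = σ.length
        · simp only [g, if_pos h1]
          by_contra h2
          exact hτ (flag_of_dd_UU hn h.len h.ind τ Z c' h2).2
        · simp only [g, if_neg h1]
      · intro τ
        by_cases h1 : τ.length = σ.length
        · simp only [g, if_pos h1]
          rw [← h1]
          exact e3_pol _ τ Z
        · simp only [g, if_neg h1]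
          exact IsPol.zero _ _
      · intro τ₁ X τ₂
        by_cases h1 : (τ₁ ++ X :: τ₂).length = σ.length
        · simp only [g, if_pos h1]
          by_cases hf : Flag L e univ (cl L e Z.toFinset) (τ₁ ++ X :: τ₂)
          · have h2 := ord_dd (U := L) (X := X) (T := UU L e w (τ₁ ++ X :: τ₂))
              (hord _ h1 X (by simp)) Z
            refine (h2.le ?_).mono fun a ha => (mem_van.1 ha).1
            have h3 := hf.nn_mem
            rw [hnZ] at h3
            have h4 := e3_countP_le X Z
            unfold ex
            rw [h3]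
            omega
          · refine (Ord.zero (van L (cl L e Z.toFinset)) X (τ₁.length + 2)).congr fun a ha => ?_
            symm
            by_contra h2
            exact hf (flag_of_dd_UU hn h.len h.ind _ Z a h2).2
        · simp only [g, if_neg h1]
          exact Ord.zero _ _ _
      · intro τ₁ τ₂ c' _
        by_cases h1 : τ₁.length + τ₂.length + 1 = σ.length
        · have h2 : ∀ X : Finset K, g (τ₁ ++ X :: τ₂) = dd (UU L e w (τ₁ ++ X :: τ₂)) Z := by
            intro X
            simp only [g]
            rw [if_pos]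
            rw [List.length_append, List.length_cons]
            omega
          simp only [h2]
          have h3 := congrFun (congrFun (sum_dd_UU h.alt h.ind τ₁ τ₂ (L := L) (e := e)) Z) c'
          simpa using h3
        · refine Finset.sum_eq_zero fun X _ => ?_
          simp only [g]
          rw [if_neg]
          rw [List.length_append, List.length_cons]
          omega
    have h1 := TS hd hσ (cl L e Z.toFinset) (by rw [hn, hnZ, ← hlen]; push_cast; ring) g hg σ c hc
    simpa [g] using h1

/-- (u2) -/
theorem UU_ord (hd : Dense L e) [IsAlgClosed F] (hn : nn L e univ = n) (h : Hyp L e n w)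
    (σ : List (Finset K)) : ∀ X ∈ σ, ∀ Z : List K, Ord L X (ex L e X Z) (UU L e w σ Z) := by
  classical
  suffices H : ∀ m : ℕ, ∀ σ : List (Finset K), σ.length = m → ∀ X ∈ σ, ∀ Z : List K,
      Ord L X (ex L e X Z) (UU L e w σ Z) from H σ.length σ rfl
  intro m
  induction m with
  | zero =>
    intro σ hσ X hX
    rw [List.length_eq_zero_iff] at hσ
    rw [hσ] at hX
    simp at hX
  | succ m ih =>
    intro σ hσ X hX Z
    match σ, hσ, hX with
    | Y :: σ', hσ, hX =>
      have hσ' : σ'.length = m := by simpa using hσ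
      by_cases hc : Ind L e Z ∧ cl L e Z.toFinset = Y
      · have hU : UU L e w (Y :: σ') Z = dd (UU L e w σ') Z := by
          funext c
          simp only [UU]
          rw [if_pos hc]
        rw [hU]
        rcases List.mem_cons.1 hX with h1 | h1
        · subst h1
          rw [← hc.2, e3_ex_self hc.1]
          refine (e3_pol L σ' Z).ord_one ?_
          exact dd_UU_vanish hd hn h σ' (fun τ hτ X hX Z => ih τ (hτ.trans hσ') X hX Z) Z hc.1
        · exact ord_dd (fun Z => ih σ' hσ' X h1 Z) Z
      · have hU : UU L e w (Y :: σ') Z = fun _ => 0 := by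
          funext c
          simp only [UU]
          rw [if_neg hc]
        rw [hU]
        exact Ord.zero _ _ _

/-- start of the downward chase -/
theorem dd_UU_nil (hd : Dense L e) [IsAlgClosed F] (hn : nn L e univ = n) (h : Hyp L e n w)
    (σ : List (Finset K)) (hσ : σ.length + 1 = n) (Z : List K) :
    ∀ c ∈ L, dd (UU L e w σ) Z c = 0 := by
  intro c hc
  by_cases hZ : Z.length = 0
  · rw [List.length_eq_zero_iff] at hZ
    subst hZ
    refine dd_UU_vanish hd hn h σ (fun τ _ => UU_ord hd hn h τ) [] (ind_nil hd) c ?_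
    rw [List.toFinset_nil, (isFlat_empty hd).cl_eq, van_empty]
    exact hc
  · exact e3_dd_length h.len σ Z (by omega) c

end Pool.Agent.MP_d4f4ab_ag.W
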