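import Pool.Agent.MP_d4f4ab_ag.W.E1

/-! [WR-E4] Koszul exactness with orders of vanishing (WR_PROOF.md section 8, KE). -/

open Finset

namespace Pool.Agent.MP_d4f4ab_ag.W

variable {F : Type*} [Field F] {K : Type*} [Fintype K] [DecidableEq K]

/-! #### adapted bases -/

/-- `B` is a coordinate basis of `L`, adapted to the sets `X` of the list `σ` -/
structure Adapted (L : Submodule F (K → F)) (σ : List (Finset K)) (B : Finset K) : Prop where
  inj : ∀ c ∈ L, (∀ y ∈ B, c y = 0) → c = 0
  surj : ∀ f : K → F, ∃ c ∈ L, ∀ y ∈ B, c y = f y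
  adp : ∀ X ∈ σ, ∀ c ∈ L, (∀ y ∈ B, y ∈ X → c y = 0) → ∀ y ∈ X, c y = 0

/-- extension of a set `B₀ ⊆ X` with `L → F^B₀` surjective to such a set which detects vanishing on `X` -/
private theorem e4a_extend (L : Submodule F (K → F)) (X B₀ : Finset K) (h₀ : B₀ ⊆ X)
    (hs : ∀ f : K → F, ∃ c ∈ L, ∀ y ∈ B₀, c y = f y) :
    ∃ B : Finset K, B₀ ⊆ B ∧ B ⊆ X ∧ (∀ f : K → F, ∃ c ∈ L, ∀ y ∈ B, c y = f y) ∧
      ∀ c ∈ L, (∀ y ∈ B, c y = 0) → ∀ y ∈ X, c y = 0 := by
  classical
  let P : Finset (Finset K) := X.powerset.filter fun B =>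
    B₀ ⊆ B ∧ ∀ f : K → F, ∃ c ∈ L, ∀ y ∈ B, c y = f y
  have hP : P.Nonempty := ⟨B₀, by
    rw [Finset.mem_filter, Finset.mem_powerset]
    exact ⟨h₀, Finset.Subset.refl _, hs⟩⟩
  obtain ⟨B, hB, hmax⟩ := Finset.exists_max_image P Finset.card hP
  rw [Finset.mem_filter, Finset.mem_powerset] at hB
  obtain ⟨hBX, hB₀, hsurj⟩ := hB
  refine ⟨B, hB₀, hBX, hsurj, ?_⟩
  intro c hc hcB y hy
  by_contra hcy
  have hyB : y ∉ B := fun h => hcy (hcB y h)
  have hmem : insert y B ∈ P := by
    rw [Finset.mem_filter, Finset.mem_powerset]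
    refine ⟨Finset.insert_subset hy hBX, hB₀.trans (Finset.subset_insert _ _), ?_⟩
    intro f
    obtain ⟨c', hc', hf⟩ := hsurj f
    refine ⟨c' + ((f y - c' y) / c y) • c, L.add_mem hc' (L.smul_mem _ hc), ?_⟩
    intro z hz
    rw [Finset.mem_insert] at hz
    rcases hz with rfl | hz
    · rw [Pi.add_apply, Pi.smul_apply, smul_eq_mul, div_mul_cancel₀ _ hcy]
      ring
    · rw [Pi.add_apply, Pi.smul_apply, hcB z hz, smul_zero, add_zero, hf z hz]
  have h1 := hmax _ hmem
  rw [Finset.card_insert_of_notMem hyB] at h1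
  omega

private theorem e4a_list (L : Submodule F (K → F)) (σ : List (Finset K))
    (hσ : σ.Pairwise (· ⊆ ·)) : ∀ B₀ : Finset K, (∀ X ∈ σ, B₀ ⊆ X) →
      (∀ f : K → F, ∃ c ∈ L, ∀ y ∈ B₀, c y = f y) → ∃ B, B₀ ⊆ B ∧ Adapted L σ B := by
  induction σ with
  | nil =>
    intro B₀ _ hs
    obtain ⟨B, h1, -, h3, h4⟩ := e4a_extend L univ B₀ (Finset.subset_univ _) hs
    refine ⟨B, h1, ⟨?_, h3, ?_⟩⟩
    · intro c hc hcB
      funext y
      exact h4 c hc hcB y (Finset.mem_univ _)
    · intro X hX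
      exact absurd hX (List.not_mem_nil)
  | cons X σ ih =>
    intro B₀ h₀ hs
    rw [List.pairwise_cons] at hσ
    obtain ⟨B₁, h1, h2, h3, h4⟩ := e4a_extend L X B₀ (h₀ X List.mem_cons_self) hs
    obtain ⟨B, h5, h6⟩ := ih hσ.2 B₁ (fun Y hY => h2.trans (hσ.1 Y hY)) h3
    refine ⟨B, h1.trans h5, ⟨h6.inj, h6.surj, ?_⟩⟩
    intro Y hY
    rcases List.mem_cons.1 hY with rfl | hY
    · intro c hc hcB
      exact h4 c hc (fun y hy => hcB y (h5 hy) (h2 hy))
    · exact h6.adp Y hY

/-- extend step by step along the nested list: a set `B` with `L → F^B` surjective, contained in `X`, extends to such a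
set which moreover detects vanishing on `X` -/
theorem exists_adapted (L : Submodule F (K → F)) (σ : List (Finset K))
    (hσ : σ.Pairwise (· ⊆ ·)) : ∃ B, Adapted L σ B := by
  obtain ⟨B, -, h⟩ := e4a_list L σ hσ ∅ (fun X _ => Finset.empty_subset X)
    (fun f => ⟨0, L.zero_mem, fun y hy => absurd hy (Finset.notMem_empty y)⟩)
  exact ⟨B, h⟩

/-! #### pulling back alternating functions along a matrix -/

/-- `(pull Λ T)(z₁, …, z_a) = ∑ Λ(z₁, y₁) ⋯ Λ(z_a, y_a) T(y₁, …, y_a)` -/
def pull {A : Type*} [AddCommGroup A] [Module F A] (Λ : K → K → F) : (List K → A) → List K → A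
  | T, [] => T []
  | T, z :: Z => ∑ y, Λ z y • pull Λ (fun Z' => T (y :: Z')) Z

theorem e4b_sum {A : Type*} [AddCommGroup A] [Module F A] (Λ : K → K → F) {β : Type*}
    (s : Finset β) (a : β → F) (Z : List K) : ∀ (T : β → List K → A),
    pull Λ (fun Z' => ∑ x ∈ s, a x • T x Z') Z = ∑ x ∈ s, a x • pull Λ (T x) Z := by
  induction Z with
  | nil => intro T; rfl
  | cons z Z ih =>
    intro T
    show ∑ y, Λ z y • pull Λ (fun Z' => ∑ x ∈ s, a x • T x (y :: Z')) Z =
      ∑ x ∈ s, a x • ∑ y, Λ z y • pull Λ (fun Z' => T x (y :: Z')) Z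
    have h1 : ∀ y, pull Λ (fun Z' => ∑ x ∈ s, a x • T x (y :: Z')) Z =
        ∑ x ∈ s, a x • pull Λ (fun Z' => T x (y :: Z')) Z := fun y =>
      ih (fun x Z' => T x (y :: Z'))
    simp_rw [h1, Finset.smul_sum]
    rw [Finset.sum_comm]
    refine Finset.sum_congr rfl fun x _ => Finset.sum_congr rfl fun y _ => ?_
    rw [smul_comm]

theorem e4b_neg {A : Type*} [AddCommGroup A] [Module F A] (Λ : K → K → F) (T : List K → A)
    (Z : List K) : pull Λ (fun Z' => - T Z') Z = - pull Λ T Z := by
  have h := e4b_sum Λ (Finset.univ : Finset Unit) (fun _ => (-1 : F)) Z (fun _ => T)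
  simpa using h

theorem e4b_zero {A : Type*} [AddCommGroup A] [Module F A] (Λ : K → K → F) (Z : List K) :
    pull Λ (fun _ => (0 : A)) Z = 0 := by
  have h := e4b_sum Λ (∅ : Finset Unit) (fun _ => (1 : F)) Z (fun _ _ => (0 : A))
  simpa using h

theorem e4b_antisymm {A : Type*} [AddCommGroup A] (f : K → K → A)
    (h : ∀ u v, f u v = - f v u) (h0 : ∀ u, f u u = 0) : ∑ u, ∑ v, f u v = 0 := by
  rw [← Finset.sum_product']
  refine Finset.sum_involution (fun p _ => (p.2, p.1)) ?_ ?_ ?_ ?_
  · intro p _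
    simp only
    rw [h p.2 p.1, add_neg_cancel]
  · intro p _ hne heq
    apply hne
    have h1 : p.2 = p.1 := congrArg Prod.fst heq
    rw [← h1]
    exact h0 _
  · intro p _
    simp
  · intro p _
    rfl

theorem pull_alt {A : Type*} [AddCommGroup A] [Module F A] (Λ : K → K → F) {T : List K → A}
    (h : Alt T) : Alt (pull Λ T) := by
  constructor
  · intro Z₁
    induction Z₁ generalizing T with
    | nil =>
      intro x y Z₂
      show ∑ u, Λ x u • ∑ v, Λ y v • pull Λ (fun Z' => T (u :: v :: Z')) Z₂ =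
        - ∑ v, Λ y v • ∑ u, Λ x u • pull Λ (fun Z' => T (v :: u :: Z')) Z₂
      simp_rw [Finset.smul_sum]
      rw [Finset.sum_comm, ← Finset.sum_neg_distrib]
      refine Finset.sum_congr rfl fun v _ => ?_
      rw [← Finset.sum_neg_distrib]
      refine Finset.sum_congr rfl fun u _ => ?_
      have h1 : pull Λ (fun Z' => T (u :: v :: Z')) Z₂ =
          - pull Λ (fun Z' => T (v :: u :: Z')) Z₂ := by
        rw [← e4b_neg]
        congr 1
        funext Z'
        exact h.swap [] u v Z'
      rw [h1, smul_neg, smul_neg, smul_comm]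
    | cons z Z₁ ih =>
      intro x y Z₂
      show ∑ u, Λ z u • pull Λ (fun Z' => T (u :: Z')) (Z₁ ++ x :: y :: Z₂) =
        - ∑ u, Λ z u • pull Λ (fun Z' => T (u :: Z')) (Z₁ ++ y :: x :: Z₂)
      rw [← Finset.sum_neg_distrib]
      refine Finset.sum_congr rfl fun u _ => ?_
      have hu : Alt (fun Z' => T (u :: Z')) :=
        ⟨fun Z₁ x y Z₂ => h.swap (u :: Z₁) x y Z₂, fun Z₁ x Z₂ => h.same (u :: Z₁) x Z₂⟩
      rw [ih hu x y Z₂, smul_neg]
  · intro Z₁
    induction Z₁ generalizing T with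
    | nil =>
      intro x Z₂
      show ∑ u, Λ x u • ∑ v, Λ x v • pull Λ (fun Z' => T (u :: v :: Z')) Z₂ = 0
      simp_rw [Finset.smul_sum]
      refine e4b_antisymm _ ?_ ?_
      · intro u v
        have h1 : pull Λ (fun Z' => T (u :: v :: Z')) Z₂ =
            - pull Λ (fun Z' => T (v :: u :: Z')) Z₂ := by
          rw [← e4b_neg]
          congr 1
          funext Z'
          exact h.swap [] u v Z'
        rw [h1, smul_neg, smul_neg, smul_comm]
      · intro u
        have h1 : (fun Z' => T (u :: u :: Z')) = fun _ => (0 : A) := by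
          funext Z'
          exact h.same [] u Z'
        rw [h1, e4b_zero, smul_zero, smul_zero]
    | cons z Z₁ ih =>
      intro x Z₂
      show ∑ u, Λ z u • pull Λ (fun Z' => T (u :: Z')) (Z₁ ++ x :: x :: Z₂) = 0
      refine Finset.sum_eq_zero fun u _ => ?_
      have hu : Alt (fun Z' => T (u :: Z')) :=
        ⟨fun Z₁ x y Z₂ => h.swap (u :: Z₁) x y Z₂, fun Z₁ x Z₂ => h.same (u :: Z₁) x Z₂⟩
      rw [ih hu x Z₂, smul_zero]

theorem pull_sum {A : Type*} [AddCommGroup A] [Module F A] (Λ : K → K → F) {β : Type*}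
    (s : Finset β) (a : β → F) (T : β → List K → A) (Z : List K) :
    pull Λ (fun Z' => ∑ x ∈ s, a x • T x Z') Z = ∑ x ∈ s, a x • pull Λ (T x) Z :=
  e4b_sum Λ s a Z T

theorem pull_pull {A : Type*} [AddCommGroup A] [Module F A] (Λ Λ' : K → K → F) (T : List K → A)
    (Z : List K) :
    pull Λ (pull Λ' T) Z = pull (fun z x => ∑ y, Λ z y * Λ' y x) T Z := by
  induction Z generalizing T with
  | nil => rfl
  | cons z Z ih =>
    show ∑ y, Λ z y • pull Λ (fun Z' => ∑ x, Λ' y x • pull Λ' (fun Z'' => T (x :: Z'')) Z') Z =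
      ∑ x, (∑ y, Λ z y * Λ' y x) • pull (fun z x => ∑ y, Λ z y * Λ' y x)
        (fun Z'' => T (x :: Z'')) Z
    have h1 : ∀ y, pull Λ (fun Z' => ∑ x, Λ' y x • pull Λ' (fun Z'' => T (x :: Z'')) Z') Z =
        ∑ x, Λ' y x • pull (fun z x => ∑ y, Λ z y * Λ' y x) (fun Z'' => T (x :: Z'')) Z := by
      intro y
      rw [e4b_sum Λ univ (Λ' y) Z (fun x Z' => pull Λ' (fun Z'' => T (x :: Z'')) Z')]
      refine Finset.sum_congr rfl fun x _ => ?_
      rw [← ih (fun Z'' => T (x :: Z''))]
    simp_rw [h1, Finset.smul_sum, Finset.sum_smul, mul_smul]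
    rw [Finset.sum_comm]

theorem pull_one {A : Type*} [AddCommGroup A] [Module F A] (T : List K → A) (Z : List K) :
    pull (fun z y : K => if z = y then (1 : F) else 0) T Z = T Z := by
  induction Z generalizing T with
  | nil => rfl
  | cons z Z ih =>
    show ∑ y, (if z = y then (1 : F) else 0) •
      pull (fun z y : K => if z = y then (1 : F) else 0) (fun Z' => T (y :: Z')) Z = T (z :: Z)
    rw [Finset.sum_eq_single z]
    · rw [if_pos rfl, one_smul, ih]
    · intro y _ hy
      rw [if_neg (Ne.symm hy), zero_smul]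
    · intro h
      exact absurd (Finset.mem_univ z) h

theorem e4b_length {A : Type*} [AddCommGroup A] [Module F A] (Λ : K → K → F) (Z : List K) :
    ∀ (T : List K → A), (∀ Z', Z'.length = Z.length → T Z' = 0) → pull Λ T Z = 0 := by
  induction Z with
  | nil => intro T h; exact h [] rfl
  | cons z Z ih =>
    intro T h
    show ∑ y, Λ z y • pull Λ (fun Z' => T (y :: Z')) Z = 0
    refine Finset.sum_eq_zero fun y _ => ?_
    rw [ih (fun Z' => T (y :: Z')) fun Z' hZ' => h (y :: Z') (by simp [hZ']), smul_zero]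

theorem pull_length {A : Type*} [AddCommGroup A] [Module F A] (Λ : K → K → F) {T : List K → A}
    {a : ℕ} (h : ∀ Z, Z.length ≠ a → T Z = 0) : ∀ Z, Z.length ≠ a → pull Λ T Z = 0 := by
  intro Z hZ
  exact e4b_length Λ Z T fun Z' hZ' => h Z' (by rw [hZ']; exact hZ)

/-- properties closed under linear combinations are preserved; the property may depend on the number of entries in `X`
in a monotone way -/
theorem pull_induction {A : Type*} [AddCommGroup A] [Module F A] (Λ : K → K → F) (X : Finset K)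
    (hΛ : ∀ z y, z ∉ X → y ∈ X → Λ z y = 0) (p : ℕ → A → Prop) (h0 : ∀ k, p k 0)
    (hadd : ∀ k a b, p k a → p k b → p k (a + b)) (hsmul : ∀ k (s : F) a, p k a → p k (s • a))
    (hmono : ∀ k k' a, k ≤ k' → p k a → p k' a) {T : List K → A}
    (hT : ∀ Z, p (Z.countP (· ∈ X)) (T Z)) : ∀ Z, p (Z.countP (· ∈ X)) (pull Λ T Z) := by
  intro Z
  induction Z generalizing T p with
  | nil => exact hT []
  | cons z Z ih =>
    show p ((z :: Z).countP (· ∈ X)) (∑ y, Λ z y • pull Λ (fun Z' => T (y :: Z')) Z)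
    refine Finset.sum_induction _ (p ((z :: Z).countP (· ∈ X))) (hadd _) (h0 _) fun y _ => ?_
    have h1 := ih (fun k a => p (k + if y ∈ X then 1 else 0) a) (fun k => h0 _)
      (fun k a b => hadd _ a b) (fun k s a => hsmul _ s a)
      (fun k k' a hk => hmono _ _ a (by omega)) (T := fun Z' => T (y :: Z')) (by
        intro Z'
        have h2 := hT (y :: Z')
        rw [List.countP_cons] at h2
        simpa using h2)
    rw [List.countP_cons]
    by_cases hz : z ∈ X
    · refine hsmul _ _ _ (hmono _ _ _ ?_ h1)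
      simp only [hz, decide_true, if_true]
      split_ifs <;> omega
    · by_cases hy : y ∈ X
      · rw [hΛ z y hz hy, zero_smul]
        exact h0 _
      · refine hsmul _ _ _ (hmono _ _ _ ?_ h1)
        simp [hz, hy]

/-! #### polynomials in adapted coordinates -/

theorem e4c_eval_congr {B : Finset K} {Q : MvPolynomial K F} (hQ : Q.vars ⊆ B) {x y : K → F}
    (h : ∀ z ∈ B, x z = y z) : MvPolynomial.eval x Q = MvPolynomial.eval y Q := by
  unfold MvPolynomial.eval
  exact MvPolynomial.eval₂Hom_congr' rfl (fun i hi _ => h i (hQ hi)) rfl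

theorem e4c_dual {L : Submodule F (K → F)} {σ : List (Finset K)} {B : Finset K}
    (hB : Adapted L σ B) : ∃ l : K → K → F, (∀ z, l z ∈ L) ∧
      ∀ c ∈ L, ∀ z, c z = ∑ y ∈ B, l y z * c y := by
  choose l hl hl' using fun y : K => hB.surj (Pi.single y 1)
  refine ⟨l, hl, ?_⟩
  intro c hc z
  have h1 : ∑ y ∈ B, c y • l y - c = 0 := by
    apply hB.inj _ (L.sub_mem (L.sum_mem fun y _ => L.smul_mem _ (hl y)) hc)
    intro x hx
    rw [Pi.sub_apply, Finset.sum_apply, sub_eq_zero, Finset.sum_eq_single x]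
    · rw [Pi.smul_apply, hl' x x hx, Pi.single_eq_same, smul_eq_mul, mul_one]
    · intro y _ hyx
      rw [Pi.smul_apply, hl' y x hx, Pi.single_eq_of_ne hyx.symm, smul_zero]
    · intro h
      exact absurd hx h
  have h2 := congrFun h1 z
  rw [Pi.sub_apply, Finset.sum_apply, Pi.zero_apply, sub_eq_zero] at h2
  rw [← h2]
  apply sum_congr rfl
  intro y _
  rw [Pi.smul_apply, smul_eq_mul, mul_comm]

/-- a polynomial function on `L` is given by a homogeneous polynomial in the variables from `B` -/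
theorem exists_poly {L : Submodule F (K → F)} {σ : List (Finset K)} {B : Finset K}
    (hB : Adapted L σ B) {b : ℕ} {g : (K → F) → F} (hg : IsPol L b g) :
    ∃ Q : MvPolynomial K F, Q.IsHomogeneous b ∧ Q.vars ⊆ B ∧
      ∀ c ∈ L, g c = MvPolynomial.eval c Q := by
  obtain ⟨P, hP, hg⟩ := hg
  obtain ⟨l, hl, hl'⟩ := e4c_dual hB
  let u : K → MvPolynomial K F := fun z => ∑ y ∈ B, MvPolynomial.C (l y z) * MvPolynomial.X y
  refine ⟨MvPolynomial.bind₁ u P, ?_, ?_, ?_⟩
  · have h := hP.aeval u (n := 1) (fun z => MvPolynomial.IsHomogeneous.sum _ _ _ fun y _ =>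
      MvPolynomial.isHomogeneous_C_mul_X _ _)
    rw [one_mul] at h
    exact h
  · refine (MvPolynomial.vars_bind₁ u P).trans ?_
    rw [Finset.biUnion_subset]
    intro z _
    refine (MvPolynomial.vars_sum_subset _ _).trans ?_
    rw [Finset.biUnion_subset]
    intro y hy
    refine (MvPolynomial.vars_mul _ _).trans ?_
    rw [MvPolynomial.vars_C, Finset.empty_union]
    refine (MvPolynomial.vars_X (R := F) (n := y)).le.trans ?_
    exact Finset.singleton_subset_iff.2 hy
  · intro c hc
    rw [hg c hc]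
    have h1 : ((MvPolynomial.eval c).comp (MvPolynomial.bind₁ u).toRingHom :
        MvPolynomial K F →+* F) = MvPolynomial.eval (fun z => MvPolynomial.eval c (u z)) := by
      apply MvPolynomial.ringHom_ext
      · intro r
        simp
      · intro z
        simp
    have h2 := congrArg (fun f : MvPolynomial K F →+* F => f P) h1
    simp only [RingHom.comp_apply] at h2
    refine Eq.trans ?_ h2.symm
    congr 2
    funext z
    rw [hl' c hc z, map_sum]
    apply sum_congr rfl
    intro y _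
    rw [map_mul, MvPolynomial.eval_C, MvPolynomial.eval_X]

theorem poly_unique [Infinite F] {L : Submodule F (K → F)} {σ : List (Finset K)} {B : Finset K}
    (hB : Adapted L σ B) {Q Q' : MvPolynomial K F} (hQ : Q.vars ⊆ B) (hQ' : Q'.vars ⊆ B)
    (h : ∀ c ∈ L, MvPolynomial.eval c Q = MvPolynomial.eval c Q') : Q = Q' := by
  apply MvPolynomial.funext
  intro x
  obtain ⟨c, hc, hcx⟩ := hB.surj x
  rw [← e4c_eval_congr hQ hcx, ← e4c_eval_congr hQ' hcx]
  exact h c hc

/-- the weight expansion -/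
noncomputable def e4c_T (X : Finset K) (Q : MvPolynomial K F) : Polynomial (MvPolynomial K F) :=
  ∑ α ∈ Q.support, Polynomial.monomial (∑ y ∈ X, α y) (MvPolynomial.monomial α (Q.coeff α))

theorem e4c_T_eval (X : Finset K) (Q : MvPolynomial K F) (x : K → F) (ν : F) :
    ((e4c_T X Q).map (MvPolynomial.eval x)).eval ν =
      MvPolynomial.eval (fun y => if y ∈ X then ν * x y else x y) Q := by
  rw [e4c_T, Polynomial.map_sum, Polynomial.eval_finsetSum, MvPolynomial.eval_eq']
  apply sum_congr rfl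
  intro α _
  rw [Polynomial.map_monomial, Polynomial.eval_monomial, MvPolynomial.eval_monomial,
    Finsupp.prod_fintype _ _ (fun i => pow_zero _), mul_assoc]
  congr 1
  rw [← Finset.prod_pow_eq_pow_sum]
  have h1 : ∏ y ∈ X, ν ^ α y = ∏ y, if y ∈ X then ν ^ α y else 1 := by
    rw [Finset.prod_ite_mem, Finset.univ_inter]
  rw [h1, ← Finset.prod_mul_distrib]
  apply prod_congr rfl
  intro y _
  split_ifs
  · rw [mul_pow, mul_comm]
  · rw [mul_one]

theorem le_weight_of_ord [Infinite F] {L : Submodule F (K → F)} {σ : List (Finset K)}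
    {B : Finset K} (hB : Adapted L σ B) {X : Finset K} (hX : X ∈ σ) {s : ℕ}
    {Q : MvPolynomial K F} (hQ : Q.vars ⊆ B) (h : Ord L X s fun c => MvPolynomial.eval c Q) :
    ∀ α ∈ Q.support, s ≤ ∑ y ∈ X, α y := by
  intro α hα
  by_contra hlt
  push Not at hlt
  set k := ∑ y ∈ X, α y with hk
  have hz : (e4c_T X Q).coeff k = 0 := by
    apply MvPolynomial.funext
    intro x
    rw [map_zero, ← Polynomial.coeff_map]
    obtain ⟨a, ha, ha'⟩ := hB.surj (fun y => if y ∈ X then x y else 0)
    obtain ⟨b, hb, hb'⟩ := hB.surj (fun y => if y ∈ X then 0 else x y)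
    have hbX : b ∈ van L X := by
      refine ⟨hb, hB.adp X hX b hb ?_⟩
      intro y hy hyX
      rw [hb' y hy, if_pos hyX]
    obtain ⟨R, hR⟩ := h a ha b hbX
    have h1 : (e4c_T X Q).map (MvPolynomial.eval x) = Polynomial.X ^ s * R := by
      apply Polynomial.funext
      intro ν
      rw [e4c_T_eval, Polynomial.eval_mul, Polynomial.eval_pow, Polynomial.eval_X, ← hR ν]
      apply e4c_eval_congr hQ
      intro z hz
      rw [Pi.add_apply, Pi.smul_apply, ha' z hz, hb' z hz, smul_eq_mul]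
      split_ifs
      · rw [add_zero]
      · rw [mul_zero, zero_add]
    rw [h1, Polynomial.coeff_X_pow_mul', if_neg (by omega)]
  have h2 := congrArg (MvPolynomial.coeff α) hz
  rw [e4c_T, Polynomial.finsetSum_coeff, MvPolynomial.coeff_sum, Finset.sum_eq_single α] at h2
  · rw [Polynomial.coeff_monomial, if_pos rfl, MvPolynomial.coeff_monomial, if_pos rfl,
      MvPolynomial.coeff_zero] at h2
    exact MvPolynomial.mem_support_iff.1 hα h2
  · intro β _ hβ
    rw [Polynomial.coeff_monomial]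
    split_ifs
    · rw [MvPolynomial.coeff_monomial, if_neg hβ]
    · rw [MvPolynomial.coeff_zero]
  · intro hn
    exact absurd hα hn

theorem ord_of_le_weight {L : Submodule F (K → F)} {X : Finset K} {s : ℕ}
    {Q : MvPolynomial K F} (h : ∀ α ∈ Q.support, s ≤ ∑ y ∈ X, α y) :
    Ord L X s fun c => MvPolynomial.eval c Q := by
  intro a _ b hb
  refine ⟨∑ α ∈ Q.support, Polynomial.C (Q.coeff α) * (Polynomial.X ^ (∑ y ∈ X, α y - s) *
    ∏ y, if y ∈ X then Polynomial.C (a y) ^ α y else
      (Polynomial.X * Polynomial.C (a y) + Polynomial.C (b y)) ^ α y), ?_⟩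
  intro ν
  simp only
  rw [MvPolynomial.eval_eq', Polynomial.eval_finsetSum, mul_sum]
  apply sum_congr rfl
  intro α hα
  have hs := h α hα
  have h1 : ∏ i, (ν • a + b) i ^ α i = ν ^ (∑ y ∈ X, α y) *
      ∏ y, if y ∈ X then (a y) ^ α y else (ν * a y + b y) ^ α y := by
    rw [← Finset.prod_pow_eq_pow_sum]
    have h1 : ∏ y ∈ X, ν ^ α y = ∏ y, if y ∈ X then ν ^ α y else 1 := by
      rw [Finset.prod_ite_mem, Finset.univ_inter]
    rw [h1, ← Finset.prod_mul_distrib]
    apply prod_congr rfl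
    intro y _
    rw [Pi.add_apply, Pi.smul_apply, smul_eq_mul]
    split_ifs with hy
    · rw [hb.2 y hy, add_zero, mul_pow]
    · rw [one_mul]
  have h2 : Polynomial.eval ν (∏ y, if y ∈ X then Polynomial.C (a y) ^ α y else
      (Polynomial.X * Polynomial.C (a y) + Polynomial.C (b y)) ^ α y) =
      ∏ y, if y ∈ X then (a y) ^ α y else (ν * a y + b y) ^ α y := by
    rw [Polynomial.eval_prod]
    apply prod_congr rfl
    intro y _
    split_ifs
    · rw [Polynomial.eval_pow, Polynomial.eval_C]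
    · rw [Polynomial.eval_pow, Polynomial.eval_add, Polynomial.eval_mul, Polynomial.eval_X,
        Polynomial.eval_C, Polynomial.eval_C]
  rw [h1, Polynomial.eval_mul, Polynomial.eval_mul, Polynomial.eval_C, Polynomial.eval_pow,
    Polynomial.eval_X, h2]
  have h3 : ν ^ (∑ y ∈ X, α y) = ν ^ s * ν ^ (∑ y ∈ X, α y - s) := by
    rw [← pow_add]
    congr 1
    omega
  rw [h3]
  ring

/-! #### the homotopy, one variable at a time -/

/-- wedge product with the coordinate `q` -/
def wedge {A : Type*} [AddCommGroup A] (q : K) : (List K → A) → List K → A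
  | _, [] => 0
  | T, z :: Z => (if z = q then T Z else 0) - wedge q (fun Z' => T (z :: Z')) Z

theorem e4d_wedge_map {A A' : Type*} [AddCommGroup A] [AddCommGroup A'] (f : A →+ A') (q : K)
    (Z : List K) : ∀ T : List K → A, wedge q (fun Z' => f (T Z')) Z = f (wedge q T Z) := by
  induction Z with
  | nil => intro T; simp [wedge]
  | cons z Z ih =>
    intro T
    rw [wedge, wedge, ih, map_sub]
    congr 1
    split_ifs
    · rfl
    · exact (map_zero f).symm

theorem e4d_wedge_add {A : Type*} [AddCommGroup A] (q : K) (Z : List K) :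
    ∀ T T' : List K → A, wedge q (fun Z' => T Z' + T' Z') Z = wedge q T Z + wedge q T' Z := by
  induction Z with
  | nil => intro T T'; simp [wedge]
  | cons z Z ih =>
    intro T T'
    rw [wedge, wedge, wedge, ih]
    split_ifs <;> abel

theorem e4d_wedge_zero {A : Type*} [AddCommGroup A] (q : K) (Z : List K) :
    wedge q (fun _ => (0 : A)) Z = 0 := by
  have := e4d_wedge_add q Z (fun _ => (0 : A)) (fun _ => 0)
  simpa using this

theorem e4d_wedge_neg {A : Type*} [AddCommGroup A] (q : K) (T : List K → A) (Z : List K) :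
    wedge q (fun Z' => - T Z') Z = - wedge q T Z := by
  have := e4d_wedge_map (-(AddMonoidHom.id A)) q Z T
  simpa using this

theorem e4d_wedge_sum {A : Type*} [AddCommGroup A] {β : Type*} (s : Finset β) (q : K)
    (T : β → List K → A) (Z : List K) :
    wedge q (fun Z' => ∑ x ∈ s, T x Z') Z = ∑ x ∈ s, wedge q (T x) Z := by
  classical
  induction s using Finset.induction_on with
  | empty => simpa using e4d_wedge_zero q Z
  | insert a s ha ih =>
    simp only [Finset.sum_insert ha]
    rw [e4d_wedge_add, ih]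

theorem wedge_alt {A : Type*} [AddCommGroup A] (q : K) {T : List K → A} (h : Alt T) :
    Alt (wedge q T) := by
  constructor
  · intro Z₁
    induction Z₁ generalizing T with
    | nil =>
      intro x y Z₂
      simp only [List.nil_append, wedge]
      have h1 : (fun Z' => T (x :: y :: Z')) = fun Z' => - T (y :: x :: Z') := by
        funext Z'
        exact h.swap [] x y Z'
      rw [h1, e4d_wedge_neg]
      abel
    | cons z Z₁ ih =>
      intro x y Z₂
      rw [List.cons_append, List.cons_append, wedge, wedge, ih (h.cons z)]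
      have h1 := h.swap Z₁ x y Z₂
      split_ifs
      · rw [h1]
        abel
      · abel
  · intro Z₁
    induction Z₁ generalizing T with
    | nil =>
      intro x Z₂
      simp only [List.nil_append, wedge]
      have h1 : (fun Z' => T (x :: x :: Z')) = fun _ => 0 := by
        funext Z'
        exact h.same [] x Z'
      rw [h1, e4d_wedge_zero]
      abel
    | cons z Z₁ ih =>
      intro x Z₂
      rw [List.cons_append, wedge, ih (h.cons z)]
      have h1 := h.same Z₁ x Z₂
      split_ifs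
      · rw [h1, sub_zero]
      · rw [sub_zero]

theorem wedge_length {A : Type*} [AddCommGroup A] (q : K) {T : List K → A} {a : ℕ}
    (h : ∀ Z, Z.length ≠ a → T Z = 0) : ∀ Z, Z.length ≠ a + 1 → wedge q T Z = 0 := by
  intro Z
  induction Z generalizing T a with
  | nil => intro _; rfl
  | cons z Z ih =>
    intro hZ
    rw [List.length_cons] at hZ
    rw [wedge, h Z (by omega)]
    have h1 : wedge q (fun Z' => T (z :: Z')) Z = 0 := by
      cases a with
      | zero =>
        have h2 : (fun Z' => T (z :: Z')) = fun _ => 0 := by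
          funext Z'
          exact h _ (by simp)
        rw [h2, e4d_wedge_zero]
      | succ a =>
        exact ih (a := a) (fun Z' hZ' => h _ (by rw [List.length_cons]; omega)) (by omega)
    rw [h1]
    simp

/-- a permutation invariant property is inherited by the wedge product -/
theorem e4d_wedge_ind {A : Type*} [AddCommGroup A] (q : K) (Z : List K) :
    ∀ (p : List K → A → Prop) (T : List K → A), (∀ Z, p Z 0) →
      (∀ Z a b, p Z a → p Z b → p Z (a - b)) →
      (∀ Z Z' a, Z.Perm Z' → p Z a → p Z' a) → (∀ Z, p (q :: Z) (T Z)) → p Z (wedge q T Z) := by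
  induction Z with
  | nil => intro p T h0 _ _ _; exact h0 _
  | cons z Z ih =>
    intro p T h0 hsub hperm hT
    rw [wedge]
    refine hsub _ _ _ ?_ ?_
    · split_ifs with h
      · subst h
        exact hT Z
      · exact h0 _
    · refine ih (fun Z' a => p (z :: Z') a) (fun Z' => T (z :: Z')) (fun _ => h0 _)
        (fun _ _ _ => hsub _ _ _) (fun Z Z' a hZ => hperm _ _ _ (hZ.cons z)) (fun Z' => ?_)
      exact hperm _ _ _ (List.Perm.swap z q Z') (hT (z :: Z'))

/-- the multiset of entries as a multidegree -/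
noncomputable def cnt (Z : List K) : K →₀ ℕ := (Z.map fun z => Finsupp.single z 1).sum

theorem e4d_cnt_cons (z : K) (Z : List K) : cnt (z :: Z) = Finsupp.single z 1 + cnt Z := by
  simp [cnt]

theorem e4d_cnt_perm {Z Z' : List K} (h : Z.Perm Z') : cnt Z = cnt Z' := by
  unfold cnt
  exact (h.map _).sum_eq

theorem e4d_alt_map {A A' : Type*} [AddCommGroup A] [AddCommGroup A'] (f : A →+ A')
    {T : List K → A} (h : Alt T) : Alt (fun Z => f (T Z)) := by
  constructor
  · intro Z₁ x y Z₂
    rw [h.swap, map_neg]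
  · intro Z₁ x Z₂
    rw [h.same, map_zero]

theorem e4d_alt_add {A : Type*} [AddCommGroup A] {T T' : List K → A} (h : Alt T) (h' : Alt T') :
    Alt (fun Z => T Z + T' Z) := by
  constructor
  · intro Z₁ x y Z₂
    rw [h.swap, h'.swap]
    abel
  · intro Z₁ x Z₂
    rw [h.same, h'.same, add_zero]

/-- division by `X q` -/
noncomputable def e4d_dv (q : K) : MvPolynomial K F →+ MvPolynomial K F where
  toFun P := P.divMonomial (Finsupp.single q 1)
  map_zero' := MvPolynomial.zero_divMonomial _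
  map_add' P Q := MvPolynomial.add_divMonomial P Q _

/-- the part free of `X q` -/
noncomputable def e4d_fr (q : K) : MvPolynomial K F →+ MvPolynomial K F :=
  AddMonoidHom.id _ - (AddMonoidHom.mulLeft (MvPolynomial.X q)).comp (e4d_dv q)

theorem e4d_fr_apply (q : K) (P : MvPolynomial K F) :
    e4d_fr q P = P - MvPolynomial.X q * e4d_dv q P := rfl

theorem e4d_coeff_dv (q : K) (P : MvPolynomial K F) (α : K →₀ ℕ) :
    (e4d_dv q P).coeff α = P.coeff (Finsupp.single q 1 + α) := rfl

theorem e4d_coeff_fr (q : K) (P : MvPolynomial K F) (α : K →₀ ℕ) :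
    (e4d_fr q P).coeff α = if α q = 0 then P.coeff α else 0 := by
  rw [e4d_fr_apply, MvPolynomial.coeff_sub, MvPolynomial.coeff_X_mul']
  by_cases h : α q = 0
  · rw [if_pos h, if_neg (by simpa using h), sub_zero]
  · rw [if_neg h, if_pos (by simpa using h), e4d_coeff_dv]
    have h1 : Finsupp.single q 1 + (α - Finsupp.single q 1) = α := by
      apply add_tsub_cancel_of_le
      rw [Finsupp.single_le_iff]
      omega
    rw [h1, sub_self]

theorem e4d_dv_X (q : K) (P : MvPolynomial K F) : e4d_dv q (MvPolynomial.X q * P) = P :=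
  MvPolynomial.X_mul_divMonomial q P

theorem e4d_dv_Xne {q b : K} (h : b ≠ q) (P : MvPolynomial K F) :
    e4d_dv q (MvPolynomial.X b * P) = MvPolynomial.X b * e4d_dv q P := by
  ext α
  rw [e4d_coeff_dv, MvPolynomial.coeff_X_mul', MvPolynomial.coeff_X_mul', e4d_coeff_dv]
  have h1 : b ∈ (Finsupp.single q 1 + α).support ↔ b ∈ α.support := by
    simp [Finsupp.single_eq_of_ne h]
  by_cases h2 : b ∈ α.support
  · rw [if_pos (h1.2 h2), if_pos h2]
    congr 1
    ext k
    simp only [Finsupp.coe_tsub, Pi.sub_apply, Finsupp.coe_add, Pi.add_apply]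
    have h3 : 1 ≤ α b := Nat.one_le_iff_ne_zero.2 (Finsupp.mem_support_iff.1 h2)
    by_cases hk : k = b
    · subst hk
      rw [Finsupp.single_eq_of_ne h, Finsupp.single_eq_same]
      omega
    · rw [Finsupp.single_eq_of_ne hk]
      omega
  · rw [if_neg (fun h3 => h2 (h1.1 h3)), if_neg h2]

theorem e4d_fr_X (q : K) (P : MvPolynomial K F) : e4d_fr q (MvPolynomial.X q * P) = 0 := by
  rw [e4d_fr_apply, e4d_dv_X, sub_self]

theorem e4d_fr_Xne {q b : K} (h : b ≠ q) (P : MvPolynomial K F) :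
    e4d_fr q (MvPolynomial.X b * P) = MvPolynomial.X b * e4d_fr q P := by
  rw [e4d_fr_apply, e4d_fr_apply, e4d_dv_Xne h]
  ring

/-- differential of a wedge product -/
theorem e4d_d_wedge (B : Finset K) {q : K} (hq : q ∈ B) (T : List K → MvPolynomial K F)
    (Z : List K) :
    ∑ b ∈ B, MvPolynomial.X b * wedge q T (b :: Z) =
      MvPolynomial.X q * T Z -
        wedge q (fun Z' => ∑ b ∈ B, MvPolynomial.X b * T (b :: Z')) Z := by
  have h1 : ∀ b ∈ B, (MvPolynomial.X b : MvPolynomial K F) * wedge q T (b :: Z) =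
      (if b = q then MvPolynomial.X b * T Z else 0) -
        wedge q (fun Z' => MvPolynomial.X b * T (b :: Z')) Z := by
    intro b _
    rw [wedge, mul_sub]
    congr 1
    · split_ifs <;> simp
    · exact (e4d_wedge_map (AddMonoidHom.mulLeft (MvPolynomial.X b)) q Z
        (fun Z' => T (b :: Z'))).symm
  rw [Finset.sum_congr rfl h1, Finset.sum_sub_distrib, ← e4d_wedge_sum]
  congr 1
  rw [Finset.sum_ite_eq' B q (fun b => MvPolynomial.X b * T Z), if_pos hq]

theorem e4d_kev (B : Finset K) : ∀ (a : ℕ) (D : (K →₀ ℕ) → Prop) (τ : List K → MvPolynomial K F)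
    (_ : Alt τ) (_ : ∀ Z, Z.length ≠ a → τ Z = 0)
    (_ : ∀ Z, ∀ α ∈ (τ Z).support, D (α + cnt Z) ∧ α.support ⊆ B ∧ α ≠ 0)
    (_ : ∀ Z, ∑ b ∈ B, MvPolynomial.X b * τ (b :: Z) = 0),
    ∃ ς : List K → MvPolynomial K F, Alt ς ∧ (∀ Z, Z.length ≠ a + 1 → ς Z = 0) ∧
      (∀ Z, ∀ α ∈ (ς Z).support, D (α + cnt Z) ∧ α.support ⊆ B) ∧
      ∀ Z, ∑ b ∈ B, MvPolynomial.X b * ς (b :: Z) = τ Z := by
  classical
  induction B using Finset.induction_on with
  | empty =>
    intro a D τ hτ hlen hs hd
    refine ⟨fun _ => 0, Alt.zero, fun _ _ => rfl, ?_, ?_⟩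
    · intro Z α hα
      simp at hα
    · intro Z
      rw [Finset.sum_empty]
      symm
      rw [← MvPolynomial.support_eq_empty, Finset.eq_empty_iff_forall_notMem]
      intro α hα
      obtain ⟨_, h2, h3⟩ := hs Z α hα
      exact h3 (Finsupp.support_eq_empty.1 (Finset.subset_empty.1 h2))
  | insert q B hq ih =>
    intro a D τ hτ hlen hs hd
    set W : List K → MvPolynomial K F := fun Z => τ (q :: Z) with hW
    have hWalt : Alt W := hτ.cons q
    set U : List K → MvPolynomial K F := fun Z => τ Z - wedge q W Z with hU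
    have hUalt : Alt U := hτ.sub (wedge_alt q hWalt)
    have hUq : ∀ Z, U (q :: Z) = 0 := by
      intro Z
      rw [hU]
      simp only [wedge, if_true]
      have h1 : (fun Z' => W (q :: Z')) = fun _ => 0 := by
        funext Z'
        exact hτ.same [] q Z'
      rw [h1, e4d_wedge_zero]
      simp [hW]
    have hUmem : ∀ Z, q ∈ Z → U Z = 0 := by
      intro Z hZ
      obtain ⟨Z₁, Z₂, rfl⟩ := List.append_of_mem hZ
      clear hZ
      have key : ∀ Z₁ : List K, ∀ Z₀ : List K, (∀ Z', U (Z₀ ++ q :: Z') = 0) →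
          ∀ Z₂, U (Z₀ ++ (Z₁ ++ q :: Z₂)) = 0 := by
        intro Z₁
        induction Z₁ with
        | nil => intro Z₀ h Z₂; exact h Z₂
        | cons z Z₁ ih' =>
          intro Z₀ h Z₂
          have h2 : ∀ Z', U ((Z₀ ++ [z]) ++ q :: Z') = 0 := by
            intro Z'
            have h3 := hUalt.swap Z₀ z q Z'
            rw [h (z :: Z'), neg_zero] at h3
            simpa using h3
          have h4 := ih' (Z₀ ++ [z]) h2 Z₂
          simpa using h4
      have := key Z₁ [] (fun Z' => by simpa using hUq Z') Z₂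
      simpa using this
    -- support conditions
    have hWs : ∀ Z, ∀ α ∈ (wedge q W Z).support,
        D (α + cnt Z) ∧ α.support ⊆ insert q B ∧ α ≠ 0 := by
      intro Z
      refine e4d_wedge_ind q Z (fun Z P => ∀ α ∈ P.support,
        D (α + cnt Z) ∧ α.support ⊆ insert q B ∧ α ≠ 0) W ?_ ?_ ?_ ?_
      · intro Z α hα
        simp at hα
      · intro Z P Q hP hQ α hα
        rcases Finset.mem_union.1 (MvPolynomial.support_sub K P Q hα) with h | h
        · exact hP α h
        · exact hQ α h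
      · intro Z Z' P hZ hP α hα
        rw [← e4d_cnt_perm hZ]
        exact hP α hα
      · intro Z α hα
        exact hs (q :: Z) α hα
    have hUs : ∀ Z, ∀ α ∈ (U Z).support,
        D (α + cnt Z) ∧ α.support ⊆ insert q B ∧ α ≠ 0 := by
      intro Z α hα
      rcases Finset.mem_union.1 (MvPolynomial.support_sub K _ _ hα) with h | h
      · exact hs Z α h
      · exact hWs Z α h
    have hUlen : ∀ Z, Z.length ≠ a → U Z = 0 := by
      intro Z hZ
      rw [hU]
      simp only [hlen Z hZ]
      have h1 : wedge q W Z = 0 := by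
        cases a with
        | zero =>
          have h2 : W = fun _ => 0 := by
            funext Z'
            exact hlen _ (by simp)
          rw [h2, e4d_wedge_zero]
        | succ a =>
          exact wedge_length q (a := a)
            (fun Z' hZ' => hlen _ (by rw [List.length_cons]; omega)) Z hZ
      rw [h1, sub_zero]
    -- the differential
    have hdW : ∀ Z, ∑ b ∈ insert q B, MvPolynomial.X b * W (b :: Z) = 0 := by
      intro Z
      have h1 := hd (q :: Z)
      rw [← neg_eq_zero, ← Finset.sum_neg_distrib, ← h1]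
      refine Finset.sum_congr rfl fun b _ => ?_
      have h2 := hτ.swap [] q b Z
      simp only [List.nil_append] at h2
      rw [hW]
      simp only
      rw [h2]
      ring
    have hdwW : ∀ Z, ∑ b ∈ insert q B, MvPolynomial.X b * wedge q W (b :: Z) =
        MvPolynomial.X q * W Z := by
      intro Z
      rw [e4d_d_wedge _ (Finset.mem_insert_self q B)]
      have h1 : (fun Z' => ∑ b ∈ insert q B, MvPolynomial.X b * W (b :: Z')) = fun _ => 0 := by
        funext Z'
        exact hdW Z'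
      rw [h1, e4d_wedge_zero, sub_zero]
    have hdU : ∀ Z, ∑ b ∈ B, MvPolynomial.X b * U (b :: Z) = - (MvPolynomial.X q * W Z) := by
      intro Z
      have h1 : ∑ b ∈ insert q B, MvPolynomial.X b * U (b :: Z) =
          - (MvPolynomial.X q * W Z) := by
        rw [← hdwW Z, ← zero_sub (∑ b ∈ insert q B, _), ← hd Z, ← Finset.sum_sub_distrib]
        refine Finset.sum_congr rfl fun b _ => ?_
        rw [hU]
        simp only
        ring
      rw [Finset.sum_insert hq, hUq, mul_zero, zero_add] at h1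
      exact h1
    set U' : List K → MvPolynomial K F := fun Z => e4d_dv q (U Z) with hU'
    set U₀ : List K → MvPolynomial K F := fun Z => e4d_fr q (U Z) with hU₀
    have hBq : ∀ b ∈ B, b ≠ q := fun b hb h => hq (h ▸ hb)
    have hdU' : ∀ Z, ∑ b ∈ B, MvPolynomial.X b * U' (b :: Z) = - W Z := by
      intro Z
      have h1 := congrArg (e4d_dv q) (hdU Z)
      rw [map_sum, map_neg, e4d_dv_X] at h1
      rw [← h1]
      exact Finset.sum_congr rfl fun b hb => (e4d_dv_Xne (hBq b hb) _).symm
    have hdU₀ : ∀ Z, ∑ b ∈ B, MvPolynomial.X b * U₀ (b :: Z) = 0 := by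
      intro Z
      have h1 := congrArg (e4d_fr q) (hdU Z)
      rw [map_sum, map_neg, e4d_fr_X, neg_zero] at h1
      rw [← h1]
      exact Finset.sum_congr rfl fun b hb => (e4d_fr_Xne (hBq b hb) _).symm
    have hU'alt : Alt U' := e4d_alt_map _ hUalt
    have hU₀alt : Alt U₀ := e4d_alt_map _ hUalt
    obtain ⟨ς₀, s1, s2, s3, s4⟩ := ih a (fun δ => D δ ∧ δ q = 0) U₀ hU₀alt
      (fun Z hZ => by rw [hU₀]; simp only [hUlen Z hZ, map_zero])
      (by
        intro Z α hα
        have h1 : (U₀ Z).coeff α ≠ 0 := MvPolynomial.mem_support_iff.1 hα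
        rw [hU₀] at h1
        simp only [e4d_coeff_fr] at h1
        have h2 : α q = 0 := by
          by_contra h2
          rw [if_neg h2] at h1
          exact h1 rfl
        rw [if_pos h2] at h1
        obtain ⟨h3, h4, h5⟩ := hUs Z α (MvPolynomial.mem_support_iff.2 h1)
        have h6 : q ∉ Z := by
          intro h6
          rw [hUmem Z h6] at h1
          exact h1 rfl
        have h7 : (cnt Z) q = 0 := by
          clear * - h6
          induction Z with
          | nil => rfl
          | cons z Z ih =>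
            rw [e4d_cnt_cons, Finsupp.add_apply, ih (fun h => h6 (List.mem_cons_of_mem _ h)),
              Finsupp.single_eq_of_ne (by rintro rfl; exact h6 List.mem_cons_self)]
        refine ⟨⟨h3, ?_⟩, ?_, h5⟩
        · rw [Finsupp.add_apply, h2, h7]
        · intro y hy
          rcases Finset.mem_insert.1 (h4 hy) with rfl | h
          · exact absurd h2 (Finsupp.mem_support_iff.1 hy)
          · exact h)
      hdU₀
    have hς₀q : ∀ Z, ς₀ (q :: Z) = 0 := by
      intro Z
      rw [← MvPolynomial.support_eq_empty, Finset.eq_empty_iff_forall_notMem]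
      intro α hα
      have h1 := (s3 _ α hα).1.2
      rw [e4d_cnt_cons, Finsupp.add_apply, Finsupp.add_apply, Finsupp.single_eq_same] at h1
      omega
    have hwU' : ∀ Z, ∀ α ∈ (wedge q U' Z).support,
        D (α + cnt Z) ∧ α.support ⊆ insert q B := by
      intro Z
      refine e4d_wedge_ind q Z (fun Z P => ∀ α ∈ P.support,
        D (α + cnt Z) ∧ α.support ⊆ insert q B) U' ?_ ?_ ?_ ?_
      · intro Z α hα
        simp at hα
      · intro Z P Q hP hQ α hα
        rcases Finset.mem_union.1 (MvPolynomial.support_sub K P Q hα) with h | h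
        · exact hP α h
        · exact hQ α h
      · intro Z Z' P hZ hP α hα
        rw [← e4d_cnt_perm hZ]
        exact hP α hα
      · intro Z α hα
        have h1 : (U' Z).coeff α ≠ 0 := MvPolynomial.mem_support_iff.1 hα
        change (U Z).coeff (Finsupp.single q 1 + α) ≠ 0 at h1
        obtain ⟨h2, h3, _⟩ := hUs Z _ (MvPolynomial.mem_support_iff.2 h1)
        refine ⟨?_, fun y hy => h3 ?_⟩
        · rw [e4d_cnt_cons]
          convert h2 using 1
          abel
        · rw [Finsupp.mem_support_iff] at hy ⊢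
          rw [Finsupp.add_apply]
          omega
    refine ⟨fun Z => wedge q U' Z + ς₀ Z, e4d_alt_add (wedge_alt q hU'alt) s1, ?_, ?_, ?_⟩
    · intro Z hZ
      simp only
      rw [s2 Z hZ, wedge_length q (a := a)
        (fun Z' hZ' => by rw [hU']; simp only [hUlen Z' hZ', map_zero]) Z hZ, add_zero]
    · intro Z α hα
      rcases Finset.mem_union.1 (MvPolynomial.support_add hα) with h | h
      · exact hwU' Z α h
      · obtain ⟨h1, h2⟩ := s3 Z α h
        exact ⟨h1.1, h2.trans (Finset.subset_insert q B)⟩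
    · intro Z
      simp only [mul_add, Finset.sum_add_distrib]
      rw [e4d_d_wedge _ (Finset.mem_insert_self q B)]
      have h1 : (fun Z' => ∑ b ∈ insert q B, MvPolynomial.X b * U' (b :: Z')) =
          fun Z' => - W Z' := by
        funext Z'
        rw [Finset.sum_insert hq, hdU' Z', hU']
        simp only [hUq, map_zero, mul_zero, zero_add]
      rw [h1, e4d_wedge_neg, Finset.sum_insert hq, hς₀q, s4 Z, hU₀]
      simp only
      rw [e4d_fr_apply, hU', hU]
      simp only
      ring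

/-- exactness in polynomial form, by induction on `B`; `D` is an arbitrary condition on the total multidegree
`α + cnt Z`, which is preserved. Step for `B = insert q B'`: `W = τ(q, ·)`, `U = τ - wedge q W`, `U = U₀ + X_q U'` with `U₀`
free of `X_q`; `ς = wedge q U' + ς₀` with `ς₀` for `U₀` and `B'`. -/
theorem KEV (B : Finset K) (a : ℕ) (D : (K →₀ ℕ) → Prop) (τ : List K → MvPolynomial K F)
    (hτ : Alt τ) (hlen : ∀ Z, Z.length ≠ a → τ Z = 0) (hvars : ∀ Z, (τ Z).vars ⊆ B)
    (h0 : ∀ Z, (τ Z).coeff 0 = 0) (hD : ∀ Z, ∀ α ∈ (τ Z).support, D (α + cnt Z))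
    (hd : ∀ Z, ∑ b ∈ B, MvPolynomial.X b * τ (b :: Z) = 0) :
    ∃ ς : List K → MvPolynomial K F, Alt ς ∧ (∀ Z, Z.length ≠ a + 1 → ς Z = 0) ∧
      (∀ Z, (ς Z).vars ⊆ B) ∧ (∀ Z, ∀ α ∈ (ς Z).support, D (α + cnt Z)) ∧
      ∀ Z, ∑ b ∈ B, MvPolynomial.X b * ς (b :: Z) = τ Z := by
  obtain ⟨ς, h1, h2, h3, h4⟩ := e4d_kev B a D τ hτ hlen (by
    intro Z α hα
    refine ⟨hD Z α hα, fun y hy => hvars Z ?_, ?_⟩
    · exact (MvPolynomial.mem_vars_iff_mem_support y).2 ⟨α, hα, hy⟩
    · rintro rfl
      exact MvPolynomial.mem_support_iff.1 hα (h0 Z)) hd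
  refine ⟨ς, h1, h2, ?_, fun Z α hα => (h3 Z α hα).1, h4⟩
  intro Z y hy
  obtain ⟨α, hα, hy'⟩ := (MvPolynomial.mem_vars_iff_mem_support y).1 hy
  exact (h3 Z α hα).2 hy'

/-! #### assembly -/

private theorem e4e_deg {P : MvPolynomial K F} {b : ℕ} (h : P.IsHomogeneous b) {α : K →₀ ℕ}
    (hα : α ∈ P.support) : Finsupp.degree α = b := by
  rw [Finsupp.degree_eq_weight_one]
  exact h (MvPolynomial.mem_support_iff.1 hα)

private theorem e4e_homog {P : MvPolynomial K F} {b : ℕ}
    (h : ∀ α ∈ P.support, Finsupp.degree α = b) : P.IsHomogeneous b := by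
  intro α hα
  have h1 := h α (MvPolynomial.mem_support_iff.2 hα)
  rwa [Finsupp.degree_eq_weight_one] at h1

private theorem e4e_cnt_cons (z : K) (Z : List K) : cnt (z :: Z) = Finsupp.single z 1 + cnt Z := by
  unfold cnt
  rw [List.map_cons, List.sum_cons]

private theorem e4e_cnt_degree (Z : List K) : Finsupp.degree (cnt Z) = Z.length := by
  induction Z with
  | nil => simp [cnt]
  | cons z Z ih =>
    rw [e4e_cnt_cons, map_add, ih, Finsupp.degree_single, List.length_cons, add_comm]

private theorem e4e_cnt_sum (X : Finset K) (Z : List K) :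
    ∑ y ∈ X, cnt Z y = Z.countP (· ∈ X) := by
  induction Z with
  | nil => simp [cnt]
  | cons z Z ih =>
    rw [e4e_cnt_cons]
    simp only [Finsupp.add_apply, Finset.sum_add_distrib]
    rw [ih, List.countP_cons]
    have h1 : ∑ y ∈ X, (Finsupp.single z 1 : K →₀ ℕ) y = if z ∈ X then 1 else 0 := by
      simp only [Finsupp.single_apply]
      rw [Finset.sum_ite_eq]
    rw [h1, add_comm]
    simp

private theorem e4e_vars (B : Finset K) (τ : K → MvPolynomial K F) (h : ∀ y, (τ y).vars ⊆ B) :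
    (∑ y ∈ B, MvPolynomial.X y * τ y : MvPolynomial K F).vars ⊆ B := by
  classical
  refine (MvPolynomial.vars_sum_subset _ _).trans ?_
  refine Finset.biUnion_subset.2 fun y hy => ?_
  refine (MvPolynomial.vars_mul _ _).trans (Finset.union_subset ?_ (h y))
  rw [MvPolynomial.vars_X]
  exact Finset.singleton_subset_iff.2 hy

/-- in adapted coordinates: `T` alternating with `∑ b ∈ B, c b T(b, Z) c = 0` -/
theorem KEB [Infinite F] {L : Submodule F (K → F)} {σ : List (Finset K)} {B : Finset K}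
    (hB : Adapted L σ B) (t : Finset K → ℕ) (a b : ℕ) (hb : 1 ≤ b)
    (T : List K → (K → F) → F) (hT : Alt T) (hlen : ∀ Z, Z.length ≠ a → T Z = 0)
    (hpol : ∀ Z, IsPol L b (T Z))
    (hord : ∀ X ∈ σ, ∀ Z, Ord L X (t X - Z.countP (· ∈ X)) (T Z))
    (hd : ∀ Z, ∀ c ∈ L, ∑ y ∈ B, c y * T (y :: Z) c = 0) :
    ∃ S : List K → (K → F) → F, Alt S ∧ (∀ Z, Z.length ≠ a + 1 → S Z = 0) ∧
      (∀ Z, IsPol L (b - 1) (S Z)) ∧
      (∀ X ∈ σ, ∀ Z, Ord L X (t X - Z.countP (· ∈ X)) (S Z)) ∧
      ∀ Z, ∀ c ∈ L, ∑ y ∈ B, c y * S (y :: Z) c = T Z c := by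
  classical
  have hex := fun Z => exists_poly hB (hpol Z)
  choose τ hτh hτv hτe using hex
  have h0v : (0 : MvPolynomial K F).vars ⊆ B := by
    have h1 := MvPolynomial.vars_C (σ := K) (r := (0 : F))
    rw [map_zero] at h1
    rw [h1]
    exact Finset.empty_subset B
  have hzero : ∀ Z, T Z = 0 → τ Z = 0 := by
    intro Z hZ
    refine poly_unique hB (hτv Z) h0v fun c hc => ?_
    rw [← hτe Z c hc, hZ, map_zero, Pi.zero_apply]
  have hτ : Alt τ := by
    constructor
    · intro Z₁ x y Z₂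
      refine poly_unique hB (hτv _) ?_ fun c hc => ?_
      · rw [MvPolynomial.vars_neg]
        exact hτv _
      · rw [map_neg, ← hτe _ c hc, ← hτe _ c hc, hT.swap, Pi.neg_apply]
    · intro Z₁ x Z₂
      exact hzero _ (hT.same Z₁ x Z₂)
  let D : (K →₀ ℕ) → Prop := fun δ =>
    Finsupp.degree δ = a + b ∧ ∀ X ∈ σ, t X ≤ ∑ y ∈ X, δ y
  have hsum : ∀ (X : Finset K) (α : K →₀ ℕ) (Z : List K),
      ∑ y ∈ X, (α + cnt Z) y = ∑ y ∈ X, α y + Z.countP (· ∈ X) := by
    intro X α Z
    simp only [Finsupp.add_apply, Finset.sum_add_distrib]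
    rw [e4e_cnt_sum]
  obtain ⟨ς, hς, hςl, hςv, hςD, hςe⟩ := KEV B a D τ hτ (fun Z hZ => hzero Z (hlen Z hZ)) hτv
    (by
      intro Z
      by_contra h0
      have h1 := e4e_deg (hτh Z) (MvPolynomial.mem_support_iff.2 h0)
      rw [map_zero] at h1
      omega)
    (by
      intro Z α hα
      have hZa : Z.length = a := by
        by_contra hne
        rw [hzero Z (hlen Z hne), MvPolynomial.support_zero] at hα
        exact absurd hα (Finset.notMem_empty _)
      refine ⟨?_, ?_⟩
      · rw [map_add, e4e_deg (hτh Z) hα, e4e_cnt_degree, hZa, add_comm]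
      · intro X hX
        have hO : Ord L X (t X - Z.countP (· ∈ X)) fun c => MvPolynomial.eval c (τ Z) := by
          intro u hu v hv
          obtain ⟨Q, hQ⟩ := hord X hX Z u hu v hv
          refine ⟨Q, fun ν => ?_⟩
          rw [← hQ ν]
          exact (hτe Z _ (L.add_mem (L.smul_mem ν hu) hv.1)).symm
        have h2 := le_weight_of_ord hB hX (hτv Z) hO α hα
        rw [hsum]
        omega)
    (by
      intro Z
      refine poly_unique hB (e4e_vars B _ fun y => hτv _) h0v fun c hc => ?_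
      rw [map_sum, map_zero]
      rw [← hd Z c hc]
      refine Finset.sum_congr rfl fun y _ => ?_
      rw [map_mul, MvPolynomial.eval_X, hτe _ c hc])
  refine ⟨fun Z c => MvPolynomial.eval c (ς Z), ⟨?_, ?_⟩, ?_, ?_, ?_, ?_⟩
  · intro Z₁ x y Z₂
    funext c
    rw [hς.swap, map_neg, Pi.neg_apply]
  · intro Z₁ x Z₂
    funext c
    rw [hς.same, map_zero, Pi.zero_apply]
  · intro Z hZ
    funext c
    change MvPolynomial.eval c (ς Z) = 0
    rw [hςl Z hZ, map_zero]
  · intro Z
    refine ⟨ς Z, e4e_homog fun α hα => ?_, fun c _ => rfl⟩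
    have hZa : Z.length = a + 1 := by
      by_contra hne
      rw [hςl Z hne, MvPolynomial.support_zero] at hα
      exact absurd hα (Finset.notMem_empty _)
    have h1 := (hςD Z α hα).1
    rw [map_add, e4e_cnt_degree, hZa] at h1
    omega
  · intro X hX Z
    refine ord_of_le_weight fun α hα => ?_
    have h1 := (hςD Z α hα).2 X hX
    rw [hsum] at h1
    omega
  · intro Z c hc
    have h1 := congrArg (MvPolynomial.eval c) (hςe Z)
    rw [map_sum, ← hτe Z c hc] at h1
    rw [← h1]
    refine Finset.sum_congr rfl fun y _ => ?_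
    rw [map_mul, MvPolynomial.eval_X]

theorem e4f_eval (Λ : K → K → F) (c : K → F) (Z : List K) : ∀ (T : List K → (K → F) → F),
    pull Λ T Z c = pull Λ (fun Z' => T Z' c) Z := by
  induction Z with
  | nil => intro T; rfl
  | cons z Z ih =>
    intro T
    show (∑ y, Λ z y • pull Λ (fun Z' => T (y :: Z')) Z) c =
      ∑ y, Λ z y • pull Λ (fun Z' => T (y :: Z') c) Z
    rw [Finset.sum_apply]
    refine Finset.sum_congr rfl fun y _ => ?_
    rw [Pi.smul_apply, ih (fun Z' => T (y :: Z'))]

theorem e4f_pol_smul {U : Submodule F (K → F)} {b : ℕ} {g : (K → F) → F} (h : IsPol U b g)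
    (s : F) : IsPol U b (s • g) := by
  obtain ⟨P, hP, hg⟩ := h
  refine ⟨MvPolynomial.C s * P, hP.C_mul s, fun c hc => ?_⟩
  rw [Pi.smul_apply, smul_eq_mul, map_mul, MvPolynomial.eval_C, hg c hc]

theorem e4f_ord_smul {U : Submodule F (K → F)} {X : Finset K} {s : ℕ} {g : (K → F) → F}
    (h : Ord U X s g) (r : F) : Ord U X s (r • g) := by
  intro a ha b hb
  obtain ⟨Q, hQ⟩ := h a ha b hb
  refine ⟨Polynomial.C r * Q, fun ν => ?_⟩
  rw [Pi.smul_apply, smul_eq_mul, hQ, Polynomial.eval_mul, Polynomial.eval_C]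
  ring

/-- properties of a pulled back family -/
theorem e4f_pull (L : Submodule F (K → F)) (σ : List (Finset K)) (t : Finset K → ℕ) (a b : ℕ)
    (Λ : K → K → F) (hΛ : ∀ X ∈ σ, ∀ z y, z ∉ X → y ∈ X → Λ z y = 0)
    (T : List K → (K → F) → F) (hT : Alt T) (hlen : ∀ Z, Z.length ≠ a → T Z = 0)
    (hpol : ∀ Z, IsPol L b (T Z))
    (hord : ∀ X ∈ σ, ∀ Z, Ord L X (t X - Z.countP (· ∈ X)) (T Z)) :
    Alt (pull Λ T) ∧ (∀ Z, Z.length ≠ a → pull Λ T Z = 0) ∧ (∀ Z, IsPol L b (pull Λ T Z)) ∧
      (∀ X ∈ σ, ∀ Z, Ord L X (t X - Z.countP (· ∈ X)) (pull Λ T Z)) := by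
  refine ⟨pull_alt Λ hT, pull_length Λ hlen, ?_, ?_⟩
  · exact pull_induction Λ ∅ (fun z y _ hy => absurd hy (Finset.notMem_empty y))
      (fun _ g => IsPol L b g) (fun _ => IsPol.zero L b) (fun _ g g' h h' => h.add h')
      (fun _ s g h => e4f_pol_smul h s) (fun _ _ g _ h => h) hpol
  · intro X hX
    exact pull_induction Λ X (hΛ X hX) (fun k g => Ord L X (t X - k) g)
      (fun _ => Ord.zero L X _) (fun _ g g' h h' => h.add h')
      (fun _ s g h => e4f_ord_smul h s) (fun _ _ g hk h => h.le (by omega)) (hord X hX)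

/-- Koszul exactness -/
theorem KE [Infinite F] (L : Submodule F (K → F)) (σ : List (Finset K))
    (hσ : σ.Pairwise (· ⊆ ·)) (t : Finset K → ℕ) (a b : ℕ) (hb : 1 ≤ b)
    (T : List K → (K → F) → F) (hT : Alt T) (hlen : ∀ Z, Z.length ≠ a → T Z = 0)
    (hpol : ∀ Z, IsPol L b (T Z))
    (hord : ∀ X ∈ σ, ∀ Z, Ord L X (t X - Z.countP (· ∈ X)) (T Z))
    (hd : ∀ Z, ∀ c ∈ L, dd T Z c = 0) :
    ∃ S : List K → (K → F) → F, Alt S ∧ (∀ Z, Z.length ≠ a + 1 → S Z = 0) ∧
      (∀ Z, IsPol L (b - 1) (S Z)) ∧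
      (∀ X ∈ σ, ∀ Z, Ord L X (t X - Z.countP (· ∈ X)) (S Z)) ∧
      ∀ Z, ∀ c ∈ L, dd S Z c = T Z c := by
  obtain ⟨B, hB⟩ := exists_adapted L σ hσ
  -- the dual basis
  have hℓ : ∀ z : K, ∃ c ∈ L, ∀ y ∈ B, c y = if z = y then 1 else 0 := fun z =>
    hB.surj fun y => if z = y then 1 else 0
  choose ℓ hℓL hℓB using hℓ
  have hexp : ∀ c ∈ L, ∀ y, ∑ b ∈ B, c b * ℓ b y = c y := by
    intro c hc
    have h1 : (∑ b ∈ B, c b • ℓ b) - c = 0 := by
      refine hB.inj _ (L.sub_mem (L.sum_mem fun b _ => L.smul_mem _ (hℓL b)) hc) ?_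
      intro y hy
      rw [Pi.sub_apply, Finset.sum_apply, Finset.sum_eq_single y]
      · rw [Pi.smul_apply, hℓB y y hy, if_pos rfl, smul_eq_mul, mul_one, sub_self]
      · intro b _ hby
        rw [Pi.smul_apply, hℓB b y hy, if_neg hby, smul_zero]
      · intro h
        exact absurd hy h
    intro y
    have h2 := congrFun (sub_eq_zero.mp h1) y
    rw [Finset.sum_apply] at h2
    simpa using h2
  set Λ : K → K → F := fun z y => if z ∈ B ∧ y ∉ B then ℓ z y else if z = y then 1 else 0 with hΛd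
  set Λ' : K → K → F := fun z y => if z ∈ B ∧ y ∉ B then - ℓ z y else if z = y then 1 else 0
    with hΛd'
  have hℓX : ∀ X ∈ σ, ∀ z y, z ∉ X → y ∈ X → ℓ z y = 0 := by
    intro X hX z y hz hy
    refine hB.adp X hX (ℓ z) (hℓL z) ?_ y hy
    intro y' hy' hy'X
    rw [hℓB z y' hy', if_neg]
    rintro rfl
    exact hz hy'X
  have hΛX : ∀ X ∈ σ, ∀ z y, z ∉ X → y ∈ X → Λ z y = 0 := by
    intro X hX z y hz hy
    simp only [hΛd]
    split_ifs with h1 h2
    · exact hℓX X hX z y hz hy
    · exact absurd (h2 ▸ hy) hz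
    · rfl
  have hΛX' : ∀ X ∈ σ, ∀ z y, z ∉ X → y ∈ X → Λ' z y = 0 := by
    intro X hX z y hz hy
    simp only [hΛd']
    split_ifs with h1 h2
    · rw [hℓX X hX z y hz hy, neg_zero]
    · exact absurd (h2 ▸ hy) hz
    · rfl
  -- the rows in `B`
  have hΛb : ∀ b ∈ B, ∀ y, Λ b y = ℓ b y := by
    intro b hb y
    simp only [hΛd]
    by_cases hy : y ∈ B
    · rw [if_neg (by tauto), hℓB b y hy]
    · rw [if_pos ⟨hb, hy⟩]
  -- inverse matrices
  have hmul : ∀ (M M' : K → K → F), (∀ z y, (z ∉ B ∨ y ∈ B) → M z y = if z = y then 1 else 0) →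
      (∀ z y, (z ∉ B ∨ y ∈ B) → M' z y = if z = y then 1 else 0) →
      (∀ z y, z ∈ B → y ∉ B → M' z y = - M z y) →
      (fun z x => ∑ y, M z y * M' y x) = fun z x : K => if z = x then (1 : F) else 0 := by
    intro M M' hM hM' hMM
    funext z x
    by_cases hz : z ∈ B
    · by_cases hx : x ∈ B
      · rw [Finset.sum_eq_single x]
        · rw [hM z x (Or.inr hx), hM' x x (Or.inr hx), if_pos (rfl : x = x), mul_one]
        · intro y _ hy
          rw [hM' y x (Or.inr hx), if_neg hy, mul_zero]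
        · intro h
          exact absurd (Finset.mem_univ x) h
      · have hzx : z ≠ x := fun h => hx (h ▸ hz)
        rw [if_neg hzx]
        rw [← Finset.sum_subset (Finset.subset_univ {z, x})]
        · rw [Finset.sum_pair hzx, hM z z (Or.inr hz), if_pos (rfl : z = z), hMM z x hz hx,
            hM' x x (Or.inl hx), if_pos (rfl : x = x)]
          ring
        · intro y _ hy
          rw [Finset.mem_insert, Finset.mem_singleton, not_or] at hy
          by_cases hyB : y ∈ B
          · rw [hM z y (Or.inr hyB), if_neg (Ne.symm hy.1), zero_mul]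
          · rw [hM' y x (Or.inl hyB), if_neg hy.2, mul_zero]
    · rw [Finset.sum_eq_single z]
      · rw [hM z z (Or.inl hz), if_pos (rfl : z = z), hM' z x (Or.inl hz), one_mul]
      · intro y _ hy
        rw [hM z y (Or.inl hz), if_neg (Ne.symm hy), zero_mul]
      · intro h
        exact absurd (Finset.mem_univ z) h
  have eΛ : ∀ z y, (z ∉ B ∨ y ∈ B) → Λ z y = if z = y then 1 else 0 := by
    intro z y h
    have h' : ¬ (z ∈ B ∧ y ∉ B) := by tauto
    simp only [hΛd]
    rw [if_neg h']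
  have eΛ' : ∀ z y, (z ∉ B ∨ y ∈ B) → Λ' z y = if z = y then 1 else 0 := by
    intro z y h
    have h' : ¬ (z ∈ B ∧ y ∉ B) := by tauto
    simp only [hΛd']
    rw [if_neg h']
  have fΛ : ∀ z y, z ∈ B → y ∉ B → Λ z y = ℓ z y := by
    intro z y h1 h2
    simp only [hΛd]
    rw [if_pos ⟨h1, h2⟩]
  have fΛ' : ∀ z y, z ∈ B → y ∉ B → Λ' z y = - ℓ z y := by
    intro z y h1 h2
    simp only [hΛd']
    rw [if_pos ⟨h1, h2⟩]
  have hΛΛ' : (fun z x => ∑ y, Λ z y * Λ' y x) = fun z x : K => if z = x then (1 : F) else 0 :=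
    hmul Λ Λ' eΛ eΛ' fun z y h1 h2 => by rw [fΛ z y h1 h2, fΛ' z y h1 h2]
  have hΛ'Λ : (fun z x => ∑ y, Λ' z y * Λ y x) = fun z x : K => if z = x then (1 : F) else 0 :=
    hmul Λ' Λ eΛ' eΛ fun z y h1 h2 => by rw [fΛ z y h1 h2, fΛ' z y h1 h2, neg_neg]
  -- the identity
  have hid : ∀ (U : List K → (K → F) → F) (Z : List K), ∀ c ∈ L,
      pull Λ (fun Z' => dd U Z' c) Z = ∑ b ∈ B, c b * pull Λ U (b :: Z) c := by
    intro U Z c hc
    have h1 : pull Λ (fun Z' => dd U Z' c) Z = ∑ y, c y • pull Λ (fun Z' => U (y :: Z') c) Z :=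
      pull_sum Λ univ (fun y => c y) (fun y Z' => U (y :: Z') c) Z
    have h2 : ∀ b, pull Λ U (b :: Z) c = ∑ y, Λ b y * pull Λ (fun Z' => U (y :: Z') c) Z := by
      intro b
      rw [e4f_eval]
      rfl
    rw [h1]
    simp_rw [h2, Finset.mul_sum]
    rw [Finset.sum_comm]
    refine Finset.sum_congr rfl fun y _ => ?_
    simp_rw [← mul_assoc]
    rw [← Finset.sum_mul, smul_eq_mul]
    congr 1
    rw [← hexp c hc y]
    exact Finset.sum_congr rfl fun b hb => by rw [hΛb b hb]
  -- pulling back `T`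
  obtain ⟨p1, p2, p3, p4⟩ := e4f_pull L σ t a b Λ hΛX T hT hlen hpol hord
  have hd' : ∀ Z, ∀ c ∈ L, ∑ y ∈ B, c y * pull Λ T (y :: Z) c = 0 := by
    intro Z c hc
    rw [← hid T Z c hc]
    have h1 : (fun Z' => dd T Z' c) = fun _ => (0 : F) := funext fun Z' => hd Z' c hc
    rw [h1]
    have h2 := pull_sum Λ (∅ : Finset Unit) (fun _ => (1 : F)) (fun _ _ => (0 : F)) Z
    simpa using h2
  obtain ⟨S', q1, q2, q3, q4, q5⟩ := KEB hB t a b hb (pull Λ T) p1 p2 p3 p4 hd'
  obtain ⟨r1, r2, r3, r4⟩ := e4f_pull L σ t (a + 1) (b - 1) Λ' hΛX' S' q1 q2 q3 q4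
  refine ⟨pull Λ' S', r1, r2, r3, r4, ?_⟩
  intro Z c hc
  -- both sides agree after pulling back
  have hpp : pull Λ (pull Λ' S') = S' := by
    funext Z'
    rw [pull_pull, hΛΛ', pull_one]
  have h1 : ∀ Z', pull Λ (fun Z'' => dd (pull Λ' S') Z'' c) Z' =
      pull Λ (fun Z'' => T Z'' c) Z' := by
    intro Z'
    rw [hid _ Z' c hc, hpp, q5 Z' c hc, e4f_eval]
  have h2 : ∀ W : List K → F, pull Λ' (pull Λ W) Z = W Z := by
    intro W
    rw [pull_pull, hΛ'Λ, pull_one]
  have h3 := h2 (fun Z'' => dd (pull Λ' S') Z'' c)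
  rw [funext h1, h2] at h3
  exact h3.symm

end Pool.Agent.MP_d4f4ab_ag.W
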