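import Pool.Agent.MP_d4f4ab_ag.W.E3

import Pool.Agent.MP_d4f4ab_ag.W.E4

/-! [WR-E5] the downward chase and (STAR) (WR_PROOF.md section 8). -/

open Finset

namespace Pool.Agent.MP_d4f4ab_ag.W

variable {F : Type*} [Field F] {K : Type*} [Fintype K] [DecidableEq K]
  {L : Submodule F (K → F)} {e : ℕ} {w : List K → F} {n : ℕ}

/-- the conditions on the chains `W` of the downward chase at stage `a`: arguments of length `a`, lists of length
`n + 1 - a` -/
structure DC (L : Submodule F (K → F)) (e n a : ℕ)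
    (W : List (Finset K) → List K → (K → F) → F) : Prop where
  alt : ∀ σ, Alt (W σ)
  len : ∀ σ Z, Z.length ≠ a → W σ Z = 0
  len' : ∀ σ, σ.length + a ≠ n + 1 → W σ = 0
  chain : ∀ σ, ¬ (σ.Pairwise (· ⊂ ·) ∧ ∀ X ∈ σ, IsFlat L e X) → W σ = 0
  pol : ∀ σ Z, IsPol L (n - a) (W σ Z)
  ord : ∀ σ, ∀ X ∈ σ, ∀ Z, Ord L X (ex L e X Z) (W σ Z)

/-- evaluation of a function of lists and vectors -/
def e5a_ev (Z : List K) (c : K → F) : (List K → (K → F) → F) →+ F where
  toFun T := T Z c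
  map_zero' := rfl
  map_add' _ _ := rfl

theorem e5a_bd_eval (W : List (Finset K) → List K → (K → F) → F) (σ : List (Finset K))
    (Z : List K) (c : K → F) : bd W σ Z c = bd (fun τ => W τ Z c) σ :=
  (bd_map (e5a_ev Z c) W σ).symm

theorem e5a_alt_neg {A : Type*} [AddCommGroup A] {T : List K → A} (h : Alt T) : Alt (-T) := by
  have h1 := Alt.sub (Alt.zero (K := K) (A := A)) h
  have h2 : (fun Z => (0 : A) - T Z) = -T := by
    funext Z
    simp
  rwa [h2] at h1

theorem e5a_alt_add {A : Type*} [AddCommGroup A] {T T' : List K → A} (h : Alt T) (h' : Alt T') :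
    Alt (T + T') := by
  have h1 := Alt.sub h (e5a_alt_neg h')
  have h2 : (fun Z => T Z - (-T') Z) = T + T' := by
    funext Z
    simp
  rwa [h2] at h1

theorem e5a_alt_bd {A : Type*} [AddCommGroup A] {W : List (Finset K) → List K → A}
    (h : ∀ σ, Alt (W σ)) (σ : List (Finset K)) : Alt (bd W σ) :=
  bd_induction Alt Alt.zero (fun _ _ => e5a_alt_add) (fun _ => e5a_alt_neg) W σ
    (fun _ _ _ _ => h _)

/-- the boundary of `W` vanishes on lists which are not chains of flats -/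
theorem e5a_bd_chain {a : ℕ} {W : List (Finset K) → List K → (K → F) → F} (hW : DC L e n a W)
    (σ : List (Finset K)) (h : ¬ (σ.Pairwise (· ⊂ ·) ∧ ∀ X ∈ σ, IsFlat L e X)) :
    bd W σ = 0 := by
  refine bd_induction (fun T : List K → (K → F) → F => T = 0) rfl ?_ ?_ W σ ?_
  · rintro _ _ rfl rfl
    simp
  · rintro _ rfl
    simp
  · rintro σ₁ σ₂ X rfl
    apply hW.chain
    rintro ⟨h1, h2⟩
    apply h
    have hs : (σ₁ ++ σ₂).Sublist (σ₁ ++ X :: σ₂) :=
      (List.Sublist.refl σ₁).append (List.sublist_cons_self X σ₂)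
    exact ⟨h1.sublist hs, fun Y hY => h2 Y (hs.subset hY)⟩

theorem e5a_flag_chain {G₁ G₀ : Finset K} {σ : List (Finset K)} (h : Flag L e G₁ G₀ σ) :
    (G₀ :: σ).Pairwise (· ⊂ ·) := by
  induction σ generalizing G₀ with
  | nil => exact List.pairwise_singleton _ _
  | cons Y σ ih =>
    rw [List.pairwise_cons]
    exact ⟨fun X hX => (h.ssubset_mem hX).1, ih h.2.2.2.2⟩

/-- `U σ - ∂ W σ` vanishes on lists which are not chains of flats -/
theorem e5a_UU_chain (hn : nn L e univ = n) (h : Hyp L e n w) (σ : List (Finset K))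
    (hσ : 1 ≤ σ.length)
    (hc : ¬ (σ.Pairwise (· ⊂ ·) ∧ ∀ X ∈ σ, IsFlat L e X)) (Z : List K) (c : K → F) :
    UU L e w σ Z c = 0 := by
  by_contra hne
  obtain ⟨X, τ, rfl⟩ : ∃ X τ, σ = X :: τ := by
    cases σ with
    | nil => simp at hσ
    | cons X τ => exact ⟨X, τ, rfl⟩
  obtain ⟨-, -, h3⟩ := flag_of_UU hn h.len h.ind X τ Z c hne
  apply hc
  refine ⟨e5a_flag_chain h3, fun Y hY => ?_⟩
  rcases List.mem_cons.1 hY with rfl | hY
  · exact h3.isFlat_left
  · exact h3.isFlat_mem hY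

/-- one step of the downward chase for one list -/
theorem e5a_one (hd : Dense L e) [IsAlgClosed F] (hn : nn L e univ = n) (h : Hyp L e n w)
    {a : ℕ} (han : a < n) {W : List (Finset K) → List K → (K → F) → F}
    (hW : DC L e n a W)
    (hdd : ∀ σ : List (Finset K), σ.length + a = n → ∀ Z, ∀ c ∈ L,
      dd (bd W σ) Z c = dd (UU L e w σ) Z c) (σ : List (Finset K)) (hσ : σ.length + a = n)
    (hpw : σ.Pairwise (· ⊂ ·)) :
    ∃ S : List K → (K → F) → F, Alt S ∧ (∀ Z, Z.length ≠ a + 1 → S Z = 0) ∧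
      (∀ Z, IsPol L (n - (a + 1)) (S Z)) ∧
      (∀ X ∈ σ, ∀ Z, Ord L X (ex L e X Z) (S Z)) ∧
      ∀ Z, ∀ c ∈ L, dd S Z c = UU L e w σ Z c - bd W σ Z c := by
  have hb : 1 ≤ n - a := by omega
  have hlenσ : σ.length = n - a := by omega
  have halt : Alt (UU L e w σ - bd W σ) := Alt.sub (UU_alt h.alt σ) (e5a_alt_bd hW.alt σ)
  have hlen : ∀ Z : List K, Z.length ≠ a → (UU L e w σ - bd W σ) Z = 0 := by
    intro Z hZ
    funext c
    have h1 : UU L e w σ Z c = 0 := UU_length h.len σ Z (by omega) c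
    have h2 : bd W σ Z c = 0 := by
      rw [e5a_bd_eval]
      have h3 : (fun τ => W τ Z c) = fun _ => (0 : F) := by
        funext τ
        rw [hW.len τ Z hZ]
        rfl
      rw [h3, bd_zero]
    simp [h1, h2]
  have hpol : ∀ Z : List K, IsPol L (n - a) ((UU L e w σ - bd W σ) Z) := by
    intro Z
    have h1 : IsPol L (n - a) (UU L e w σ Z) := by
      rw [← hlenσ]
      exact UU_pol L σ Z
    have h2 : IsPol L (n - a) (bd W σ Z) :=
      bd_induction (fun T : List K → (K → F) → F => IsPol L (n - a) (T Z)) (IsPol.zero L _)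
        (fun _ _ h1 h2 => h1.add h2) (fun _ h1 => h1.neg) W σ (fun _ _ _ _ => hW.pol _ _)
    have h3 := h1.add h2.neg
    have h4 : (fun c => UU L e w σ Z c + -(bd W σ Z c)) = (UU L e w σ - bd W σ) Z := by
      funext c
      simp [sub_eq_add_neg]
    rwa [h4] at h3
  have hord : ∀ X ∈ σ, ∀ Z : List K,
      Ord L X ((nn L e X + 1).toNat - Z.countP (· ∈ X)) ((UU L e w σ - bd W σ) Z) := by
    intro X hX Z
    have h1 : Ord L X (ex L e X Z) (UU L e w σ Z) := UU_ord hd hn h σ X hX Z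
    have h2 : Ord L X (ex L e X Z) (bd W σ Z) := by
      refine bd_induction (fun T : List K → (K → F) → F => Ord L X (ex L e X Z) (T Z))
        (Ord.zero L X _) (fun _ _ h1 h2 => h1.add h2) (fun _ h1 => h1.neg) W σ ?_
      rintro σ₁ σ₂ Y rfl
      apply hW.ord
      rcases List.mem_append.1 hX with h3 | h3
      · exact List.mem_append_left _ h3
      · exact List.mem_append_right _ (List.mem_cons_of_mem _ h3)
    have h3 := h1.add h2.neg
    have h4 : (fun c => UU L e w σ Z c + -(bd W σ Z c)) = (UU L e w σ - bd W σ) Z := by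
      funext c
      simp [sub_eq_add_neg]
    rwa [h4] at h3
  have hd0 : ∀ Z : List K, ∀ c ∈ L, dd (UU L e w σ - bd W σ) Z c = 0 := by
    intro Z c hc
    rw [dd_sub]
    have h1 := hdd σ hσ Z c hc
    simp [h1]
  obtain ⟨S, h1, h2, h3, h4, h5⟩ := KE L σ (hpw.imp fun h => h.subset)
    (fun X => (nn L e X + 1).toNat) a (n - a) hb (UU L e w σ - bd W σ) halt hlen hpol hord hd0
  refine ⟨S, h1, h2, ?_, h4, ?_⟩
  · rw [← Nat.sub_sub]
    exact h3
  · intro Z c hc
    rw [h5 Z c hc]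
    rfl

/-- one step of the downward chase -/
theorem DC.step (hd : Dense L e) [IsAlgClosed F] (hn : nn L e univ = n) (h : Hyp L e n w)
    {a : ℕ} (ha : 1 ≤ a) (han : a < n) {W : List (Finset K) → List K → (K → F) → F}
    (hW : DC L e n a W)
    (hdd : ∀ σ : List (Finset K), σ.length + a = n → ∀ Z, ∀ c ∈ L,
      dd (bd W σ) Z c = dd (UU L e w σ) Z c) :
    ∃ W' : List (Finset K) → List K → (K → F) → F, DC L e n (a + 1) W' ∧
      ∀ σ : List (Finset K), σ.length + (a + 1) = n → ∀ Z, ∀ c ∈ L,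
        dd (bd W' σ) Z c = dd (UU L e w σ) Z c := by
  classical
  have key : ∀ σ : List (Finset K), ∃ S : List K → (K → F) → F,
      (σ.length + a = n ∧ σ.Pairwise (· ⊂ ·) →
      Alt S ∧ (∀ Z, Z.length ≠ a + 1 → S Z = 0) ∧
      (∀ Z, IsPol L (n - (a + 1)) (S Z)) ∧
      (∀ X ∈ σ, ∀ Z, Ord L X (ex L e X Z) (S Z)) ∧
      ∀ Z, ∀ c ∈ L, dd S Z c = UU L e w σ Z c - bd W σ Z c) := by
    intro σ
    by_cases hσ : σ.length + a = n ∧ σ.Pairwise (· ⊂ ·)
    · obtain ⟨S, hS⟩ := e5a_one hd hn h han hW hdd σ hσ.1 hσ.2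
      exact ⟨S, fun _ => hS⟩
    · exact ⟨0, fun h => absurd h hσ⟩
  choose S hS using key
  set W' : List (Finset K) → List K → (K → F) → F := fun σ =>
    if σ.length + a = n ∧ σ.Pairwise (· ⊂ ·) ∧ ∀ X ∈ σ, IsFlat L e X then S σ else 0 with hW'
  have hpos : ∀ σ : List (Finset K), σ.length + a = n ∧ σ.Pairwise (· ⊂ ·) ∧
      (∀ X ∈ σ, IsFlat L e X) → W' σ = S σ := fun σ hσ => by
    simp only [hW']
    rw [if_pos hσ]
  have hneg : ∀ σ : List (Finset K), ¬ (σ.length + a = n ∧ σ.Pairwise (· ⊂ ·) ∧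
      ∀ X ∈ σ, IsFlat L e X) → W' σ = 0 := fun σ hσ => by
    simp only [hW']
    rw [if_neg hσ]
  refine ⟨W', ⟨?_, ?_, ?_, ?_, ?_, ?_⟩, ?_⟩
  · intro σ
    by_cases hσ : σ.length + a = n ∧ σ.Pairwise (· ⊂ ·) ∧ ∀ X ∈ σ, IsFlat L e X
    · rw [hpos σ hσ]
      exact (hS σ ⟨hσ.1, hσ.2.1⟩).1
    · rw [hneg σ hσ]
      exact Alt.zero
  · intro σ Z hZ
    by_cases hσ : σ.length + a = n ∧ σ.Pairwise (· ⊂ ·) ∧ ∀ X ∈ σ, IsFlat L e X
    · rw [hpos σ hσ]
      exact (hS σ ⟨hσ.1, hσ.2.1⟩).2.1 Z hZ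
    · rw [hneg σ hσ]
      rfl
  · intro σ hσ
    apply hneg
    rintro ⟨h1, -⟩
    omega
  · intro σ hσ
    apply hneg
    rintro ⟨-, h1⟩
    exact hσ h1
  · intro σ Z
    by_cases hσ : σ.length + a = n ∧ σ.Pairwise (· ⊂ ·) ∧ ∀ X ∈ σ, IsFlat L e X
    · rw [hpos σ hσ]
      exact (hS σ ⟨hσ.1, hσ.2.1⟩).2.2.1 Z
    · rw [hneg σ hσ]
      exact IsPol.zero L _
  · intro σ X hX Z
    by_cases hσ : σ.length + a = n ∧ σ.Pairwise (· ⊂ ·) ∧ ∀ X ∈ σ, IsFlat L e X
    · rw [hpos σ hσ]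
      exact (hS σ ⟨hσ.1, hσ.2.1⟩).2.2.2.1 X hX Z
    · rw [hneg σ hσ]
      exact Ord.zero L X _
  · intro σ hσ Z c hc
    rw [← bd_dd, e5a_bd_eval]
    have h1 : bd (fun τ => dd (W' τ) Z c) σ =
        bd (fun τ => UU L e w τ Z c - bd W τ Z c) σ := by
      apply bd_congr
      intro τ hτ
      by_cases hτ' : τ.Pairwise (· ⊂ ·) ∧ ∀ X ∈ τ, IsFlat L e X
      · rw [hpos τ ⟨by omega, hτ'⟩]
        exact (hS τ ⟨by omega, hτ'.1⟩).2.2.2.2 Z c hc
      · rw [hneg τ (fun h => hτ' h.2), e5a_UU_chain hn h τ (by omega) hτ' Z c,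
          e5a_bd_chain hW τ hτ']
        simp [dd]
    rw [h1, bd_sub (fun τ => UU L e w τ Z c) (fun τ => bd W τ Z c), ← e5a_bd_eval,
      ← e5a_bd_eval, bd_UU h.alt h.ind, bd_bd]
    simp

/-- start: `W = 0` -/
theorem e5b_zero (L : Submodule F (K → F)) (e n : ℕ) : DC L e n 1 (fun _ _ _ => (0 : F)) where
  alt _ := Alt.zero
  len _ _ _ := rfl
  len' _ _ := rfl
  chain _ _ := rfl
  pol _ _ := IsPol.zero L (n - 1)
  ord _ X _ _ := Ord.zero L X _

/-- all stages -/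
theorem e5b_stage (hd : Dense L e) [IsAlgClosed F] (hn : nn L e univ = n) (h : Hyp L e n w)
    {a : ℕ} (ha : 1 ≤ a) : a ≤ n →
    ∃ W : List (Finset K) → List K → (K → F) → F, DC L e n a W ∧
      ∀ σ : List (Finset K), σ.length + a = n → ∀ Z, ∀ c ∈ L,
        dd (bd W σ) Z c = dd (UU L e w σ) Z c := by
  induction a, ha using Nat.le_induction with
  | base =>
    intro _
    refine ⟨_, e5b_zero L e n, ?_⟩
    intro σ hσ Z c hc
    rw [dd_UU_nil hd hn h σ hσ Z c hc]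
    have h1 : bd (fun _ : List (Finset K) => (0 : List K → (K → F) → F)) σ = 0 := bd_zero σ
    have h2 : bd (fun (_ : List (Finset K)) (_ : List K) (_ : K → F) => (0 : F)) σ = 0 := h1
    rw [h2]
    simp [dd]
  | succ a ha ih =>
    intro han
    obtain ⟨W, hW, hWd⟩ := ih (by omega)
    exact DC.step hd hn h ha (by omega) hW hWd

theorem DC.exists (hd : Dense L e) [IsAlgClosed F] (hn : nn L e univ = n) (h : Hyp L e n w)
    (hn1 : 1 ≤ n) :
    ∃ W : List (Finset K) → List K → (K → F) → F, DC L e n n W ∧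
      ∀ Z, ∀ c ∈ L, dd (bd W []) Z c = dd (UU L e w []) Z c := by
  obtain ⟨W, hW, hWd⟩ := e5b_stage hd hn h hn1 le_rfl
  exact ⟨W, hW, hWd [] (by simp)⟩

/-- the members `W [X]` vanish on independent lists (evaluated at `0`) -/
theorem e5b_W_zero {W : List (Finset K) → List K → (K → F) → F} (hW : DC L e n n W)
    (X : Finset K) {Z : List K} (hZ : Ind L e Z) : W [X] Z 0 = 0 := by
  by_cases hX : IsFlat L e X
  · have h1 : Ord L X (ex L e X Z) (W [X] Z) := hW.ord [X] X (by simp) Z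
    refine h1.eq_zero ?_ 0 (zero_mem _)
    have h2 := hZ.countP_le hX
    rw [ex]
    omega
  · have h1 : W [X] = 0 := by
      apply hW.chain
      rintro ⟨-, h2⟩
      exact hX (h2 X (by simp))
    rw [h1]
    rfl

/-- the members `W [X]` are constant on `L` -/
theorem e5b_W_const {W : List (Finset K) → List K → (K → F) → F} (hW : DC L e n n W)
    (X : Finset K) (Z : List K) : ∀ c ∈ L, W [X] Z c = W [X] Z 0 := by
  have h1 : IsPol L (n - n) (W [X] Z) := hW.pol [X] Z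
  rw [Nat.sub_self] at h1
  exact h1.eq_of_zero

theorem e5b_bd_nil (W : List (Finset K) → List K → (K → F) → F) (Z : List K) (c : K → F) :
    bd W [] Z c = ∑ X : Finset K, W [X] Z c := by
  rw [bd, Finset.sum_apply, Finset.sum_apply]

/-- (STAR) -/
theorem star (hd : Dense L e) [IsAlgClosed F] (hn : nn L e univ = n) (h : Hyp L e n w)
    (hn1 : 1 ≤ n) :
    ∃ β : List K → F, Alt β ∧ (∀ Z, Z.length ≠ n → β Z = 0) ∧
      (∀ Z, ∀ c ∈ L, ∑ y, c y * β (y :: Z) = 0) ∧ ∀ Z, Ind L e Z → β Z = w Z := by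
  obtain ⟨W, hW, hWd⟩ := DC.exists hd hn h hn1
  refine ⟨fun Z => w Z - ∑ X : Finset K, W [X] Z 0, ?_, ?_, ?_, ?_⟩
  · refine Alt.sub h.alt (Alt.sum univ fun X _ => ?_)
    have h1 := hW.alt [X]
    exact ⟨fun Z₁ x y Z₂ => congrFun (h1.swap Z₁ x y Z₂) 0,
      fun Z₁ x Z₂ => congrFun (h1.same Z₁ x Z₂) 0⟩
  · intro Z hZ
    have h1 : ∀ X : Finset K, W [X] Z 0 = 0 := fun X => congrFun (hW.len [X] Z hZ) 0
    simp only [h.len Z hZ, h1, Finset.sum_const_zero, sub_zero]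
  · intro Z c hc
    have h1 := hWd Z c hc
    have h2 : dd (bd W []) Z c = ∑ y, c y * ∑ X : Finset K, W [X] (y :: Z) 0 := by
      rw [dd]
      refine Finset.sum_congr rfl fun y _ => ?_
      rw [e5b_bd_nil]
      congr 1
      exact Finset.sum_congr rfl fun X _ => e5b_W_const hW X (y :: Z) c hc
    have h3 : dd (UU L e w []) Z c = ∑ y, c y * w (y :: Z) := rfl
    rw [h2, h3] at h1
    simp only [mul_sub, Finset.sum_sub_distrib]
    rw [h1, sub_self]
  · intro Z hZ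
    have h1 : ∑ X : Finset K, W [X] Z 0 = 0 :=
      Finset.sum_eq_zero fun X _ => e5b_W_zero hW X hZ
    simp only [h1, sub_zero]

end Pool.Agent.MP_d4f4ab_ag.W
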