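import Pool.Agent.MP_d4f4ab_ag.W.E1

/-! [WR-G0] determinants of lists of vectors. -/

open Finset

namespace Pool.Agent.MP_d4f4ab_ag.W

variable {F : Type*} [Field F] {K : Type*}

/-- the determinant of a list of `k` vectors in `F^k` (zero for lists of another length) -/
noncomputable def ldet (k : ℕ) (Z : List (Fin k → F)) : F :=
  if h : Z.length = k then Matrix.det (fun i : Fin k => Z.get (i.cast h.symm)) else 0

theorem ldet_length {k : ℕ} {Z : List (Fin k → F)} (h : Z.length ≠ k) : ldet k Z = 0 := by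
  rw [ldet, dif_neg h]

theorem g0a_eq {k : ℕ} {Z : List (Fin k → F)} (h : Z.length = k) :
    ldet k Z = Matrix.det (Matrix.of fun i : Fin k => Z.get (i.cast h.symm)) := by
  rw [ldet, dif_pos h]
  rfl

theorem g0a_get1 {α : Type*} (Z₁ : List α) (x y : α) (Z₂ : List α) (n : ℕ) (hn : n = Z₁.length)
    (h : n < (Z₁ ++ x :: y :: Z₂).length) : (Z₁ ++ x :: y :: Z₂)[n]'h = x := by
  subst hn
  simp

theorem g0a_get2 {α : Type*} (Z₁ : List α) (x y : α) (Z₂ : List α) (n : ℕ)
    (hn : n = Z₁.length + 1) (h : n < (Z₁ ++ x :: y :: Z₂).length) :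
    (Z₁ ++ x :: y :: Z₂)[n]'h = y := by
  subst hn
  rw [List.getElem_append_right (by omega)]
  simp

theorem g0a_get3 {α : Type*} (Z₁ : List α) (x y : α) (Z₂ : List α) (n : ℕ)
    (h1 : n ≠ Z₁.length) (h2 : n ≠ Z₁.length + 1) (h : n < (Z₁ ++ x :: y :: Z₂).length)
    (h' : n < (Z₁ ++ y :: x :: Z₂).length) :
    (Z₁ ++ x :: y :: Z₂)[n]'h = (Z₁ ++ y :: x :: Z₂)[n]'h' := by
  rcases lt_or_gt_of_ne h1 with hl | hg
  · rw [List.getElem_append_left hl, List.getElem_append_left hl]
  · obtain ⟨m, rfl⟩ : ∃ m, n = Z₁.length + (m + 2) := ⟨n - Z₁.length - 2, by omega⟩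
    rw [List.getElem_append_right (by omega), List.getElem_append_right (by omega)]
    have : Z₁.length + (m + 2) - Z₁.length = m + 2 := by omega
    simp only [this, List.getElem_cons_succ]

theorem ldet_swap {k : ℕ} (Z₁ : List (Fin k → F)) (x y : Fin k → F) (Z₂ : List (Fin k → F)) :
    ldet k (Z₁ ++ x :: y :: Z₂) = - ldet k (Z₁ ++ y :: x :: Z₂) := by
  have hl : (Z₁ ++ x :: y :: Z₂).length = Z₁.length + (Z₂.length + 2) := by simp
  have hl' : (Z₁ ++ y :: x :: Z₂).length = Z₁.length + (Z₂.length + 2) := by simp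
  by_cases h : (Z₁ ++ x :: y :: Z₂).length = k
  · have h' : (Z₁ ++ y :: x :: Z₂).length = k := by omega
    have hk : Z₁.length + 1 < k := by omega
    rw [g0a_eq h, g0a_eq h']
    have hne : (⟨Z₁.length, by omega⟩ : Fin k) ≠ ⟨Z₁.length + 1, hk⟩ := by
      intro hh
      have := congrArg Fin.val hh
      simp at this
    have hs := Matrix.det_permute (Equiv.swap (⟨Z₁.length, by omega⟩ : Fin k) ⟨Z₁.length + 1, hk⟩)
      (Matrix.of fun i : Fin k => (Z₁ ++ y :: x :: Z₂).get (i.cast h'.symm))
    rw [Equiv.Perm.sign_swap hne] at hs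
    have hm : (Matrix.of fun i : Fin k => (Z₁ ++ x :: y :: Z₂).get (i.cast h.symm)) =
        (Matrix.of fun i : Fin k => (Z₁ ++ y :: x :: Z₂).get (i.cast h'.symm)).submatrix
          (Equiv.swap (⟨Z₁.length, by omega⟩ : Fin k) ⟨Z₁.length + 1, hk⟩) id := by
      ext i j
      rw [Matrix.submatrix_apply, Matrix.of_apply, Matrix.of_apply, id]
      by_cases h1 : i = ⟨Z₁.length, by omega⟩
      · rw [h1, Equiv.swap_apply_left, List.get_eq_getElem, List.get_eq_getElem]
        exact congrFun ((g0a_get1 _ _ _ _ _ rfl _).trans (g0a_get2 _ _ _ _ _ rfl _).symm) j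
      · by_cases h2 : i = ⟨Z₁.length + 1, hk⟩
        · rw [h2, Equiv.swap_apply_right, List.get_eq_getElem, List.get_eq_getElem]
          exact congrFun ((g0a_get2 _ _ _ _ _ rfl _).trans (g0a_get1 _ _ _ _ _ rfl _).symm) j
        · rw [Equiv.swap_apply_of_ne_of_ne h1 h2, List.get_eq_getElem, List.get_eq_getElem]
          have h1' : (i : ℕ) ≠ Z₁.length := fun hh => h1 (Fin.ext hh)
          have h2' : (i : ℕ) ≠ Z₁.length + 1 := fun hh => h2 (Fin.ext hh)
          exact congrFun (g0a_get3 Z₁ x y Z₂ _ h1' h2' _ _) j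
    rw [hm, hs]
    simp
  · have h' : (Z₁ ++ y :: x :: Z₂).length ≠ k := by omega
    rw [ldet_length h, ldet_length h', neg_zero]

theorem ldet_same {k : ℕ} (Z₁ : List (Fin k → F)) (x : Fin k → F) (Z₂ : List (Fin k → F)) :
    ldet k (Z₁ ++ x :: x :: Z₂) = 0 := by
  have hl : (Z₁ ++ x :: x :: Z₂).length = Z₁.length + (Z₂.length + 2) := by simp
  by_cases h : (Z₁ ++ x :: x :: Z₂).length = k
  · have hk : Z₁.length + 1 < k := by omega
    rw [g0a_eq h]
    have hne : (⟨Z₁.length, by omega⟩ : Fin k) ≠ ⟨Z₁.length + 1, hk⟩ := by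
      intro hh
      have := congrArg Fin.val hh
      simp at this
    apply Matrix.det_zero_of_row_eq hne
    ext j
    rw [Matrix.of_apply, Matrix.of_apply, List.get_eq_getElem, List.get_eq_getElem]
    exact congrFun ((g0a_get1 _ _ _ _ _ rfl _).trans (g0a_get2 _ _ _ _ _ rfl _).symm) j
  · exact ldet_length h

theorem g0a_cons {k : ℕ} (Z : List (Fin k → F)) (h : Z.length + 1 = k) :
    ∃ (M : Matrix (Fin k) (Fin k) F) (i : Fin k), ∀ x : Fin k → F,
      ldet k (x :: Z) = Matrix.det (M.updateRow i x) := by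
  have hk : 0 < k := by omega
  have h' : ∀ x : Fin k → F, (x :: Z).length = k := fun x => by simpa using h
  refine ⟨Matrix.of fun i : Fin k => ((0 : Fin k → F) :: Z).get (i.cast (h' 0).symm), ⟨0, hk⟩,
    fun x => ?_⟩
  rw [g0a_eq (h' x)]
  congr 1
  ext i j
  obtain ⟨i, hi⟩ := i
  cases i with
  | zero =>
    rw [Matrix.updateRow_self]
    simp
  | succ m =>
    have h1 : (⟨m + 1, hi⟩ : Fin k) ≠ ⟨0, hk⟩ := by
      intro hh
      have := congrArg Fin.val hh
      simp at this
    rw [Matrix.updateRow_ne h1, Matrix.of_apply, Matrix.of_apply]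
    simp only [List.get_eq_getElem, Fin.val_cast, List.getElem_cons_succ]

theorem ldet_cons_add {k : ℕ} (a b : Fin k → F) (Z : List (Fin k → F)) :
    ldet k ((a + b) :: Z) = ldet k (a :: Z) + ldet k (b :: Z) := by
  by_cases h : Z.length + 1 = k
  · obtain ⟨M, i, hM⟩ := g0a_cons Z h
    rw [hM, hM, hM, Matrix.det_updateRow_add]
  · rw [ldet_length (by simpa using h), ldet_length (by simpa using h),
      ldet_length (by simpa using h), add_zero]

theorem ldet_cons_smul {k : ℕ} (s : F) (a : Fin k → F) (Z : List (Fin k → F)) :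
    ldet k ((s • a) :: Z) = s * ldet k (a :: Z) := by
  by_cases h : Z.length + 1 = k
  · obtain ⟨M, i, hM⟩ := g0a_cons Z h
    rw [hM, hM, Matrix.det_updateRow_smul]
  · rw [ldet_length (by simpa using h), ldet_length (by simpa using h), mul_zero]

theorem ldet_cons_sum {k : ℕ} {β : Type*} (t : Finset β) (s : β → F) (a : β → Fin k → F)
    (Z : List (Fin k → F)) :
    ldet k ((∑ x ∈ t, s x • a x) :: Z) = ∑ x ∈ t, s x * ldet k (a x :: Z) := by
  classical
  induction t using Finset.induction_on with
  | empty =>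
    have := ldet_cons_smul (k := k) (0 : F) 0 Z
    rw [zero_smul, zero_mul] at this
    simpa using this
  | insert x t hx ih =>
    rw [Finset.sum_insert hx, Finset.sum_insert hx, ldet_cons_add, ldet_cons_smul, ih]

theorem ldet_map_alt {k : ℕ} (v : K → Fin k → F) : Alt fun Z : List K => ldet k (Z.map v) := by
  refine ⟨fun Z₁ x y Z₂ => ?_, fun Z₁ x Z₂ => ?_⟩
  · simp only [List.map_append, List.map_cons]
    exact ldet_swap _ _ _ _
  · simp only [List.map_append, List.map_cons]
    exact ldet_same _ _ _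

variable [DecidableEq K]

omit [DecidableEq K] in
theorem g0b_ldet_eq {k : ℕ} (v : K → Fin k → F) (Z : List K) (hk : Z.length = k) :
    ldet k (Z.map v) = Matrix.det (Matrix.of fun i : Fin k => v (Z.get (i.cast hk.symm))) := by
  unfold ldet
  rw [dif_pos (by simpa using hk)]
  congr 1
  funext i j
  simp only [Matrix.of_apply]
  simp

theorem g0b_indep {k : ℕ} (v : K → Fin k → F) (Z : List K) :
    LinearIndependent F (fun i : Fin Z.length => v (Z.get i)) ↔
      Z.Nodup ∧ LinearIndepOn F v (Z.toFinset : Set K) := by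
  have hr : (Z.toFinset : Set K) = Set.range Z.get := by
    ext x
    simp [List.mem_iff_get]
  constructor
  · intro h
    have hinj : Function.Injective Z.get := by
      intro a b hab
      apply h.injective
      show v (Z.get a) = v (Z.get b)
      rw [hab]
    refine ⟨List.nodup_iff_injective_get.2 hinj, ?_⟩
    rw [hr, linearIndepOn_range_iff hinj]
    exact h
  · rintro ⟨h1, h2⟩
    have hinj := List.nodup_iff_injective_get.1 h1
    rw [hr, linearIndepOn_range_iff hinj] at h2
    exact h2

/-- nonzero iff the entries are distinct and form a basis -/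
theorem ldet_ne_zero_iff {k : ℕ} (v : K → Fin k → F) (Z : List K) :
    ldet k (Z.map v) ≠ 0 ↔
      Z.Nodup ∧ Z.length = k ∧ LinearIndepOn F v (Z.toFinset : Set K) := by
  by_cases hk : Z.length = k
  · have h1 := g0b_indep v Z
    rw [g0b_ldet_eq v Z hk]
    subst hk
    have h2 : (Matrix.det (Matrix.of fun i : Fin Z.length => v (Z.get (i.cast rfl))) ≠ 0) ↔
        LinearIndependent F (fun i : Fin Z.length => v (Z.get i)) := by
      rw [← isUnit_iff_ne_zero, ← Matrix.isUnit_iff_isUnit_det,
        ← Matrix.linearIndependent_rows_iff_isUnit]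
      rfl
    rw [h2, h1]
    simp
  · constructor
    · intro h
      exact absurd (ldet_length (by simpa using hk)) h
    · rintro ⟨-, h, -⟩
      exact absurd h hk

omit [DecidableEq K] in
theorem g0b_perm_aux {A : Type*} [AddCommGroup A] {T : List K → A} (h : Alt T) {Z Z' : List K}
    (hp : Z.Perm Z') : ∀ P : List K, T (P ++ Z) = 0 → T (P ++ Z') = 0 := by
  induction hp with
  | nil => intro P h0; exact h0
  | cons x _ ih =>
    intro P h0
    have := ih (P ++ [x]) (by simpa using h0)
    simpa using this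
  | swap x y l =>
    intro P h0
    rw [h.swap P x y l, h0, neg_zero]
  | trans _ _ ih1 ih2 =>
    intro P h0
    exact ih2 P (ih1 P h0)

/-- a permutation preserves vanishing of an alternating function -/
theorem Alt.perm_zero {A : Type*} [AddCommGroup A] {T : List K → A} (h : Alt T) {Z Z' : List K}
    (hp : Z.Perm Z') (h0 : T Z = 0) : T Z' = 0 := by
  exact g0b_perm_aux h hp [] h0

omit [DecidableEq K] in
theorem g0b_alt {k : ℕ} {β : List K → F} (hβ : Alt β) (v : K → Fin k → F) (Z₀ : List K) :
    Alt fun Z : List K => β Z * ldet k (Z₀.map v) - β Z₀ * ldet k (Z.map v) := by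
  have hl := ldet_map_alt (F := F) v
  constructor
  · intro Z₁ x y Z₂
    have e1 := hβ.swap Z₁ x y Z₂
    have e2 := hl.swap Z₁ x y Z₂
    rw [e1, e2]
    ring
  · intro Z₁ x Z₂
    have e1 := hβ.same Z₁ x Z₂
    have e2 := hl.same Z₁ x Z₂
    rw [e1, e2]
    ring

/-- an alternating function vanishing on lists of length other than `k`, on the relations of `v` in
the first slot and at a basis, vanishes -/
theorem g0b_zero [Fintype K] {k : ℕ} {v : K → Fin k → F} {T : List K → F} (hT : Alt T)
    (hlen : ∀ Z, Z.length ≠ k → T Z = 0)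
    (hrel : ∀ Z, ∀ c : K → F, ∑ y, c y • v y = 0 → ∑ y, c y * T (y :: Z) = 0)
    {Z₀ : List K} (h₀ : ldet k (Z₀.map v) ≠ 0) (hz : T Z₀ = 0) :
    ∀ (n : ℕ) (Z : List K), (Z.filter (fun x => x ∉ Z₀)).length = n → T Z = 0 := by
  obtain ⟨hn0, hl0, hi0⟩ := (ldet_ne_zero_iff v Z₀).1 h₀
  have hspan : Submodule.span F (v '' (Z₀.toFinset : Set K)) = ⊤ := by
    have hi1 : LinearIndependent F (fun x : (Z₀.toFinset : Set K) => v x) := hi0
    have hcard : Fintype.card (Z₀.toFinset : Set K) = k := by
      rw [← hl0, ← List.toFinset_card_of_nodup hn0]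
      simp only [Finset.coe_sort_coe, Fintype.card_coe]
    have := hi1.span_eq_top_of_card_eq_finrank' (by
      rw [hcard, Module.finrank_fin_fun])
    rw [← this]
    congr 1
    ext w
    simp
  intro n
  induction n with
  | zero =>
    intro Z hZ
    have hsub : ∀ x ∈ Z, x ∈ Z₀ := by
      intro x hx
      by_contra hx'
      have : x ∈ Z.filter (fun x => x ∉ Z₀) := by
        simp [hx, hx']
      rw [List.length_eq_zero_iff.1 hZ] at this
      simp at this
    by_cases hk : Z.length = k
    · by_cases hnd : Z.Nodup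
      · have hperm : Z₀.Perm Z := by
          have h1 : Z.Subperm Z₀ := hnd.subperm (fun x hx => hsub x hx)
          exact (h1.perm_of_length_le (by rw [hk, hl0])).symm
        exact hT.perm_zero hperm hz
      · exact hT.eq_zero_of_not_nodup hnd
    · exact hlen Z hk
  | succ n ih =>
    intro Z hZ
    obtain ⟨x, hx⟩ : ∃ x, x ∈ Z.filter (fun x => x ∉ Z₀) := by
      apply List.exists_mem_of_length_pos
      omega
    have hxZ : x ∈ Z := (List.mem_filter.1 hx).1
    have hx0 : x ∉ Z₀ := by simpa using (List.mem_filter.1 hx).2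
    have hperm : Z.Perm (x :: Z.erase x) := List.perm_cons_erase hxZ
    have hcount : ((Z.erase x).filter (fun x => x ∉ Z₀)).length = n := by
      have h1 := (hperm.filter (fun x => x ∉ Z₀)).length_eq
      rw [hZ] at h1
      simp [hx0] at h1
      simpa using h1.symm
    refine hT.perm_zero hperm.symm ?_
    have hmem : v x ∈ Submodule.span F (v '' (Z₀.toFinset : Set K)) := by
      rw [hspan]; trivial
    obtain ⟨c, hc⟩ := (Submodule.mem_span_image_finset_iff_exists_fun' F).1 hmem
    have hrel1 := hrel (Z.erase x) (fun y => (if y = x then 1 else 0) -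
      (if y ∈ Z₀.toFinset then c y else 0)) (by
        simp only [sub_smul, ite_smul, one_smul, zero_smul, Finset.sum_sub_distrib,
          Finset.sum_ite_eq', Finset.mem_univ, if_true]
        rw [← hc, Finset.sum_ite_mem, Finset.univ_inter, sub_self])
    have hrel2 : ∑ y, ((if y = x then 1 else 0) - (if y ∈ Z₀.toFinset then c y else 0)) *
        T (y :: Z.erase x) = T (x :: Z.erase x) -
          ∑ y ∈ Z₀.toFinset, c y * T (y :: Z.erase x) := by
      simp only [sub_mul, ite_mul, one_mul, zero_mul, Finset.sum_sub_distrib,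
          Finset.sum_ite_eq', Finset.mem_univ, if_true]
      rw [Finset.sum_ite_mem, Finset.univ_inter]
    rw [hrel2] at hrel1
    rw [sub_eq_zero.1 hrel1]
    apply Finset.sum_eq_zero
    intro y hy
    rw [ih (y :: Z.erase x) (by
      rw [List.filter_cons]
      have : y ∈ Z₀ := by simpa using hy
      simp only [this, not_true_eq_false, decide_false, Bool.false_eq_true, if_false]
      exact hcount), mul_zero]

/-- an alternating function on lists of length `k`, vanishing on the relations of `v` in the first slot, is a multiple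
of the determinant -/
theorem alt_eq_ldet [Fintype K] {k : ℕ} (v : K → Fin k → F) {β : List K → F} (hβ : Alt β)
    (hlen : ∀ Z, Z.length ≠ k → β Z = 0)
    (hrel : ∀ Z, ∀ c : K → F, ∑ y, c y • v y = 0 → ∑ y, c y * β (y :: Z) = 0)
    {Z₀ : List K} (h₀ : ldet k (Z₀.map v) ≠ 0) (Z : List K) :
    β Z * ldet k (Z₀.map v) = β Z₀ * ldet k (Z.map v) := by
  have hT := g0b_alt hβ v Z₀
  have := g0b_zero hT (fun Z hZ => by
      show β Z * ldet k (Z₀.map v) - β Z₀ * ldet k (Z.map v) = 0
      have e0 : ldet k (Z.map v) = 0 := ldet_length (by simpa using hZ)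
      rw [hlen Z hZ, e0]
      simp) (fun Z c hc => by
      show ∑ y, c y * (β (y :: Z) * ldet k (Z₀.map v) - β Z₀ * ldet k ((y :: Z).map v)) = 0
      have e1 := hrel Z c hc
      have e2 : ∑ y, c y * ldet k ((y :: Z).map v) = 0 := by
        have := ldet_cons_sum (Finset.univ : Finset K) c v (Z.map v)
        simp only [List.map_cons]
        rw [← this, hc]
        have h3 := ldet_cons_smul (k := k) (0 : F) 0 (Z.map v)
        simpa using h3
      have e3 : ∑ y, c y * (β (y :: Z) * ldet k (Z₀.map v) - β Z₀ * ldet k ((y :: Z).map v)) =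
          (∑ y, c y * β (y :: Z)) * ldet k (Z₀.map v) -
            β Z₀ * ∑ y, c y * ldet k ((y :: Z).map v) := by
        rw [Finset.sum_mul, Finset.mul_sum, ← Finset.sum_sub_distrib]
        apply Finset.sum_congr rfl
        intro y _
        ring
      rw [e3, e1, e2]
      simp) h₀ (by
      show β Z₀ * ldet k (Z₀.map v) - β Z₀ * ldet k (Z₀.map v) = 0
      simp) _ Z rfl
  exact sub_eq_zero.1 this

end Pool.Agent.MP_d4f4ab_ag.W
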