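import Mathlib

/-! [WR-G1] exchange graph, Edmonds' partition theorem and (S1) for vectors (WR_PROOF.md section 9). -/

open Finset

namespace Pool.Agent.MP_d4f4ab_ag.W

variable (F : Type*) [Field F] {V : Type*} [AddCommGroup V] [Module F V] {K : Type*}
  [DecidableEq K] {C : Type*} [DecidableEq C]

/-- rank of a finite set of vectors -/
noncomputable def rk (v : K → V) (X : Finset K) : ℕ :=
  Module.finrank F (Submodule.span F (v '' (X : Set K)))

/-- the classes of the state `(x, P)` on `U` -/
def scls (U : Finset K) (x : K) (P : K → C) (c : C) : Finset K :=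
  (U.erase x).filter fun y => P y = c

/-- states: the classes are independent -/
def IsState (v : K → V) (U : Finset K) (x : K) (P : K → C) : Prop :=
  x ∈ U ∧ ∀ c, LinearIndepOn F v (scls U x P c : Set K)

/-- steps: exchange of the free element -/
def SStep (v : K → V) (U : Finset K) (s t : K × (K → C)) : Prop :=
  IsState F v U s.1 s.2 ∧ IsState F v U t.1 t.2 ∧ s.1 ≠ t.1 ∧ s.2 t.1 = t.2 s.1 ∧
    ∀ y ∈ U, y ≠ s.1 → y ≠ t.1 → s.2 y = t.2 y

theorem g1a_fd (v : K → V) (X : Finset K) :
    FiniteDimensional F (Submodule.span F (v '' (X : Set K))) :=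
  FiniteDimensional.span_of_finite F (X.finite_toSet.image v)

theorem rk_mono (v : K → V) {X Y : Finset K} (h : X ⊆ Y) : rk F v X ≤ rk F v Y := by
  haveI := g1a_fd F v Y
  exact Submodule.finrank_mono (Submodule.span_mono (Set.image_mono (Finset.coe_subset.2 h)))

theorem rk_le_card (v : K → V) (X : Finset K) : rk F v X ≤ X.card := by
  classical
  rw [rk, ← Finset.coe_image]
  exact (finrank_span_finset_le_card (X.image v)).trans Finset.card_image_le

theorem rk_eq_card_iff (v : K → V) (X : Finset K) :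
    rk F v X = X.card ↔ LinearIndepOn F v (X : Set K) := by
  have h1 := linearIndependent_iff_card_eq_finrank_span (R := F)
    (b := fun x : (X : Set K) => v x)
  have h2 : Set.range (fun x : (X : Set K) => v x) = v '' (X : Set K) := by
    rw [Set.image_eq_range]
  rw [LinearIndepOn, h1, h2, Set.finrank, rk]
  simp only [Finset.coe_sort_coe, Fintype.card_coe]
  exact eq_comm

/-- an independent set of full rank spans -/
theorem span_eq_of_card (v : K → V) {X Y : Finset K} (h : X ⊆ Y)
    (hX : LinearIndepOn F v (X : Set K)) (hc : rk F v Y ≤ X.card) :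
    Submodule.span F (v '' (X : Set K)) = Submodule.span F (v '' (Y : Set K)) := by
  haveI := g1a_fd F v Y
  refine Submodule.eq_of_le_of_finrank_le
    (Submodule.span_mono (Set.image_mono (Finset.coe_subset.2 h))) ?_
  have h1 := (rk_eq_card_iff F v X).2 hX
  rw [rk] at h1 hc
  rw [h1]; exact hc

theorem SStep.symm (v : K → V) (U : Finset K) {s t : K × (K → C)} (h : SStep F v U s t) :
    SStep F v U t s := by
  obtain ⟨h1, h2, h3, h4, h5⟩ := h
  exact ⟨h2, h1, h3.symm, h4.symm, fun y hy hyt hys => (h5 y hy hys hyt).symm⟩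

/-- the exchange: if `b` occurs in the expression of `x` in terms of its class -/
theorem IsState.exchange (v : K → V) (U : Finset K) {x : K} {P : K → C} (h : IsState F v U x P)
    {c : C} (l : K → F) (hl : v x = ∑ b ∈ scls U x P c, l b • v b) {b : K}
    (hb : b ∈ scls U x P c) (hlb : l b ≠ 0) :
    SStep F v U (x, P) (b, Function.update P x c) := by
  obtain ⟨hx, hi⟩ := h
  have hb' := hb
  rw [scls, Finset.mem_filter, Finset.mem_erase] at hb'
  obtain ⟨⟨hbx, hbU⟩, hPb⟩ := hb'
  refine ⟨⟨hx, hi⟩, ⟨hbU, fun c' => ?_⟩, hbx.symm, ?_, ?_⟩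
  · show LinearIndepOn F v (scls U b (Function.update P x c) c' : Set K)
    by_cases hc : c' = c
    · subst hc
      have e1 : scls U b (Function.update P x c') c' = insert x ((scls U x P c').erase b) := by
        ext y
        simp only [scls, Finset.mem_filter, Finset.mem_erase, Finset.mem_insert]
        by_cases hyx : y = x
        · subst hyx
          simp [hx, hbx.symm]
        · rw [Function.update_of_ne hyx]
          tauto
      have h2 : insert b ((scls U x P c').erase b) = scls U x P c' := Finset.insert_erase hb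
      have h3 : LinearIndepOn F v (insert b (((scls U x P c').erase b : Finset K) : Set K)) := by
        rw [← Finset.coe_insert, h2]; exact hi c'
      have hbn : b ∉ (((scls U x P c').erase b : Finset K) : Set K) := by simp
      rw [linearIndepOn_insert hbn] at h3
      have hxn : x ∉ (((scls U x P c').erase b : Finset K) : Set K) := by
        simp [scls]
      rw [e1, Finset.coe_insert, linearIndepOn_insert hxn]
      refine ⟨h3.1, fun hmem => h3.2 ?_⟩
      have e2 : v b = (l b)⁻¹ • (v x - ∑ y ∈ (scls U x P c').erase b, l y • v y) := by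
        rw [hl, ← Finset.add_sum_erase _ _ hb, add_sub_cancel_right, smul_smul,
          inv_mul_cancel₀ hlb, one_smul]
      rw [e2]
      refine Submodule.smul_mem _ _ (Submodule.sub_mem _ hmem ?_)
      refine Submodule.sum_mem _ (fun y hy => Submodule.smul_mem _ _ ?_)
      exact Submodule.subset_span (Set.mem_image_of_mem v hy)
    · have e1 : scls U b (Function.update P x c) c' = scls U x P c' := by
        ext y
        simp only [scls, Finset.mem_filter, Finset.mem_erase]
        by_cases hyx : y = x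
        · subst hyx
          simp [Ne.symm hc]
        · rw [Function.update_of_ne hyx]
          constructor
          · rintro ⟨⟨h1, h2⟩, h3⟩
            exact ⟨⟨hyx, h2⟩, h3⟩
          · rintro ⟨⟨h1, h2⟩, h3⟩
            refine ⟨⟨?_, h2⟩, h3⟩
            rintro rfl
            exact hc (h3.symm.trans hPb)
      rw [e1]; exact hi c'
  · show P b = Function.update P x c x
    rw [Function.update_self, hPb]
  · intro y _ hyx _
    exact (Function.update_of_ne hyx _ _).symm

theorem g1b_mem_scls (U : Finset K) (x : K) (P : K → C) (c : C) (y : K) :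
    y ∈ scls U x P c ↔ (y ≠ x ∧ y ∈ U) ∧ P y = c := by
  unfold scls
  rw [Finset.mem_filter, Finset.mem_erase]

theorem g1b_state (v : K → V) (U : Finset K) {s₀ s : K × (K → C)} (h₀ : IsState F v U s₀.1 s₀.2)
    (hs : Relation.ReflTransGen (SStep F v U) s₀ s) : IsState F v U s.1 s.2 := by
  induction hs with
  | refl => exact h₀
  | tail _ h _ => exact h.2.1

theorem g1b_circ (v : K → V) (U : Finset K) {s₀ s : K × (K → C)} (h₀ : IsState F v U s₀.1 s₀.2)
    (hs : Relation.ReflTransGen (SStep F v U) s₀ s) (c : C)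
    (h : v s.1 ∈ Submodule.span F (v '' (scls U s.1 s.2 c : Set K))) (A : Set K)
    (hA : ∀ y, y ∈ A ↔ ∃ s, Relation.ReflTransGen (SStep F v U) s₀ s ∧ s.1 = y) :
    v s.1 ∈ Submodule.span F (v '' ((scls U s.1 s.2 c : Set K) ∩ A)) := by
  obtain ⟨l, hl⟩ := Submodule.mem_span_image_finset_iff_exists_fun' F |>.1 h
  rw [← hl]
  refine Submodule.sum_mem _ fun b hb => ?_
  by_cases hlb : l b = 0
  · rw [hlb, zero_smul]
    exact Submodule.zero_mem _
  · refine Submodule.smul_mem _ _ (Submodule.subset_span ⟨b, ⟨hb, ?_⟩, rfl⟩)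
    rw [hA]
    refine ⟨(b, Function.update s.2 s.1 c), hs.tail ?_, rfl⟩
    exact IsState.exchange F v U (g1b_state F v U h₀ hs) l hl.symm hb hlb

theorem g1b_le (v : K → V) (U : Finset K) {s t : K × (K → C)} (A : Set K)
    (hst : SStep F v U s t) (c : C)
    (h : v s.1 ∈ Submodule.span F (v '' ((scls U s.1 s.2 c : Set K) ∩ A))) :
    Submodule.span F (v '' ((scls U t.1 t.2 c : Set K) ∩ A)) ≤
      Submodule.span F (v '' ((scls U s.1 s.2 c : Set K) ∩ A)) := by
  rw [Submodule.span_le]
  rintro _ ⟨y, ⟨hy, hyA⟩, rfl⟩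
  by_cases hys : y = s.1
  · rw [hys]; exact h
  · refine Submodule.subset_span ⟨y, ⟨?_, hyA⟩, rfl⟩
    rw [Finset.mem_coe, g1b_mem_scls] at hy ⊢
    refine ⟨⟨hys, hy.1.2⟩, ?_⟩
    rw [← hy.2]
    exact hst.2.2.2.2 y hy.1.2 hys hy.1.1

/-- (9.1) -/
theorem state_key [Fintype C] (v : K → V) (U : Finset K) (s₀ : K × (K → C))
    (h₀ : IsState F v U s₀.1 s₀.2)
    (h : ∀ s, Relation.ReflTransGen (SStep F v U) s₀ s → ∀ c,
      v s.1 ∈ Submodule.span F (v '' (scls U s.1 s.2 c : Set K))) :
    ∃ A ⊆ U, (∀ y, y ∈ A ↔ ∃ s, Relation.ReflTransGen (SStep F v U) s₀ s ∧ s.1 = y) ∧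
      A.card = Fintype.card C * rk F v A + 1 := by
  classical
  let A : Finset K := U.filter fun y => ∃ s, Relation.ReflTransGen (SStep F v U) s₀ s ∧ s.1 = y
  have hA : ∀ y, y ∈ A ↔ ∃ s, Relation.ReflTransGen (SStep F v U) s₀ s ∧ s.1 = y := by
    intro y
    rw [Finset.mem_filter]
    constructor
    · exact fun h => h.2
    · rintro ⟨s, hs, rfl⟩
      exact ⟨(g1b_state F v U h₀ hs).1, s, hs, rfl⟩
  have hA' : ∀ y, y ∈ (A : Set K) ↔
      ∃ s, Relation.ReflTransGen (SStep F v U) s₀ s ∧ s.1 = y := fun y => by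
    rw [Finset.mem_coe]; exact hA y
  refine ⟨A, Finset.filter_subset _ _, hA, ?_⟩
  have hcirc : ∀ s, Relation.ReflTransGen (SStep F v U) s₀ s → ∀ c,
      v s.1 ∈ Submodule.span F (v '' ((scls U s.1 s.2 c : Set K) ∩ A)) := fun s hs c =>
    g1b_circ F v U h₀ hs c (h s hs c) A hA'
  have hinv : ∀ s, Relation.ReflTransGen (SStep F v U) s₀ s → ∀ c,
      Submodule.span F (v '' ((scls U s.1 s.2 c : Set K) ∩ A)) =
        Submodule.span F (v '' ((scls U s₀.1 s₀.2 c : Set K) ∩ A)) := by
    intro s hs c
    induction hs with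
    | refl => rfl
    | @tail s t hs hst ih =>
      rw [← ih]
      exact le_antisymm (g1b_le F v U A hst c (hcirc _ hs c))
        (g1b_le F v U A (SStep.symm F v U hst) c (hcirc _ (hs.tail hst) c))
  have hspan : ∀ c, Submodule.span F (v '' ((scls U s₀.1 s₀.2 c : Set K) ∩ A)) =
      Submodule.span F (v '' (A : Set K)) := by
    intro c
    apply le_antisymm
    · exact Submodule.span_mono (Set.image_mono Set.inter_subset_right)
    · rw [Submodule.span_le]
      rintro _ ⟨y, hy, rfl⟩
      obtain ⟨s, hs, rfl⟩ := (hA' y).1 hy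
      rw [← hinv s hs c]
      exact hcirc s hs c
  have hcard : ∀ c, ((scls U s₀.1 s₀.2 c) ∩ A).card = rk F v A := by
    intro c
    have hli : LinearIndepOn F v (((scls U s₀.1 s₀.2 c) ∩ A : Finset K) : Set K) :=
      (h₀.2 c).mono (by rw [Finset.coe_inter]; exact Set.inter_subset_left)
    rw [← (rk_eq_card_iff F v _).2 hli]
    unfold rk
    rw [Finset.coe_inter, hspan c]
  have h0A : s₀.1 ∈ A := (hA _).2 ⟨s₀, Relation.ReflTransGen.refl, rfl⟩
  rw [← Finset.card_erase_add_one h0A]
  congr 1
  rw [Finset.card_eq_sum_card_fiberwise (f := s₀.2) (t := Finset.univ) (fun _ _ => Finset.mem_univ _)]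
  have : ∀ c ∈ (Finset.univ : Finset C), ((A.erase s₀.1).filter fun y => s₀.2 y = c).card =
      rk F v A := by
    intro c _
    rw [← hcard c]
    congr 1
    ext y
    rw [Finset.mem_filter, Finset.mem_erase, Finset.mem_inter, g1b_mem_scls]
    constructor
    · rintro ⟨⟨h1, h2⟩, h3⟩
      exact ⟨⟨⟨h1, (Finset.mem_filter.1 h2).1⟩, h3⟩, h2⟩
    · rintro ⟨⟨⟨h1, h2⟩, h3⟩, h4⟩
      exact ⟨⟨h1, h4⟩, h3⟩
  rw [Finset.sum_congr rfl this, Finset.sum_const, Finset.card_univ, smul_eq_mul]

theorem g1c_color (v : K → V) (U : Finset K) {x : K} {P : K → C} (h : IsState F v U x P) (c : C)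
    (hx : v x ∉ Submodule.span F (v '' (scls U x P c : Set K))) :
    ∀ c', LinearIndepOn F v
      ((U.filter fun y => Function.update P x c y = c' : Finset K) : Set K) := by
  intro c'
  by_cases hc : c' = c
  · subst hc
    have : (U.filter fun y => Function.update P x c' y = c') = insert x (scls U x P c') := by
      ext y
      rw [Finset.mem_filter, Finset.mem_insert, g1b_mem_scls]
      by_cases hy : y = x
      · subst hy
        simp [h.1]
      · rw [Function.update_of_ne hy]
        simp [hy]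
    rw [this, Finset.coe_insert]
    exact (h.2 c').insert hx
  · have : (U.filter fun y => Function.update P x c y = c') = scls U x P c' := by
      ext y
      rw [Finset.mem_filter, g1b_mem_scls]
      by_cases hy : y = x
      · subst hy
        simp [Ne.symm hc]
      · rw [Function.update_of_ne hy]
        simp [hy]
    rw [this]
    exact h.2 c'

/-- (9.2), Edmonds' partition theorem -/
theorem edmonds [Fintype C] [Nonempty C] (v : K → V) (U : Finset K)
    (h : ∀ X ⊆ U, X.card ≤ Fintype.card C * rk F v X) :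
    ∃ P : K → C, ∀ c, LinearIndepOn F v ((U.filter fun y => P y = c : Finset K) : Set K) := by
  induction U using Finset.induction_on with
  | empty =>
    obtain ⟨c₀⟩ := ‹Nonempty C›
    refine ⟨fun _ => c₀, fun c => ?_⟩
    rw [Finset.filter_empty, Finset.coe_empty]
    exact linearIndepOn_empty F v
  | @insert x U hx ih =>
    obtain ⟨P, hP⟩ := ih fun X hX => h X (hX.trans (Finset.subset_insert _ _))
    by_contra hcon
    have h₀ : IsState F v (insert x U) (x, P).1 (x, P).2 := by
      refine ⟨Finset.mem_insert_self _ _, fun c => ?_⟩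
      unfold scls
      rw [Finset.erase_insert hx]
      exact hP c
    obtain ⟨A, hAU, _, hA⟩ := state_key F v (insert x U) (x, P) h₀ (by
      intro s hs c
      by_contra hsc
      exact hcon ⟨_, g1c_color F v (insert x U) (g1b_state F v _ h₀ hs) c hsc⟩)
    have := h A hAU
    omega

omit [DecidableEq K] in
theorem g1d_functional (v : K → V) (X : Finset K) (hX : LinearIndepOn F v (X : Set K)) (φ : K → F) :
    ∃ g : V →ₗ[F] F, ∀ b ∈ X, g (v b) = φ b := by
  have hX' : LinearIndependent F fun i : (X : Set K) => v i := hX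
  let B := Module.Basis.span hX'
  obtain ⟨g, hg⟩ := LinearMap.exists_extend (B.constr F fun i => φ i)
  refine ⟨g, fun b hb => ?_⟩
  have h1 := LinearMap.congr_fun hg (B ⟨b, hb⟩)
  rw [LinearMap.comp_apply, Module.Basis.constr_basis] at h1
  have h2 : ((B ⟨b, hb⟩ : _) : V) = v b := Module.Basis.coe_span_apply hX' ⟨b, hb⟩
  rw [← h2]
  exact h1

theorem g1d_card [Fintype C] (U : Finset K) {x : K} (hx : x ∈ U) (P : K → C) :
    U.card = ∑ c, (scls U x P c).card + 1 := by
  have h1 : (U.erase x).card = ∑ c, (scls U x P c).card :=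
    Finset.card_eq_sum_card_fiberwise fun y _ => Finset.mem_univ (P y)
  rw [← h1, Finset.card_erase_of_mem hx]
  have := Finset.card_pos.2 ⟨x, hx⟩
  omega

/-- the classes of a state have full rank -/
theorem g1d_full [Fintype C] (v : K → V) (U : Finset K)
    (hU : U.card = Fintype.card C * rk F v U + 1) {x : K} {P : K → C} (h : IsState F v U x P)
    (c : C) : Submodule.span F (v '' (scls U x P c : Set K)) = Submodule.span F (v '' (U : Set K)) := by
  have hsub : ∀ c, scls U x P c ⊆ U := fun c =>
    (Finset.filter_subset _ _).trans (Finset.erase_subset _ _)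
  have hle : ∀ c, (scls U x P c).card ≤ rk F v U := by
    intro c
    rw [← (rk_eq_card_iff F v _).2 (h.2 c)]
    exact rk_mono F v (hsub c)
  refine span_eq_of_card F v (hsub c) (h.2 c) ?_
  by_contra hcon
  push Not at hcon
  have h1 := g1d_card U h.1 P
  have h2 : ∑ c, (scls U x P c).card < ∑ _c : C, rk F v U :=
    Finset.sum_lt_sum (fun c _ => hle c) ⟨c, Finset.mem_univ c, hcon⟩
  rw [Finset.sum_const, Finset.card_univ, smul_eq_mul] at h2
  omega

theorem g1d_reach (v : K → V) (U : Finset K) {s₀ s : K × (K → C)}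
    (h₀ : IsState F v U s₀.1 s₀.2) (h : Relation.ReflTransGen (SStep F v U) s₀ s) :
    IsState F v U s.1 s.2 := by
  induction h with
  | refl => exact h₀
  | tail _ h _ => exact h.2.1

/-- (9.3), (S1) -/
theorem S1 [Fintype C] [Nonempty C] (v : K → V) (U : Finset K)
    (hU : U.card = Fintype.card C * rk F v U + 1)
    (h : ∀ X, X ⊂ U → X.card ≤ Fintype.card C * rk F v X) (φ : K → F)
    (hφ : ∀ (x : K) (P : K → C), IsState F v U x P → ∀ c, ∀ l : K → F,
      v x = ∑ b ∈ scls U x P c, l b • v b → φ x = ∑ b ∈ scls U x P c, l b * φ b) :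
    ∀ c : K → F, ∑ y ∈ U, c y • v y = 0 → ∑ y ∈ U, c y * φ y = 0 := by
  obtain ⟨x₀, hx₀⟩ : U.Nonempty := Finset.card_pos.1 (by omega)
  obtain ⟨P₀, hP₀⟩ := edmonds (C := C) F v (U.erase x₀) fun X hX =>
    h X (Finset.ssubset_of_subset_of_ssubset hX (Finset.erase_ssubset hx₀))
  have hs₀ : IsState F v U x₀ P₀ := ⟨hx₀, hP₀⟩
  have hspan : ∀ s : K × (K → C), IsState F v U s.1 s.2 → ∀ c,
      v s.1 ∈ Submodule.span F (v '' (scls U s.1 s.2 c : Set K)) := by
    intro s hs c
    rw [g1d_full F v U hU hs c]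
    exact Submodule.subset_span ⟨s.1, hs.1, rfl⟩
  obtain ⟨A, hAU, hA, hAc⟩ := state_key F v U (x₀, P₀) hs₀ fun s hs c =>
    hspan s (g1d_reach F v U (s₀ := (x₀, P₀)) hs₀ hs) c
  have hAeq : A = U := by
    by_contra hne
    have := h A (hAU.ssubset_of_ne hne)
    omega
  obtain ⟨c₀⟩ := (inferInstance : Nonempty C)
  obtain ⟨g, hg⟩ := g1d_functional F v (scls U x₀ P₀ c₀) (hs₀.2 c₀) φ
  -- a good functional has the right value at the free element
  have hfree : ∀ s : K × (K → C), IsState F v U s.1 s.2 →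
      (∀ b ∈ scls U s.1 s.2 c₀, g (v b) = φ b) → g (v s.1) = φ s.1 := by
    intro s hs hgood
    obtain ⟨l, hl⟩ := (Submodule.mem_span_image_finset_iff_exists_fun' F).1 (hspan s hs c₀)
    rw [hφ s.1 s.2 hs c₀ l hl.symm, ← hl, map_sum]
    refine Finset.sum_congr rfl fun b hb => ?_
    rw [map_smul, hgood b hb, smul_eq_mul]
  have hgood : ∀ s : K × (K → C), Relation.ReflTransGen (SStep F v U) (x₀, P₀) s →
      ∀ b ∈ scls U s.1 s.2 c₀, g (v b) = φ b := by
    intro s hs
    induction hs with
    | refl => exact hg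
    | @tail s t hst hstep ih =>
      intro b hb
      obtain ⟨h1, h2, h3, h4, h5⟩ := hstep
      rw [scls, Finset.mem_filter, Finset.mem_erase] at hb
      obtain ⟨⟨hbt, hbU⟩, hbP⟩ := hb
      by_cases hbs : b = s.1
      · rw [hbs]
        exact hfree s h1 ih
      · apply ih
        rw [scls, Finset.mem_filter, Finset.mem_erase]
        exact ⟨⟨hbs, hbU⟩, by rw [h5 b hbU hbs hbt]; exact hbP⟩
  have hval : ∀ y ∈ U, g (v y) = φ y := by
    intro y hy
    rw [← hAeq] at hy
    obtain ⟨s, hs, rfl⟩ := (hA y).1 hy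
    exact hfree s (g1d_reach F v U (s₀ := (x₀, P₀)) hs₀ hs) (hgood s hs)
  intro c hc
  have h1 := congrArg g hc
  rw [map_sum, map_zero] at h1
  rw [← h1]
  refine Finset.sum_congr rfl fun y hy => ?_
  rw [map_smul, hval y hy, smul_eq_mul]

end Pool.Agent.MP_d4f4ab_ag.W
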