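import Pool.Agent.MP_d4f4ab_ag.W.B2

import Pool.Agent.MP_d4f4ab_ag.W.G1

/-! [WR-G2] the configuration of vectors `v : K → V` with a partition into `e + 1` bases (WR_PROOF.md section 10). -/

open Finset

namespace Pool.Agent.MP_d4f4ab_ag.W

variable {F : Type*} [Field F] {V : Type*} [AddCommGroup V] [Module F V] {K : Type*}
  [Fintype K] [DecidableEq K] {C : Type*} [DecidableEq C]

/-- colour classes -/
def kl (P : K → C) (c : C) : Finset K := univ.filter fun y => P y = c

theorem mem_kl {P : K → C} {c : C} {y : K} : y ∈ kl P c ↔ P y = c := by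
  simp [kl]

variable (F)

/-- bases -/
def Bas (v : K → V) (I : Finset K) : Prop :=
  LinearIndepOn F v (I : Set K) ∧ I.card = Module.finrank F V

/-- partitions into bases -/
def Val (v : K → V) (P : K → C) : Prop := ∀ c, Bas F v (kl P c)

/-- the relations of `v` -/
def rel (v : K → V) : Submodule F (K → F) := LinearMap.ker (Fintype.linearCombination F v)

variable {F}

theorem mem_rel {v : K → V} {c : K → F} : c ∈ rel F v ↔ ∑ y, c y • v y = 0 := by
  unfold rel
  rw [LinearMap.mem_ker, Fintype.linearCombination_apply]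

variable [FiniteDimensional F V]

theorem Bas.rk {v : K → V} {I X : Finset K} (h : Bas F v I) (hX : I ⊆ X) :
    rk F v X = Module.finrank F V := by
  apply le_antisymm
  · exact Submodule.finrank_le _
  · rw [← h.2, ← (rk_eq_card_iff F v I).2 h.1]
    exact rk_mono F v hX

theorem Bas.span {v : K → V} {I : Finset K} (h : Bas F v I) :
    Submodule.span F (v '' (I : Set K)) = ⊤ :=
  Submodule.eq_top_of_finrank_eq (h.rk (Finset.Subset.refl I))

theorem g2a_van_eq (v : K → V) (X : Finset K) :
    van (rel F v) X = (LinearMap.ker (Fintype.linearCombination F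
      (fun y : (Xᶜ : Finset K) => v y))).map
        (Function.ExtendByZero.linearMap F (Subtype.val : (Xᶜ : Finset K) → K)) := by
  have hinj : Function.Injective (Subtype.val : (Xᶜ : Finset K) → K) := Subtype.val_injective
  have hsum : ∀ c : K → F, (∀ y ∈ X, c y = 0) →
      ∑ y : (Xᶜ : Finset K), c y • v y = ∑ y, c y • v y := by
    intro c hc
    rw [Finset.sum_coe_sort (Xᶜ) (fun y => c y • v y),
      ← Finset.sum_add_sum_compl X (fun y => c y • v y), Finset.sum_eq_zero (s := X), zero_add]
    intro y hy
    rw [hc y hy, zero_smul]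
  ext c
  rw [Submodule.mem_map]
  constructor
  · rintro ⟨h1, h2⟩
    refine ⟨fun y => c y, ?_, ?_⟩
    · rw [LinearMap.mem_ker, Fintype.linearCombination_apply, hsum c h2]
      exact mem_rel.1 h1
    · ext y
      rw [Function.ExtendByZero.linearMap_apply]
      by_cases hy : y ∈ X
      · rw [Function.extend_apply', h2 y hy]
        · rfl
        · rintro ⟨a, rfl⟩
          exact (Finset.mem_compl.1 a.2) hy
      · exact hinj.extend_apply (fun y : (Xᶜ : Finset K) => c y) 0 ⟨y, Finset.mem_compl.2 hy⟩
  · rintro ⟨d, h1, rfl⟩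
    have h3 : ∀ y ∈ X, Function.ExtendByZero.linearMap F (Subtype.val : (Xᶜ : Finset K) → K) d y
        = 0 := by
      intro y hy
      rw [Function.ExtendByZero.linearMap_apply, Function.extend_apply']
      · rfl
      · rintro ⟨a, rfl⟩
        exact (Finset.mem_compl.1 a.2) hy
    refine ⟨?_, h3⟩
    rw [mem_rel, ← hsum _ h3]
    rw [LinearMap.mem_ker, Fintype.linearCombination_apply] at h1
    rw [← h1]
    apply Finset.sum_congr rfl
    intro y _
    congr 1
    rw [Function.ExtendByZero.linearMap_apply]
    exact hinj.extend_apply d 0 y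

/-- dimension of the space of relations supported outside `X` -/
theorem finrank_van_rel (v : K → V) (X : Finset K) :
    (Module.finrank F (van (rel F v) X) : ℤ) = (Xᶜ : Finset K).card - rk F v Xᶜ := by
  have hinj : Function.Injective (Function.ExtendByZero.linearMap F
      (Subtype.val : (Xᶜ : Finset K) → K)) := by
    intro a b hab
    ext y
    have h1 := congrFun hab y
    rw [Function.ExtendByZero.linearMap_apply, Function.ExtendByZero.linearMap_apply,
      Subtype.val_injective.extend_apply, Subtype.val_injective.extend_apply] at h1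
    exact h1
  have h1 : Module.finrank F (van (rel F v) X) = Module.finrank F
      (LinearMap.ker (Fintype.linearCombination F (fun y : (Xᶜ : Finset K) => v y))) := by
    rw [g2a_van_eq]
    exact (LinearEquiv.finrank_eq (Submodule.equivMapOfInjective _ hinj _)).symm
  have h2 := LinearMap.finrank_range_add_finrank_ker
    (Fintype.linearCombination F (fun y : (Xᶜ : Finset K) => v y))
  have h3 : LinearMap.range (Fintype.linearCombination F (fun y : (Xᶜ : Finset K) => v y)) =
      Submodule.span F (v '' ((Xᶜ : Finset K) : Set K)) := by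
    rw [Fintype.range_linearCombination]
    congr 1
    ext x
    simp only [Set.mem_range, Set.mem_image, Finset.mem_coe]
    constructor
    · rintro ⟨y, rfl⟩
      exact ⟨y, y.2, rfl⟩
    · rintro ⟨y, hy, rfl⟩
      exact ⟨⟨y, hy⟩, rfl⟩
  rw [h3, Module.finrank_fintype_fun_eq_card, Fintype.card_coe] at h2
  rw [h1]
  unfold rk
  omega

/-- combination of a basis of the span of `Gᶜ` with a set independent modulo it -/
theorem bas_union {v : K → V} {G I D : Finset K} (hI : I ⊆ Gᶜ)
    (hI' : LinearIndepOn F v (I : Set K)) (hc : I.card = rk F v Gᶜ) (hD : D ⊆ G)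
    (hD' : LinearIndepOn F (fun y => (Submodule.span F (v '' ((Gᶜ : Finset K) : Set K))).mkQ (v y))
      (D : Set K)) (hDc : D.card + rk F v Gᶜ = Module.finrank F V) : Bas F v (I ∪ D) := by
  have h1 := span_eq_of_card F v hI hI' (le_of_eq hc.symm)
  have hdis : Disjoint I D := by
    rw [Finset.disjoint_left]
    intro y hy hyD
    exact (Finset.mem_compl.1 (hI hy)) (hD hyD)
  refine ⟨?_, ?_⟩
  · rw [Finset.coe_union]
    refine hI'.union_of_quotient ?_
    rw [h1]
    exact hD'
  · rw [Finset.card_union_of_disjoint hdis, hc]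
    omega

/-- rank in the quotient -/
theorem rk_mkQ (v : K → V) (W X : Finset K) :
    rk F (fun y => (Submodule.span F (v '' (W : Set K))).mkQ (v y)) X + rk F v W =
      rk F v (X ∪ W) := by
  classical
  set U : Submodule F V := Submodule.span F (v '' (W : Set K)) with hU
  set S : Submodule F V := Submodule.span F (v '' (X : Set K)) with hS
  have h1 : Submodule.span F ((fun y => U.mkQ (v y)) '' (X : Set K)) =
      (S ⊔ U).map U.mkQ := by
    rw [Submodule.map_sup, hS, Submodule.map_span, ← Set.image_comp]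
    have h2 : Submodule.map U.mkQ U = ⊥ := by
      exact Submodule.mkQ_map_self U
    rw [h2, sup_bot_eq]
    rfl
  have h3 : rk F v (X ∪ W) = Module.finrank F (S ⊔ U : Submodule F V) := by
    unfold rk
    rw [Finset.coe_union, Set.image_union, Submodule.span_union]
  have h4 : rk F (fun y => U.mkQ (v y)) X =
      Module.finrank F ((S ⊔ U).map U.mkQ : Submodule F (V ⧸ U)) := by
    unfold rk
    rw [h1]
  rw [h3, h4]
  have h5 := LinearMap.finrank_range_add_finrank_ker (U.mkQ.domRestrict (S ⊔ U))
  rw [LinearMap.range_domRestrict] at h5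
  have h6 : Module.finrank F (LinearMap.ker (U.mkQ.domRestrict (S ⊔ U))) =
      Module.finrank F U := by
    have h7 : LinearMap.ker (U.mkQ.domRestrict (S ⊔ U)) =
        Submodule.comap (S ⊔ U).subtype U := by
      ext x
      simp [LinearMap.mem_ker]
    rw [h7]
    exact (Submodule.comapSubtypeEquivOfLe (le_sup_right : U ≤ S ⊔ U)).finrank_eq
  have h8 : rk F v W = Module.finrank F U := rfl
  rw [h8, ← h6]
  exact h5

section

variable [Fintype C] {v : K → V} {P : K → C} {e : ℕ}

theorem Val.card (hP : Val F v P) : Fintype.card K = Fintype.card C * Module.finrank F V := by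
  rw [← Finset.card_univ (α := K),
    Finset.card_eq_sum_card_fiberwise (f := P) (t := (univ : Finset C))
      (fun x _ => Finset.mem_coe.2 (Finset.mem_univ _))]
  have h : ∀ c : C, (univ.filter fun y => P y = c).card = Module.finrank F V := fun c => (hP c).2
  rw [Finset.sum_congr rfl (fun c _ => h c), Finset.sum_const, Finset.card_univ, smul_eq_mul]

/-- the formula for `n` -/
theorem nn_rel (hP : Val F v P) (hC : Fintype.card C = e + 1) (X : Finset K) :
    nn (rel F v) e X =
      (Module.finrank F V : ℤ) - (Xᶜ : Finset K).card + (e : ℤ) * rk F v Xᶜ := by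
  obtain ⟨c₀⟩ : Nonempty C := Fintype.card_pos_iff.1 (by omega)
  have h1 := finrank_van_rel (F := F) v X
  have h2 := finrank_van_rel (F := F) v ∅
  have h3 : van (rel F v) ∅ = rel F v := by
    ext c
    exact ⟨fun h => h.1, fun h => ⟨h, fun y hy => absurd hy (Finset.notMem_empty y)⟩⟩
  rw [h3, Finset.compl_empty, (hP c₀).rk (Finset.subset_univ _), Finset.card_univ, hP.card, hC]
    at h2
  have h4 : ((Xᶜ : Finset K).card : ℤ) = (e + 1) * Module.finrank F V - X.card := by
    rw [Finset.card_compl, Nat.cast_sub (Finset.card_le_univ X), hP.card, hC]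
    push_cast
    ring
  unfold nn qq
  rw [h1, h2, h4]
  push_cast
  ring

theorem dense_rel (hP : Val F v P) (hC : Fintype.card C = e + 1) (he : 2 ≤ e) :
    Dense (rel F v) e := by
  obtain ⟨c₀⟩ : Nonempty C := Fintype.card_pos_iff.1 (by omega)
  refine ⟨he, fun S hS => ?_⟩
  rw [nn_rel hP hC]
  have h1 : (Sᶜ : Finset K).card ≤ (e + 1) * rk F v Sᶜ := by
    rw [Finset.card_eq_sum_card_fiberwise (s := Sᶜ) (f := P) (t := (univ : Finset C))
      (fun x _ => Finset.mem_coe.2 (Finset.mem_univ _))]
    refine (Finset.sum_le_card_nsmul _ _ (rk F v Sᶜ) fun c _ => ?_).trans (le_of_eq ?_)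
    · have h2 : LinearIndepOn F v (((Sᶜ : Finset K).filter fun y => P y = c : Finset K) : Set K) :=
        (hP c).1.mono (fun y hy => by
          rw [Finset.mem_coe, Finset.mem_filter] at hy
          rw [Finset.mem_coe, mem_kl]
          exact hy.2)
      rw [← (rk_eq_card_iff F v _).2 h2]
      exact rk_mono F v (Finset.filter_subset _ _)
    · rw [Finset.card_univ, hC, smul_eq_mul]
  have h2 : rk F v Sᶜ ≤ Module.finrank F V := Submodule.finrank_le _
  rcases Nat.lt_or_ge (rk F v Sᶜ) (Module.finrank F V) with h3 | h3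
  · have h4 : ((Sᶜ : Finset K).card : ℤ) ≤ (e + 1) * rk F v Sᶜ := by exact_mod_cast h1
    have h5 : ((rk F v Sᶜ : ℕ) : ℤ) + 1 ≤ Module.finrank F V := by exact_mod_cast h3
    linarith
  · have h4 : rk F v Sᶜ = Module.finrank F V := le_antisymm h2 h3
    rw [h4]
    have h5 : ((Sᶜ : Finset K).card : ℤ) = (e + 1) * Module.finrank F V - S.card := by
      rw [Finset.card_compl, Nat.cast_sub (Finset.card_le_univ S), hP.card, hC]
      push_cast
      ring
    have h6 : (1 : ℤ) ≤ S.card := by exact_mod_cast hS.card_pos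
    rw [h5]
    linarith

theorem nn_rel_univ (hP : Val F v P) (hC : Fintype.card C = e + 1) :
    nn (rel F v) e univ = (Module.finrank F V : ℤ) := by
  rw [nn_rel hP hC, Finset.compl_univ]
  have h : rk F v ∅ = 0 := Nat.le_zero.1 ((rk_le_card F v ∅).trans (by simp))
  rw [h]
  simp

/-- the classes of a partition into bases are independent for `N`. (If `Z.toFinset = kl Q c` then `S ⊇ Z` has a
complement covered by `e` bases.) -/
theorem ind_of_class {Q : K → C} (hP : Val F v P) (hC : Fintype.card C = e + 1) (hQ : Val F v Q)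
    (c : C) {Z : List K} (hZ : Z.Nodup) (hZc : Z.toFinset = kl Q c) : Ind (rel F v) e Z := by
  rw [ind_iff]
  intro S hS
  rw [nn_rel hP hC S]
  have hlen : Z.length = Module.finrank F V := by
    rw [← (hQ c).2, ← hZc, List.toFinset_card_of_nodup hZ]
  rw [hlen]
  have h1 : (Sᶜ : Finset K).card ≤ e * rk F v Sᶜ := by
    have h2 : (Sᶜ : Finset K) ⊆ (univ.erase c).biUnion (fun c' => Sᶜ ∩ kl Q c') := by
      intro y hy
      rw [Finset.mem_biUnion]
      refine ⟨Q y, ?_, ?_⟩
      · rw [Finset.mem_erase]
        refine ⟨?_, Finset.mem_univ _⟩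
        intro hc
        apply Finset.mem_compl.1 hy
        apply hS
        rw [hZc]
        exact mem_kl.2 hc
      · exact Finset.mem_inter.2 ⟨hy, mem_kl.2 rfl⟩
    have h3 := Finset.card_le_card h2
    refine h3.trans ((Finset.card_biUnion_le).trans ?_)
    have h4 : ∀ c' ∈ univ.erase c, (Sᶜ ∩ kl Q c').card ≤ rk F v Sᶜ := by
      intro c' _
      have h5 : LinearIndepOn F v ((Sᶜ ∩ kl Q c' : Finset K) : Set K) :=
        (hQ c').1.mono (by
          intro y hy
          exact (Finset.mem_inter.1 (Finset.mem_coe.1 hy)).2)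
      rw [← (rk_eq_card_iff F v _).2 h5]
      exact rk_mono F v Finset.inter_subset_left
    refine (Finset.sum_le_sum h4).trans ?_
    rw [Finset.sum_const, smul_eq_mul, Finset.card_erase_of_mem (Finset.mem_univ c),
      Finset.card_univ, hC, Nat.add_sub_cancel]
  have h2 : ((Sᶜ : Finset K).card : ℤ) ≤ (e : ℤ) * (rk F v Sᶜ : ℤ) := by exact_mod_cast h1
  linarith

/-- (10.1): `G \ Z` is a union of `e` bases of `M / (K \ G)`, `G = cl Z` -/
theorem exists_part (hP : Val F v P) (hC : Fintype.card C = e + 1) {C' : Type*} [Fintype C']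
    [DecidableEq C'] [Nonempty C'] (hC' : Fintype.card C' = e) {Z : List K}
    (hZ : Ind (rel F v) e Z) :
    ∃ D : K → C', ∀ c, ∀ I : Finset K, I ⊆ (cl (rel F v) e Z.toFinset)ᶜ →
      LinearIndepOn F v (I : Set K) → I.card = rk F v (cl (rel F v) e Z.toFinset)ᶜ →
      Bas F v (I ∪ (cl (rel F v) e Z.toFinset \ Z.toFinset).filter fun y => D y = c) := by
  classical
  set G := cl (rel F v) e Z.toFinset with hG
  set U : Submodule F V := Submodule.span F (v '' ((Gᶜ : Finset K) : Set K)) with hU
  have hZG : Z.toFinset ⊆ G := subset_cl _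
  have hkey : ∀ X ⊆ G \ Z.toFinset,
      X.card ≤ Fintype.card C' * rk F (fun y => U.mkQ (v y)) X := by
    intro X hX
    have hXG : X ⊆ G := fun y hy => (Finset.mem_sdiff.1 (hX hy)).1
    have hZS : Z.toFinset ⊆ G \ X := by
      intro y hy
      rw [Finset.mem_sdiff]
      exact ⟨hZG hy, fun hyX => (Finset.mem_sdiff.1 (hX hyX)).2 hy⟩
    have h1 := nn_cl_le (L := rel F v) (e := e) hZS
    rw [← hG, nn_rel hP hC, nn_rel hP hC] at h1
    have h2 : (G \ X)ᶜ = X ∪ Gᶜ := by
      ext y
      simp only [Finset.mem_compl, Finset.mem_sdiff, Finset.mem_union]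
      tauto
    have h3 : ((G \ X)ᶜ : Finset K).card = X.card + (Gᶜ : Finset K).card := by
      rw [h2, Finset.card_union_of_disjoint]
      rw [Finset.disjoint_left]
      intro y hy hyG
      exact (Finset.mem_compl.1 hyG) (hXG hy)
    have h4 := rk_mkQ (F := F) v Gᶜ X
    rw [← hU, ← h2] at h4
    rw [h3] at h1
    rw [← h4] at h1
    rw [hC']
    push_cast at h1
    have h5 : (X.card : ℤ) ≤ (e : ℤ) * (rk F (fun y => U.mkQ (v y)) X : ℤ) := by linarith
    exact_mod_cast h5
  obtain ⟨D, hD⟩ := edmonds (C := C') F (fun y => U.mkQ (v y)) (G \ Z.toFinset) hkey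
  refine ⟨D, fun c I hI hI' hIc => ?_⟩
  have hquot : Module.finrank F (V ⧸ U) + rk F v Gᶜ = Module.finrank F V :=
    Submodule.finrank_quotient_add_finrank U
  have hcle : ∀ c, ((G \ Z.toFinset).filter fun y => D y = c).card ≤
      Module.finrank F (V ⧸ U) := by
    intro c
    rw [← (rk_eq_card_iff F (fun y => U.mkQ (v y)) _).2 (hD c)]
    exact Submodule.finrank_le _
  have hsum : (G \ Z.toFinset).card =
      ∑ c, ((G \ Z.toFinset).filter fun y => D y = c).card :=
    Finset.card_eq_sum_card_fiberwise (fun y _ => Finset.mem_coe.2 (Finset.mem_univ _))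
  have htot : ((G \ Z.toFinset).card : ℤ) = (e : ℤ) * Module.finrank F (V ⧸ U) := by
    have h1 : nn (rel F v) e G = (Z.length : ℤ) := hZ
    rw [nn_rel hP hC] at h1
    have h2 := Val.card hP
    rw [hC] at h2
    have h3 : Z.toFinset.card = Z.length := List.toFinset_card_of_nodup hZ.nodup
    have h4 : (G \ Z.toFinset).card + Z.toFinset.card = G.card := Finset.card_sdiff_add_card_eq_card hZG
    have h5 : G.card + (Gᶜ : Finset K).card = Fintype.card K := Finset.card_add_card_compl G
    have h2' : (Fintype.card K : ℤ) = ((e : ℤ) + 1) * Module.finrank F V := by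
      rw [h2]
      push_cast
      ring
    have h4' : ((G \ Z.toFinset).card : ℤ) + (Z.toFinset.card : ℤ) = G.card := by exact_mod_cast h4
    have h5' : (G.card : ℤ) + ((Gᶜ : Finset K).card : ℤ) = Fintype.card K := by exact_mod_cast h5
    have h3' : (Z.toFinset.card : ℤ) = Z.length := by exact_mod_cast h3
    have h6 : (Module.finrank F (V ⧸ U) : ℤ) + rk F v Gᶜ = Module.finrank F V := by
      exact_mod_cast hquot
    have h7 : (e : ℤ) * (Module.finrank F (V ⧸ U) : ℤ) =
        (e : ℤ) * Module.finrank F V - (e : ℤ) * rk F v Gᶜ := by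
      rw [← h6]
      ring
    rw [h7]
    linarith
  have hall : ∀ c, ((G \ Z.toFinset).filter fun y => D y = c).card =
      Module.finrank F (V ⧸ U) := by
    have h1 : ∑ c, ((G \ Z.toFinset).filter fun y => D y = c).card =
        ∑ _c : C', Module.finrank F (V ⧸ U) := by
      rw [← hsum, Finset.sum_const, Finset.card_univ, hC', smul_eq_mul]
      exact_mod_cast htot
    have h2 := (Finset.sum_eq_sum_iff_of_le (fun c _ => hcle c)).1 h1
    exact fun c => h2 c (Finset.mem_univ c)
  refine bas_union hI hI' hIc ?_ (hD c) ?_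
  · intro y hy
    exact (Finset.mem_sdiff.1 (Finset.mem_filter.1 hy).1).1
  · rw [hall c]
    exact hquot

end

end Pool.Agent.MP_d4f4ab_ag.W
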