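import Pool.Agent.MP_d4f4ab_ag.W.E3

import Pool.Agent.MP_d4f4ab_ag.W.G0

import Pool.Agent.MP_d4f4ab_ag.W.G2

/-! [WR-G3] the function `w` of a component of partitions into bases; (8.1) (WR_PROOF.md section 10). -/

open Finset

namespace Pool.Agent.MP_d4f4ab_ag.W

variable {F : Type*} [Field F] {V : Type*} [AddCommGroup V] [Module F V] {K : Type*}
  [Fintype K] [DecidableEq K] {C : Type*} [DecidableEq C]

/-- one move: at most two classes change -/
def VMove (F : Type*) [Field F] {V : Type*} [AddCommGroup V] [Module F V] (v : K → V)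
    (P Q : K → C) : Prop :=
  Val F v P ∧ Val F v Q ∧ ∃ T : Finset C, T.card ≤ 2 ∧ ∀ c ∉ T, kl P c = kl Q c

/-- connected by moves -/
def VConn (F : Type*) [Field F] {V : Type*} [AddCommGroup V] [Module F V] (v : K → V) :
    (K → C) → (K → C) → Prop :=
  Relation.ReflTransGen (VMove F v)

theorem g3a_symm {v : K → V} {P Q : K → C} (h : VMove F v P Q) : VMove F v Q P := by
  obtain ⟨h1, h2, T, h3, h4⟩ := h
  exact ⟨h2, h1, T, h3, fun c hc => (h4 c hc).symm⟩

theorem g3a_kl_map {C₂ : Type*} [DecidableEq C₂] (P : K → C) (σ : C ≃ C₂) (d : C₂) :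
    kl (fun y => σ (P y)) d = kl P (σ.symm d) := by
  ext y
  rw [mem_kl, mem_kl, Equiv.eq_symm_apply]

theorem g3a_val_map {C₂ : Type*} [DecidableEq C₂] {v : K → V} {P : K → C} (h : Val F v P)
    (σ : C ≃ C₂) : Val F v (fun y => σ (P y)) := by
  intro d
  rw [g3a_kl_map]
  exact h _

theorem VConn.symm {v : K → V} {P Q : K → C} (h : VConn F v P Q) : VConn F v Q P := by
  induction h with
  | refl => exact Relation.ReflTransGen.refl
  | tail _ hm ih => exact Relation.ReflTransGen.head (g3a_symm hm) ih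

theorem VConn.val {v : K → V} {P Q : K → C} (h : VConn F v P Q) (hP : Val F v P) :
    Val F v Q := by
  induction h with
  | refl => exact hP
  | tail _ hm _ => exact hm.2.1

/-- exchanging the names of two colours is a move -/
theorem VConn.swap {v : K → V} {P : K → C} (hP : Val F v P) (c c' : C) :
    VConn F v P (fun y => Equiv.swap c c' (P y)) := by
  refine Relation.ReflTransGen.single ⟨hP, g3a_val_map hP _, {c, c'}, Finset.card_le_two, ?_⟩
  intro d hd
  simp only [Finset.mem_insert, Finset.mem_singleton, not_or] at hd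
  rw [g3a_kl_map, Equiv.symm_swap, Equiv.swap_apply_of_ne_of_ne hd.1 hd.2]

theorem VConn.map {C₂ : Type*} [DecidableEq C₂] {v : K → V} {P Q : K → C} (h : VConn F v P Q)
    (σ : C ≃ C₂) : VConn F v (fun y => σ (P y)) (fun y => σ (Q y)) := by
  induction h with
  | refl => exact Relation.ReflTransGen.refl
  | tail _ hm ih =>
    obtain ⟨h1, h2, T, h3, h4⟩ := hm
    refine Relation.ReflTransGen.tail ih ⟨g3a_val_map h1 σ, g3a_val_map h2 σ,
      T.map σ.toEmbedding, by rw [Finset.card_map]; exact h3, ?_⟩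
    intro d hd
    rw [g3a_kl_map, g3a_kl_map]
    refine h4 _ (fun hd' => hd ?_)
    rw [Finset.mem_map]
    exact ⟨_, hd', σ.apply_symm_apply d⟩

/-- the induction hypothesis: two partitions into bases which share a class are connected -/
def IH (F : Type*) [Field F] {V : Type*} [AddCommGroup V] [Module F V] (v : K → V) (C : Type*)
    [DecidableEq C] : Prop :=
  ∀ P Q : K → C, Val F v P → Val F v Q → ∀ c, kl P c = kl Q c → VConn F v P Q

theorem IH.conn {v : K → V} (ih : IH F v C) {P Q : K → C} (hP : Val F v P) (hQ : Val F v Q)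
    {c c' : C} (h : kl P c = kl Q c') : VConn F v P Q := by
  have h1 : VConn F v P (fun y => Equiv.swap c c' (Q y)) := by
    refine ih P _ hP (g3a_val_map hQ _) c ?_
    rw [g3a_kl_map, Equiv.symm_swap, Equiv.swap_apply_left]
    exact h
  exact Relation.ReflTransGen.trans h1 (VConn.swap hQ c c').symm

open Classical in
/-- the indicator function of the classes of the partitions connected to `P₀` -/
noncomputable def phi (F : Type*) [Field F] {V : Type*} [AddCommGroup V] [Module F V]
    (v : K → V) (P₀ : K → C) (Y : Finset K) : F :=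
  if ∃ Q : K → C, VConn F v P₀ Q ∧ ∃ c, kl Q c = Y then 1 else 0

open Classical in
theorem phi_kl {v : K → V} (ih : IH F v C) {P₀ Q : K → C} (hP₀ : Val F v P₀) (hQ : Val F v Q)
    (c : C) : phi F v P₀ (kl Q c) = if VConn F v P₀ Q then 1 else 0 := by
  rw [phi]
  congr 1
  refine propext ⟨?_, fun h => ⟨Q, h, c, rfl⟩⟩
  rintro ⟨Q', h1, c', h2⟩
  exact Relation.ReflTransGen.trans h1 (ih.conn (h1.val hP₀) hQ h2)

variable {k : ℕ}

/-- the function `w` -/
noncomputable def ww (v : K → Fin k → F) (P₀ : K → C) (Z : List K) : F :=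
  phi F v P₀ Z.toFinset * ldet k (Z.map v)

theorem ww_alt (v : K → Fin k → F) (P₀ : K → C) : Alt (ww v P₀) := by
  have h := ldet_map_alt (k := k) v
  constructor
  · intro Z₁ x y Z₂
    have e1 : (Z₁ ++ x :: y :: Z₂).toFinset = (Z₁ ++ y :: x :: Z₂).toFinset := by
      ext z
      simp only [List.mem_toFinset, List.mem_append, List.mem_cons]
      tauto
    rw [ww, ww, e1, h.swap, mul_neg]
  · intro Z₁ x Z₂
    rw [ww, h.same, mul_zero]

theorem ww_length (v : K → Fin k → F) (P₀ : K → C) (Z : List K) (h : Z.length ≠ k) :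
    ww v P₀ Z = 0 := by
  rw [ww, ldet_length (by rw [List.length_map]; exact h), mul_zero]

theorem ww_ind [Fintype C] {e : ℕ} (hC : Fintype.card C = e + 1) {v : K → Fin k → F}
    {P₀ : K → C} (hP₀ : Val F v P₀) (Z : List K) (h : ¬ Ind (rel F v) e Z) : ww v P₀ Z = 0 := by
  by_contra h0
  rw [ww] at h0
  have h1 := left_ne_zero_of_mul h0
  have h2 := right_ne_zero_of_mul h0
  rw [phi] at h1
  have h3 : ∃ Q : K → C, VConn F v P₀ Q ∧ ∃ c, kl Q c = Z.toFinset := by
    by_contra h3
    exact h1 (if_neg h3)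
  obtain ⟨Q, hQ, c, hc⟩ := h3
  exact h (ind_of_class hP₀ hC (hQ.val hP₀) c ((ldet_ne_zero_iff v Z).1 h2).1 hc.symm)

/-- the colouring of `K` given by a list `Z`, its closure `G`, a state `(x, P)` of `Gᶜ` and a partition `D` of `G \ Z` -/
def glue {C' : Type*} (G : Finset K) (Z : Finset K) (x : K) (P D : K → C') : K → Option C' :=
  fun y => if y = x ∨ y ∈ Z then none else if y ∈ G then some (D y) else some (P y)

/-- the colouring `glue` is a partition into bases if `x :: Z` is a basis -/
theorem glue_val [Fintype C] {e : ℕ} (hC : Fintype.card C = e + 1) {v : K → Fin k → F}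
    {P₀ : K → C} (hP₀ : Val F v P₀) {C' : Type*} [Fintype C'] [DecidableEq C']
    (hC' : Fintype.card C' = e) {Z : List K} (hZ : Ind (rel F v) e Z) (hZk : Z.length + 1 = k)
    {D : K → C'}
    (hD : ∀ c, ∀ I : Finset K, I ⊆ (cl (rel F v) e Z.toFinset)ᶜ →
      LinearIndepOn F v (I : Set K) → I.card = rk F v (cl (rel F v) e Z.toFinset)ᶜ →
      Bas F v (I ∪ (cl (rel F v) e Z.toFinset \ Z.toFinset).filter fun y => D y = c))
    {x : K} {P : K → C'} (hs : IsState F v (cl (rel F v) e Z.toFinset)ᶜ x P)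
    (hx : ldet k ((x :: Z).map v) ≠ 0) :
    Val F v (glue (cl (rel F v) e Z.toFinset) Z.toFinset x P D) := by
  set G := cl (rel F v) e Z.toFinset with hG
  have hsub : Z.toFinset ⊆ G := subset_cl _
  have hxG : x ∉ G := by
    have := hs.1
    rwa [mem_compl] at this
  obtain ⟨hnd, hlen, hli⟩ := (ldet_ne_zero_iff v (x :: Z)).1 hx
  -- counting
  have hcard : (Gᶜ : Finset K).card = e * rk F v Gᶜ + 1 := by
    have h1 := nn_rel hP₀ hC G
    have h2 : nn (rel F v) e G = (Z.length : ℤ) := hZ
    rw [h2, Module.finrank_fin_fun] at h1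
    have h3 : (k : ℤ) = Z.length + 1 := by exact_mod_cast hZk.symm
    have h4 : ((Gᶜ : Finset K).card : ℤ) = e * rk F v Gᶜ + 1 := by linarith
    exact_mod_cast h4
  have hle : ∀ c, (scls Gᶜ x P c).card ≤ rk F v Gᶜ := by
    intro c
    have h1 := (rk_eq_card_iff F v _).2 (hs.2 c)
    rw [← h1]
    refine rk_mono F v ?_
    exact (filter_subset _ _).trans (erase_subset _ _)
  have hsum : ∑ c : C', (scls Gᶜ x P c).card = e * rk F v Gᶜ := by
    have h1 : ((Gᶜ : Finset K).erase x).card = ∑ c : C', (scls Gᶜ x P c).card :=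
      card_eq_sum_card_fiberwise (f := P) (t := univ) (by intro y _; simp)
    rw [← h1, card_erase_of_mem hs.1, hcard]
    rfl
  have heq : ∀ c, (scls Gᶜ x P c).card = rk F v Gᶜ := by
    have h1 : ∑ c : C', (scls Gᶜ x P c).card = ∑ _c : C', rk F v Gᶜ := by
      rw [hsum, sum_const, card_univ, hC', smul_eq_mul]
    exact fun c => (sum_eq_sum_iff_of_le fun c _ => hle c).1 h1 c (mem_univ _)
  intro c
  rcases c with _ | c
  · have hk : kl (glue G Z.toFinset x P D) none = (x :: Z).toFinset := by
      ext y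
      rw [mem_kl, List.toFinset_cons, mem_insert]
      unfold glue
      split_ifs with h1 h2
      · exact ⟨fun _ => h1, fun _ => rfl⟩
      · exact ⟨fun h => absurd h (by simp), fun h => absurd h h1⟩
      · exact ⟨fun h => absurd h (by simp), fun h => absurd h h1⟩
    rw [hk]
    refine ⟨hli, ?_⟩
    rw [List.toFinset_card_of_nodup hnd, hlen, Module.finrank_fin_fun]
  · have hk : kl (glue G Z.toFinset x P D) (some c) =
        scls Gᶜ x P c ∪ (G \ Z.toFinset).filter fun y => D y = c := by
      ext y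
      rw [mem_kl, mem_union, scls, mem_filter, mem_filter, mem_erase, mem_sdiff, mem_compl]
      unfold glue
      by_cases h1 : y = x ∨ y ∈ Z.toFinset
      · rw [if_pos h1]
        constructor
        · intro h; exact absurd h (by simp)
        · rintro (⟨⟨h2, h3⟩, _⟩ | ⟨⟨h2, h3⟩, _⟩)
          · rcases h1 with h1 | h1
            · exact absurd h1 h2
            · exact absurd (hsub h1) h3
          · rcases h1 with h1 | h1
            · rw [h1] at h2; exact absurd h2 hxG
            · exact absurd h1 h3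
      · rw [if_neg h1]
        push Not at h1
        by_cases h2 : y ∈ G
        · rw [if_pos h2, Option.some_inj]
          constructor
          · intro h; exact Or.inr ⟨⟨h2, h1.2⟩, h⟩
          · rintro (⟨⟨_, h3⟩, _⟩ | ⟨_, h⟩)
            · exact absurd h2 h3
            · exact h
        · rw [if_neg h2, Option.some_inj]
          constructor
          · intro h; exact Or.inl ⟨⟨h1.1, h2⟩, h⟩
          · rintro (⟨_, h⟩ | ⟨⟨h3, _⟩, _⟩)
            · exact h
            · exact absurd h3 h2
    rw [hk]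
    exact hD c _ ((filter_subset _ _).trans (erase_subset _ _)) (hs.2 c) (heq c)

theorem g3c_kl_none {C' : Type*} [DecidableEq C'] (G Z : Finset K) (x : K) (P D : K → C') :
    kl (glue G Z x P D) none = insert x Z := by
  ext y
  rw [mem_kl, Finset.mem_insert]
  unfold glue
  by_cases h : y = x ∨ y ∈ Z
  · simp [h]
  · rw [if_neg h]
    by_cases hG : y ∈ G
    · simp [hG, h]
    · simp [hG, h]

theorem g3c_kl_some {C' : Type*} [DecidableEq C'] (G Z : Finset K) (hZG : Z ⊆ G) {x : K}
    (hx : x ∉ G) (P D : K → C') (c : C') :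
    kl (glue G Z x P D) (some c) =
      scls Gᶜ x P c ∪ (G \ Z).filter fun y => D y = c := by
  ext y
  rw [mem_kl, Finset.mem_union]
  unfold glue scls
  rw [Finset.mem_filter, Finset.mem_filter, Finset.mem_erase, Finset.mem_compl, Finset.mem_sdiff]
  by_cases h : y = x ∨ y ∈ Z
  · rw [if_pos h]
    constructor
    · intro h'
      exact absurd h' (by simp)
    · rintro (⟨⟨h1, h2⟩, -⟩ | ⟨⟨h1, h2⟩, -⟩)
      · rcases h with h | h
        · exact absurd h h1
        · exact absurd (hZG h) h2
      · rcases h with h | h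
        · exact absurd (h ▸ h1) hx
        · exact absurd h h2
  · rw [if_neg h]
    push Not at h
    by_cases hG : y ∈ G
    · simp [hG, h.1, h.2]
    · simp [hG, h.1, h.2]

theorem g3c_ww_state {e : ℕ} {C' : Type*} [Fintype C'] [DecidableEq C']
    (hC' : Fintype.card C' = e) {v : K → Fin k → F} {P₀ : K → Option C'} (hP₀ : Val F v P₀)
    (ih : IH F v (Option C')) {Z : List K} (hZ : Ind (rel F v) e Z) (hZk : Z.length + 1 = k)
    {D : K → C'}
    (hD : ∀ c, ∀ I : Finset K, I ⊆ (cl (rel F v) e Z.toFinset)ᶜ →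
      LinearIndepOn F v (I : Set K) → I.card = rk F v (cl (rel F v) e Z.toFinset)ᶜ →
      Bas F v (I ∪ (cl (rel F v) e Z.toFinset \ Z.toFinset).filter fun y => D y = c))
    {x : K} {P : K → C'} (hs : IsState F v (cl (rel F v) e Z.toFinset)ᶜ x P) (c₂ : C') :
    ww v P₀ (x :: Z) =
      phi F v P₀ (scls (cl (rel F v) e Z.toFinset)ᶜ x P c₂ ∪
        (cl (rel F v) e Z.toFinset \ Z.toFinset).filter fun y => D y = c₂) *
      ldet k ((x :: Z).map v) := by
  unfold ww
  by_cases h : ldet k ((x :: Z).map v) = 0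
  · rw [h, mul_zero, mul_zero]
  · have hCard : Fintype.card (Option C') = e + 1 := by rw [Fintype.card_option, hC']
    have hQ := glue_val hCard hP₀ hC' hZ hZk hD hs h
    have hxG : x ∉ cl (rel F v) e Z.toFinset := Finset.mem_compl.mp hs.1
    have h1 := phi_kl ih hP₀ hQ none
    have h2 := phi_kl ih hP₀ hQ (some c₂)
    rw [g3c_kl_none] at h1
    rw [g3c_kl_some _ _ (subset_cl _) hxG] at h2
    rw [List.toFinset_cons, h1, h2]

/-- (8.1) -/
theorem ww_one {e : ℕ} (he : 2 ≤ e) {C' : Type*} [Fintype C'] [DecidableEq C']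
    (hC' : Fintype.card C' = e) {v : K → Fin k → F} {P₀ : K → Option C'} (hP₀ : Val F v P₀)
    (ih : IH F v (Option C')) (Z : List K) (hZ : Ind (rel F v) e Z) (hZk : Z.length + 1 = k)
    (c : K → F) (hc : c ∈ van (rel F v) (cl (rel F v) e Z.toFinset)) :
    ∑ y, c y * ww v P₀ (y :: Z) = 0 := by
  classical
  have hCard : Fintype.card (Option C') = e + 1 := by rw [Fintype.card_option, hC']
  haveI : Nontrivial C' := Fintype.one_lt_card_iff_nontrivial.mp (by omega)
  haveI : Nonempty C' := inferInstance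
  obtain ⟨D, hD⟩ := exists_part hP₀ hCard hC' hZ
  obtain ⟨hc1, hc2⟩ := mem_van.mp hc
  rw [mem_rel] at hc1
  set G := cl (rel F v) e Z.toFinset with hG
  have hfin : (Module.finrank F (Fin k → F) : ℤ) = k := by simp
  have hnG : nn (rel F v) e G = (Z.length : ℤ) := hZ
  have hφ : ∀ (x : K) (P : K → C'), IsState F v Gᶜ x P → ∀ c, ∀ l : K → F,
      v x = ∑ b ∈ scls Gᶜ x P c, l b • v b →
      ww v P₀ (x :: Z) = ∑ b ∈ scls Gᶜ x P c, l b * ww v P₀ (b :: Z) := by
    intro x P hs c l hl
    obtain ⟨c₂, hc₂⟩ := exists_ne c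
    have h1 := g3c_ww_state hC' hP₀ ih hZ hZk hD hs c₂
    rw [h1, List.map_cons, hl, ldet_cons_sum, Finset.mul_sum]
    apply Finset.sum_congr rfl
    intro b hb
    by_cases hlb : l b = 0
    · rw [hlb, zero_mul, zero_mul, mul_zero]
    · have hst := IsState.exchange F v Gᶜ hs l hl hb hlb
      have hs' : IsState F v Gᶜ b (Function.update P x c) := hst.2.1
      have h2 := g3c_ww_state hC' hP₀ ih hZ hZk hD hs' c₂
      have h3 : scls Gᶜ b (Function.update P x c) c₂ = scls Gᶜ x P c₂ := by
        ext y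
        unfold scls at hb ⊢
        rw [Finset.mem_filter, Finset.mem_erase] at hb
        rw [Finset.mem_filter, Finset.mem_filter, Finset.mem_erase, Finset.mem_erase]
        by_cases hyx : y = x
        · subst hyx
          rw [Function.update_self]
          constructor
          · rintro ⟨-, h⟩
            exact absurd h.symm hc₂
          · rintro ⟨⟨h, -⟩, -⟩
            exact absurd rfl h
        · rw [Function.update_of_ne hyx]
          constructor
          · rintro ⟨⟨-, h⟩, h'⟩
            exact ⟨⟨hyx, h⟩, h'⟩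
          · rintro ⟨⟨-, h⟩, h'⟩
            refine ⟨⟨?_, h⟩, h'⟩
            rintro rfl
            exact hc₂ (h'.symm.trans hb.2)
      rw [h2, h3, List.map_cons]
      ring
  have hU : (Gᶜ).card = Fintype.card C' * rk F v Gᶜ + 1 := by
    have h1 := nn_rel hP₀ hCard G
    rw [hnG, hfin] at h1
    rw [hC']
    zify
    have h2 : (Z.length : ℤ) + 1 = k := by exact_mod_cast hZk
    linarith
  have hX : ∀ X, X ⊂ Gᶜ → X.card ≤ Fintype.card C' * rk F v X := by
    intro X hX
    have h1 : G ⊂ Xᶜ := by
      have := Finset.compl_ssubset_compl.mpr hX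
      rwa [compl_compl] at this
    have h2 := isFlat_cl (L := rel F v) (e := e) Z.toFinset Xᶜ h1
    have h3 := nn_rel hP₀ hCard Xᶜ
    rw [compl_compl, hfin] at h3
    rw [← hG, hnG] at h2
    rw [hC']
    zify
    have h4 : (Z.length : ℤ) + 1 = k := by exact_mod_cast hZk
    linarith [Int.add_one_le_iff.mpr h2]
  have hsum : ∑ y ∈ Gᶜ, c y • v y = 0 := by
    rw [← hc1]
    apply Finset.sum_subset (Finset.subset_univ _)
    intro y _ hy
    rw [Finset.mem_compl, not_not] at hy
    rw [hc2 y hy, zero_smul]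
  have h := S1 F v Gᶜ hU hX (fun y => ww v P₀ (y :: Z)) hφ c hsum
  rw [← h]
  symm
  apply Finset.sum_subset (Finset.subset_univ _)
  intro y _ hy
  rw [Finset.mem_compl, not_not] at hy
  rw [hc2 y hy, zero_mul]

end Pool.Agent.MP_d4f4ab_ag.W
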