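import Pool.Agent.MP_d4f4ab_ag.W.E3

/-! [WR-G4] (8.2) in characteristic not 2 (WR_PROOF.md (10.3)). -/

open Finset

namespace Pool.Agent.MP_d4f4ab_ag.W

variable {F : Type*} [Field F] {K : Type*} [Fintype K] [DecidableEq K]
  {L : Submodule F (K → F)} {e : ℕ} {w : List K → F} {n : ℕ}

/-- the flats covering `G` -/
noncomputable def cov (L : Submodule F (K → F)) (e : ℕ) (G : Finset K) : Finset (Finset K) := by
  classical exact univ.filter fun H => IsFlat L e H ∧ G ⊂ H ∧ nn L e H = nn L e G + 1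

/-- the form `∑_{y ∈ H, x} c_x c'_y w(x, y, Z)` -/
noncomputable def gH (w : List K → F) (Z : List K) (H : Finset K) (c c' : K → F) : F :=
  ∑ y ∈ H, ∑ x, c x * c' y * w (x :: y :: Z)

/-- one-slot vanishing for lists `y :: Z`, `y ∈ H` -/
theorem one_slot (hone : ∀ Z : List K, Ind L e Z → Z.length + 1 = n →
      ∀ c ∈ van L (cl L e Z.toFinset), ∑ y, c y * w (y :: Z) = 0)
    (hind : ∀ Z : List K, ¬ Ind L e Z → w Z = 0) {Z : List K} (hZ : Ind L e Z)
    (hlen : Z.length + 2 = n) {H : Finset K} (hH : IsFlat L e H) (hG : cl L e Z.toFinset ⊂ H)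
    (hn : nn L e H = Z.length + 1) {y : K} (hy : y ∈ H) {c : K → F} (hc : c ∈ van L H) :
    ∑ x, c x * w (x :: y :: Z) = 0 := by
  by_cases h : Ind L e (y :: Z)
  · have h1 : cl L e (y :: Z).toFinset ⊆ H := by
      refine cl_subset ?_ hH
      rw [List.toFinset_cons]
      exact Finset.insert_subset hy ((subset_cl _).trans hG.subset)
    refine hone (y :: Z) h ?_ c (van_anti h1 hc)
    rw [List.length_cons]
    exact hlen
  · refine Finset.sum_eq_zero fun x _ => ?_
    rw [hind _ (fun h' => h (ind_cons.1 h').1), mul_zero]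

/-- `gH` vanishes if one argument is in `L_H` -/
theorem gH_zero (hone : ∀ Z : List K, Ind L e Z → Z.length + 1 = n →
      ∀ c ∈ van L (cl L e Z.toFinset), ∑ y, c y * w (y :: Z) = 0)
    (hind : ∀ Z : List K, ¬ Ind L e Z → w Z = 0) {Z : List K} (hZ : Ind L e Z)
    (hlen : Z.length + 2 = n) {H : Finset K} (hH : IsFlat L e H) (hG : cl L e Z.toFinset ⊂ H)
    (hn : nn L e H = Z.length + 1) {c c' : K → F} (h : c ∈ van L H ∨ ∀ y ∈ H, c' y = 0) :
    gH w Z H c c' = 0 := by
  unfold gH
  refine Finset.sum_eq_zero fun y hy => ?_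
  rcases h with h | h
  · have h1 := one_slot hone hind hZ hlen hH hG hn hy h
    calc ∑ x, c x * c' y * w (x :: y :: Z) = c' y * ∑ x, c x * w (x :: y :: Z) := by
          rw [Finset.mul_sum]
          exact Finset.sum_congr rfl fun x _ => by ring
      _ = 0 := by rw [h1, mul_zero]
  · refine Finset.sum_eq_zero fun x _ => ?_
    rw [h y hy]
    ring

theorem g4_mem_cov {G H : Finset K} :
    H ∈ cov L e G ↔ IsFlat L e H ∧ G ⊂ H ∧ nn L e H = nn L e G + 1 := by
  unfold cov
  simp only [mem_filter, mem_univ, true_and]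

theorem g4_exists_cov {X : Finset K} {y : K} (hy : y ∉ cl L e X) :
    ∃ H, IsFlat L e H ∧ y ∈ H ∧ cl L e X ⊂ H ∧ nn L e H = nn L e (cl L e X) + 1 := by
  obtain ⟨H, h1, h2, h3, -, h5⟩ :=
    IsFlat.exists_between (isFlat_cl X) (isFlat_univ (L := L) (e := e)) hy (Finset.mem_univ y)
      (Finset.subset_univ _)
  exact ⟨H, h1, h2, h3, h5⟩

/-- the sum over all `H` -/
theorem sum_gH (hind : ∀ Z : List K, ¬ Ind L e Z → w Z = 0) (Z : List K) (c c' : K → F)
    (hc' : c' ∈ van L (cl L e Z.toFinset)) :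
    ∑ H ∈ cov L e (cl L e Z.toFinset), gH w Z H c c' =
      ∑ y, ∑ x, c x * c' y * w (x :: y :: Z) := by
  have h1 : ∀ H : Finset K, gH w Z H c c' =
      ∑ y, if y ∈ H then ∑ x, c x * c' y * w (x :: y :: Z) else 0 := by
    intro H
    unfold gH
    rw [← Finset.sum_filter]
    refine Finset.sum_congr ?_ fun _ _ => rfl
    ext y
    simp
  simp only [h1]
  rw [Finset.sum_comm]
  refine Finset.sum_congr rfl fun y _ => ?_
  by_cases hy : y ∈ cl L e Z.toFinset
  · have h2 : ∑ x, c x * c' y * w (x :: y :: Z) = 0 :=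
      Finset.sum_eq_zero fun x _ => by rw [hc'.2 y hy]; ring
    rw [h2]
    exact Finset.sum_eq_zero fun H _ => by split_ifs <;> rfl
  · obtain ⟨H, hH, hyH, hGH, hn⟩ := g4_exists_cov (L := L) (e := e) hy
    have hHc : H ∈ cov L e (cl L e Z.toFinset) := g4_mem_cov.2 ⟨hH, hGH, hn⟩
    rw [Finset.sum_eq_single_of_mem H hHc]
    · rw [if_pos hyH]
    · intro H' hH' hne
      rw [if_neg]
      intro hyH'
      obtain ⟨a, b, d⟩ := g4_mem_cov.1 hH'
      have h3 := IsFlat.inter_eq (isFlat_cl _) a hH b.subset hGH.subset d hn hne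
      exact hy (h3 ▸ Finset.mem_inter.2 ⟨hyH', hyH⟩)

omit [DecidableEq K] in
theorem g4_add_left (w : List K → F) (Z : List K) (p : Finset K) (a b c : K → F) :
    gH w Z p (a + b) c = gH w Z p a c + gH w Z p b c := by
  unfold gH
  rw [← Finset.sum_add_distrib]
  refine Finset.sum_congr rfl fun y _ => ?_
  rw [← Finset.sum_add_distrib]
  exact Finset.sum_congr rfl fun x _ => by rw [Pi.add_apply]; ring

omit [DecidableEq K] in
theorem g4_add_right (w : List K → F) (Z : List K) (p : Finset K) (a b c : K → F) :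
    gH w Z p a (b + c) = gH w Z p a b + gH w Z p a c := by
  unfold gH
  rw [← Finset.sum_add_distrib]
  refine Finset.sum_congr rfl fun y _ => ?_
  rw [← Finset.sum_add_distrib]
  exact Finset.sum_congr rfl fun x _ => by rw [Pi.add_apply]; ring

omit [DecidableEq K] in
theorem g4_smul_left (w : List K → F) (Z : List K) (p : Finset K) (s : F) (a c : K → F) :
    gH w Z p (s • a) c = s * gH w Z p a c := by
  unfold gH
  rw [Finset.mul_sum]
  refine Finset.sum_congr rfl fun y _ => ?_
  rw [Finset.mul_sum]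
  exact Finset.sum_congr rfl fun x _ => by rw [Pi.smul_apply, smul_eq_mul]; ring

omit [DecidableEq K] in
theorem g4_smul_right (w : List K → F) (Z : List K) (p : Finset K) (s : F) (a c : K → F) :
    gH w Z p a (s • c) = s * gH w Z p a c := by
  unfold gH
  rw [Finset.mul_sum]
  refine Finset.sum_congr rfl fun y _ => ?_
  rw [Finset.mul_sum]
  exact Finset.sum_congr rfl fun x _ => by rw [Pi.smul_apply, smul_eq_mul]; ring

theorem g4_bil (w : List K → F) (Z : List K) (p : Finset K) (U : Submodule F (K → F)) :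
    IsBil U (fun a b => gH w Z p a b + gH w Z p b a) where
  add_left a _ b _ c _ := by rw [g4_add_left, g4_add_right]; ring
  smul_left s a _ c _ := by rw [g4_smul_left, g4_smul_right]; ring
  add_right a _ b _ c _ := by rw [g4_add_left, g4_add_right]; ring
  smul_right s a _ c _ := by rw [g4_smul_left, g4_smul_right]; ring

/-- the polar forms vanish, in every characteristic -/
theorem gH_polar (hd : Dense L e) (halt : Alt w) (hind : ∀ Z : List K, ¬ Ind L e Z → w Z = 0)
    (hone : ∀ Z : List K, Ind L e Z → Z.length + 1 = n →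
      ∀ c ∈ van L (cl L e Z.toFinset), ∑ y, c y * w (y :: Z) = 0)
    {Z : List K} (hZ : Ind L e Z) (hlen : Z.length + 2 = n) {H : Finset K}
    (hH : H ∈ cov L e (cl L e Z.toFinset)) {c c' : K → F}
    (hc : c ∈ van L (cl L e Z.toFinset)) (hc' : c' ∈ van L (cl L e Z.toFinset)) :
    gH w Z H c c' + gH w Z H c' c = 0 := by
  have hZn : nn L e (cl L e Z.toFinset) = (Z.length : ℤ) := hZ
  have hU : ∀ p ∈ cov L e (cl L e Z.toFinset), cl L e Z.toFinset ∪ p = p := by
    intro p hp
    exact Finset.union_eq_right.2 (g4_mem_cov.1 hp).2.1.subset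
  have hzero : ∀ p ∈ cov L e (cl L e Z.toFinset), ∀ a b : K → F,
      (a ∈ van L p ∨ ∀ y ∈ p, b y = 0) → gH w Z p a b = 0 := by
    intro p hp a b hab
    obtain ⟨h1, h2, h3⟩ := g4_mem_cov.1 hp
    exact gH_zero hone hind hZ hlen h1 h2 (by rw [h3, hZn]) hab
  refine iso hd (isFlat_cl _) (cov L e (cl L e Z.toFinset)) ?_ ?_
    (fun p a b => gH w Z p a b + gH w Z p b a) ?_ ?_ ?_ ?_ H hH c hc c' hc'
  · intro p hp p' hp' hne
    obtain ⟨h1, h2, h3⟩ := g4_mem_cov.1 hp
    obtain ⟨h1', h2', h3'⟩ := g4_mem_cov.1 hp'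
    exact (IsFlat.inter_eq (isFlat_cl _) h1 h1' h2.subset h2'.subset h3 h3' hne).subset
  · intro p hp
    rw [hU p hp]
    exact (g4_mem_cov.1 hp).2.2
  · intro p _
    exact g4_bil w Z p _
  · intro p hp a ha b _
    rw [hU p hp] at ha
    rw [hzero p hp a b (Or.inl ha), hzero p hp b a (Or.inr ha.2), add_zero]
  · intro p hp a _ b hb
    rw [hU p hp] at hb
    rw [hzero p hp a b (Or.inr hb.2), hzero p hp b a (Or.inl hb), add_zero]
  · intro a ha b hb
    rw [Finset.sum_add_distrib, sum_gH hind Z a b hb, sum_gH hind Z b a ha]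
    have h1 : ∑ y, ∑ x, b x * a y * w (x :: y :: Z) = ∑ y, ∑ x, - (a x * b y * w (x :: y :: Z)) := by
      rw [Finset.sum_comm]
      refine Finset.sum_congr rfl fun y _ => Finset.sum_congr rfl fun x _ => ?_
      have h2 := halt.swap [] y x Z
      simp only [List.nil_append] at h2
      rw [h2]
      ring
    rw [h1, ← Finset.sum_add_distrib]
    refine Finset.sum_eq_zero fun y _ => ?_
    rw [← Finset.sum_add_distrib]
    exact Finset.sum_eq_zero fun x _ => by ring

theorem two_of_one (h2 : (2 : F) ≠ 0) (hd : Dense L e) (halt : Alt w)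
    (hind : ∀ Z : List K, ¬ Ind L e Z → w Z = 0)
    (hone : ∀ Z : List K, Ind L e Z → Z.length + 1 = n →
      ∀ c ∈ van L (cl L e Z.toFinset), ∑ y, c y * w (y :: Z) = 0)
    (Z : List K) (hZ : Ind L e Z) (hlen : Z.length + 2 = n) (H : Finset K) (hH : IsFlat L e H)
    (hG : cl L e Z.toFinset ⊂ H) (hn : nn L e H = Z.length + 1) (c : K → F)
    (hc : c ∈ van L (cl L e Z.toFinset)) :
    ∑ y ∈ H, ∑ x, c x * c y * w (x :: y :: Z) = 0 := by
  classical
  have h1 : H ∈ cov L e (cl L e Z.toFinset) := by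
    have hZ' : nn L e (cl L e Z.toFinset) = (Z.length : ℤ) := hZ
    unfold cov
    simp only [mem_filter, mem_univ, true_and]
    exact ⟨hH, hG, by rw [hn, hZ']⟩
  have h3 := gH_polar hd halt hind hone hZ hlen h1 hc hc
  have h4 : (2 : F) * gH w Z H c c = 0 := by rw [two_mul]; exact h3
  exact (mul_eq_zero.1 h4).resolve_left h2

end Pool.Agent.MP_d4f4ab_ag.W
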