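import Pool.Agent.MP_d4f4ab_ag.W.E5

import Pool.Agent.MP_d4f4ab_ag.W.G3

/-! [WR-G5] from (STAR) to connectedness (WR_PROOF.md (10.4)), induction on the number of colours. -/

open Finset

universe u

namespace Pool.Agent.MP_d4f4ab_ag.W

/-- the list of the elements of a class of a partition into bases -/
private theorem g5a_list {F : Type*} [Field F] {K : Type*} [Fintype K] [DecidableEq K] {k : ℕ}
    {C : Type*} [DecidableEq C] {v : K → Fin k → F} {Q : K → C} (hQ : Val F v Q) (c : C) :
    ∃ Z : List K, Z.Nodup ∧ Z.toFinset = kl Q c ∧ ldet k (Z.map v) ≠ 0 := by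
  refine ⟨(kl Q c).toList, (kl Q c).nodup_toList, Finset.toList_toFinset _, ?_⟩
  rw [ldet_ne_zero_iff, Finset.toList_toFinset]
  refine ⟨(kl Q c).nodup_toList, ?_, (hQ c).1⟩
  rw [Finset.length_toList, (hQ c).2, Module.finrank_fin_fun]

/-- (10.4) -/
theorem conn_of_hyp {F : Type*} [Field F] [IsAlgClosed F] {K : Type*} [Fintype K]
    [DecidableEq K] {k : ℕ} (hk : 1 ≤ k) {e : ℕ} (he : 2 ≤ e) {C' : Type*} [Fintype C']
    [DecidableEq C'] (hC' : Fintype.card C' = e) {v : K → Fin k → F} {P₀ : K → Option C'}
    (hP₀ : Val F v P₀) (ih : IH F v (Option C')) (h : Hyp (rel F v) e k (ww v P₀))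
    (Q : K → Option C') (hQ : Val F v Q) : VConn F v P₀ Q := by
  classical
  have hC : Fintype.card (Option C') = e + 1 := by rw [Fintype.card_option, hC']
  have hd : Dense (rel F v) e := dense_rel hP₀ hC he
  have hn : nn (rel F v) e univ = (k : ℤ) := by
    rw [nn_rel_univ hP₀ hC, Module.finrank_fin_fun]
  obtain ⟨β, hβ, hβl, hβr, hβw⟩ := star hd hn h hk
  obtain ⟨Z₀, hZ₀, hZ₀c, hdet₀⟩ := g5a_list hP₀ none
  obtain ⟨Z, hZ, hZc, hdet⟩ := g5a_list hQ none
  have h1 := alt_eq_ldet v hβ hβl (fun Z c hc => hβr Z c (mem_rel.2 hc)) hdet₀ Z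
  rw [hβw Z₀ (ind_of_class hP₀ hC hP₀ none hZ₀ hZ₀c), hβw Z (ind_of_class hP₀ hC hQ none hZ hZc)]
    at h1
  unfold ww at h1
  have h00 : VConn F v P₀ P₀ := Relation.ReflTransGen.refl
  rw [hZc, hZ₀c, phi_kl ih hP₀ hQ none, phi_kl ih hP₀ hP₀ none, if_pos h00] at h1
  by_contra hcon
  rw [if_neg hcon, zero_mul, zero_mul, one_mul] at h1
  exact mul_ne_zero hdet₀ hdet h1.symm

section g5b

variable {F : Type*} [Field F] {V : Type*} [AddCommGroup V] [Module F V] {K : Type u}
  [Fintype K] [DecidableEq K]

/-- renaming the colours -/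
theorem g5b_kl_comp {C C₂ : Type*} [DecidableEq C] [DecidableEq C₂] (σ : C ≃ C₂) (P : K → C)
    (c : C₂) : kl (fun y => σ (P y)) c = kl P (σ.symm c) := by
  ext y
  rw [mem_kl, mem_kl, Equiv.eq_symm_apply]

theorem g5b_val_comp {C C₂ : Type*} [DecidableEq C] [DecidableEq C₂] (σ : C ≃ C₂) {P : K → C}
    {v : K → V} (h : Val F v P) : Val F v (fun y => σ (P y)) := by
  intro c
  rw [g5b_kl_comp]
  exact h _

theorem g5b_conn_comp {C C₂ : Type*} [DecidableEq C] [DecidableEq C₂] (σ : C ≃ C₂)
    {P Q : K → C} {v : K → V} (h : VConn F v (fun y => σ (P y)) (fun y => σ (Q y))) :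
    VConn F v P Q := by
  have h1 := h.map σ.symm
  simp only [Equiv.symm_apply_apply] at h1
  exact h1

/-- the lift of a colouring of `{y // p y}` -/
def g5b_lift {C' : Type} (p : K → Prop) [DecidablePred p] (R : {y : K // p y} → C') :
    K → Option C' :=
  fun y => if h : p y then some (R ⟨y, h⟩) else none

theorem g5b_kl_lift_none {C' : Type} [DecidableEq C'] (p : K → Prop) [DecidablePred p]
    (R : {y : K // p y} → C') : kl (g5b_lift p R) none = univ.filter fun y => ¬ p y := by
  ext y
  rw [mem_kl, g5b_lift, mem_filter]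
  by_cases h : p y
  · simp [h]
  · simp [h]

theorem g5b_kl_lift_some {C' : Type} [DecidableEq C'] (p : K → Prop) [DecidablePred p]
    (R : {y : K // p y} → C') (c : C') :
    kl (g5b_lift p R) (some c) = (kl R c).map (Function.Embedding.subtype p) := by
  ext y
  rw [mem_kl, g5b_lift, mem_map]
  by_cases h : p y
  · rw [dif_pos h]
    constructor
    · intro h1
      exact ⟨⟨y, h⟩, mem_kl.2 (Option.some.inj h1), rfl⟩
    · rintro ⟨a, ha, hay⟩
      have hay' : (a : K) = y := hay
      subst hay'
      rw [mem_kl] at ha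
      rw [← ha]
  · rw [dif_neg h]
    constructor
    · intro h1
      exact absurd h1 (by simp)
    · rintro ⟨a, ha, hay⟩
      have hay' : (a : K) = y := hay
      exact absurd (hay' ▸ a.2) h

theorem g5b_bas_map (p : K → Prop) [DecidablePred p] (v : K → V) (I : Finset {y : K // p y}) :
    Bas F v (I.map (Function.Embedding.subtype p)) ↔ Bas F (fun y : {y : K // p y} => v y) I := by
  unfold Bas
  rw [card_map, coe_map]
  refine and_congr_left fun _ => ?_
  have h1 : (Function.Embedding.subtype p : {y : K // p y} → K) = Subtype.val := rfl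
  rw [h1]
  constructor
  · intro h
    exact h.comp_of_image Subtype.val_injective.injOn
  · intro h
    exact LinearIndepOn.image_of_comp Subtype.val v h

theorem g5b_val_lift {C' : Type} [DecidableEq C'] (p : K → Prop) [DecidablePred p] {v : K → V}
    {R : {y : K // p y} → C'} (hn : Bas F v (univ.filter fun y => ¬ p y))
    (hR : Val F (fun y : {y : K // p y} => v y) R) : Val F v (g5b_lift p R) := by
  intro c
  cases c with
  | none => rw [g5b_kl_lift_none]; exact hn
  | some c => rw [g5b_kl_lift_some, g5b_bas_map]; exact hR c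

theorem g5b_conn_lift {C' : Type} [DecidableEq C'] (p : K → Prop) [DecidablePred p] {v : K → V}
    {R R' : {y : K // p y} → C'} (hn : Bas F v (univ.filter fun y => ¬ p y))
    (h : VConn F (fun y : {y : K // p y} => v y) R R') :
    VConn F v (g5b_lift p R) (g5b_lift p R') := by
  refine Relation.ReflTransGen.lift (g5b_lift p) ?_ _ _ h
  rintro R₁ R₂ ⟨h1, h2, T, hT, h3⟩
  refine ⟨g5b_val_lift p hn h1, g5b_val_lift p hn h2, T.map Function.Embedding.some, ?_, ?_⟩
  · rw [card_map]; exact hT
  · intro c hc
    cases c with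
    | none => rw [g5b_kl_lift_none, g5b_kl_lift_none]
    | some c =>
      rw [g5b_kl_lift_some, g5b_kl_lift_some, h3 c]
      intro h4
      exact hc (mem_map_of_mem _ h4)

end g5b

/-- restriction to the complement of a class -/
theorem ih_of_fewer {F : Type*} [Field F] {K : Type u} [Fintype K] [DecidableEq K] {k : ℕ}
    {C' : Type} [Fintype C'] [DecidableEq C'] {v : K → Fin k → F}
    (h : ∀ (K₁ : Type u) [Fintype K₁] [DecidableEq K₁] (v₁ : K₁ → Fin k → F) (P Q : K₁ → C'),
      Val F v₁ P → Val F v₁ Q → VConn F v₁ P Q) : IH F v (Option C') := by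
  -- the case of the class `none`
  have key : ∀ P Q : K → Option C', Val F v P → Val F v Q → kl P none = kl Q none →
      VConn F v P Q := by
    intro P Q hP hQ hPQ
    let p : K → Prop := fun y => (P y).isSome
    have hpQ : ∀ y, p y ↔ (Q y).isSome := by
      intro y
      have h1 : y ∈ kl P none ↔ y ∈ kl Q none := by rw [hPQ]
      rw [mem_kl, mem_kl] at h1
      change (P y).isSome ↔ (Q y).isSome
      rw [Option.isSome_iff_ne_none, Option.isSome_iff_ne_none]
      exact not_congr h1
    let P₁ : {y : K // p y} → C' := fun y => (P y).get y.2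
    let Q₁ : {y : K // p y} → C' := fun y => (Q y).get ((hpQ y).1 y.2)
    have hPl : g5b_lift p P₁ = P := by
      funext y
      unfold g5b_lift
      by_cases hy : p y
      · rw [dif_pos hy]
        exact Option.some_get hy
      · rw [dif_neg hy]
        exact (Option.not_isSome_iff_eq_none.1 hy).symm
    have hQl : g5b_lift p Q₁ = Q := by
      funext y
      unfold g5b_lift
      by_cases hy : p y
      · rw [dif_pos hy]
        exact Option.some_get ((hpQ y).1 hy)
      · rw [dif_neg hy]
        exact (Option.not_isSome_iff_eq_none.1 (fun h5 => hy ((hpQ y).2 h5))).symm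
    have hn : Bas F v (univ.filter fun y => ¬ p y) := by
      rw [← g5b_kl_lift_none p P₁, hPl]
      exact hP none
    have hP₁ : Val F (fun y : {y : K // p y} => v y) P₁ := by
      intro c
      rw [← g5b_bas_map, ← g5b_kl_lift_some, hPl]
      exact hP _
    have hQ₁ : Val F (fun y : {y : K // p y} => v y) Q₁ := by
      intro c
      rw [← g5b_bas_map, ← g5b_kl_lift_some, hQl]
      exact hQ _
    have h1 := g5b_conn_lift p hn (h _ _ P₁ Q₁ hP₁ hQ₁)
    rwa [hPl, hQl] at h1
  intro P Q hP hQ c hc
  refine g5b_conn_comp (Equiv.swap c none) (key _ _ (g5b_val_comp _ hP) (g5b_val_comp _ hQ) ?_)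
  rw [g5b_kl_comp, g5b_kl_comp, Equiv.symm_swap, Equiv.swap_apply_right]
  exact hc

/-- the induction on the number of colours; `H` is (8.2) -/
theorem vconn_of_two {F : Type*} [Field F] [IsAlgClosed F] {k : ℕ}
    (htwo : ∀ (K : Type u) [Fintype K] [DecidableEq K] (v : K → Fin k → F) (e : ℕ), 2 ≤ e →
      ∀ (C' : Type) [Fintype C'] [DecidableEq C'], Fintype.card C' = e →
      ∀ P₀ : K → Option C', Val F v P₀ → IH F v (Option C') →
      ∀ Z : List K, Ind (rel F v) e Z → Z.length + 2 = k → ∀ H : Finset K,
        IsFlat (rel F v) e H → cl (rel F v) e Z.toFinset ⊂ H →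
        nn (rel F v) e H = Z.length + 1 → ∀ c ∈ van (rel F v) (cl (rel F v) e Z.toFinset),
          ∑ y ∈ H, ∑ x, c x * c y * ww v P₀ (x :: y :: Z) = 0)
    (d : ℕ) : ∀ (K : Type u) [Fintype K] [DecidableEq K] (v : K → Fin k → F) (C : Type)
      [Fintype C] [DecidableEq C], Fintype.card C = d → ∀ P Q : K → C, Val F v P → Val F v Q →
        VConn F v P Q := by
  induction d with
  | zero =>
    intro K _ _ v C _ _ hC P Q hP hQ
    refine Relation.ReflTransGen.single ⟨hP, hQ, univ, ?_, fun c hc => absurd (mem_univ c) hc⟩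
    rw [card_univ, hC]
    norm_num
  | succ e ihe =>
    intro K _ _ v C _ _ hC P Q hP hQ
    by_cases he : 2 ≤ e
    · rcases Nat.eq_zero_or_pos k with hk | hk
      · -- `K` is empty
        have hK : ∀ y : K, False := by
          intro y
          have h1 := (hP (P y)).2
          have h2 : y ∈ kl P (P y) := mem_kl.2 rfl
          rw [Module.finrank_fin_fun, hk, card_eq_zero] at h1
          rw [h1] at h2
          exact absurd h2 (notMem_empty y)
        have hPQ : P = Q := funext fun y => (hK y).elim
        rw [hPQ]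
        exact Relation.ReflTransGen.refl
      · have hcard : Fintype.card C = Fintype.card (Option (Fin e)) := by
          rw [hC, Fintype.card_option, Fintype.card_fin]
        let σ : C ≃ Option (Fin e) := Fintype.equivOfCardEq hcard
        refine g5b_conn_comp σ ?_
        have hP' := g5b_val_comp σ hP
        have hQ' := g5b_val_comp σ hQ
        have hC' : Fintype.card (Fin e) = e := Fintype.card_fin e
        have hC1 : Fintype.card (Option (Fin e)) = e + 1 := by
          rw [Fintype.card_option, Fintype.card_fin]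
        have ih : IH F v (Option (Fin e)) :=
          ih_of_fewer fun K₁ _ _ v₁ P Q hP hQ => ihe K₁ v₁ (Fin e) hC' P Q hP hQ
        have hyp : Hyp (rel F v) e k (ww v fun y => σ (P y)) :=
          { alt := ww_alt v _
            len := ww_length v _
            ind := ww_ind hC1 hP'
            one := fun Z hZ hZk c hc => ww_one he hC' hP' ih Z hZ hZk c hc
            two := fun Z hZ hZk H hH hlt hn c hc =>
              htwo K v e he (Fin e) hC' _ hP' ih Z hZ hZk H hH hlt hn c hc }
        exact conn_of_hyp hk he hC' hP' ih hyp _ hQ'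
    · refine Relation.ReflTransGen.single ⟨hP, hQ, univ, ?_, fun c hc => absurd (mem_univ c) hc⟩
      rw [card_univ, hC]
      omega

end Pool.Agent.MP_d4f4ab_ag.W
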