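import Pool.Agent.MP_d4f4ab_ag.W.G5
import Pool.Agent.MP_d4f4ab_ag.A2
import Pool.Agent.MP_d4f4ab_ag.A4

/-! [WR-G6] from vectors to matroids and toric ideals. -/

open Set

universe u

namespace Pool.Agent.MP_d4f4ab_ag.W

theorem g6a_bas_iff {F : Type*} [Field F] {K : Type*} [DecidableEq K] {k : ℕ}
    (v : K → Fin k → F) (I : Finset K) : Bas F v I ↔ ldet k (I.toList.map v) ≠ 0 := by
  rw [ldet_ne_zero_iff, Finset.toList_toFinset, Finset.length_toList, Bas,
    Module.finrank_fin_fun]
  exact ⟨fun h => ⟨I.nodup_toList, h.2, h.1⟩, fun h => ⟨h.2.2, h.2.1⟩⟩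

theorem g6a_ldet_map {F F' : Type*} [Field F] [Field F'] [Algebra F F'] {k : ℕ}
    (Z : List (Fin k → F)) :
    ldet k (Z.map fun a i => algebraMap F F' (a i)) = algebraMap F F' (ldet k Z) := by
  by_cases h : Z.length = k
  · have h' : (Z.map fun a i => algebraMap F F' (a i)).length = k := by
      rw [List.length_map]; exact h
    rw [ldet, ldet, dif_pos h, dif_pos h']
    refine Eq.trans ?_
      (RingHom.map_det (algebraMap F F') (fun i : Fin k => Z.get (i.cast h.symm))).symm
    congr 1
    ext i j
    simp only [List.get_eq_getElem, List.getElem_map]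
    rfl
  · have h' : (Z.map fun a i => algebraMap F F' (a i)).length ≠ k := by
      rw [List.length_map]; exact h
    rw [ldet, ldet, dif_neg h, dif_neg h', map_zero]

/-- bases are preserved by field extensions (determinants) -/
theorem bas_map {F F' : Type*} [Field F] [Field F'] [Algebra F F'] {K : Type*} [Fintype K]
    [DecidableEq K] {k : ℕ} (v : K → Fin k → F) (I : Finset K) :
    Bas F' (fun y i => algebraMap F F' (v y i)) I ↔ Bas F v I := by
  rw [g6a_bas_iff, g6a_bas_iff]
  have h : I.toList.map (fun y i => algebraMap F F' (v y i)) =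
      (I.toList.map v).map fun a i => algebraMap F F' (a i) := by
    rw [List.map_map]
    rfl
  rw [h, g6a_ldet_map]
  exact map_ne_zero _

theorem vconn_map {F F' : Type*} [Field F] [Field F'] [Algebra F F'] {K : Type*} [Fintype K]
    [DecidableEq K] {C : Type*} [DecidableEq C] {k : ℕ} (v : K → Fin k → F) {P Q : K → C}
    (h : VConn F' (fun y i => algebraMap F F' (v y i)) P Q) : VConn F v P Q := by
  refine Relation.ReflTransGen.mono ?_ _ _ h
  rintro P Q ⟨h1, h2, h3⟩
  exact ⟨fun c => (bas_map v _).1 (h1 c), fun c => (bas_map v _).1 (h2 c), h3⟩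

/-- coordinates: a matroid represented by vectors is represented by vectors in `F^k`, as far as bases are
concerned -/
theorem exists_coord {F : Type*} [Field F] {E : Type*} [Fintype E] [DecidableEq E]
    (N : Matroid E) (hE : N.E = univ) {V : Type*} [AddCommGroup V] [Module F V] (u : E → V)
    (hu : ∀ I, N.Indep I ↔ LinearIndepOn F u I) :
    ∃ (k : ℕ) (v : E → Fin k → F), ∀ B : Finset E, N.IsBase (B : Set E) ↔ Bas F v B := by
  classical
  let W : Submodule F V := Submodule.span F (Set.range u)
  have hW : FiniteDimensional F W := FiniteDimensional.span_of_finite F (Set.finite_range u)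
  let b := Module.finBasis F W
  let u' : E → W := fun y => ⟨u y, Submodule.subset_span ⟨y, rfl⟩⟩
  let v : E → Fin (Module.finrank F W) → F := fun y => b.equivFun (u' y)
  have hv : ∀ I : Set E, N.Indep I ↔ LinearIndepOn F v I := by
    intro I
    rw [hu]
    have h1 : LinearIndepOn F (W.subtype ∘ u') I ↔ LinearIndepOn F u' I :=
      W.subtype.linearIndepOn_iff_of_injOn (W.injective_subtype.injOn)
    have h2 : LinearIndepOn F (b.equivFun.toLinearMap ∘ u') I ↔ LinearIndepOn F u' I :=
      b.equivFun.toLinearMap.linearIndepOn_iff_of_injOn (b.equivFun.injective.injOn)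
    exact h1.trans h2.symm
  have hspan : Submodule.span F (Set.range v) = ⊤ := by
    have h1 : Submodule.span F (Set.range u') = ⊤ := by
      have h2 : (Submodule.span F (Set.range u')).map W.subtype = W := by
        rw [Submodule.map_span, ← Set.range_comp]
        rfl
      have h3 : (Submodule.span F (Set.range u')).map W.subtype =
          (⊤ : Submodule F W).map W.subtype := by
        rw [h2, Submodule.map_subtype_top]
      exact Submodule.map_injective_of_injective W.injective_subtype h3
    have h4 : Set.range v = b.equivFun.toLinearMap '' Set.range u' := by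
      rw [← Set.range_comp]
      rfl
    rw [h4, ← Submodule.map_span, h1, Submodule.map_top, LinearMap.range_eq_top]
    exact b.equivFun.surjective
  refine ⟨Module.finrank F W, v, fun B => ?_⟩
  rw [Bas, Module.finrank_fin_fun]
  constructor
  · intro hB
    have hBi := (hv _).1 hB.indep
    refine ⟨hBi, ?_⟩
    obtain ⟨b', -, hb1, hb2, hb3⟩ := exists_linearIndepOn_extension hBi (Set.subset_univ (B : Set E))
    have h1 : (B : Set E) = b' := hB.eq_of_subset_indep ((hv _).2 hb3) hb1
    have h2 : Submodule.span F (v '' (B : Set E)) = ⊤ := by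
      rw [h1, eq_top_iff, ← hspan, Submodule.span_le, ← Set.image_univ]
      exact hb2
    have h3 : LinearIndependent F fun y : B => v y := hBi
    have h4 := finrank_span_eq_card h3
    have h5 : Set.range (fun y : B => v y) = v '' (B : Set E) := by
      ext x
      simp
    rw [h5, h2, finrank_top, Module.finrank_fin_fun, Fintype.card_coe] at h4
    exact h4.symm
  · rintro ⟨h1, h2⟩
    rw [Matroid.isBase_iff_maximal_indep, maximal_subset_iff']
    refine ⟨(hv _).2 h1, fun t ht hst => ?_⟩
    have ht' := (hv _).1 ht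
    have h3 : LinearIndependent F fun y : t => v y := ht'
    have h4 := h3.fintype_card_le_finrank
    rw [Module.finrank_fin_fun, ← h2] at h4
    have h5 : t = (t.toFinset : Set E) := by simp
    rw [← Set.toFinset_card] at h4
    have h6 : B ⊆ t.toFinset := by
      intro x hx
      exact Set.mem_toFinset.2 (hst hx)
    have h7 := Finset.eq_of_subset_of_card_le h6 h4
    rw [h7]
    simp

theorem g6b_kl {E C : Type*} [Fintype E] [DecidableEq C] (P : E → C) (c : C) :
    ((kl P c : Finset E) : Set E) = cls P c := by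
  ext x
  simp [kl, cls]

/-- transfer of connectedness -/
theorem conn_of_vconn {F : Type*} [Field F] {E : Type*} [Fintype E] [DecidableEq E]
    (N : Matroid E) {k : ℕ} (v : E → Fin k → F)
    (hv : ∀ B : Finset E, N.IsBase (B : Set E) ↔ Bas F v B) {C : Type*} [DecidableEq C]
    {p q : E → C} (h : VConn F v p q) : Conn N 2 p q := by
  refine Relation.ReflTransGen.mono ?_ _ _ h
  rintro P Q ⟨h1, h2, T, hT, hTc⟩
  refine ⟨fun c => ?_, fun c => ?_, T, hT, fun c hc => ?_⟩
  · rw [← g6b_kl]
    exact (hv _).2 (h1 c)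
  · rw [← g6b_kl]
    exact (hv _).2 (h2 c)
  · rw [← g6b_kl, ← g6b_kl, hTc c hc]

theorem val_of_valid {F : Type*} [Field F] {E : Type*} [Fintype E] [DecidableEq E]
    (N : Matroid E) {k : ℕ} (v : E → Fin k → F)
    (hv : ∀ B : Finset E, N.IsBase (B : Set E) ↔ Bas F v B) {C : Type*} [DecidableEq C]
    {p : E → C} (h : Valid N p) : Val F v p := by
  intro c
  rw [← hv, g6b_kl]
  exact h c

/-- the comap of a represented matroid is represented by the composed vectors -/
theorem comap_rep {F : Type*} [Field F] {α E : Type*} (M : Matroid α) {V : Type*}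
    [AddCommGroup V] [Module F V] (u : α → V) (hu : ∀ I ⊆ M.E, M.Indep I ↔ LinearIndepOn F u I)
    (f : E → α) (hf : (M.comap f).E = univ) (I : Set E) :
    (M.comap f).Indep I ↔ LinearIndepOn F (fun x => u (f x)) I := by
  have h1 : f '' I ⊆ M.E := by
    rintro _ ⟨x, -, rfl⟩
    have h2 : x ∈ (M.comap f).E := by rw [hf]; trivial
    exact h2
  rw [Matroid.comap_indep_iff, hu _ h1]
  constructor
  · rintro ⟨h2, h3⟩
    exact LinearIndepOn.comp_of_image h2 h3
  · intro h2
    refine ⟨LinearIndepOn.image_of_comp f u h2, ?_⟩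
    intro x hx y hy hxy
    have h3 := h2.injOn
    exact h3 hx hy (congrArg u hxy)

open A4_aux in
/-- variant of `fconn_of_core` where the core is only used for comaps of `M` -/
theorem fconn_of_core' {α : Type u} (M : Matroid α) {t : ℕ}
    (core : ∀ (E : Type u) [Fintype E] (f : E → α) (d : ℕ), (M.comap f).E = univ →
      ∀ p q : E → Fin d, Valid (M.comap f) p → Valid (M.comap f) q → Conn (M.comap f) t p q)
    {d : ℕ} (P Q : Fin d → BaseOf M) (h : SameSum P Q) : FConn t P Q := by
  classical
  rcases Nat.eq_zero_or_pos d with hd | hd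
  · subst hd
    have : P = Q := funext fun i => i.elim0
    rw [this]
    exact Relation.ReflTransGen.refl
  let i₀ : Fin d := ⟨0, hd⟩
  have hbase := comap_isBase P i₀
  -- the two colourings
  let p₀ : EE P → Fin d := fun x => x.1
  have hp₀ : Valid (M.comap (pr P)) p₀ := by
    intro i
    rw [hbase]
    constructor
    · have h1 : pr P '' cls p₀ i = ((P i).1 : Set α) := by
        ext e
        constructor
        · rintro ⟨⟨j, e', he'⟩, h1, rfl⟩
          have h1 : j = i := h1
          subst h1
          exact he'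
        · intro he
          exact ⟨⟨i, ⟨e, he⟩⟩, rfl, rfl⟩
      rw [h1]
      exact (P i).2
    · rintro ⟨j, e, he⟩ h1 ⟨j', e', he'⟩ h2 h3
      have h1 : j = i := h1
      have h2 : j' = i := h2
      have h3 : e = e' := h3
      subst h1 h2 h3
      rfl
  have hP : fam P i₀ p₀ hp₀ = P := by
    funext i
    apply Subtype.ext
    ext e
    rw [mem_fam]
    constructor
    · rintro ⟨⟨j, e', he'⟩, h1, rfl⟩
      have h1 : j = i := h1
      subst h1
      exact he'
    · intro he
      exact ⟨⟨i, ⟨e, he⟩⟩, rfl, rfl⟩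
  have hβ : ∀ e, Nonempty ({i // e ∈ (P i).1} ≃ {i // e ∈ (Q i).1}) := fun e =>
    Finite.card_eq.1 (h e)
  let β : ∀ e, {i // e ∈ (P i).1} ≃ {i // e ∈ (Q i).1} := fun e => (hβ e).some
  let q₀ : EE P → Fin d := fun x => (β x.2.1 ⟨x.1, x.2.2⟩).1
  have hq₀' : ∀ j, pr P '' cls q₀ j = ((Q j).1 : Set α) := by
    intro j
    ext e
    constructor
    · rintro ⟨⟨i, e', he'⟩, h1, rfl⟩
      have h1 : (β e' ⟨i, he'⟩).1 = j := h1
      have h2 := (β e' ⟨i, he'⟩).2
      rw [h1] at h2
      exact h2
    · intro he
      have he' : e ∈ (Q j).1 := he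
      refine ⟨⟨((β e).symm ⟨j, he'⟩).1, ⟨e, ((β e).symm ⟨j, he'⟩).2⟩⟩, ?_, rfl⟩
      show (β e ⟨((β e).symm ⟨j, he'⟩).1, _⟩).1 = j
      have : (⟨((β e).symm ⟨j, he'⟩).1, ((β e).symm ⟨j, he'⟩).2⟩ : {i // e ∈ (P i).1}) =
        (β e).symm ⟨j, he'⟩ := rfl
      rw [this, Equiv.apply_symm_apply]
  have hq₀ : Valid (M.comap (pr P)) q₀ := by
    intro j
    rw [hbase, hq₀']
    refine ⟨(Q j).2, ?_⟩
    rintro ⟨i, e, he⟩ h1 ⟨i', e', he'⟩ h2 h3
    have h3 : e = e' := h3
    subst h3
    have h1 : (β e ⟨i, he⟩).1 = j := h1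
    have h2 : (β e ⟨i', he'⟩).1 = j := h2
    have h4 : (⟨i, he⟩ : {i // e ∈ (P i).1}) = ⟨i', he'⟩ :=
      (β e).injective (Subtype.ext (h1.trans h2.symm))
    have h5 : i = i' := congrArg Subtype.val h4
    subst h5
    rfl
  have hQ : fam P i₀ q₀ hq₀ = Q := by
    funext i
    apply Subtype.ext
    apply Finset.coe_injective
    rw [coe_fam, hq₀']
  -- the chain
  have hchain : Conn (M.comap (pr P)) t p₀ q₀ := by
    refine core (EE P) (pr P) d ?_ p₀ q₀ hp₀ hq₀
    rw [Matroid.comap_ground_eq, preimage_ground]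
  have key : ∀ q, Conn (M.comap (pr P)) t p₀ q →
      ∃ hq : Valid (M.comap (pr P)) q, FConn t P (fam P i₀ q hq) := by
    intro q hq
    induction hq with
    | refl => exact ⟨hp₀, by rw [hP]; exact Relation.ReflTransGen.refl⟩
    | tail _ hmove ih =>
      obtain ⟨hq1, hq2⟩ := ih
      obtain ⟨_, hq3, T, hT, hTc⟩ := hmove
      refine ⟨hq3, Relation.ReflTransGen.tail hq2 ⟨fun e => ?_, T, hT, fun i hi => ?_⟩⟩
      · rw [card_fam, card_fam]
      · exact fam_congr P i₀ _ _ _ _ i (hTc i hi)
  obtain ⟨_, h2⟩ := key q₀ hchain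
  rwa [hQ] at h2

/-- final assembly from connectedness over algebraically closed fields -/
theorem quadrics_of_vconn {F : Type*} [Field F]
    (hF : ∀ (k d : ℕ) (K : Type u) [Fintype K] [DecidableEq K]
      (v : K → Fin k → AlgebraicClosure F) (P Q : K → Fin d),
      Val (AlgebraicClosure F) v P → Val (AlgebraicClosure F) v Q →
        VConn (AlgebraicClosure F) v P Q)
    (K : Type*) [Field K] {α : Type u} (M : Matroid α) [M.Finite] [M.RankPos] {V : Type*}
    [AddCommGroup V] [Module F V] (u : α → V) (hu : ∀ I ⊆ M.E, M.Indep I ↔ LinearIndepOn F u I) :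
    toricIdeal K M = Ideal.span
      {f : MvPolynomial (BaseOf M) K | f ∈ toricIdeal K M ∧ f.IsHomogeneous 2} := by
  classical
  refine le_antisymm ?_ (Ideal.span_le.2 fun f hf => hf.1)
  refine toricIdeal_le K _ fun d P Q h => prod_sub_prod_mem_two K (fconn_of_core' M ?_ P Q h)
  intro E _ f d hE p q hp hq
  obtain ⟨k, v, hv⟩ := exists_coord (F := F) (M.comap f) hE (fun x => u (f x))
    (comap_rep M u hu f hE)
  have h1 : Val (AlgebraicClosure F) (fun y i => algebraMap F (AlgebraicClosure F) (v y i)) p :=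
    fun c => (bas_map v _).2 (val_of_valid (M.comap f) v hv hp c)
  have h2 : Val (AlgebraicClosure F) (fun y i => algebraMap F (AlgebraicClosure F) (v y i)) q :=
    fun c => (bas_map v _).2 (val_of_valid (M.comap f) v hv hq c)
  exact conn_of_vconn (M.comap f) v hv (vconn_map v (hF k d E _ p q h1 h2))

end Pool.Agent.MP_d4f4ab_ag.W
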