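import Pool.Agent.MP_d4f4ab_ag.W.G3

/-! [WR-H0] the relation (b) for `w = ww v P₀` (WR_PROOF.md section 11). -/

open Finset

namespace Pool.Agent.MP_d4f4ab_ag.W

theorem h0_sum_pair {F : Type*} [Field F] {K : Type*} [Fintype K] [DecidableEq K]
    (h : K → K → F) (hdiag : ∀ x, h x x = 0) (hanti : ∀ x y, h x y + h y x = 0) :
    ∑ x, ∑ y, h x y = 0 := by
  rw [← Finset.sum_product']
  refine Finset.sum_involution (fun a _ => (a.2, a.1)) ?_ ?_ ?_ ?_
  · intro a _
    exact hanti a.1 a.2
  · rintro ⟨x, y⟩ _ h1 h2
    apply h1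
    have h3 : y = x := congrArg Prod.fst h2
    subst h3
    exact hdiag _
  · intro a _
    simp
  · intro a _
    rfl

variable {F : Type*} [Field F] {K : Type*} [Fintype K] [DecidableEq K] {k : ℕ}

/-- two relations supported on `R`, where the relations on `R` have dimension at most two: if there is a nonzero relation
on `R \ {x, y}` then the minor vanishes -/
theorem h0_minor {v : K → Fin k → F} {R : Finset K}
    (hR : Module.finrank F (van (rel F v) Rᶜ) ≤ 2) {x y : K} (hxy : x ≠ y) (hx : x ∈ R)
    (hy : y ∈ R) (hdep : ¬ LinearIndepOn F v ((R.erase x).erase y : Set K))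
    {c c' : K → F} (hc : c ∈ van (rel F v) Rᶜ) (hc' : c' ∈ van (rel F v) Rᶜ) :
    c x * c' y - c y * c' x = 0 := by
  by_contra hne
  rw [linearIndepOn_finset_iff] at hdep
  push Not at hdep
  obtain ⟨f, hf, i, hi, hfi⟩ := hdep
  set S : Finset K := (R.erase x).erase y with hS
  set d : K → F := fun t => if t ∈ S then f t else 0 with hd
  have hdx : d x = 0 := by simp [hd, hS]
  have hdy : d y = 0 := by simp [hd, hS]
  have hdR : d ∈ van (rel F v) Rᶜ := by
    rw [mem_van]
    refine ⟨?_, ?_⟩
    · rw [mem_rel, ← hf]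
      rw [← Finset.sum_subset (Finset.subset_univ S)]
      · refine Finset.sum_congr rfl fun t ht => ?_
        simp [hd, ht]
      · intro t _ ht
        simp [hd, ht]
    · intro t ht
      have : t ∉ S := by
        intro h
        rw [hS] at h
        exact (Finset.mem_compl.1 ht) (Finset.mem_of_mem_erase (Finset.mem_of_mem_erase h))
      simp [hd, this]
  have hdi : d i ≠ 0 := by
    simp only [hd, if_pos hi]
    exact hfi
  have hli : LinearIndependent F (![⟨c, hc⟩, ⟨c', hc'⟩, ⟨d, hdR⟩] : Fin 3 → van (rel F v) Rᶜ) := by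
    rw [Fintype.linearIndependent_iff]
    intro g hg
    have hg' : g 0 • c + g 1 • c' + g 2 • d = 0 := by
      have := congrArg Subtype.val hg
      simpa [Fin.sum_univ_three] using this
    have hgx : g 0 * c x + g 1 * c' x = 0 := by
      have := congrFun hg' x
      simpa [hdx] using this
    have hgy : g 0 * c y + g 1 * c' y = 0 := by
      have := congrFun hg' y
      simpa [hdy] using this
    have h0 : g 0 = 0 := by
      have : g 0 * (c x * c' y - c y * c' x) = 0 := by linear_combination c' y * hgx - c' x * hgy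
      exact (mul_eq_zero.1 this).resolve_right hne
    have h1 : g 1 = 0 := by
      have : g 1 * (c x * c' y - c y * c' x) = 0 := by linear_combination c x * hgy - c y * hgx
      exact (mul_eq_zero.1 this).resolve_right hne
    have h2 : g 2 = 0 := by
      have := congrFun hg' i
      simp [h0, h1] at this
      exact this.resolve_right hdi
    intro j
    fin_cases j
    · exact h0
    · exact h1
    · exact h2
  have := hli.fintype_card_le_finrank
  simp at this
  omega

/-- the colouring -/
def h0_col {C'' : Type*} (G Z R : Finset K) (x y : K) (Q : K → C'') (D : K → Option C'') :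
    K → Option (Option C'') :=
  fun t => if t = x ∨ t = y ∨ t ∈ Z then none else if t ∈ G then some (D t)
    else if t ∈ R then some none else some (some (Q t))

theorem h0_col_val {v : K → Fin k → F} {C'' : Type*} [DecidableEq C''] {G R : Finset K}
    {Z : List K} (hZG : Z.toFinset ⊆ G) (hR : R ⊆ Gᶜ) {κ : ℕ} {x y : K} (hxy : x ≠ y)
    (hx : x ∈ R) (hy : y ∈ R) {Q : K → C''} {D : K → Option C''}
    (hD : ∀ c, ∀ I : Finset K, I ⊆ Gᶜ → LinearIndepOn F v (I : Set K) → I.card = κ →
      Bas F v (I ∪ (G \ Z.toFinset).filter fun y => D y = c))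
    (hQ : ∀ i, LinearIndepOn F v (((Gᶜ \ R).filter fun y => Q y = i : Finset K) : Set K))
    (hQc : ∀ i, ((Gᶜ \ R).filter fun y => Q y = i).card = κ)
    (hI : LinearIndepOn F v ((R.erase x).erase y : Set K)) (hRc : R.card = κ + 2)
    (hdet : ldet k ((x :: y :: Z).map v) ≠ 0) :
    Val F v (h0_col G Z.toFinset R x y Q D) := by
  have hxG : x ∉ G := fun h => (Finset.mem_compl.1 (hR hx)) h
  have hyG : y ∉ G := fun h => (Finset.mem_compl.1 (hR hy)) h
  have hGR : ∀ t, t ∈ R → t ∉ G := fun t ht h => (Finset.mem_compl.1 (hR ht)) h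
  have hZG' : ∀ t, t ∈ Z.toFinset → t ∈ G := fun t ht => hZG ht
  obtain ⟨hnd, hlen, hind⟩ := (ldet_ne_zero_iff v (x :: y :: Z)).1 hdet
  intro c
  rcases c with _ | c
  · have h1 : kl (h0_col G Z.toFinset R x y Q D) none = (x :: y :: Z).toFinset := by
      ext t
      rw [mem_kl]
      unfold h0_col
      constructor
      · intro h
        split_ifs at h with h1
        simpa using h1
      · intro h
        rw [if_pos]
        simpa using h
    rw [h1]
    refine ⟨hind, ?_⟩
    rw [List.toFinset_card_of_nodup hnd, hlen, Module.finrank_fin_fun]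
  · rcases c with _ | i
    · have h1 : kl (h0_col G Z.toFinset R x y Q D) (some none) =
          (R.erase x).erase y ∪ (G \ Z.toFinset).filter fun t => D t = none := by
        ext t
        rw [mem_kl]
        unfold h0_col
        simp only [Finset.mem_union, Finset.mem_erase, Finset.mem_filter, Finset.mem_sdiff]
        constructor
        · intro h
          split_ifs at h with h1 h2 h3
          · simp only [Option.some.injEq] at h
            push Not at h1
            exact Or.inr ⟨⟨h2, h1.2.2⟩, h⟩
          · push Not at h1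
            exact Or.inl ⟨h1.2.1, h1.1, h3⟩
          · simp at h
        · rintro (⟨h1, h2, h3⟩ | ⟨⟨h1, h2⟩, h3⟩)
          · have h4 : t ∉ Z.toFinset := fun h => hGR t h3 (hZG' t h)
            rw [if_neg (by push Not; exact ⟨h2, h1, h4⟩), if_neg (hGR t h3), if_pos h3]
          · have h4 : t ≠ x := fun h => hxG (h ▸ h1)
            have h5 : t ≠ y := fun h => hyG (h ▸ h1)
            rw [if_neg (by push Not; exact ⟨h4, h5, h2⟩), if_pos h1, h3]
      rw [h1]
      refine hD none _ ?_ ?_ ?_
      · exact ((Finset.erase_subset _ _).trans (Finset.erase_subset _ _)).trans hR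
      · exact hI
      · rw [Finset.card_erase_of_mem (Finset.mem_erase.2 ⟨hxy.symm, hy⟩),
          Finset.card_erase_of_mem hx, hRc]
        omega
    · have h1 : kl (h0_col G Z.toFinset R x y Q D) (some (some i)) =
          ((Gᶜ \ R).filter fun t => Q t = i) ∪
            (G \ Z.toFinset).filter fun t => D t = some i := by
        ext t
        rw [mem_kl]
        unfold h0_col
        simp only [Finset.mem_union, Finset.mem_filter, Finset.mem_sdiff, Finset.mem_compl]
        constructor
        · intro h
          split_ifs at h with h1 h2 h3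
          · simp only [Option.some.injEq] at h
            push Not at h1
            exact Or.inr ⟨⟨h2, h1.2.2⟩, h⟩
          · simp at h
          · simp only [Option.some.injEq] at h
            exact Or.inl ⟨⟨h2, h3⟩, h⟩
        · rintro (⟨⟨h1, h2⟩, h3⟩ | ⟨⟨h1, h2⟩, h3⟩)
          · have h4 : t ∉ Z.toFinset := fun h => h1 (hZG' t h)
            have h5 : t ≠ x := fun h => h2 (h ▸ hx)
            have h6 : t ≠ y := fun h => h2 (h ▸ hy)
            rw [if_neg (by push Not; exact ⟨h5, h6, h4⟩), if_neg h1, if_neg h2, h3]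
          · have h4 : t ≠ x := fun h => hxG (h ▸ h1)
            have h5 : t ≠ y := fun h => hyG (h ▸ h1)
            rw [if_neg (by push Not; exact ⟨h4, h5, h2⟩), if_pos h1, h3]
      rw [h1]
      refine hD (some i) _ ?_ (hQ i) (hQc i)
      exact (Finset.filter_subset _ _).trans Finset.sdiff_subset

/-- (b) -/
theorem ww_b {e : ℕ} (he : 2 ≤ e) {C' : Type*} [Fintype C'] [DecidableEq C']
    (hC' : Fintype.card C' = e) {v : K → Fin k → F} {P₀ : K → Option C'} (hP₀ : Val F v P₀)
    (ih : IH F v (Option C')) (Z : List K) (hZ : Ind (rel F v) e Z) (hZk : Z.length + 2 = k)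
    (R : Finset K) (Q : K → Fin (e - 1)) (hR : R ⊆ (cl (rel F v) e Z.toFinset)ᶜ)
    (hRr : rk F v R = rk F v (cl (rel F v) e Z.toFinset)ᶜ)
    (hQ : ∀ i, LinearIndepOn F v
      ((((cl (rel F v) e Z.toFinset)ᶜ \ R).filter fun y => Q y = i : Finset K) : Set K))
    (hQc : ∀ i, (((cl (rel F v) e Z.toFinset)ᶜ \ R).filter fun y => Q y = i).card =
      rk F v (cl (rel F v) e Z.toFinset)ᶜ)
    (c : K → F) (hc : c ∈ rel F v) (c' : K → F) (hc' : c' ∈ rel F v)
    (hcR : ∀ y, y ∉ R → c y = 0) (hcR' : ∀ y, y ∉ R → c' y = 0) :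
    ∑ x, ∑ y, c x * c' y * ww v P₀ (x :: y :: Z) = 0 := by
  classical
  have hC : Fintype.card (Option C') = e + 1 := by rw [Fintype.card_option, hC']
  have hCC : Fintype.card (Option (Fin (e - 1))) = e := by
    rw [Fintype.card_option, Fintype.card_fin]; omega
  obtain ⟨D, hD⟩ := exists_part (C' := Option (Fin (e - 1))) hP₀ hC hCC hZ
  set G := cl (rel F v) e Z.toFinset with hG
  -- cardinalities
  have hGn : nn (rel F v) e G = (Z.length : ℤ) := hZ
  have hGc : ((Gᶜ : Finset K).card : ℤ) = e * rk F v Gᶜ + 2 := by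
    have h1 := nn_rel hP₀ hC G
    rw [hGn, Module.finrank_fin_fun] at h1
    have h2 : (k : ℤ) = Z.length + 2 := by exact_mod_cast hZk.symm
    rw [h2] at h1
    linarith
  have hQcard : (Gᶜ \ R).card = (e - 1) * rk F v Gᶜ := by
    have h1 : (Gᶜ \ R).card = ∑ i : Fin (e - 1), ((Gᶜ \ R).filter fun y => Q y = i).card :=
      Finset.card_eq_sum_card_fiberwise fun _ _ => Finset.mem_coe.2 (Finset.mem_univ _)
    rw [h1, Finset.sum_congr rfl fun i _ => hQc i, Finset.sum_const, Finset.card_univ,
      Fintype.card_fin, smul_eq_mul]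
  have hRc : R.card = rk F v Gᶜ + 2 := by
    have h1 : (Gᶜ \ R).card + R.card = (Gᶜ : Finset K).card := Finset.card_sdiff_add_card_eq_card hR
    have h2 : (Gᶜ : Finset K).card = e * rk F v Gᶜ + 2 := by exact_mod_cast hGc
    rw [hQcard, h2] at h1
    have h3 : e * rk F v Gᶜ = (e - 1) * rk F v Gᶜ + rk F v Gᶜ := by
      obtain ⟨m, rfl⟩ : ∃ m, e = m + 1 := ⟨e - 1, by omega⟩
      simp only [Nat.add_sub_cancel]
      ring
    omega
  have hRd : Module.finrank F (van (rel F v) Rᶜ) ≤ 2 := by
    have h1 := finrank_van_rel (F := F) v Rᶜ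
    rw [compl_compl, hRr, hRc] at h1
    push_cast at h1
    have h2 : (Module.finrank F (van (rel F v) Rᶜ) : ℤ) = 2 := by rw [h1]; ring
    exact_mod_cast h2.le
  have hZG : Z.toFinset ⊆ G := subset_cl _
  -- the constant
  have he1 : 0 < e - 1 := by omega
  let i₀ : Fin (e - 1) := ⟨0, he1⟩
  let f : F := phi F v P₀ (((Gᶜ \ R).filter fun y => Q y = i₀) ∪
    (G \ Z.toFinset).filter fun y => D y = some i₀)
  obtain ⟨σ⟩ : Nonempty (Option (Option (Fin (e - 1))) ≃ Option C') :=
    ⟨Fintype.equivOfCardEq (by rw [Fintype.card_option, hCC, hC])⟩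
  have key : ∀ x y, x ≠ y → x ∈ R → y ∈ R →
      LinearIndepOn F v ((R.erase x).erase y : Set K) →
      ww v P₀ (x :: y :: Z) = f * ldet k ((x :: y :: Z).map v) := by
    intro x y hxy hx hy hI
    by_cases hdet : ldet k ((x :: y :: Z).map v) = 0
    · unfold ww
      rw [hdet, mul_zero, mul_zero]
    · have hval := h0_col_val (Q := Q) hZG hR hxy hx hy hD hQ hQc hI hRc hdet
      set col := h0_col G Z.toFinset R x y Q D with hcol
      have hkl : ∀ c, kl (fun t => σ (col t)) (σ c) = kl col c := by
        intro c
        ext t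
        rw [mem_kl, mem_kl]
        exact σ.injective.eq_iff
      have hval' : Val F v (fun t => σ (col t)) := by
        intro c
        obtain ⟨c, rfl⟩ := σ.surjective c
        rw [hkl]
        exact hval c
      have h1 := phi_kl ih hP₀ hval' (σ none)
      have h2 := phi_kl ih hP₀ hval' (σ (some (some i₀)))
      rw [hkl] at h1 h2
      have h3 : kl col none = (x :: y :: Z).toFinset := by
        ext t
        rw [mem_kl, hcol]
        unfold h0_col
        constructor
        · intro h
          split_ifs at h with h1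
          simpa using h1
        · intro h
          rw [if_pos]
          simpa using h
      have h4 : kl col (some (some i₀)) = ((Gᶜ \ R).filter fun y => Q y = i₀) ∪
          (G \ Z.toFinset).filter fun y => D y = some i₀ := by
        ext t
        rw [mem_kl, hcol]
        unfold h0_col
        simp only [Finset.mem_union, Finset.mem_filter, Finset.mem_sdiff, Finset.mem_compl]
        constructor
        · intro h
          split_ifs at h with h1 h2 h3
          · simp only [Option.some.injEq] at h
            push Not at h1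
            exact Or.inr ⟨⟨h2, h1.2.2⟩, h⟩
          · simp at h
          · simp only [Option.some.injEq] at h
            exact Or.inl ⟨⟨h2, h3⟩, h⟩
        · rintro (⟨⟨h1, h2⟩, h3⟩ | ⟨⟨h1, h2⟩, h3⟩)
          · have h4 : t ∉ Z.toFinset := fun h => h1 (hZG h)
            have h5 : t ≠ x := fun h => h2 (h ▸ hx)
            have h6 : t ≠ y := fun h => h2 (h ▸ hy)
            rw [if_neg (by push Not; exact ⟨h5, h6, h4⟩), if_neg h1, if_neg h2, h3]
          · have h4 : t ≠ x := fun h => (Finset.mem_compl.1 (hR hx)) (h ▸ h1)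
            have h5 : t ≠ y := fun h => (Finset.mem_compl.1 (hR hy)) (h ▸ h1)
            rw [if_neg (by push Not; exact ⟨h4, h5, h2⟩), if_pos h1, h3]
      unfold ww
      rw [← h3, h1, ← h2, h4]
  -- the difference with the determinant
  have hdetsum : ∑ x, ∑ y, c x * c' y * (f * ldet k ((x :: y :: Z).map v)) = 0 := by
    rw [Finset.sum_comm]
    refine Finset.sum_eq_zero fun y _ => ?_
    have h1 : ∑ x, c x * c' y * (f * ldet k ((x :: y :: Z).map v)) =
        c' y * f * ∑ x, c x * ldet k (v x :: (y :: Z).map v) := by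
      rw [Finset.mul_sum]
      refine Finset.sum_congr rfl fun x _ => ?_
      rw [List.map_cons]
      ring
    rw [h1, ← ldet_cons_sum, mem_rel.1 hc]
    have h2 : ldet k ((0 : Fin k → F) :: (y :: Z).map v) = 0 := by
      have := ldet_cons_smul (0 : F) (0 : Fin k → F) ((y :: Z).map v)
      rwa [zero_smul, zero_mul] at this
    rw [h2, mul_zero]
  have halt := ww_alt v P₀
  have halt' := ldet_map_alt (F := F) v
  have hcv : c ∈ van (rel F v) Rᶜ := mem_van.2 ⟨hc, fun t ht => hcR t (Finset.mem_compl.1 ht)⟩
  have hcv' : c' ∈ van (rel F v) Rᶜ := mem_van.2 ⟨hc', fun t ht => hcR' t (Finset.mem_compl.1 ht)⟩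
  have hmain : ∑ x, ∑ y, c x * c' y *
      (ww v P₀ (x :: y :: Z) - f * ldet k ((x :: y :: Z).map v)) = 0 := by
    refine h0_sum_pair _ ?_ ?_
    · intro x
      have h1 := halt.same [] x Z
      have h2 := halt'.same [] x Z
      simp only [List.nil_append] at h1 h2
      rw [h1, h2, mul_zero, sub_zero, mul_zero]
    · intro x y
      have h1 := halt.swap [] x y Z
      have h2 := halt'.swap [] x y Z
      simp only [List.nil_append] at h1 h2
      rw [h1, h2]
      by_cases hx : x ∈ R
      swap
      · rw [hcR x hx, hcR' x hx]; ring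
      by_cases hy : y ∈ R
      swap
      · rw [hcR y hy, hcR' y hy]; ring
      by_cases hxy : x = y
      · subst hxy
        ring
      by_cases hI : LinearIndepOn F v ((R.erase x).erase y : Set K)
      · have h3 := key x y hxy hx hy hI
        rw [h1, h2] at h3
        have h5 : ww v P₀ (y :: x :: Z) = f * ldet k ((y :: x :: Z).map v) := by
          linear_combination -h3
        rw [h5]
        ring
      · have h3 := h0_minor hRd hxy hx hy hI hcv hcv'
        linear_combination (-(ww v P₀ (y :: x :: Z)) + f * ldet k ((y :: x :: Z).map v)) * h3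
  have hsplit : ∑ x, ∑ y, c x * c' y * ww v P₀ (x :: y :: Z) =
      ∑ x, ∑ y, c x * c' y * (ww v P₀ (x :: y :: Z) - f * ldet k ((x :: y :: Z).map v)) +
        ∑ x, ∑ y, c x * c' y * (f * ldet k ((x :: y :: Z).map v)) := by
    rw [← Finset.sum_add_distrib]
    refine Finset.sum_congr rfl fun x _ => ?_
    rw [← Finset.sum_add_distrib]
    refine Finset.sum_congr rfl fun y _ => ?_
    ring
  rw [hsplit, hmain, hdetsum, add_zero]

end Pool.Agent.MP_d4f4ab_ag.W
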