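import Pool.Agent.MP_d4f4ab_ag.W.G1

/-! [WR-H1] section 11.1 (characteristic 2): the rank function of a family of vectors, deficiencies. -/

set_option linter.unusedSectionVars false

open Finset

namespace Pool.Agent.MP_d4f4ab_ag.W.H

variable {F : Type*} [Field F] {K : Type*} [Fintype K] [DecidableEq K]
  {V : Type*} [AddCommGroup V] [Module F V]

/-- the span of the vectors with indices in `X` -/
def sp (F : Type*) [Field F] {K V : Type*} [AddCommGroup V] [Module F V] (v : K → V)
    (X : Finset K) : Submodule F V := Submodule.span F (v '' (X : Set K))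

variable {v : K → V}

instance sp_fin (X : Finset K) : FiniteDimensional F (sp F v X) :=
  FiniteDimensional.span_of_finite F ((Finset.finite_toSet X).image v)

theorem sp_mono {X Y : Finset K} (h : X ⊆ Y) : sp F v X ≤ sp F v Y :=
  Submodule.span_mono (Set.image_mono (Finset.coe_subset.2 h))

theorem sp_union (X Y : Finset K) : sp F v (X ∪ Y) = sp F v X ⊔ sp F v Y := by
  rw [sp, sp, sp, Finset.coe_union, Set.image_union, Submodule.span_union]

theorem mem_sp {X : Finset K} {x : K} (h : x ∈ X) : v x ∈ sp F v X :=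
  Submodule.subset_span ⟨x, h, rfl⟩

theorem sp_le {X : Finset K} {S : Submodule F V} : sp F v X ≤ S ↔ ∀ x ∈ X, v x ∈ S := by
  rw [sp, Submodule.span_le]
  constructor
  · intro h x hx
    exact h ⟨x, hx, rfl⟩
  · rintro h _ ⟨x, hx, rfl⟩
    exact h x hx

theorem sp_insert (x : K) (X : Finset K) : sp F v (insert x X) = Submodule.span F {v x} ⊔ sp F v X := by
  rw [sp, sp, Finset.coe_insert, Set.image_insert_eq, Submodule.span_insert]

theorem sp_insert_of_mem {x : K} {X : Finset K} (h : v x ∈ sp F v X) :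
    sp F v (insert x X) = sp F v X := by
  rw [sp_insert, sup_eq_right, Submodule.span_singleton_le_iff_mem]
  exact h

theorem rk_eq (X : Finset K) : rk F v X = Module.finrank F (sp F v X) := rfl

theorem rk_empty : rk F v (∅ : Finset K) = 0 := by
  rw [rk, Finset.coe_empty, Set.image_empty, Submodule.span_empty, finrank_bot]

theorem rk_mono {X Y : Finset K} (h : X ⊆ Y) : rk F v X ≤ rk F v Y := by
  rw [rk_eq, rk_eq]
  exact Submodule.finrank_mono (sp_mono h)

theorem rk_le_card (X : Finset K) : rk F v X ≤ X.card := by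
  classical
  rw [rk, ← Finset.coe_image]
  exact (finrank_span_finset_le_card _).trans Finset.card_image_le

theorem rk_submod (X Y : Finset K) : rk F v (X ∪ Y) + rk F v (X ∩ Y) ≤ rk F v X + rk F v Y := by
  have h1 := Submodule.finrank_sup_add_finrank_inf_eq (sp F v X) (sp F v Y)
  have h2 : Module.finrank F (sp F v (X ∩ Y)) ≤
      Module.finrank F (sp F v X ⊓ sp F v Y : Submodule F V) := by
    apply Submodule.finrank_mono
    exact le_inf (sp_mono Finset.inter_subset_left) (sp_mono Finset.inter_subset_right)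
  rw [← sp_union] at h1
  rw [rk_eq, rk_eq, rk_eq, rk_eq]
  omega

theorem sp_eq_of_rk_le {X Y : Finset K} (h : X ⊆ Y) (h' : rk F v Y ≤ rk F v X) :
    sp F v X = sp F v Y :=
  Submodule.eq_of_le_of_finrank_le (sp_mono h) h'

/-! ### deficiencies -/

/-- `g_A(X) = |A ∩ X| - m rk X` -/
noncomputable def gg (F : Type*) [Field F] {K V : Type*} [DecidableEq K] [AddCommGroup V]
    [Module F V] (v : K → V) (m : ℕ) (A X : Finset K) : ℤ := ((A ∩ X).card : ℤ) - m * rk F v X

/-- the deficiency -/
noncomputable def df (F : Type*) [Field F] {K V : Type*} [Fintype K] [DecidableEq K]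
    [AddCommGroup V] [Module F V] (v : K → V) (m : ℕ) (A : Finset K) : ℤ :=
  (Finset.univ : Finset (Finset K)).sup' ⟨∅, mem_univ _⟩ (gg F v m A)

theorem gg_le_df (m : ℕ) (A X : Finset K) : gg F v m A X ≤ df F v m A :=
  Finset.le_sup' (gg F v m A) (mem_univ X)

theorem exists_gg_eq_df (m : ℕ) (A : Finset K) : ∃ X, gg F v m A X = df F v m A := by
  obtain ⟨X, -, h⟩ := Finset.exists_mem_eq_sup' (⟨∅, mem_univ _⟩ :
    (Finset.univ : Finset (Finset K)).Nonempty) (gg F v m A)
  exact ⟨X, h.symm⟩

theorem df_nonneg (m : ℕ) (A : Finset K) : 0 ≤ df F v m A := by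
  have h := gg_le_df (F := F) (v := v) m A ∅
  rw [gg, rk_empty] at h
  simpa using h

theorem gg_supermod (m : ℕ) (A X Y : Finset K) :
    gg F v m A X + gg F v m A Y ≤ gg F v m A (X ∪ Y) + gg F v m A (X ∩ Y) := by
  have h1 : ((A ∩ (X ∪ Y)).card : ℤ) + (A ∩ (X ∩ Y)).card = (A ∩ X).card + (A ∩ Y).card := by
    have := Finset.card_union_add_card_inter (A ∩ X) (A ∩ Y)
    rw [← Finset.inter_union_distrib_left, ← Finset.inter_inter_distrib_left] at this
    exact_mod_cast this
  have h2 := rk_submod (F := F) (v := v) X Y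
  have h3 : (m : ℤ) * (rk F v (X ∪ Y) + rk F v (X ∩ Y) : ℕ) ≤ m * (rk F v X + rk F v Y : ℕ) :=
    mul_le_mul_of_nonneg_left (by exact_mod_cast h2) (by positivity)
  push_cast at h3
  rw [gg, gg, gg, gg]
  linarith

theorem max_union {m : ℕ} {A X Y : Finset K} (hX : gg F v m A X = df F v m A)
    (hY : gg F v m A Y = df F v m A) : gg F v m A (X ∪ Y) = df F v m A := by
  have h1 := gg_supermod (F := F) (v := v) m A X Y
  have h2 := gg_le_df (F := F) (v := v) m A (X ∪ Y)
  have h3 := gg_le_df (F := F) (v := v) m A (X ∩ Y)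
  linarith

theorem max_inter {m : ℕ} {A X Y : Finset K} (hX : gg F v m A X = df F v m A)
    (hY : gg F v m A Y = df F v m A) : gg F v m A (X ∩ Y) = df F v m A := by
  have h1 := gg_supermod (F := F) (v := v) m A X Y
  have h2 := gg_le_df (F := F) (v := v) m A (X ∪ Y)
  have h3 := gg_le_df (F := F) (v := v) m A (X ∩ Y)
  linarith

/-- the least maximiser -/
theorem exists_least (m : ℕ) (A : Finset K) : ∃ U, gg F v m A U = df F v m A ∧
    ∀ X, gg F v m A X = df F v m A → U ⊆ X := by
  classical
  obtain ⟨X₀, hX₀⟩ := exists_gg_eq_df (F := F) (v := v) m A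
  obtain ⟨U, hU, hmin⟩ := Finset.exists_min_image
    ((Finset.univ : Finset (Finset K)).filter fun X => gg F v m A X = df F v m A)
    (fun X => X.card) ⟨X₀, by simp [hX₀]⟩
  rw [Finset.mem_filter] at hU
  refine ⟨U, hU.2, fun X hX => ?_⟩
  have h1 := max_inter hU.2 hX
  have h2 := hmin (U ∩ X) (by simp [h1])
  have h3 : U ∩ X = U := Finset.eq_of_subset_of_card_le Finset.inter_subset_left h2
  exact Finset.inter_eq_left.1 h3

/-- the least maximiser -/
noncomputable def lst (F : Type*) [Field F] {K V : Type*} [Fintype K] [DecidableEq K]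
    [AddCommGroup V] [Module F V] (v : K → V) (m : ℕ) (A : Finset K) : Finset K :=
  (exists_least (F := F) (v := v) m A).choose

theorem lst_max (m : ℕ) (A : Finset K) : gg F v m A (lst F v m A) = df F v m A :=
  (exists_least (F := F) (v := v) m A).choose_spec.1

theorem lst_subset {m : ℕ} {A X : Finset K} (h : gg F v m A X = df F v m A) :
    lst F v m A ⊆ X :=
  (exists_least (F := F) (v := v) m A).choose_spec.2 X h

/-- the least maximiser is contained in `A` (for `m ≥ 0`: `rk (A ∩ U) ≤ rk U`) -/
theorem lst_subset_self (m : ℕ) (A : Finset K) : lst F v m A ⊆ A := by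
  have h1 : gg F v m A (A ∩ lst F v m A) = df F v m A := by
    refine le_antisymm (gg_le_df m A _) ?_
    rw [← lst_max (F := F) (v := v) m A, gg, gg, ← Finset.inter_assoc, Finset.inter_self]
    have h2 : rk F v (A ∩ lst F v m A) ≤ rk F v (lst F v m A) := rk_mono Finset.inter_subset_right
    have h3 : (m : ℤ) * (rk F v (A ∩ lst F v m A) : ℕ) ≤ m * (rk F v (lst F v m A) : ℕ) :=
      mul_le_mul_of_nonneg_left (by exact_mod_cast h2) (by positivity)
    linarith
  exact (lst_subset h1).trans Finset.inter_subset_left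

end Pool.Agent.MP_d4f4ab_ag.W.H
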