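import Pool.Agent.MP_d4f4ab_ag.W.H9

/-! [WR-H10] section 11.2 (characteristic 2): the theorem for configurations of rank two. -/

set_option linter.unusedSectionVars false

open Finset

namespace Pool.Agent.MP_d4f4ab_ag.W.H

variable {F : Type*} [Field F] {K : Type*} [Fintype K] [DecidableEq K]
  {V : Type*} [AddCommGroup V] [Module F V] [FiniteDimensional F V] {v : K → V} {w : K → K → F}
  {e : ℕ} {H : Finset K} {c₀ : K → F}

theorem gS_none (hH : ∀ x ∈ H, ∀ y ∈ H, w x y = 0) (c d : KK H → F) :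
    gS (wr w H c₀) {none} c d = gS w H (lft H c₀ c) (lft H c₀ d) := by
  rw [gS_eq, gS_eq, Finset.sum_singleton, sum_wr_none hH, Finset.mul_sum]
  exact Finset.sum_congr rfl fun x hx => by rw [lft_mem hx, mul_assoc]

theorem gS_up {T : Finset K} (hT : T ⊆ Hᶜ) (c d : KK H → F) :
    gS (wr w H c₀) (up H T) c d = gS w T (lft H c₀ c) (lft H c₀ d) := by
  rw [gS_eq, gS_eq]
  have h1 : ∀ (f : KK H → F), ∑ z ∈ up H T, f z = ∑ z, if z ∈ up H T then f z else 0 := by
    intro f
    rw [Finset.sum_ite_mem, Finset.univ_inter]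
  have h2 : ∀ (f : K → F), ∑ z ∈ T, f z = ∑ z, if z ∈ T then f z else 0 := by
    intro f
    rw [Finset.sum_ite_mem, Finset.univ_inter]
  rw [h1, h2, sum_KK, sum_split H, if_neg none_notMem_up, zero_add]
  have h3 : ∑ x ∈ H, (if x ∈ T then lft H c₀ d x * ∑ x_1, lft H c₀ c x_1 * w x_1 x else 0) = 0 := by
    refine Finset.sum_eq_zero fun x hx => ?_
    rw [if_neg]
    exact fun h => Finset.mem_compl.1 (hT h) hx
  rw [h3, zero_add]
  refine Finset.sum_congr rfl fun x _ => ?_
  simp only [some_mem_up]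
  rw [lft_some x.2, sum_wr_some]

/-- the function on the reduced index set belonging to `c₀` -/
def low (H : Finset K) (c₀ : K → F) : KK H → F
  | none => 1
  | some x => c₀ x

theorem lft_low : lft H c₀ (low H c₀) = c₀ := by
  funext x
  by_cases hx : x ∈ H
  · rw [lft_mem hx, low, one_mul]
  · rw [lft_some hx, low]

theorem isRel_sum_mem (hc : IsRel v c₀) : ∑ y ∈ H, c₀ y • v y ∈ sp F v Hᶜ := by
  have h1 : ∑ y ∈ H, c₀ y • v y = - ∑ y ∈ Hᶜ, c₀ y • v y := by
    rw [eq_neg_iff_add_eq_zero, Finset.sum_add_sum_compl]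
    exact hc
  rw [h1]
  exact Submodule.neg_mem _ (Submodule.sum_mem _ fun y hy => Submodule.smul_mem _ _ (mem_sp hy))

theorem sum_mem_sp (X : Finset K) (c : K → F) : ∑ y ∈ X, c y • v y ∈ sp F v X :=
  Submodule.sum_mem _ fun _ hy => Submodule.smul_mem _ _ (mem_sp hy)

/-- generic relations avoid all proper subspaces which matter -/
theorem avoid [Infinite F] (H : Finset K) (P : Submodule F (K → F))
    (hP : ∀ c, IsRel v c → (∀ X, X ⊆ Hᶜ → ∑ y ∈ H, c y • v y ∈ sp F v X →
      sp F v H ⊓ sp F v Hᶜ ≤ sp F v X) → c ∈ P) {c : K → F} (hc : IsRel v c) : c ∈ P := by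
  classical
  let ι := Option {X : Finset K // X ⊆ Hᶜ ∧ ¬ sp F v H ⊓ sp F v Hᶜ ≤ sp F v X}
  let φ : (K → F) →ₗ[F] V := ∑ y ∈ H, (LinearMap.proj y : (K → F) →ₗ[F] F).smulRight (v y)
  have hφ : ∀ c, φ c = ∑ y ∈ H, c y • v y := by
    intro c
    simp [φ]
  let p : ι → Submodule F (rel F v) := fun i =>
    match i with
    | none => P.comap (rel F v).subtype
    | some X => (sp F v (X : Finset K)).comap (φ.comp (rel F v).subtype)
  have hcov : ⋃ i, (p i : Set (rel F v)) = Set.univ := by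
    rw [Set.eq_univ_iff_forall]
    rintro ⟨c, hc⟩
    rw [Set.mem_iUnion]
    by_cases hg : ∀ X, X ⊆ Hᶜ → ∑ y ∈ H, c y • v y ∈ sp F v X → sp F v H ⊓ sp F v Hᶜ ≤ sp F v X
    · exact ⟨none, hP c (mem_rel_iff.1 hc) hg⟩
    · push Not at hg
      obtain ⟨X, h1, h2, h3⟩ := hg
      refine ⟨some ⟨X, h1, h3⟩, ?_⟩
      change φ c ∈ sp F v X
      rw [hφ]
      exact h2
  obtain ⟨i, hi⟩ := Subspace.exists_eq_top_of_iUnion_eq_univ hcov
  rcases i with _ | X
  · have : (⟨c, mem_rel_iff.2 hc⟩ : rel F v) ∈ p none := by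
      rw [hi]
      exact Submodule.mem_top
    exact this
  · exfalso
    apply X.2.2
    rintro z ⟨hz1, hz2⟩
    obtain ⟨l, hl, hlz⟩ := mem_sp_iff.1 hz1
    obtain ⟨l', hl', hlz'⟩ := mem_sp_iff.1 hz2
    have h1 : IsRel v (l - l') := by
      rw [IsRel]
      simp only [Pi.sub_apply, sub_smul, Finset.sum_sub_distrib]
      rw [hlz, hlz', sub_self]
    have h2 : (⟨l - l', mem_rel_iff.2 h1⟩ : rel F v) ∈ p (some X) := by
      rw [hi]
      exact Submodule.mem_top
    have h3 : φ (l - l') ∈ sp F v (X : Finset K) := h2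
    rw [hφ] at h3
    have h4 : ∑ y ∈ H, (l - l') y • v y = z := by
      rw [← hlz, ← Finset.sum_subset (Finset.subset_univ H)]
      · refine Finset.sum_congr rfl fun y hy => ?_
        rw [Pi.sub_apply, hl' y (fun h => Finset.mem_compl.1 h hy), sub_zero]
      · intro y _ hy
        rw [hl y hy, zero_smul]
    rwa [h4] at h3

theorem card_KK (H : Finset K) : Fintype.card (KK H) + H.card = Fintype.card K + 1 := by
  rw [Fintype.card_option, Fintype.card_subtype]
  have h1 : (univ.filter fun x => x ∉ H) = Hᶜ := by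
    ext x
    simp
  rw [h1, add_right_comm, Finset.card_compl_add_card]

/-- the space of all relations where the quadratic form of `T` vanishes -/
def Cf.ker (h : Cf v e w) {T : Finset K} (hT : T ∈ clss F v e) : Submodule F (K → F) where
  carrier := {c | IsRel v c ∧ gS w T c c = 0}
  add_mem' := by
    rintro a b ⟨ha, ha'⟩ ⟨hb, hb'⟩
    refine ⟨ha.add hb, ?_⟩
    have h1 := h.polar hT a b ha hb
    rw [gS_add_left, gS_add_right, gS_add_right, ha', hb', zero_add, add_zero, h1]
  zero_mem' := by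
    refine ⟨?_, ?_⟩
    · simp [IsRel]
    · simp [gS]
  smul_mem' := by
    rintro s a ⟨ha, ha'⟩
    refine ⟨ha.smul s, ?_⟩
    rw [gS_smul_left, gS_smul_right, ha', mul_zero, mul_zero]

end Pool.Agent.MP_d4f4ab_ag.W.H

namespace Pool.Agent.MP_d4f4ab_ag.W.H

/-- **Section 11**: the theorem for configurations of rank two -/
theorem Cf.main {F : Type*} [Field F] [Infinite F] {V : Type*} [AddCommGroup V] [Module F V]
    [FiniteDimensional F V] {e : ℕ} (n : ℕ) : ∀ (K : Type*) [Fintype K] [DecidableEq K]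
    (v : K → V) (w : K → K → F), Fintype.card K = n → Cf v e w → ∀ T ∈ clss F v e,
      ∀ c, IsRel v c → gS w T c c = 0 := by
  induction n using Nat.strong_induction_on with
  | _ n ih =>
    intro K _ _ v w hn h T hT c hc
    by_cases hs : ∀ S ∈ clss F v e, S.card = 1
    · exact h.simple hs hT c c hc hc
    push Not at hs
    obtain ⟨H, hH, hH1⟩ := hs
    have hH2 : 2 ≤ H.card := by
      have := Finset.card_pos.2 (h.nonempty (mem_clss.1 hH).2)
      omega
    have hlt : Fintype.card (KK H) < n := by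
      have := card_KK H
      omega
    suffices h1 : c ∈ h.ker hT from h1.2
    refine avoid H _ ?_ hc
    intro c₀ hc₀ hgen
    refine ⟨hc₀, ?_⟩
    have h2 := isRel_sum_mem (H := H) hc₀
    have h3 := sum_mem_sp (v := v) H c₀
    have h4 := h.red hH h2 hgen h3
    have h5 : IsRel (vv v H c₀) (low H c₀) := by
      rw [← isRel_lft, lft_low]
      exact hc₀
    by_cases hTH : T = H
    · subst hTH
      have h6 := ih _ hlt (KK T) _ _ rfl h4 _ (h.none_mem hH h2) _ h5
      rw [gS_none (h.cls T (mem_clss.1 hH).2), lft_low] at h6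
      exact h6
    · have h6 := ih _ hlt (KK H) _ _ rfl h4 _ (h.up_mem hH h2 hgen hT hTH h3) _ h5
      rw [gS_up (h.rk_pair hH hT hTH).1, lft_low] at h6
      exact h6

end Pool.Agent.MP_d4f4ab_ag.W.H
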