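import Pool.Agent.MP_d4f4ab_ag.W.H10

/-! [WR-H11] section 11 (characteristic 2): the theorem in the form used in section 10. -/

set_option linter.unusedSectionVars false

open Finset

namespace Pool.Agent.MP_d4f4ab_ag.W.H

variable {F : Type*} [Field F] {K : Type*} [Fintype K] [DecidableEq K]
  {V : Type*} [AddCommGroup V] [Module F V] [FiniteDimensional F V] {v : K → V}
  {e : ℕ} {G : Finset K}

/-- the vectors outside `G` -/
def vr (v : K → V) (G : Finset K) : {y : K // y ∉ G} → V := fun y => v y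

/-- subsets of the complement of `G` as subsets of `K` -/
def lf (S : Finset {y : K // y ∉ G}) : Finset K := S.map (Function.Embedding.subtype _)

theorem mem_lf {S : Finset {y : K // y ∉ G}} {x : {y : K // y ∉ G}} :
    (x : K) ∈ lf S ↔ x ∈ S := by
  rw [lf, Finset.mem_map]
  constructor
  · rintro ⟨y, hy, hyx⟩
    have : y = x := Subtype.ext hyx
    rwa [← this]
  · intro h
    exact ⟨x, h, rfl⟩

theorem lf_subset (S : Finset {y : K // y ∉ G}) : lf S ⊆ Gᶜ := by
  intro x hx
  rw [lf, Finset.mem_map] at hx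
  obtain ⟨y, -, rfl⟩ := hx
  exact Finset.mem_compl.2 y.2

theorem card_lf (S : Finset {y : K // y ∉ G}) : (lf S).card = S.card := Finset.card_map _

theorem lf_compl (S : Finset {y : K // y ∉ G}) : lf Sᶜ = Gᶜ \ lf S := by
  ext x
  by_cases hx : x ∉ G
  · have h1 := mem_lf (S := Sᶜ) (x := ⟨x, hx⟩)
    have h2 := mem_lf (S := S) (x := ⟨x, hx⟩)
    simp only at h1 h2
    rw [h1, Finset.mem_sdiff, h2, Finset.mem_compl, Finset.mem_compl]
    tauto
  · constructor
    · intro h
      exact absurd (Finset.mem_compl.1 (lf_subset _ h)) hx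
    · intro h
      exact absurd (Finset.mem_compl.1 (Finset.mem_sdiff.1 h).1) hx

theorem lf_univ : lf (univ : Finset {y : K // y ∉ G}) = Gᶜ := by
  have h1 := lf_compl (∅ : Finset {y : K // y ∉ G})
  rw [Finset.compl_empty] at h1
  rw [h1, lf, Finset.map_empty, Finset.sdiff_empty]

theorem sp_vr (S : Finset {y : K // y ∉ G}) : sp F (vr v G) S = sp F v (lf S) := by
  rw [sp, sp]
  congr 1
  ext z
  simp only [Set.mem_image, Finset.mem_coe, vr, lf, Finset.mem_map]
  constructor
  · rintro ⟨x, hx, rfl⟩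
    exact ⟨x, ⟨x, hx, rfl⟩, rfl⟩
  · rintro ⟨_, ⟨x, hx, rfl⟩, rfl⟩
    exact ⟨x, hx, rfl⟩

theorem rk_vr (S : Finset {y : K // y ∉ G}) : rk F (vr v G) S = rk F v (lf S) := by
  rw [rk_eq, rk_eq, sp_vr]

theorem nn_vr (S : Finset {y : K // y ∉ G}) :
    nn (rel F (vr v G)) e S = nn (rel F v) e (lf S ∪ G) - nn (rel F v) e G := by
  rw [nn_union_sub (lf_subset S), nn_eq, rk_vr, rk_vr, lf_univ, lf_compl, card_lf]

/-- restriction of subsets -/
theorem lf_sub {X : Finset K} (hX : G ⊆ X) :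
    lf (X.subtype (fun y => y ∉ G)) ∪ G = X := by
  ext x
  rw [Finset.mem_union, lf, Finset.subtype_map, Finset.mem_filter]
  constructor
  · rintro (h | h)
    · exact h.1
    · exact hX h
  · intro h
    by_cases hx : x ∈ G
    · exact Or.inr hx
    · exact Or.inl ⟨h, hx⟩

theorem isFlat_vr {S : Finset {y : K // y ∉ G}} (hS : IsFlat (rel F (vr v G)) e S)
    : IsFlat (rel F v) e (lf S ∪ G) := by
  intro X hX
  have h1 : G ⊆ X := Finset.subset_union_right.trans hX.1
  have h2 := hS (X.subtype (fun y => y ∉ G)) (by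
    rw [Finset.ssubset_iff_subset_ne]
    constructor
    · intro x hx
      rw [Finset.mem_subtype]
      exact hX.1 (Finset.mem_union_left _ (mem_lf.2 hx))
    · intro h2
      apply hX.ne
      rw [h2, lf_sub h1])
  rw [nn_vr, nn_vr, lf_sub h1] at h2
  linarith

theorem isFlat_vr' {H : Finset K} (hH : IsFlat (rel F v) e H) (hGH : G ⊆ H) :
    IsFlat (rel F (vr v G)) e (H.subtype (fun y => y ∉ G)) := by
  intro X hX
  rw [nn_vr, nn_vr, lf_sub hGH]
  have h1 : H ⊂ lf X ∪ G := by
    rw [Finset.ssubset_iff_subset_ne]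
    constructor
    · intro x hx
      by_cases hxG : x ∈ G
      · exact Finset.mem_union_right _ hxG
      · apply Finset.mem_union_left
        have : (⟨x, hxG⟩ : {y : K // y ∉ G}) ∈ X := hX.1 (by
          rw [Finset.mem_subtype]
          exact hx)
        exact mem_lf.2 this
    · intro h
      apply hX.2
      intro x hx
      rw [Finset.mem_subtype, h]
      exact Finset.mem_union_left _ (mem_lf.2 hx)
  have h2 := hH _ h1
  linarith

/-- extension by zero -/
def ex (G : Finset K) (c : {y : K // y ∉ G} → F) : K → F :=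
  fun x => if h : x ∉ G then c ⟨x, h⟩ else 0

theorem ex_val (c : {y : K // y ∉ G} → F) (x : {y : K // y ∉ G}) : ex G c x = c x := by
  rw [ex, dif_pos x.2]

theorem ex_mem (c : {y : K // y ∉ G} → F) {x : K} (hx : x ∈ G) : ex G c x = 0 := by
  rw [ex, dif_neg (not_not.2 hx)]

theorem sum_ex {A : Type*} [AddCommGroup A] [Module F A] (c : K → F) (hc : ∀ x ∈ G, c x = 0)
    (f : K → A) : ∑ x, c x • f x = ∑ x : {y : K // y ∉ G}, c x • f x := by
  rw [sum_split G]
  have h1 : ∑ x ∈ G, c x • f x = 0 :=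
    Finset.sum_eq_zero fun x hx => by rw [hc x hx, zero_smul]
  rw [h1, zero_add]

theorem sum_ex' (c : K → F) (hc : ∀ x ∈ G, c x = 0)
    (f : K → F) : ∑ x, c x * f x = ∑ x : {y : K // y ∉ G}, c x * f x :=
  sum_ex c hc f

theorem isRel_ex {c : {y : K // y ∉ G} → F} (hc : IsRel (vr v G) c) : IsRel v (ex G c) := by
  rw [IsRel, sum_ex _ (fun x hx => ex_mem c hx)]
  rw [IsRel] at hc
  rw [← hc]
  exact Finset.sum_congr rfl fun x _ => by rw [ex_val, vr]

theorem isRel_vr {c : K → F} (hc : IsRel v c) (h0 : ∀ x ∈ G, c x = 0) :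
    IsRel (vr v G) (fun x => c x) := by
  rw [IsRel, sum_ex _ h0] at hc
  exact hc

theorem linInd_vr (S : Finset {y : K // y ∉ G})
    (h : LinearIndepOn F (vr v G) (S : Set {y : K // y ∉ G})) :
    LinearIndepOn F v (lf S : Set K) := by
  rw [← rk_eq_card_iff] at h ⊢
  rw [card_lf, ← h, rk_vr]

section

variable {w : List K → F} {n : ℕ}

/-- the configuration outside of `G = cl Z` -/
theorem cf_of {Z : List K} (hd : Dense (rel F v) e) (hn : nn (rel F v) e univ = n) (halt : Alt w)
    (hind : ∀ Z, ¬ Ind (rel F v) e Z → w Z = 0)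
    (hone : ∀ Z, Ind (rel F v) e Z → Z.length + 1 = n →
      ∀ c ∈ van (rel F v) (cl (rel F v) e Z.toFinset), ∑ y, c y * w (y :: Z) = 0)
    (hb : ∀ Z : List K, Ind (rel F v) e Z → Z.length + 2 = n → ∀ (R : Finset K)
      (Q : K → Fin (e - 1)), R ⊆ (cl (rel F v) e Z.toFinset)ᶜ →
      rk F v R = rk F v (cl (rel F v) e Z.toFinset)ᶜ →
      (∀ i, LinearIndepOn F v
        ((((cl (rel F v) e Z.toFinset)ᶜ \ R).filter fun y => Q y = i : Finset K) : Set K)) →
      (∀ i, (((cl (rel F v) e Z.toFinset)ᶜ \ R).filter fun y => Q y = i).card =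
        rk F v (cl (rel F v) e Z.toFinset)ᶜ) →
      ∀ c ∈ rel F v, ∀ c' ∈ rel F v, (∀ y, y ∉ R → c y = 0) → (∀ y, y ∉ R → c' y = 0) →
        ∑ x, ∑ y, c x * c' y * w (x :: y :: Z) = 0)
    (hZ : Ind (rel F v) e Z) (hlen : Z.length + 2 = n) :
    Cf (vr v (cl (rel F v) e Z.toFinset)) e
      (fun x y : {y : K // y ∉ cl (rel F v) e Z.toFinset} => w (x :: y :: Z)) := by
  set G := cl (rel F v) e Z.toFinset with hGdef
  have hGf : IsFlat (rel F v) e G := isFlat_cl _
  have hGn : nn (rel F v) e G = Z.length := hZ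
  have hsub : ∀ S : Finset {y : K // y ∉ G}, S.Nonempty → ¬ lf S ⊆ G := by
    rintro S ⟨x, hx⟩ h
    exact x.2 (h (mem_lf.2 hx))
  have hcls : ∀ S, nn (rel F (vr v G)) e S = 1 → ∀ x ∈ S, ∀ y ∈ S,
      w ((x : K) :: (y : K) :: Z) = 0 := by
    intro S hS x hx y hy
    apply hind
    intro hI
    rw [nn_vr, hGn] at hS
    have h1 : ((x : K) :: (y : K) :: Z).toFinset ⊆ lf S ∪ G := by
      intro z hz
      rw [List.mem_toFinset, List.mem_cons, List.mem_cons] at hz
      rcases hz with rfl | rfl | hz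
      · exact Finset.mem_union_left _ (mem_lf.2 hx)
      · exact Finset.mem_union_left _ (mem_lf.2 hy)
      · exact Finset.mem_union_right _ (subset_cl _ (List.mem_toFinset.2 hz))
    have h2 := nn_cl_le (L := rel F v) (e := e) h1
    have h3 : nn (rel F v) e (cl (rel F v) e ((x : K) :: (y : K) :: Z).toFinset) =
        (((x : K) :: (y : K) :: Z).length : ℤ) := hI
    rw [h3, List.length_cons, List.length_cons] at h2
    push_cast at h2
    linarith
  refine ⟨⟨hd.two_le, ?_⟩, ?_, ⟨?_, ?_⟩, hcls, ?_, ?_⟩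
  · intro S hS
    rw [nn_vr, Finset.union_comm]
    have := hGf.nn_union (hsub S hS)
    linarith
  · rw [nn_vr, lf_univ, Finset.union_comm, Finset.union_compl, hn, hGn, ← hlen]
    push_cast
    ring
  · intro x y
    exact halt.swap [] _ _ _
  · intro x
    exact halt.same [] _ _
  · intro S hS h1 y hy c hc h0
    have hyZ : Ind (rel F v) e ((y : K) :: Z) := ind_cons.2 ⟨hZ, y.2⟩
    have h2 : cl (rel F v) e ((y : K) :: Z).toFinset ⊆ lf S ∪ G := by
      apply cl_subset _ (isFlat_vr hS)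
      intro z hz
      rw [List.mem_toFinset, List.mem_cons] at hz
      rcases hz with rfl | hz
      · exact Finset.mem_union_left _ (mem_lf.2 hy)
      · exact Finset.mem_union_right _ (subset_cl _ (List.mem_toFinset.2 hz))
    have h3 : ex G c ∈ van (rel F v) (cl (rel F v) e ((y : K) :: Z).toFinset) := by
      refine ⟨mem_rel_iff.2 (isRel_ex hc), ?_⟩
      intro z hz
      rcases Finset.mem_union.1 (h2 hz) with h4 | h4
      · have h5 := Finset.mem_compl.1 (lf_subset _ h4)
        have h6 : (⟨z, h5⟩ : {y : K // y ∉ G}) ∈ S := mem_lf.1 h4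
        rw [ex, dif_pos h5, h0 _ h6]
      · exact ex_mem c h4
    have h4 := hone _ hyZ (by rw [List.length_cons]; omega) _ h3
    rw [sum_ex' _ (fun x hx => ex_mem c hx)] at h4
    rw [← h4]
    exact Finset.sum_congr rfl fun x _ => by rw [ex_val]
  · intro R Q hR hQ hQc c c' hc hc' hcR hcR'
    have hru : rk F (vr v G) univ = rk F v Gᶜ := by rw [rk_vr, lf_univ]
    rw [hru] at hR hQc
    have he := hd.two_le
    let Q₂ : K → Fin (e - 1) := fun x => if h : x ∉ G then Q ⟨x, h⟩ else ⟨0, by omega⟩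
    have hQ₂ : ∀ i, (Gᶜ \ lf R).filter (fun y => Q₂ y = i) = lf (Rᶜ.filter fun y => Q y = i) := by
      intro i
      ext x
      rw [← lf_compl, Finset.mem_filter]
      by_cases hx : x ∉ G
      · have h1 := mem_lf (S := Rᶜ) (x := ⟨x, hx⟩)
        have h2 := mem_lf (S := Rᶜ.filter fun y => Q y = i) (x := ⟨x, hx⟩)
        have h3 : Q₂ x = Q ⟨x, hx⟩ := dif_pos hx
        rw [h3, h1, h2, Finset.mem_filter]
      · constructor
        · intro h
          exact absurd (Finset.mem_compl.1 (lf_subset _ h.1)) hx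
        · intro h
          exact absurd (Finset.mem_compl.1 (lf_subset _ h)) hx
    have h1 := hb Z hZ hlen (lf R) Q₂ (lf_subset R) (by rw [← rk_vr, hR])
      (fun i => by
        rw [hQ₂]
        exact linInd_vr _ (hQ i))
      (fun i => by rw [hQ₂, card_lf, hQc])
      (ex G c) (mem_rel_iff.2 (isRel_ex hc)) (ex G c') (mem_rel_iff.2 (isRel_ex hc'))
      (fun y hy => by
        by_cases hyG : y ∉ G
        · rw [ex, dif_pos hyG]
          exact hcR _ fun h => hy (mem_lf.2 h)
        · rw [ex, dif_neg hyG])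
      (fun y hy => by
        by_cases hyG : y ∉ G
        · rw [ex, dif_pos hyG]
          exact hcR' _ fun h => hy (mem_lf.2 h)
        · rw [ex, dif_neg hyG])
    have h2 : ∑ x, ∑ y, ex G c x * ex G c' y * w (x :: y :: Z) =
        ∑ x, ex G c x * ∑ y, ex G c' y * w (x :: y :: Z) := by
      refine Finset.sum_congr rfl fun x _ => ?_
      rw [Finset.mul_sum]
      exact Finset.sum_congr rfl fun y _ => by ring
    rw [h2, sum_ex' _ (fun x hx => ex_mem c hx)] at h1
    rw [← h1, PP]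
    refine Finset.sum_congr rfl fun x _ => ?_
    rw [sum_ex' _ (fun x hx => ex_mem c' hx), Finset.mul_sum]
    refine Finset.sum_congr rfl fun y _ => ?_
    rw [ex_val, ex_val]
    ring

/-- **section 11** in the form used in section 10 -/
theorem two_of_b [Infinite F] (hd : Dense (rel F v) e) (hn : nn (rel F v) e univ = n)
    (halt : Alt w) (hind : ∀ Z, ¬ Ind (rel F v) e Z → w Z = 0)
    (hone : ∀ Z, Ind (rel F v) e Z → Z.length + 1 = n →
      ∀ c ∈ van (rel F v) (cl (rel F v) e Z.toFinset), ∑ y, c y * w (y :: Z) = 0)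
    (hb : ∀ Z : List K, Ind (rel F v) e Z → Z.length + 2 = n → ∀ (R : Finset K)
      (Q : K → Fin (e - 1)), R ⊆ (cl (rel F v) e Z.toFinset)ᶜ →
      rk F v R = rk F v (cl (rel F v) e Z.toFinset)ᶜ →
      (∀ i, LinearIndepOn F v
        ((((cl (rel F v) e Z.toFinset)ᶜ \ R).filter fun y => Q y = i : Finset K) : Set K)) →
      (∀ i, (((cl (rel F v) e Z.toFinset)ᶜ \ R).filter fun y => Q y = i).card =
        rk F v (cl (rel F v) e Z.toFinset)ᶜ) →
      ∀ c ∈ rel F v, ∀ c' ∈ rel F v, (∀ y, y ∉ R → c y = 0) → (∀ y, y ∉ R → c' y = 0) →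
        ∑ x, ∑ y, c x * c' y * w (x :: y :: Z) = 0)
    (Z : List K) (hZ : Ind (rel F v) e Z) (hlen : Z.length + 2 = n) (H : Finset K)
    (hH : IsFlat (rel F v) e H) (hG : cl (rel F v) e Z.toFinset ⊂ H)
    (hn' : nn (rel F v) e H = Z.length + 1) (c : K → F)
    (hc : c ∈ van (rel F v) (cl (rel F v) e Z.toFinset)) :
    ∑ y ∈ H, ∑ x, c x * c y * w (x :: y :: Z) = 0 := by
  have h := cf_of hd hn halt hind hone hb hZ hlen
  set G := cl (rel F v) e Z.toFinset with hGdef
  have h1 : H.subtype (fun y => y ∉ G) ∈ clss F (vr v G) e := by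
    rw [mem_clss]
    refine ⟨isFlat_vr' hH hG.1, ?_⟩
    rw [nn_vr, lf_sub hG.1, hn']
    have h2 : nn (rel F v) e G = Z.length := hZ
    rw [h2]
    ring
  have h2 := Cf.main _ _ _ _ rfl h _ h1 (fun x => c x) (isRel_vr (mem_rel_iff.1 hc.1) hc.2)
  rw [gS_eq] at h2
  rw [← h2]
  have h3 : ∑ y ∈ H, ∑ x, c x * c y * w (x :: y :: Z) =
      ∑ y, c y * (if y ∈ H then ∑ x, c x * w (x :: y :: Z) else 0) := by
    rw [← Finset.univ_inter H, ← Finset.sum_ite_mem]
    refine Finset.sum_congr rfl fun y _ => ?_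
    rw [Finset.univ_inter, mul_ite, mul_zero, Finset.mul_sum]
    refine if_congr Iff.rfl ?_ rfl
    exact Finset.sum_congr rfl fun x _ => by ring
  rw [h3, sum_ex' _ hc.2]
  have h4 : ∀ f : {y : K // y ∉ G} → F, ∑ y ∈ H.subtype (fun y => y ∉ G), f y =
      ∑ y, if y ∈ H.subtype (fun y => y ∉ G) then f y else 0 := by
    intro f
    rw [Finset.sum_ite_mem, Finset.univ_inter]
  rw [h4]
  refine Finset.sum_congr rfl fun y _ => ?_
  simp only [Finset.mem_subtype, mul_ite, mul_zero]
  refine if_congr Iff.rfl ?_ rfl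
  rw [sum_ex' _ hc.2]

end

end Pool.Agent.MP_d4f4ab_ag.W.H
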