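import Pool.Agent.MP_d4f4ab_ag.W.H1

/-! [WR-H2] section 11.1 (characteristic 2): alternating forms on the relations and exchanges. -/

set_option linter.unusedSectionVars false

open Finset

namespace Pool.Agent.MP_d4f4ab_ag.W.H

variable {F : Type*} [Field F] {K : Type*} [Fintype K] [DecidableEq K]
  {V : Type*} [AddCommGroup V] [Module F V]

/-- linear relations -/
def IsRel (v : K → V) (c : K → F) : Prop := ∑ x, c x • v x = 0

/-- supported in `R` -/
def Supp (c : K → F) (R : Finset K) : Prop := ∀ y, y ∉ R → c y = 0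

/-- the bilinear form with matrix `w` -/
def PP (w : K → K → F) (c c' : K → F) : F := ∑ x, ∑ y, c x * c' y * w x y

/-- alternating matrices -/
structure AltM (w : K → K → F) : Prop where
  swap : ∀ x y, w x y = - w y x
  same : ∀ x, w x x = 0

variable {v : K → V} {w : K → K → F}

theorem IsRel.add {a b : K → F} (ha : IsRel v a) (hb : IsRel v b) : IsRel v (a + b) := by
  rw [IsRel] at *
  simp only [Pi.add_apply, add_smul, Finset.sum_add_distrib, ha, hb, add_zero]

theorem IsRel.smul {a : K → F} (s : F) (ha : IsRel v a) : IsRel v (s • a) := by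
  rw [IsRel] at *
  simp only [Pi.smul_apply, smul_eq_mul, mul_smul, ← Finset.smul_sum, ha, smul_zero]

theorem IsRel.sub {a b : K → F} (ha : IsRel v a) (hb : IsRel v b) : IsRel v (a - b) := by
  rw [IsRel] at *
  simp only [Pi.sub_apply, sub_smul, Finset.sum_sub_distrib, ha, hb, sub_zero]

theorem Supp.mono {c : K → F} {R S : Finset K} (h : Supp c R) (hRS : R ⊆ S) : Supp c S :=
  fun y hy => h y fun h' => hy (hRS h')

theorem Supp.add {a b : K → F} {R : Finset K} (ha : Supp a R) (hb : Supp b R) : Supp (a + b) R :=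
  fun y hy => by rw [Pi.add_apply, ha y hy, hb y hy, add_zero]

theorem Supp.sub {a b : K → F} {R : Finset K} (ha : Supp a R) (hb : Supp b R) : Supp (a - b) R :=
  fun y hy => by rw [Pi.sub_apply, ha y hy, hb y hy, sub_zero]

theorem Supp.smul {a : K → F} {R : Finset K} (s : F) (ha : Supp a R) : Supp (s • a) R :=
  fun y hy => by rw [Pi.smul_apply, ha y hy, smul_zero]

theorem PP_add_left (a b c : K → F) : PP w (a + b) c = PP w a c + PP w b c := by
  simp only [PP, Pi.add_apply, add_mul, Finset.sum_add_distrib]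

theorem PP_add_right (a b c : K → F) : PP w a (b + c) = PP w a b + PP w a c := by
  simp only [PP, Pi.add_apply, mul_add, add_mul, Finset.sum_add_distrib]

theorem PP_sub_left (a b c : K → F) : PP w (a - b) c = PP w a c - PP w b c := by
  simp only [PP, Pi.sub_apply, sub_mul, Finset.sum_sub_distrib]

theorem PP_sub_right (a b c : K → F) : PP w a (b - c) = PP w a b - PP w a c := by
  simp only [PP, Pi.sub_apply, mul_sub, sub_mul, Finset.sum_sub_distrib]

theorem PP_smul_left (s : F) (a b : K → F) : PP w (s • a) b = s * PP w a b := by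
  simp only [PP, Pi.smul_apply, smul_eq_mul, Finset.mul_sum, mul_assoc]

theorem PP_smul_right (s : F) (a b : K → F) : PP w a (s • b) = s * PP w a b := by
  simp only [PP, Pi.smul_apply, smul_eq_mul, Finset.mul_sum]
  refine Finset.sum_congr rfl fun x _ => Finset.sum_congr rfl fun y _ => by ring

theorem PP_swap (hw : AltM w) (a b : K → F) : PP w b a = - PP w a b := by
  rw [PP, PP, Finset.sum_comm, ← Finset.sum_neg_distrib]
  refine Finset.sum_congr rfl fun x _ => ?_
  rw [← Finset.sum_neg_distrib]
  refine Finset.sum_congr rfl fun y _ => ?_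
  rw [hw.swap y x]
  ring

theorem PP_self (hw : AltM w) (a : K → F) : PP w a a = 0 := by
  rw [PP, ← Finset.sum_product']
  refine Finset.sum_involution (fun p _ => (p.2, p.1)) ?_ ?_ ?_ ?_
  · intro p _
    simp only
    rw [hw.swap p.2 p.1]
    ring
  · intro p _ hp h
    apply hp
    have : p.2 = p.1 := congrArg Prod.fst h
    rw [this, hw.same, mul_zero]
  · intro p _
    simp
  · intro p _
    rfl

theorem rel_mem {φ : K → F} (h : IsRel v φ) {S : Finset K} {y : K} (hs : Supp φ (insert y S))
    (hyS : y ∉ S) (hy : φ y ≠ 0) : v y ∈ sp F v S := by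
  have h1 : ∑ x, φ x • v x = φ y • v y + ∑ x ∈ S, φ x • v x := by
    rw [← Finset.sum_insert (f := fun x => φ x • v x) hyS]
    symm
    apply Finset.sum_subset (Finset.subset_univ _)
    intro x _ hx
    rw [hs x hx, zero_smul]
  rw [IsRel, h1] at h
  have h2 : v y = -(φ y)⁻¹ • ∑ x ∈ S, φ x • v x := by
    have h3 : ∑ x ∈ S, φ x • v x = - (φ y • v y) := by
      rw [eq_neg_iff_add_eq_zero, add_comm]
      exact h
    rw [h3, smul_neg, neg_smul, neg_neg, smul_smul, inv_mul_cancel₀ hy, one_smul]
  rw [h2]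
  exact Submodule.smul_mem _ _ (Submodule.sum_mem _ fun x hx =>
    Submodule.smul_mem _ _ (mem_sp hx))

theorem mem_rel {S : Finset K} {x : K} (hx : v x ∈ sp F v S) (hxS : x ∉ S) :
    ∃ c : K → F, IsRel v c ∧ Supp c (insert x S) ∧ c x = 1 := by
  rw [sp, Submodule.mem_span_image_finset_iff_exists_fun'] at hx
  obtain ⟨c, hc⟩ := hx
  refine ⟨fun y => if y = x then 1 else if y ∈ S then - c y else 0, ?_, ?_, by simp⟩
  · rw [IsRel, ← Finset.sum_subset (Finset.subset_univ (insert x S)), Finset.sum_insert hxS, ← hc]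
    · simp only [if_true, one_smul]
      rw [← Finset.sum_add_distrib]
      refine Finset.sum_eq_zero fun y hy => ?_
      have hne : y ≠ x := fun h => hxS (h ▸ hy)
      rw [if_neg hne, if_pos hy, neg_smul, add_neg_cancel]
    · intro y _ hy
      rw [Finset.mem_insert, not_or] at hy
      rw [if_neg hy.1, if_neg hy.2, zero_smul]
  · intro y hy
    rw [Finset.mem_insert, not_or] at hy
    simp only
    rw [if_neg hy.1, if_neg hy.2]

/-- the sets `R` with `|R| = k + 2`, spanning, on which the form does not vanish -/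
structure SS (v : K → V) (w : K → K → F) (k : ℕ) (R : Finset K) : Prop where
  card : R.card = k + 2
  rnk : rk F v R = k
  ne : ∃ a b : K → F, IsRel v a ∧ IsRel v b ∧ Supp a R ∧ Supp b R ∧ PP w a b ≠ 0

theorem SS.sp_eq {k : ℕ} (hk : rk F v (univ : Finset K) = k) {R : Finset K} (h : rk F v R = k) :
    sp F v R = sp F v univ :=
  sp_eq_of_rk_le (Finset.subset_univ R) (by rw [hk, h])

/-- (#) -/
theorem SS.sharp (hw : AltM w) {k : ℕ} (hk : rk F v (univ : Finset K) = k) {R : Finset K}
    (hR : SS v w k R) {x : K} (hx : x ∉ R) : ∃ φ : K → F, IsRel v φ ∧ Supp φ (insert x R) ∧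
      φ x ≠ 0 ∧ ∀ y ∈ R, φ y ≠ 0 → SS v w k (insert x (R.erase y)) := by
  obtain ⟨a, b, ha, hb, hsa, hsb, hab⟩ := hR.ne
  have hvx : v x ∈ sp F v R := by
    rw [SS.sp_eq hk hR.rnk]
    exact mem_sp (Finset.mem_univ x)
  obtain ⟨c, hc, hsc, hcx⟩ := mem_rel hvx hx
  set t := PP w a b with ht
  have haa := PP_self hw a
  have hbb := PP_self hw b
  have hba := PP_swap hw a b
  set φ : K → F := c + (-(PP w c b / t)) • a + (PP w c a / t) • b with hφ
  have hφr : IsRel v φ := (hc.add (ha.smul _)).add (hb.smul _)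
  have hφs : Supp φ (insert x R) :=
    (hsc.add ((hsa.mono (Finset.subset_insert _ _)).smul _)).add
      ((hsb.mono (Finset.subset_insert _ _)).smul _)
  have hφx : φ x = 1 := by
    rw [hφ]
    simp only [Pi.add_apply, Pi.smul_apply, hsa x hx, hsb x hx, hcx, smul_zero, add_zero]
  have h1 : PP w φ a = 0 := by
    rw [hφ, PP_add_left, PP_add_left, PP_smul_left, PP_smul_left, haa, hba, ← ht]
    field_simp
    ring
  have h2 : PP w φ b = 0 := by
    rw [hφ, PP_add_left, PP_add_left, PP_smul_left, PP_smul_left, hbb, ← ht]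
    field_simp
    ring
  have h3 : PP w φ φ = 0 := PP_self hw φ
  have h4 : PP w a φ = 0 := by rw [PP_swap hw φ a, h1, neg_zero]
  refine ⟨φ, hφr, hφs, by rw [hφx]; exact one_ne_zero, fun y hy hφy => ?_⟩
  have hxy : x ≠ y := fun h => hx (h ▸ hy)
  have hsup : ∀ d : K → F, Supp d (insert x R) → d y = 0 → Supp d (insert x (R.erase y)) := by
    intro d hd hdy z hz
    by_cases hzy : z = y
    · rw [hzy, hdy]
    · apply hd z
      intro h
      apply hz
      rw [Finset.mem_insert] at h ⊢
      rcases h with h | h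
      · exact Or.inl h
      · exact Or.inr (Finset.mem_erase.2 ⟨hzy, h⟩)
  refine ⟨?_, ?_, a - (a y / φ y) • φ, b - (b y / φ y) • φ, ha.sub (hφr.smul _),
    hb.sub (hφr.smul _), ?_, ?_, ?_⟩
  · rw [Finset.card_insert_of_notMem (fun h => hx (Finset.mem_of_mem_erase h)),
      Finset.card_erase_of_mem hy, hR.card]
    omega
  · have h5 : sp F v (insert x (R.erase y)) = sp F v univ := by
      refine le_antisymm (sp_mono (Finset.subset_univ _)) ?_
      rw [← SS.sp_eq hk hR.rnk, sp_le]
      intro z hz
      by_cases hzy : z = y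
      · rw [hzy]
        refine rel_mem hφr (S := insert x (R.erase y)) ?_ ?_ hφy
        · apply hφs.mono
          intro u hu
          rw [Finset.mem_insert] at hu
          rcases hu with rfl | hu
          · simp
          · by_cases huy : u = y
            · simp [huy]
            · simp [hu, huy]
        · rw [Finset.mem_insert, not_or]
          exact ⟨fun h => hxy h.symm, by simp⟩
      · exact mem_sp (Finset.mem_insert_of_mem (Finset.mem_erase.2 ⟨hzy, hz⟩))
    rw [rk_eq, h5, ← hk, rk_eq]
  · apply hsup _ ((hsa.mono (Finset.subset_insert _ _)).sub (hφs.smul _))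
    rw [Pi.sub_apply, Pi.smul_apply, smul_eq_mul, div_mul_cancel₀ _ hφy, sub_self]
  · apply hsup _ ((hsb.mono (Finset.subset_insert _ _)).sub (hφs.smul _))
    rw [Pi.sub_apply, Pi.smul_apply, smul_eq_mul, div_mul_cancel₀ _ hφy, sub_self]
  · rw [PP_sub_left, PP_sub_right, PP_sub_right, PP_smul_left, PP_smul_left, PP_smul_right,
      PP_smul_right, h3, h4, h2]
    simpa using hab

end Pool.Agent.MP_d4f4ab_ag.W.H
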