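import Pool.Agent.MP_d4f4ab_ag.W.H2

/-! [WR-H3] section 11.1 (characteristic 2): the form vanishes if there are no special classes. -/

set_option linter.unusedSectionVars false

open Finset

namespace Pool.Agent.MP_d4f4ab_ag.W.H

variable {F : Type*} [Field F] {K : Type*} [Fintype K] [DecidableEq K]
  {V : Type*} [AddCommGroup V] [Module F V] {v : K → V} {w : K → K → F}

theorem linIndepOn_iff {B : Finset K} : LinearIndepOn F v (B : Set K) ↔
    ∀ c : K → F, IsRel v c → Supp c B → c = 0 := by
  rw [linearIndepOn_finset_iff]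
  constructor
  · intro h c hc hs
    have h1 : ∑ i ∈ B, c i • v i = 0 := by
      rw [← hc]
      apply Finset.sum_subset (Finset.subset_univ _)
      intro x _ hx
      rw [hs x hx, zero_smul]
    funext x
    by_cases hx : x ∈ B
    · exact h c h1 x hx
    · exact hs x hx
  · intro h f hf i hi
    have h1 := h (fun x => if x ∈ B then f x else 0) (by
      rw [IsRel, ← hf]
      rw [← Finset.sum_subset (Finset.subset_univ B)]
      · exact Finset.sum_congr rfl fun x hx => by rw [if_pos hx]
      · intro x _ hx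
        rw [if_neg hx, zero_smul]) (fun y hy => by simp only; rw [if_neg hy])
    have h2 := congrFun h1 i
    simp only [Pi.zero_apply] at h2
    rwa [if_pos hi] at h2

theorem exists_basis (F : Type*) [Field F] {V : Type*} [AddCommGroup V] [Module F V] (v : K → V) :
    ∃ B : Finset K, sp F v B = sp F v univ ∧
    B.card = rk F v univ ∧ ∀ c : K → F, IsRel v c → Supp c B → c = 0 := by
  classical
  obtain ⟨B, hB, hmin⟩ := Finset.exists_min_image
    ((Finset.univ : Finset (Finset K)).filter fun B => sp F v B = sp F v univ)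
    (fun B => B.card) ⟨univ, by simp⟩
  rw [Finset.mem_filter] at hB
  have h1 : ∀ c : K → F, IsRel v c → Supp c B → c = 0 := by
    intro c hc hs
    by_contra hne
    obtain ⟨y, hy⟩ := Function.ne_iff.1 hne
    have hyB : y ∈ B := by
      by_contra h
      exact hy (hs y h)
    have h2 : v y ∈ sp F v (B.erase y) := by
      refine rel_mem hc ?_ (Finset.notMem_erase _ _) hy
      rw [Finset.insert_erase hyB]
      exact hs
    have h3 : sp F v (B.erase y) = sp F v univ := by
      rw [← sp_insert_of_mem h2, Finset.insert_erase hyB, hB.2]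
    have h4 := hmin (B.erase y) (by simp [h3])
    have h5 := Finset.card_erase_lt_of_mem hyB
    omega
  refine ⟨B, hB.2, ?_, h1⟩
  have h2 : LinearIndepOn F v (B : Set K) := linIndepOn_iff.2 h1
  rw [← (rk_eq_card_iff F v B).2 h2, rk_eq, rk_eq, hB.2]

theorem PP_sum_left {ι : Type*} (s : Finset ι) (f : ι → K → F) (b : K → F) :
    PP w (∑ i ∈ s, f i) b = ∑ i ∈ s, PP w (f i) b := by
  classical
  induction s using Finset.induction_on with
  | empty =>
    simp [PP]
  | insert i s hi ih => rw [Finset.sum_insert hi, Finset.sum_insert hi, PP_add_left, ih]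

theorem PP_sum_right {ι : Type*} (s : Finset ι) (f : ι → K → F) (b : K → F) :
    PP w b (∑ i ∈ s, f i) = ∑ i ∈ s, PP w b (f i) := by
  classical
  induction s using Finset.induction_on with
  | empty =>
    simp [PP]
  | insert i s hi ih => rw [Finset.sum_insert hi, Finset.sum_insert hi, PP_add_right, ih]

theorem IsRel.sum {ι : Type*} (s : Finset ι) (f : ι → K → F) (h : ∀ i ∈ s, IsRel v (f i)) :
    IsRel v (∑ i ∈ s, f i) := by
  classical
  induction s using Finset.induction_on with
  | empty =>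
    simp [IsRel]
  | insert i s hi ih =>
    rw [Finset.sum_insert hi]
    exact (h i (Finset.mem_insert_self _ _)).add (ih fun j hj => h j (Finset.mem_insert_of_mem hj))

theorem exists_SS (hw : AltM w) {k : ℕ} (hk : rk F v (univ : Finset K) = k) {a b : K → F}
    (ha : IsRel v a) (hb : IsRel v b) (hab : PP w a b ≠ 0) : ∃ R, SS v w k R := by
  classical
  obtain ⟨B, hB, hBc, hB0⟩ := exists_basis F v
  have h1 : ∀ z : K, ∃ c : K → F, z ∉ B → IsRel v c ∧ Supp c (insert z B) ∧ c z = 1 := by
    intro z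
    by_cases hz : z ∈ B
    · exact ⟨0, fun h => absurd hz h⟩
    · obtain ⟨c, hc⟩ := mem_rel (v := v) (S := B) (x := z)
        (by rw [hB]; exact mem_sp (Finset.mem_univ z)) hz
      exact ⟨c, fun _ => hc⟩
  choose C hC using h1
  have h2 : ∀ a : K → F, IsRel v a → a = ∑ z ∈ Bᶜ, a z • C z := by
    intro a ha
    rw [← sub_eq_zero]
    apply hB0
    · apply ha.sub
      apply IsRel.sum
      intro z hz
      exact (hC z (Finset.mem_compl.1 hz)).1.smul _
    · intro y hy
      rw [Pi.sub_apply, Finset.sum_apply, Finset.sum_eq_single y]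
      · rw [Pi.smul_apply, (hC y hy).2.2, smul_eq_mul, mul_one, sub_self]
      · intro z hz hzy
        rw [Pi.smul_apply, (hC z (Finset.mem_compl.1 hz)).2.1 y, smul_zero]
        rw [Finset.mem_insert, not_or]
        exact ⟨fun h => hzy h.symm, hy⟩
      · intro h
        exact absurd (Finset.mem_compl.2 hy) h
  rw [h2 a ha, PP_sum_left] at hab
  obtain ⟨z, hz, hz'⟩ := Finset.exists_ne_zero_of_sum_ne_zero hab
  rw [h2 b hb, PP_sum_right] at hz'
  obtain ⟨z', hz1, hz2⟩ := Finset.exists_ne_zero_of_sum_ne_zero hz'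
  rw [PP_smul_left, PP_smul_right] at hz2
  have h3 : PP w (C z) (C z') ≠ 0 := right_ne_zero_of_mul (right_ne_zero_of_mul hz2)
  have hne : z ≠ z' := by
    rintro rfl
    exact h3 (PP_self hw _)
  rw [Finset.mem_compl] at hz hz1
  have h4 : z ∉ insert z' B := by
    rw [Finset.mem_insert, not_or]
    exact ⟨hne, hz⟩
  refine ⟨insert z (insert z' B), ?_, ?_, C z, C z', (hC z hz).1, (hC z' hz1).1, ?_, ?_, h3⟩
  · rw [Finset.card_insert_of_notMem h4, Finset.card_insert_of_notMem hz1, hBc, hk]
  · have h5 : sp F v (insert z (insert z' B)) = sp F v univ :=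
      le_antisymm (sp_mono (Finset.subset_univ _)) (by
        rw [← hB]
        exact sp_mono ((Finset.subset_insert _ _).trans (Finset.subset_insert _ _)))
    rw [rk_eq, h5, ← rk_eq, hk]
  · exact (hC z hz).2.1.mono (Finset.insert_subset_insert _ (Finset.subset_insert _ _))
  · exact (hC z' hz1).2.1.mono (Finset.subset_insert _ _)

/-- the change of `g` under an exchange -/
theorem gg_exchange (m : ℕ) {R : Finset K} {x y : K} (hx : x ∉ R) (hy : y ∈ R) (X : Finset K) :
    gg F v m (insert x (R.erase y))ᶜ X + (if x ∈ X then 1 else 0) =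
      gg F v m Rᶜ X + (if y ∈ X then 1 else 0) := by
  have hxy : x ≠ y := fun h => hx (h ▸ hy)
  have h1 : ∀ A : Finset K, ((A ∩ X).card : ℤ) = ∑ z ∈ X, if z ∈ A then (1 : ℤ) else 0 := by
    intro A
    rw [Finset.inter_comm, ← Finset.filter_mem_eq_inter, Finset.card_filter]
    push_cast
    rfl
  have h2 : ∀ u : K, (if u ∈ X then (1 : ℤ) else 0) = ∑ z ∈ X, if z = u then (1 : ℤ) else 0 := by
    intro u
    rw [Finset.sum_ite_eq' X u]
  have h3 : (((insert x (R.erase y))ᶜ ∩ X).card : ℤ) + (if x ∈ X then 1 else 0) =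
      ((Rᶜ ∩ X).card : ℤ) + (if y ∈ X then 1 else 0) := by
    rw [h1, h1, h2, h2, ← Finset.sum_add_distrib, ← Finset.sum_add_distrib]
    refine Finset.sum_congr rfl fun z _ => ?_
    by_cases hzx : z = x
    · subst hzx
      simp [hx, hxy]
    · by_cases hzy : z = y
      · subst hzy
        simp [hy, hzx]
      · simp [hzx, hzy]
  rw [gg, gg]
  linarith

section

variable {m : ℕ}

/-- admissible exchanges -/
def Stp (v : K → V) (w : K → K → F) (k m : ℕ) (R R' : Finset K) : Prop :=
  ∃ x ∈ lst F v m Rᶜ, ∃ φ : K → F, IsRel v φ ∧ Supp φ (insert x R) ∧ φ x ≠ 0 ∧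
    (∀ y ∈ R, φ y ≠ 0 → SS v w k (insert x (R.erase y))) ∧
    ∃ y ∈ R, φ y ≠ 0 ∧ R' = insert x (R.erase y)

theorem df_exchange {k : ℕ} {δ : ℤ} (hδ : ∀ R, SS v w k R → δ ≤ df F v m Rᶜ) {R : Finset K}
    (hR : df F v m Rᶜ = δ) {x y : K} (hx : x ∈ lst F v m Rᶜ) (hy : y ∈ R)
    (hR' : SS v w k (insert x (R.erase y))) : df F v m (insert x (R.erase y))ᶜ = δ := by
  have hxR : x ∉ R := Finset.mem_compl.1 (lst_subset_self m _ hx)
  refine le_antisymm ?_ (hδ _ hR')
  obtain ⟨X, hX⟩ := exists_gg_eq_df (F := F) (v := v) m (insert x (R.erase y))ᶜ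
  rw [← hX]
  have h1 := gg_exchange (F := F) (v := v) m hxR hy X
  have h2 := gg_le_df (F := F) (v := v) m Rᶜ X
  rw [hR] at h2
  by_cases h3 : gg F v m Rᶜ X = δ
  · have h4 : x ∈ X := lst_subset (h3.trans hR.symm) hx
    rw [if_pos h4, h3] at h1
    split_ifs at h1 <;> linarith
  · have h4 : gg F v m Rᶜ X ≤ δ - 1 := by
      have := lt_of_le_of_ne h2 h3
      linarith [Int.le_sub_one_of_lt this]
    split_ifs at h1 <;> linarith

theorem key_step {δ : ℤ} {R : Finset K}
    (hR : df F v m Rᶜ = δ) {x y : K} (hx : x ∈ lst F v m Rᶜ) (hy : y ∈ R)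
    (hR' : df F v m (insert x (R.erase y))ᶜ = δ) {X : Finset K} (hX : gg F v m Rᶜ X = δ) :
    gg F v m (insert x (R.erase y))ᶜ (X ∪ lst F v m (insert x (R.erase y))ᶜ) = δ ∧
      x ∈ X ∧ y ∈ X ∪ lst F v m (insert x (R.erase y))ᶜ := by
  have hxR : x ∉ R := Finset.mem_compl.1 (lst_subset_self m _ hx)
  set R' := insert x (R.erase y) with hR'def
  set U := lst F v m R'ᶜ with hU
  have hUm : gg F v m R'ᶜ U = δ := by rw [hU, lst_max, hR']
  have hxX : x ∈ X := lst_subset (hX.trans hR.symm) hx
  have h1 := gg_exchange (F := F) (v := v) m hxR hy X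
  rw [if_pos hxX, hX, ← hR'def] at h1
  have h2 : gg F v m R'ᶜ (X ∪ U) = δ := by
    by_cases hyX : y ∈ X
    · rw [if_pos hyX] at h1
      have h3 : gg F v m R'ᶜ X = δ := by linarith
      rw [← hR']
      exact max_union (h3.trans hR'.symm) (hUm.trans hR'.symm)
    · rw [if_neg hyX] at h1
      have h3 : ¬ U ⊆ X := by
        intro h
        have h4 := gg_exchange (F := F) (v := v) m hxR hy U
        have h5 : y ∉ U := fun h' => hyX (h h')
        rw [if_neg h5, ← hR'def, hUm] at h4
        have h6 := gg_le_df (F := F) (v := v) m Rᶜ U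
        rw [hR] at h6
        by_cases h7 : x ∈ U
        · rw [if_pos h7] at h4
          linarith
        · rw [if_neg h7] at h4
          have h8 : gg F v m Rᶜ U = df F v m Rᶜ := by rw [hR]; linarith
          exact h7 (lst_subset h8 hx)
      have h4 : gg F v m R'ᶜ (X ∩ U) ≤ δ - 1 := by
        have h5 := gg_le_df (F := F) (v := v) m R'ᶜ (X ∩ U)
        rw [hR'] at h5
        by_contra h6
        have h7 : gg F v m R'ᶜ (X ∩ U) = df F v m R'ᶜ := by
          rw [hR']
          apply le_antisymm h5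
          rw [not_le] at h6
          linarith [Int.add_one_le_of_lt h6]
        exact h3 ((lst_subset h7).trans Finset.inter_subset_left)
      have h5 := gg_supermod (F := F) (v := v) m R'ᶜ X U
      have h6 := gg_le_df (F := F) (v := v) m R'ᶜ (X ∪ U)
      rw [hR'] at h6
      linarith
  refine ⟨h2, hxX, ?_⟩
  have h3 := gg_exchange (F := F) (v := v) m hxR hy (X ∪ U)
  rw [← hR'def, h2, if_pos (Finset.mem_union_left _ hxX)] at h3
  have h4 := gg_le_df (F := F) (v := v) m Rᶜ (X ∪ U)
  rw [hR] at h4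
  by_contra h5
  rw [if_neg h5] at h3
  linarith

end

end Pool.Agent.MP_d4f4ab_ag.W.H
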