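import Pool.Agent.MP_d4f4ab_ag.W.H3

/-! [WR-H4] section 11.1 (characteristic 2): the form vanishes if there are no special classes. -/

set_option linter.unusedSectionVars false

open Finset

namespace Pool.Agent.MP_d4f4ab_ag.W.H

variable {F : Type*} [Field F] {K : Type*} [Fintype K] [DecidableEq K]
  {V : Type*} [AddCommGroup V] [Module F V] {v : K → V} {w : K → K → F}

/-- the condition (b): the form vanishes on the relations supported in `R` if the complement of `R` is a union of `m`
bases -/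
def CB (v : K → V) (w : K → K → F) (m k : ℕ) : Prop :=
  ∀ (R : Finset K) (Q : K → Fin m), rk F v R = k →
    (∀ i, LinearIndepOn F v ((Rᶜ.filter fun y => Q y = i : Finset K) : Set K)) →
    (∀ i, (Rᶜ.filter fun y => Q y = i).card = k) →
    ∀ c c' : K → F, IsRel v c → IsRel v c' → Supp c R → Supp c' R → PP w c c' = 0

theorem one_le_df {m k : ℕ} (hm : 1 ≤ m) (hk : rk F v (univ : Finset K) = k)
    (hK : Fintype.card K = (m + 1) * k + 2) (hb : CB v w m k) {R : Finset K} (hR : SS v w k R) :
    1 ≤ df F v m Rᶜ := by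
  by_contra hlt
  have h0 : df F v m Rᶜ ≤ 0 := by
    rw [not_le] at hlt
    linarith [Int.add_one_le_of_lt hlt]
  have : Nonempty (Fin m) := ⟨⟨0, hm⟩⟩
  obtain ⟨Q, hQ⟩ := edmonds (C := Fin m) F v Rᶜ (by
    intro X hX
    have h1 := gg_le_df (F := F) (v := v) m Rᶜ X
    rw [gg, Finset.inter_eq_right.2 hX] at h1
    rw [Fintype.card_fin]
    have h2 : (X.card : ℤ) ≤ ((m * rk F v X : ℕ) : ℤ) := by
      push_cast
      linarith
    exact_mod_cast h2)
  have hle : ∀ i, (Rᶜ.filter fun y => Q y = i).card ≤ k := by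
    intro i
    rw [← (rk_eq_card_iff F v _).2 (hQ i), ← hk]
    exact rk_mono (Finset.subset_univ _)
  have hsum : ∑ i, (Rᶜ.filter fun y => Q y = i).card = m * k := by
    have h1 := Finset.card_eq_sum_card_fiberwise (f := Q) (s := Rᶜ) (t := (univ : Finset (Fin m)))
      (fun y _ => Finset.mem_coe.2 (Finset.mem_univ _))
    rw [← h1, Finset.card_compl, hK, hR.card, Nat.add_sub_add_right, Nat.succ_mul,
      Nat.add_sub_cancel]
  have hcard : ∀ i, (Rᶜ.filter fun y => Q y = i).card = k := by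
    intro i
    by_contra hne
    have h1 : ∑ i, (Rᶜ.filter fun y => Q y = i).card < ∑ _i : Fin m, k :=
      Finset.sum_lt_sum (fun i _ => hle i) ⟨i, Finset.mem_univ _, lt_of_le_of_ne (hle i) hne⟩
    rw [hsum] at h1
    simp at h1
  obtain ⟨a, b, ha, hb', hsa, hsb, hab⟩ := hR.ne
  exact hab (hb R Q hR.rnk hQ hcard a b ha hb' hsa hsb)

/-- (11.1) -/
theorem eleven_one {m k : ℕ} (hm : 1 ≤ m) (hk : rk F v (univ : Finset K) = k)
    (hK : Fintype.card K = (m + 1) * k + 2)
    (hsmall : ∀ X : Finset K, rk F v X < k → X.card ≤ (m + 1) * rk F v X)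
    (hw : AltM w) (hb : CB v w m k) (a b : K → F) (ha : IsRel v a) (hb' : IsRel v b) :
    PP w a b = 0 := by
  classical
  by_contra hab
  obtain ⟨R₁, hR₁⟩ := exists_SS hw hk ha hb' hab
  obtain ⟨R₀, hR₀, hmin⟩ := Finset.exists_min_image
    ((Finset.univ : Finset (Finset K)).filter fun R => SS v w k R)
    (fun R => df F v m Rᶜ) ⟨R₁, by simp [hR₁]⟩
  replace hR₀ : SS v w k R₀ := (Finset.mem_filter.1 hR₀).2
  obtain ⟨δ, hδ⟩ : ∃ δ, df F v m R₀ᶜ = δ := ⟨_, rfl⟩
  have hδ' : ∀ R, SS v w k R → δ ≤ df F v m Rᶜ := by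
    intro R hR
    rw [← hδ]
    exact hmin R (by simp [hR])
  have hδ1 : 1 ≤ δ := hδ ▸ one_le_df hm hk hK hb hR₀
  -- reachable sets
  set W : Finset K := (univ : Finset K).filter
    (fun z => ∃ R, Relation.ReflTransGen (Stp v w k m) R₀ R ∧ z ∈ lst F v m Rᶜ) with hW
  have hUW : ∀ R, Relation.ReflTransGen (Stp v w k m) R₀ R → lst F v m Rᶜ ⊆ W := by
    intro R hR z hz
    rw [hW, Finset.mem_filter]
    exact ⟨Finset.mem_univ _, R, hR, hz⟩
  have hinv : ∀ R, Relation.ReflTransGen (Stp v w k m) R₀ R → SS v w k R ∧ df F v m Rᶜ = δ ∧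
      ∃ X, gg F v m R₀ᶜ X = δ ∧ gg F v m Rᶜ X = δ ∧ lst F v m Rᶜ ⊆ X ∧ X ⊆ W ∧
        ∀ z, z ∉ X → (z ∈ R ↔ z ∈ R₀) := by
    intro R hR
    induction hR with
    | refl =>
      refine ⟨hR₀, hδ, lst F v m R₀ᶜ, ?_, ?_, subset_rfl,
        hUW R₀ Relation.ReflTransGen.refl, fun z _ => Iff.rfl⟩
      · rw [lst_max, hδ]
      · rw [lst_max, hδ]
    | @tail R R' hR hstep ih =>
      obtain ⟨hS, hd, X, hX0, hX, hUX, hXW, hag⟩ := ih
      obtain ⟨x, hx, φ, hφ, hφs, hφx, hφS, y, hy, hφy, rfl⟩ := hstep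
      have hxR : x ∉ R := Finset.mem_compl.1 (lst_subset_self m _ hx)
      have hS' := hφS y hy hφy
      have hd' := df_exchange hδ' hd hx hy hS'
      obtain ⟨h1, h2, h3⟩ := key_step hd hx hy hd' hX
      have hreach : Relation.ReflTransGen (Stp v w k m) R₀ (insert x (R.erase y)) :=
        hR.tail ⟨x, hx, φ, hφ, hφs, hφx, hφS, y, hy, hφy, rfl⟩
      refine ⟨hS', hd', X ∪ lst F v m (insert x (R.erase y))ᶜ, ?_, h1,
        Finset.subset_union_right, Finset.union_subset hXW (hUW _ hreach), ?_⟩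
      · -- equal cardinalities
        have hag' : ∀ z, z ∉ X ∪ lst F v m (insert x (R.erase y))ᶜ →
            (z ∈ insert x (R.erase y) ↔ z ∈ R₀) := by
          intro z hz
          have hzx : z ≠ x := fun h => hz (Finset.mem_union_left _ (h ▸ h2))
          have hzy : z ≠ y := fun h => hz (h ▸ h3)
          rw [← hag z fun h => hz (Finset.mem_union_left _ h), Finset.mem_insert, Finset.mem_erase]
          simp [hzx, hzy]
        set X' := X ∪ lst F v m (insert x (R.erase y))ᶜ with hX'
        set R' := insert x (R.erase y) with hR'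
        rw [← h1, gg, gg]
        have h4 : (R₀ᶜ ∩ X').card + (R₀ᶜ \ X').card = (R'ᶜ ∩ X').card + (R'ᶜ \ X').card := by
          rw [add_comm, Finset.card_sdiff_add_card_inter, add_comm,
            Finset.card_sdiff_add_card_inter, Finset.card_compl, Finset.card_compl, hR₀.card,
            hS'.card]
        have h5 : R₀ᶜ \ X' = R'ᶜ \ X' := by
          ext z
          rw [Finset.mem_sdiff, Finset.mem_sdiff, Finset.mem_compl, Finset.mem_compl]
          constructor
          · rintro ⟨h6, h7⟩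
            exact ⟨fun h => h6 ((hag' z h7).1 h), h7⟩
          · rintro ⟨h6, h7⟩
            exact ⟨fun h => h6 ((hag' z h7).2 h), h7⟩
        rw [h5] at h4
        have h6 : (R₀ᶜ ∩ X').card = (R'ᶜ ∩ X').card := by omega
        rw [h6]
      · intro z hz
        have hzx : z ≠ x := fun h => hz (Finset.mem_union_left _ (h ▸ h2))
        have hzy : z ≠ y := fun h => hz (h ▸ h3)
        rw [← hag z fun h => hz (Finset.mem_union_left _ h), Finset.mem_insert, Finset.mem_erase]
        simp [hzx, hzy]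
  -- `W` is a maximiser for `R₀`
  have hWmax : gg F v m R₀ᶜ W = δ := by
    obtain ⟨X, hX, hXmax⟩ := Finset.exists_max_image
      ((Finset.univ : Finset (Finset K)).filter fun X => gg F v m R₀ᶜ X = δ ∧ X ⊆ W)
      (fun X => X.card) (by
        obtain ⟨-, -, X, h1, -, -, h2, -⟩ := hinv R₀ Relation.ReflTransGen.refl
        exact ⟨X, by simp [h1, h2]⟩)
    rw [Finset.mem_filter] at hX
    have h1 : W ⊆ X := by
      intro z hz
      rw [hW, Finset.mem_filter] at hz
      obtain ⟨-, R, hR, hzR⟩ := hz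
      obtain ⟨-, -, Y, hY, -, hUY, hYW, -⟩ := hinv R hR
      have h2 : gg F v m R₀ᶜ (X ∪ Y) = δ := by
        rw [← hδ]
        exact max_union (hX.2.1.trans hδ.symm) (hY.trans hδ.symm)
      have h3 := hXmax (X ∪ Y) (by
        rw [Finset.mem_filter]
        exact ⟨Finset.mem_univ _, h2, Finset.union_subset hX.2.2 hYW⟩)
      have h4 : X = X ∪ Y := Finset.eq_of_subset_of_card_le Finset.subset_union_left h3
      rw [h4]
      exact Finset.mem_union_right _ (hUY hzR)
    rw [subset_antisymm h1 hX.2.2]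
    exact hX.2.1
  have hagW : ∀ R, Relation.ReflTransGen (Stp v w k m) R₀ R → ∀ z, z ∉ W → (z ∈ R ↔ z ∈ R₀) := by
    intro R hR z hz
    obtain ⟨-, -, Y, -, -, -, hYW, hag⟩ := hinv R hR
    exact hag z fun h => hz (hYW h)
  -- the relation at a reachable set is supported in `W`
  have hsup : ∀ R, Relation.ReflTransGen (Stp v w k m) R₀ R → ∀ x ∈ lst F v m Rᶜ, ∀ φ : K → F,
      IsRel v φ → Supp φ (insert x R) → φ x ≠ 0 →
      (∀ y ∈ R, φ y ≠ 0 → SS v w k (insert x (R.erase y))) →
      Supp φ (insert x (R ∩ W)) := by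
    intro R hR x hx φ hφ hφs hφx hφS y hy
    by_contra hφy
    rw [Finset.mem_insert, not_or, Finset.mem_inter, not_and] at hy
    have hyR : y ∈ R := by
      by_contra h
      exact hφy (hφs y (by rw [Finset.mem_insert, not_or]; exact ⟨hy.1, h⟩))
    have h1 := hagW R hR y (hy.2 hyR)
    have h2 := hagW _ (hR.tail ⟨x, hx, φ, hφ, hφs, hφx, hφS, y, hyR, hφy, rfl⟩) y (hy.2 hyR)
    rw [← h1] at h2
    have h3 := h2.2 hyR
    rw [Finset.mem_insert, Finset.mem_erase] at h3
    rcases h3 with h3 | h3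
    · exact hy.1 h3
    · exact h3.1 rfl
  have hspan : ∀ R, Relation.ReflTransGen (Stp v w k m) R₀ R →
      sp F v (R ∩ W) = sp F v (R₀ ∩ W) := by
    intro R hR
    induction hR with
    | refl => rfl
    | @tail R R' hR hstep ih =>
      obtain ⟨x, hx, φ, hφ, hφs, hφx, hφS, y, hy, hφy, rfl⟩ := hstep
      have hxR : x ∉ R := Finset.mem_compl.1 (lst_subset_self m _ hx)
      have h1 := hsup R hR x hx φ hφ hφs hφx hφS
      have hxW : x ∈ W := hUW R hR hx
      have hxy : x ≠ y := fun h => hxR (h ▸ hy)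
      have hyW : y ∈ W := by
        by_contra h
        apply hφy
        apply h1 y
        rw [Finset.mem_insert, not_or, Finset.mem_inter]
        exact ⟨hxy.symm, fun h' => h h'.2⟩
      have h2 : insert x (R.erase y) ∩ W = insert x ((R ∩ W).erase y) := by
        ext z
        simp only [Finset.mem_inter, Finset.mem_insert, Finset.mem_erase]
        constructor
        · rintro ⟨h3 | h3, h4⟩
          · exact Or.inl h3
          · exact Or.inr ⟨h3.1, h3.2, h4⟩
        · rintro (h3 | h3)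
          · exact ⟨Or.inl h3, h3 ▸ hxW⟩
          · exact ⟨Or.inr ⟨h3.1, h3.2.1⟩, h3.2.2⟩
      rw [h2, ← ih]
      apply le_antisymm
      · rw [sp_le]
        intro z hz
        rw [Finset.mem_insert] at hz
        rcases hz with rfl | hz
        · exact rel_mem hφ h1 (fun h => hxR (Finset.mem_inter.1 h).1) hφx
        · exact mem_sp (Finset.mem_of_mem_erase hz)
      · rw [sp_le]
        intro z hz
        by_cases hzy : z = y
        · rw [hzy]
          refine rel_mem hφ ?_ ?_ hφy
          · apply h1.mono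
            intro u hu
            rw [Finset.mem_insert] at hu
            rcases hu with rfl | hu
            · simp
            · by_cases huy : u = y
              · simp [huy]
              · exact Finset.mem_insert_of_mem (Finset.mem_insert_of_mem
                  (Finset.mem_erase.2 ⟨huy, hu⟩))
          · rw [Finset.mem_insert, not_or]
            exact ⟨hxy.symm, by simp⟩
        · exact mem_sp (Finset.mem_insert_of_mem (Finset.mem_erase.2 ⟨hzy, hz⟩))
  have hWle : sp F v W ≤ sp F v (R₀ ∩ W) := by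
    rw [sp_le]
    intro x hx
    rw [hW, Finset.mem_filter] at hx
    obtain ⟨-, R, hR, hxR⟩ := hx
    obtain ⟨hS, -⟩ := hinv R hR
    have hxR' : x ∉ R := Finset.mem_compl.1 (lst_subset_self m _ hxR)
    obtain ⟨φ, hφ, hφs, hφx, hφS⟩ := hS.sharp hw hk hxR'
    rw [← hspan R hR]
    exact rel_mem hφ (hsup R hR x hxR φ hφ hφs hφx hφS)
      (fun h => hxR' (Finset.mem_inter.1 h).1) hφx
  have h1 : rk F v W ≤ (R₀ ∩ W).card := by
    refine le_trans ?_ (rk_le_card (F := F) (v := v) _)
    rw [rk_eq, rk_eq]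
    exact Submodule.finrank_mono hWle
  have h2 : (R₀ ∩ W).card + (R₀ᶜ ∩ W).card = W.card := by
    rw [← Finset.card_union_of_disjoint]
    · congr 1
      ext z
      simp only [Finset.mem_union, Finset.mem_inter, Finset.mem_compl]
      tauto
    · rw [Finset.disjoint_left]
      intro z hz hz'
      exact (Finset.mem_compl.1 (Finset.mem_inter.1 hz').1) (Finset.mem_inter.1 hz).1
  rw [gg] at hWmax
  have h3 : ((m + 1) * rk F v W : ℕ) < (W.card : ℤ) := by
    push_cast
    have : ((R₀ ∩ W).card : ℤ) + (R₀ᶜ ∩ W).card = W.card := by exact_mod_cast h2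
    have h1' : (rk F v W : ℤ) ≤ (R₀ ∩ W).card := by exact_mod_cast h1
    nlinarith
  have h4 : k ≤ rk F v W := by
    by_contra h
    rw [not_le] at h
    have h5 := hsmall W h
    have h6 : (W.card : ℤ) ≤ ((m + 1) * rk F v W : ℕ) := by exact_mod_cast h5
    exact absurd h3 (not_lt.2 h6)
  have h5 : (R₀ᶜ ∩ W).card ≤ m * k := by
    refine (Finset.card_le_card Finset.inter_subset_left).trans ?_
    rw [Finset.card_compl, hK, hR₀.card, Nat.add_sub_add_right, Nat.succ_mul, Nat.add_sub_cancel]
  have h6 : (m : ℤ) * k ≤ m * rk F v W :=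
    mul_le_mul_of_nonneg_left (by exact_mod_cast h4) (by positivity)
  have h7 : ((R₀ᶜ ∩ W).card : ℤ) ≤ m * k := by exact_mod_cast h5
  linarith

end Pool.Agent.MP_d4f4ab_ag.W.H
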