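import Pool.Agent.MP_d4f4ab_ag.W.H4
import Pool.Agent.MP_d4f4ab_ag.W.G2

/-! [WR-H5] section 11.2 (characteristic 2): circuits of a special class modulo the span of its complement. -/

set_option linter.unusedSectionVars false

open Finset

namespace Pool.Agent.MP_d4f4ab_ag.W.H

variable {F : Type*} [Field F] {K : Type*} [Fintype K] [DecidableEq K]
  {V : Type*} [AddCommGroup V] [Module F V] {v : K → V}

/-- the vectors modulo the span of the complement of `H` -/
noncomputable def vb (F : Type*) [Field F] {K V : Type*} [Fintype K] [DecidableEq K]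
    [AddCommGroup V] [Module F V] (v : K → V) (H : Finset K) :
    K → V ⧸ (Submodule.span F (v '' ((Hᶜ : Finset K) : Set K))) :=
  fun y => (Submodule.span F (v '' ((Hᶜ : Finset K) : Set K))).mkQ (v y)

theorem sum_vb (H S : Finset K) (c : K → F) :
    ∑ y ∈ S, c y • vb F v H y =
      (Submodule.span F (v '' ((Hᶜ : Finset K) : Set K))).mkQ (∑ y ∈ S, c y • v y) := by
  rw [map_sum]
  exact Finset.sum_congr rfl fun y _ => by rw [map_smul, vb]

theorem sum_vb_eq_zero (H S : Finset K) (c : K → F) :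
    ∑ y ∈ S, c y • vb F v H y = 0 ↔ ∑ y ∈ S, c y • v y ∈ sp F v Hᶜ := by
  rw [sum_vb, Submodule.mkQ_apply, Submodule.Quotient.mk_eq_zero, sp]

theorem vb_eq_sum (H S : Finset K) (x : K) (l : K → F) :
    vb F v H x = ∑ y ∈ S, l y • vb F v H y ↔ v x - ∑ y ∈ S, l y • v y ∈ sp F v Hᶜ := by
  rw [sum_vb, ← sub_eq_zero, vb, ← map_sub, Submodule.mkQ_apply, Submodule.Quotient.mk_eq_zero, sp]

theorem vb_of_notMem {H : Finset K} {y : K} (hy : y ∉ H) : vb F v H y = 0 := by
  rw [vb, Submodule.mkQ_apply, Submodule.Quotient.mk_eq_zero]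
  exact mem_sp (Finset.mem_compl.2 hy)

theorem sp_vb (H X : Finset K) : sp F (vb F v H) X =
    (sp F v X).map (Submodule.span F (v '' ((Hᶜ : Finset K) : Set K))).mkQ := by
  rw [sp, sp, Submodule.map_span]
  congr 1
  ext z
  simp [vb]

/-- sets spanning modulo the complement -/
theorem sp_univ_le {H D : Finset K} {S : Submodule F V} (hW : sp F v Hᶜ ≤ S)
    (hD : sp F (vb F v H) D = sp F (vb F v H) H) (hDS : sp F v D ≤ S) : sp F v univ ≤ S := by
  rw [sp_le]
  intro y _
  by_cases hy : y ∈ H
  · have h1 : vb F v H y ∈ sp F (vb F v H) D := by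
      rw [hD]
      exact mem_sp hy
    rw [sp_vb, Submodule.mem_map] at h1
    obtain ⟨z, hz, hz'⟩ := h1
    rw [vb, ← sub_eq_zero, ← map_sub, Submodule.mkQ_apply, Submodule.Quotient.mk_eq_zero] at hz'
    have h2 := S.sub_mem (hDS hz) (hW hz')
    rwa [sub_sub_cancel] at h2
  · exact hW (mem_sp (Finset.mem_compl.2 hy))

section

variable {C : Type*} [Fintype C] [DecidableEq C] {H : Finset K}

theorem scls_subset (U : Finset K) (x : K) (P : K → C) (c : C) : scls U x P c ⊆ U :=
  (Finset.filter_subset _ _).trans (Finset.erase_subset _ _)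

theorem mem_scls {U : Finset K} {x : K} {P : K → C} {c : C} {y : K} :
    y ∈ scls U x P c ↔ (y ≠ x ∧ y ∈ U) ∧ P y = c := by
  rw [scls, Finset.mem_filter, Finset.mem_erase]

/-- sizes of the classes of a state of `H` -/
theorem state_card {kap : ℕ} (hk : rk F (vb F v H) H = kap)
    (hH : H.card = Fintype.card C * kap + 1) {x : K} {P : K → C}
    (hs : IsState F (vb F v H) H x P) (c : C) : (scls H x P c).card = kap := by
  have hle : ∀ c, (scls H x P c).card ≤ kap := by
    intro c
    rw [← (rk_eq_card_iff F (vb F v H) _).2 (hs.2 c), ← hk]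
    exact rk_mono (scls_subset _ _ _ _)
  have hsum : ∑ c, (scls H x P c).card = Fintype.card C * kap := by
    have h1 := Finset.card_eq_sum_card_fiberwise (f := P) (s := H.erase x)
      (t := (univ : Finset C)) (fun y _ => Finset.mem_coe.2 (Finset.mem_univ _))
    rw [Finset.card_erase_of_mem hs.1, hH, Nat.add_sub_cancel] at h1
    rw [h1]
    rfl
  by_contra hne
  have h1 : ∑ c, (scls H x P c).card < ∑ _c : C, kap :=
    Finset.sum_lt_sum (fun i _ => hle i) ⟨c, Finset.mem_univ _, lt_of_le_of_ne (hle c) hne⟩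
  rw [hsum] at h1
  simp at h1

theorem state_span {kap : ℕ} (hk : rk F (vb F v H) H = kap)
    (hH : H.card = Fintype.card C * kap + 1) {x : K} {P : K → C}
    (hs : IsState F (vb F v H) H x P) (c : C) :
    sp F (vb F v H) (scls H x P c) = sp F (vb F v H) H := by
  have h1 := state_card hk hH hs c
  refine sp_eq_of_rk_le (scls_subset _ _ _ _) ?_
  rw [(rk_eq_card_iff F (vb F v H) _).2 (hs.2 c), h1, hk]

/-- existence of a state -/
theorem exists_state [Nonempty C] {kap : ℕ} (hH : H.card = Fintype.card C * kap + 1)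
    (hsm : ∀ X, X ⊂ H → X.card ≤ Fintype.card C * rk F (vb F v H) X) :
    ∃ (x : K) (P : K → C), IsState F (vb F v H) H x P := by
  obtain ⟨x, hx⟩ : H.Nonempty := by
    rw [← Finset.card_pos, hH]
    omega
  obtain ⟨P, hP⟩ := edmonds (C := C) F (vb F v H) (H.erase x) (by
    intro X hX
    apply hsm
    rw [Finset.ssubset_iff_of_subset (hX.trans (Finset.erase_subset _ _))]
    exact ⟨x, hx, fun h => Finset.notMem_erase x H (hX h)⟩)
  exact ⟨x, P, hx, hP⟩

theorem isState_map {x : K} {P : K → C} {U : Finset K} {v : K → V} (hs : IsState F v U x P)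
    (σ : C ≃ C) : IsState F v U x (fun y => σ (P y)) := by
  refine ⟨hs.1, fun c => ?_⟩
  have h1 : scls U x (fun y => σ (P y)) c = scls U x P (σ.symm c) := by
    ext y
    rw [mem_scls, mem_scls, ← Equiv.eq_symm_apply]
  rw [h1]
  exact hs.2 _

end

variable {m : ℕ}

/-- (S1) for the class `H` modulo the complement: if all circuits lie in `T` then the whole intersection does -/
theorem circ {H : Finset K} {kap : ℕ} (hk : rk F (vb F v H) H = kap)
    (hH : H.card = (m + 1) * kap + 1)
    (hsm : ∀ X, X ⊂ H → X.card ≤ (m + 1) * rk F (vb F v H) X) (T : Submodule F V)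
    (hT : ∀ (x : K) (P : K → Option (Fin m)), IsState F (vb F v H) H x P → ∀ l : K → F,
      v x - ∑ y ∈ scls H x P none, l y • v y ∈ sp F v Hᶜ →
      v x - ∑ y ∈ scls H x P none, l y • v y ∈ T)
    (c : K → F) (hc : ∑ y ∈ H, c y • v y ∈ sp F v Hᶜ) : ∑ y ∈ H, c y • v y ∈ T := by
  by_contra hnot
  obtain ⟨θ, hθ, hθT⟩ := Submodule.exists_le_ker_of_notMem hnot
  apply hθ
  have h1 := S1 (C := Option (Fin m)) F (vb F v H) H (by simpa [hk] using hH) (by simpa using hsm)
    (fun y => θ (v y)) (by
      intro x P hs c l hl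
      have hs' := isState_map hs (Equiv.swap c none)
      have h2 : scls H x (fun y => Equiv.swap c none (P y)) none = scls H x P c := by
        ext y
        rw [mem_scls, mem_scls, Equiv.swap_apply_eq_iff, Equiv.swap_apply_right]
      have h3 := hT x _ hs' l (by
        rw [h2]
        exact (vb_eq_sum H _ x l).1 hl)
      rw [h2] at h3
      have h4 : θ (v x - ∑ y ∈ scls H x P c, l y • v y) = 0 := hθT h3
      rw [map_sub, sub_eq_zero, map_sum] at h4
      rw [h4]
      exact Finset.sum_congr rfl fun y _ => by rw [map_smul, smul_eq_mul])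
    c ((sum_vb_eq_zero H H c).2 hc)
  rw [map_sum, ← h1]
  exact Finset.sum_congr rfl fun y _ => by rw [map_smul, smul_eq_mul]

/-- circuits outside a subspace -/
theorem exists_circ {H : Finset K} {kap : ℕ} (hk : rk F (vb F v H) H = kap)
    (hH : H.card = (m + 1) * kap + 1)
    (hsm : ∀ X, X ⊂ H → X.card ≤ (m + 1) * rk F (vb F v H) X) (T : Submodule F V)
    (c : K → F) (hc : ∑ y ∈ H, c y • v y ∈ sp F v Hᶜ) (hcT : ∑ y ∈ H, c y • v y ∉ T) :
    ∃ (x : K) (P : K → Option (Fin m)), IsState F (vb F v H) H x P ∧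
      ∃ u ∈ sp F v (insert x (scls H x P none)), u ∈ sp F v Hᶜ ∧ u ∉ T := by
  by_contra hnot
  push Not at hnot
  apply hcT
  refine circ hk hH hsm T (fun x P hs l hl => hnot x P hs _ ?_ hl) c hc
  refine Submodule.sub_mem _ (mem_sp (Finset.mem_insert_self _ _)) ?_
  exact Submodule.sum_mem _ fun y hy => Submodule.smul_mem _ _
    (mem_sp (Finset.mem_insert_of_mem hy))

end Pool.Agent.MP_d4f4ab_ag.W.H
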