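import Pool.Agent.MP_d4f4ab_ag.W.H5
import Pool.Agent.MP_d4f4ab_ag.W.C1

/-! [WR-H6] section 11 (characteristic 2): configurations of rank two and their classes. -/

set_option linter.unusedSectionVars false

open Finset

namespace Pool.Agent.MP_d4f4ab_ag.W.H

variable {F : Type*} [Field F] {K : Type*} [Fintype K] [DecidableEq K]
  {V : Type*} [AddCommGroup V] [Module F V] [FiniteDimensional F V] {v : K → V} {w : K → K → F}
  {e : ℕ}

theorem mem_rel_iff {c : K → F} : c ∈ rel F v ↔ IsRel v c := W.mem_rel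

theorem nn_eq (v : K → V) (e : ℕ) (X : Finset K) :
    nn (rel F v) e X = (X.card : ℤ) - e * ((rk F v univ : ℤ) - rk F v Xᶜ) := by
  have h1 := finrank_van_rel (F := F) v X
  have h2 := finrank_van_rel (F := F) v (∅ : Finset K)
  rw [van_empty, Finset.compl_empty] at h2
  rw [nn, qq, h1, h2]
  have h3 : ((univ : Finset K).card : ℤ) = X.card + (Xᶜ : Finset K).card := by
    rw [Finset.card_compl, Finset.card_univ]
    have := Finset.card_le_univ X
    push_cast [Nat.cast_sub this]
    ring
  rw [h3]
  ring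

/-- configurations of rank two -/
structure Cf (v : K → V) (e : ℕ) (w : K → K → F) : Prop where
  dense : Dense (rel F v) e
  two : nn (rel F v) e univ = 2
  alt : AltM w
  cls : ∀ S, nn (rel F v) e S = 1 → ∀ x ∈ S, ∀ y ∈ S, w x y = 0
  one : ∀ S, IsFlat (rel F v) e S → nn (rel F v) e S = 1 → ∀ y ∈ S, ∀ c, IsRel v c →
    (∀ h ∈ S, c h = 0) → ∑ x, c x * w x y = 0
  b : CB v w (e - 1) (rk F v univ)

/-- the form belonging to `S` -/
def gS (w : K → K → F) (S : Finset K) (c c' : K → F) : F := ∑ y ∈ S, ∑ x, c x * c' y * w x y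

theorem gS_add_left (S : Finset K) (a b c : K → F) :
    gS w S (a + b) c = gS w S a c + gS w S b c := by
  simp only [gS, Pi.add_apply, add_mul, Finset.sum_add_distrib]

theorem gS_add_right (S : Finset K) (a b c : K → F) :
    gS w S a (b + c) = gS w S a b + gS w S a c := by
  simp only [gS, Pi.add_apply, mul_add, add_mul, Finset.sum_add_distrib]

theorem gS_smul_left (S : Finset K) (s : F) (a b : K → F) :
    gS w S (s • a) b = s * gS w S a b := by
  simp only [gS, Pi.smul_apply, smul_eq_mul, Finset.mul_sum, mul_assoc]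

theorem gS_smul_right (S : Finset K) (s : F) (a b : K → F) :
    gS w S a (s • b) = s * gS w S a b := by
  simp only [gS, Pi.smul_apply, smul_eq_mul, Finset.mul_sum]
  exact Finset.sum_congr rfl fun x _ => Finset.sum_congr rfl fun y _ => by ring

theorem gS_right_zero (S : Finset K) (c : K → F) {c' : K → F} (h : ∀ y ∈ S, c' y = 0) :
    gS w S c c' = 0 := by
  rw [gS]
  refine Finset.sum_eq_zero fun y hy => Finset.sum_eq_zero fun x _ => ?_
  rw [h y hy]
  ring

theorem gS_eq (S : Finset K) (c c' : K → F) :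
    gS w S c c' = ∑ y ∈ S, c' y * ∑ x, c x * w x y := by
  rw [gS]
  refine Finset.sum_congr rfl fun y _ => ?_
  rw [Finset.mul_sum]
  exact Finset.sum_congr rfl fun x _ => by ring

section

variable (h : Cf v e w)
include h

theorem Cf.e_pos : 0 < (e : ℤ) := by
  have := h.dense.two_le
  exact_mod_cast (by omega : 0 < e)

theorem Cf.gS_left_zero {S : Finset K} (hS : IsFlat (rel F v) e S) (hn : nn (rel F v) e S = 1)
    {c : K → F} (hc : IsRel v c) (h0 : ∀ y ∈ S, c y = 0) (c' : K → F) : gS w S c c' = 0 := by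
  rw [gS_eq]
  refine Finset.sum_eq_zero fun y hy => ?_
  rw [h.one S hS hn y hy c hc h0, mul_zero]

/-- distinct classes are disjoint -/
theorem Cf.disj {S T : Finset K} (hS : IsFlat (rel F v) e S) (hn : nn (rel F v) e S = 1)
    (hT : IsFlat (rel F v) e T) (hn' : nn (rel F v) e T = 1) (hne : S ≠ T) : S ∩ T = ∅ :=
  (isFlat_empty h.dense).inter_eq hS hT (Finset.empty_subset _) (Finset.empty_subset _)
    (by rw [hn, nn_empty, zero_add]) (by rw [hn', nn_empty, zero_add]) hne

theorem Cf.nonempty {S : Finset K} (hn : nn (rel F v) e S = 1) : S.Nonempty := by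
  rw [Finset.nonempty_iff_ne_empty]
  rintro rfl
  rw [nn_empty] at hn
  omega

theorem Cf.union_two {S T : Finset K} (hS : IsFlat (rel F v) e S) (hn : nn (rel F v) e S = 1)
    (hT : IsFlat (rel F v) e T) (hn' : nn (rel F v) e T = 1) (hne : S ≠ T) :
    nn (rel F v) e (S ∪ T) = 2 := by
  have h1 := nn_submod (L := rel F v) (e := e) S T
  rw [h.disj hS hn hT hn' hne, nn_empty, hn, hn'] at h1
  have h2 : ¬ T ⊆ S := by
    intro h3
    have h4 := h.disj hS hn hT hn' hne
    rw [Finset.inter_eq_right.2 h3] at h4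
    exact (h.nonempty hn').ne_empty h4
  have h3 := hS.nn_union h2
  omega

/-- the class of an element -/
theorem Cf.cl_singleton (y : K) : IsFlat (rel F v) e (cl (rel F v) e {y}) ∧
    nn (rel F v) e (cl (rel F v) e {y}) = 1 ∧ y ∈ cl (rel F v) e {y} := by
  refine ⟨isFlat_cl _, ?_, subset_cl _ (Finset.mem_singleton_self y)⟩
  have := (isFlat_empty h.dense).nn_cl_insert (Finset.notMem_empty y)
  rwa [nn_empty, zero_add, insert_empty_eq] at this

theorem Cf.eq_cl {S : Finset K} (hS : IsFlat (rel F v) e S) (hn : nn (rel F v) e S = 1) {y : K}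
    (hy : y ∈ S) : S = cl (rel F v) e {y} := by
  by_contra hne
  obtain ⟨h1, h2, h3⟩ := h.cl_singleton y
  have h4 := h.disj hS hn h1 h2 hne
  have : y ∈ S ∩ cl (rel F v) e {y} := Finset.mem_inter.2 ⟨hy, h3⟩
  rw [h4] at this
  exact absurd this (Finset.notMem_empty y)

end

open Classical in
/-- the classes -/
noncomputable def clss (F : Type*) [Field F] {K V : Type*} [Fintype K] [DecidableEq K]
    [AddCommGroup V] [Module F V] (v : K → V) (e : ℕ) : Finset (Finset K) :=
  univ.filter fun S => IsFlat (rel F v) e S ∧ nn (rel F v) e S = 1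

theorem mem_clss {S : Finset K} :
    S ∈ clss F v e ↔ IsFlat (rel F v) e S ∧ nn (rel F v) e S = 1 := by
  simp [clss]

section

variable (h : Cf v e w)
include h

/-- sums over all elements, class by class -/
theorem Cf.sum_clss {A : Type*} [AddCommMonoid A] (f : K → A) :
    ∑ S ∈ clss F v e, ∑ y ∈ S, f y = ∑ y, f y := by
  classical
  have h1 : ∀ S ∈ clss F v e, ∑ y ∈ S, f y =
      ∑ y, if cl (rel F v) e {y} = S then f y else 0 := by
    intro S hS
    rw [mem_clss] at hS
    rw [← Finset.sum_filter]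
    refine Finset.sum_congr ?_ fun _ _ => rfl
    ext y
    rw [Finset.mem_filter]
    constructor
    · intro hy
      exact ⟨Finset.mem_univ _, (h.eq_cl hS.1 hS.2 hy).symm⟩
    · rintro ⟨-, rfl⟩
      exact (h.cl_singleton y).2.2
  rw [Finset.sum_congr rfl h1, Finset.sum_comm]
  refine Finset.sum_congr rfl fun y _ => ?_
  rw [Finset.sum_ite_eq, if_pos]
  rw [mem_clss]
  exact ⟨(h.cl_singleton y).1, (h.cl_singleton y).2.1⟩

theorem Cf.sum_gS (c c' : K → F) : ∑ S ∈ clss F v e, gS w S c c' = PP w c c' := by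
  have h1 := h.sum_clss (fun y => ∑ x, c x * c' y * w x y)
  rw [PP, Finset.sum_comm, ← h1]
  rfl

theorem isRel_of_mem_van {S : Finset K} {c : K → F} (hc : c ∈ van (rel F v) S) :
    IsRel v c ∧ ∀ y ∈ S, c y = 0 := ⟨mem_rel_iff.1 hc.1, hc.2⟩

/-- forms attached to the classes with sum zero vanish -/
theorem Cf.iso (D : Finset K → (K → F) → (K → F) → F)
    (hD : ∀ S ∈ clss F v e, IsBil (rel F v) (D S))
    (hl : ∀ S ∈ clss F v e, ∀ c, IsRel v c → (∀ y ∈ S, c y = 0) → ∀ c', IsRel v c' →
      D S c c' = 0)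
    (hr : ∀ S ∈ clss F v e, ∀ c', IsRel v c' → (∀ y ∈ S, c' y = 0) → ∀ c, IsRel v c →
      D S c c' = 0)
    (hsum : ∀ c c', IsRel v c → IsRel v c' → ∑ S ∈ clss F v e, D S c c' = 0)
    {S : Finset K} (hS : S ∈ clss F v e) (c c' : K → F) (hc : IsRel v c) (hc' : IsRel v c') :
    D S c c' = 0 := by
  refine W.iso h.dense (isFlat_empty h.dense) (clss F v e) ?_ ?_ D ?_ ?_ ?_ ?_ S hS c ?_ c' ?_
  · intro p hp p' hp' hne
    rw [mem_clss] at hp hp'
    rw [h.disj hp.1 hp.2 hp'.1 hp'.2 hne]
  · intro p hp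
    rw [mem_clss] at hp
    rw [Finset.empty_union, hp.2, nn_empty, zero_add]
  · intro p hp
    rw [van_empty]
    exact hD p hp
  · intro p hp c hc c' hc'
    rw [Finset.empty_union] at hc
    rw [van_empty] at hc'
    exact hl p hp c (mem_rel_iff.1 hc.1) hc.2 c' (mem_rel_iff.1 hc')
  · intro p hp c hc c' hc'
    rw [Finset.empty_union] at hc'
    rw [van_empty] at hc
    exact hr p hp c' (mem_rel_iff.1 hc'.1) hc'.2 c (mem_rel_iff.1 hc)
  · intro c hc c' hc'
    rw [van_empty] at hc hc'
    exact hsum c c' (mem_rel_iff.1 hc) (mem_rel_iff.1 hc')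
  · rw [van_empty]
    exact mem_rel_iff.2 hc
  · rw [van_empty]
    exact mem_rel_iff.2 hc'

theorem gS_bil (S : Finset K) : IsBil (rel F v) (gS w S) where
  add_left := fun a _ b _ c _ => gS_add_left S a b c
  smul_left := fun s a _ c _ => gS_smul_left S s a c
  add_right := fun a _ b _ c _ => gS_add_right S a b c
  smul_right := fun s a _ c _ => gS_smul_right S s a c

/-- the polar forms vanish -/
theorem Cf.polar {S : Finset K} (hS : S ∈ clss F v e) (c c' : K → F) (hc : IsRel v c)
    (hc' : IsRel v c') : gS w S c c' + gS w S c' c = 0 := by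
  refine h.iso (fun S c c' => gS w S c c' + gS w S c' c) ?_ ?_ ?_ ?_ hS c c' hc hc'
  · intro S _
    constructor
    · intro a _ b _ c _
      rw [gS_add_left, gS_add_right]
      ring
    · intro s a _ c _
      rw [gS_smul_left, gS_smul_right]
      ring
    · intro a _ b _ c _
      rw [gS_add_left, gS_add_right]
      ring
    · intro s a _ c _
      rw [gS_smul_left, gS_smul_right]
      ring
  · intro S hS c hc h0 c' hc'
    rw [mem_clss] at hS
    rw [h.gS_left_zero hS.1 hS.2 hc h0, gS_right_zero S c' h0, add_zero]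
  · intro S hS c hc h0 c' hc'
    rw [mem_clss] at hS
    rw [h.gS_left_zero hS.1 hS.2 hc h0, gS_right_zero S c' h0, add_zero]
  · intro c c' _ _
    rw [Finset.sum_add_distrib, h.sum_gS, h.sum_gS, PP_swap h.alt c c', add_neg_cancel]

/-- the case without special classes -/
theorem Cf.simple (hs : ∀ S ∈ clss F v e, S.card = 1) {S : Finset K} (hS : S ∈ clss F v e)
    (c c' : K → F) (hc : IsRel v c) (hc' : IsRel v c') : gS w S c c' = 0 := by
  have he := h.dense.two_le
  have hm : e - 1 + 1 = e := by omega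
  have hK : Fintype.card K = (e - 1 + 1) * rk F v univ + 2 := by
    have h1 := h.two
    rw [nn_eq, Finset.compl_univ, rk_empty, Finset.card_univ] at h1
    rw [hm]
    zify
    push_cast at h1 ⊢
    linarith
  have hPP : ∀ a b, IsRel v a → IsRel v b → PP w a b = 0 := by
    refine fun a b ha hb => eleven_one (by omega) rfl hK ?_ h.alt h.b a b ha hb
    intro X hX
    rw [hm]
    by_contra hlt
    rw [not_le] at hlt
    have h1 := nn_eq (F := F) v e Xᶜ
    rw [compl_compl] at h1
    have h2 : ((Xᶜ : Finset K).card : ℤ) = Fintype.card K - X.card := by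
      rw [Finset.card_compl]
      push_cast [Nat.cast_sub (Finset.card_le_univ X)]
      ring
    have h3 : nn (rel F v) e Xᶜ ≤ 1 := by
      rw [h1, h2, hK, hm]
      have : ((e * rk F v X : ℕ) : ℤ) < X.card := by exact_mod_cast hlt
      push_cast at this ⊢
      linarith
    have hne : (Xᶜ : Finset K).Nonempty := by
      rw [Finset.nonempty_iff_ne_empty]
      intro h4
      rw [Finset.compl_eq_empty_iff] at h4
      rw [h4] at hX
      exact lt_irrefl _ hX
    have h4 := h.dense.pos _ hne
    have h5 : nn (rel F v) e Xᶜ = 1 := le_antisymm h3 h4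
    have h6 : cl (rel F v) e Xᶜ ∈ clss F v e := by
      rw [mem_clss]
      refine ⟨isFlat_cl _, le_antisymm ?_ ?_⟩
      · rw [← h5]
        exact nn_cl_le (subset_refl _)
      · exact h.dense.pos _ (hne.mono (subset_cl _))
    have h7 : (Xᶜ : Finset K).card = 1 := by
      apply le_antisymm
      · rw [← hs _ h6]
        exact Finset.card_le_card (subset_cl _)
      · exact Finset.card_pos.2 hne
    rw [h1, h7] at h5
    have h8 : (rk F v X : ℤ) = rk F v univ := by
      have he' := h.e_pos
      have h9 : (e : ℤ) * ((rk F v univ : ℤ) - rk F v X) = 0 := by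
        push_cast at h5
        linarith
      rcases mul_eq_zero.1 h9 with h10 | h10
      · omega
      · omega
    have : rk F v X = rk F v univ := by exact_mod_cast h8
    omega
  refine h.iso (gS w) ?_ ?_ ?_ ?_ hS c c' hc hc'
  · intro S _
    exact gS_bil h S
  · intro S hS c hc h0 c' _
    rw [mem_clss] at hS
    exact h.gS_left_zero hS.1 hS.2 hc h0 c'
  · intro S _ c' _ h0 c _
    exact gS_right_zero S c h0
  · intro c c' hc hc'
    rw [h.sum_gS]
    exact hPP c c' hc hc'

end

end Pool.Agent.MP_d4f4ab_ag.W.H
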