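import Pool.Agent.MP_d4f4ab_ag.W.H6

/-! [WR-H7] section 11.2 (characteristic 2): the reduced configuration. -/

set_option linter.unusedSectionVars false

open Finset

namespace Pool.Agent.MP_d4f4ab_ag.W.H

variable {F : Type*} [Field F] {K : Type*} [Fintype K] [DecidableEq K]
  {V : Type*} [AddCommGroup V] [Module F V] {v : K → V} {w : K → K → F}
  {H : Finset K} {c₀ : K → F}

/-- the reduced index set -/
abbrev KK (H : Finset K) : Type _ := Option {x : K // x ∉ H}

/-- the reduced family of vectors -/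
def vv (v : K → V) (H : Finset K) (c₀ : K → F) : KK H → V
  | none => ∑ y ∈ H, c₀ y • v y
  | some x => v x

/-- the reduced matrix -/
def wr (w : K → K → F) (H : Finset K) (c₀ : K → F) : KK H → KK H → F
  | some x, some y => w x y
  | some x, none => ∑ h ∈ H, c₀ h * w x h
  | none, some y => ∑ h ∈ H, c₀ h * w h y
  | none, none => 0

/-- from functions on the reduced index set to functions on `K` -/
def lft (H : Finset K) (c₀ : K → F) (c : KK H → F) : K → F :=
  fun x => if h : x ∉ H then c (some ⟨x, h⟩) else c none * c₀ x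

/-- the part of a subset in `K` -/
def dn (X : Finset (KK H)) : Finset K :=
  univ.filter fun x => ∃ h : x ∉ H, (some ⟨x, h⟩ : KK H) ∈ X

/-- subsets of `K` as subsets of the reduced index set -/
def up (H X : Finset K) : Finset (KK H) :=
  univ.filter fun z => ∃ x, z = some x ∧ (x : K) ∈ X

theorem mem_dn {X : Finset (KK H)} {x : K} :
    x ∈ dn X ↔ ∃ h : x ∉ H, (some ⟨x, h⟩ : KK H) ∈ X := by
  simp [dn]

theorem mem_up {X : Finset K} {z : KK H} : z ∈ up H X ↔ ∃ x, z = some x ∧ (x : K) ∈ X := by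
  simp [up]

theorem some_mem_up {X : Finset K} {x : {x : K // x ∉ H}} :
    (some x : KK H) ∈ up H X ↔ (x : K) ∈ X := by
  rw [mem_up]
  constructor
  · rintro ⟨y, hy, hy'⟩
    rw [Option.some_inj] at hy
    rw [hy]
    exact hy'
  · intro h
    exact ⟨x, rfl, h⟩

theorem none_notMem_up {X : Finset K} : (none : KK H) ∉ up H X := by
  rw [mem_up]
  rintro ⟨x, hx, -⟩
  exact absurd hx (by simp)

theorem some_mem {X : Finset (KK H)} {x : {x : K // x ∉ H}} :
    (some x : KK H) ∈ X ↔ (x : K) ∈ dn X := by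
  rw [mem_dn]
  constructor
  · intro h
    exact ⟨x.2, h⟩
  · rintro ⟨_, h⟩
    exact h

theorem dn_subset (X : Finset (KK H)) : dn X ⊆ Hᶜ := by
  intro x hx
  rw [mem_dn] at hx
  exact Finset.mem_compl.2 hx.1

theorem dn_up {X : Finset K} (hX : X ⊆ Hᶜ) : dn (up H X) = X := by
  ext x
  rw [mem_dn]
  constructor
  · rintro ⟨h, h'⟩
    exact some_mem_up.1 h'
  · intro hx
    exact ⟨Finset.mem_compl.1 (hX hx), some_mem_up.2 hx⟩

theorem dn_compl (X : Finset (KK H)) : dn Xᶜ = Hᶜ \ dn X := by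
  ext x
  rw [mem_dn, Finset.mem_sdiff, Finset.mem_compl, mem_dn]
  constructor
  · rintro ⟨h, h'⟩
    exact ⟨h, fun ⟨_, h2⟩ => (Finset.mem_compl.1 h') h2⟩
  · rintro ⟨h, h'⟩
    exact ⟨h, Finset.mem_compl.2 fun h2 => h' ⟨h, h2⟩⟩

theorem dn_mono {X Y : Finset (KK H)} (h : X ⊆ Y) : dn X ⊆ dn Y := by
  intro x hx
  rw [mem_dn] at hx ⊢
  exact ⟨hx.1, h hx.2⟩

theorem dn_univ : dn (univ : Finset (KK H)) = Hᶜ := by
  ext x
  rw [mem_dn, Finset.mem_compl]
  simp

theorem sum_split {A : Type*} [AddCommMonoid A] (H : Finset K) (f : K → A) :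
    ∑ x, f x = ∑ x ∈ H, f x + ∑ x : {x : K // x ∉ H}, f x := by
  rw [← Fintype.sum_subtype_add_sum_subtype (fun x => x ∈ H) f]
  congr 1
  exact (Finset.sum_subtype H (fun _ => Iff.rfl) f).symm

theorem sum_KK {A : Type*} [AddCommMonoid A] (f : KK H → A) :
    ∑ z, f z = f none + ∑ x : {x : K // x ∉ H}, f (some x) := Fintype.sum_option f

theorem card_eq (X : Finset (KK H)) :
    X.card = (dn X).card + if (none : KK H) ∈ X then 1 else 0 := by
  have h1 : X.card = ∑ z : KK H, if z ∈ X then 1 else 0 := by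
    rw [← Finset.card_filter]
    simp
  have h2 : (dn X).card = ∑ x : K, if x ∈ dn X then 1 else 0 := by
    rw [← Finset.card_filter]
    simp
  rw [h1, h2, sum_KK, sum_split H]
  have h3 : ∑ x ∈ H, (if x ∈ dn X then 1 else 0) = 0 := by
    refine Finset.sum_eq_zero fun x hx => ?_
    rw [if_neg]
    intro h
    exact (Finset.mem_compl.1 (dn_subset X h)) hx
  rw [h3, zero_add, add_comm]
  congr 1
  refine Finset.sum_congr rfl fun x _ => ?_
  simp only [some_mem]

theorem lft_some {c : KK H → F} {x : K} (hx : x ∉ H) : lft H c₀ c x = c (some ⟨x, hx⟩) := by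
  rw [lft, dif_pos hx]

theorem lft_mem {c : KK H → F} {x : K} (hx : x ∈ H) : lft H c₀ c x = c none * c₀ x := by
  rw [lft, dif_neg (not_not.2 hx)]

theorem isRel_lft {c : KK H → F} : IsRel v (lft H c₀ c) ↔ IsRel (vv v H c₀) c := by
  rw [IsRel, IsRel, sum_split H, sum_KK]
  have h1 : ∑ x ∈ H, lft H c₀ c x • v x = c none • vv v H c₀ none := by
    rw [vv, Finset.smul_sum]
    exact Finset.sum_congr rfl fun x hx => by rw [lft_mem hx, mul_smul]
  have h2 : ∑ x : {x : K // x ∉ H}, lft H c₀ c x • v x =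
      ∑ x : {x : K // x ∉ H}, c (some x) • vv v H c₀ (some x) :=
    Finset.sum_congr rfl fun x _ => by rw [lft_some x.2, vv]
  rw [h1, h2]

/-- one-slot sums -/
theorem sum_wr_some (c : KK H → F) (y : {x : K // x ∉ H}) :
    ∑ z, c z * wr w H c₀ z (some y) = ∑ x, lft H c₀ c x * w x y := by
  rw [sum_split H, sum_KK]
  congr 1
  · rw [wr, Finset.mul_sum]
    exact Finset.sum_congr rfl fun x hx => by rw [lft_mem hx, mul_assoc]
  · exact Finset.sum_congr rfl fun x _ => by rw [lft_some x.2, wr]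

theorem sum_wr_none (hH : ∀ x ∈ H, ∀ y ∈ H, w x y = 0) (c : KK H → F) :
    ∑ z, c z * wr w H c₀ z none = ∑ h ∈ H, c₀ h * ∑ x, lft H c₀ c x * w x h := by
  rw [sum_KK]
  have h1 : ∀ h ∈ H, ∑ x, lft H c₀ c x * w x h =
      ∑ x : {x : K // x ∉ H}, c (some x) * w x h := by
    intro h hh
    rw [sum_split H]
    have h2 : ∑ x ∈ H, lft H c₀ c x * w x h = 0 :=
      Finset.sum_eq_zero fun x hx => by rw [hH x hx h hh, mul_zero]
    rw [h2, zero_add]
    exact Finset.sum_congr rfl fun x _ => by rw [lft_some x.2]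
  have h2 : ∑ h ∈ H, c₀ h * ∑ x, lft H c₀ c x * w x h =
      ∑ h ∈ H, c₀ h * ∑ x : {x : K // x ∉ H}, c (some x) * w x h :=
    Finset.sum_congr rfl fun h hh => by rw [h1 h hh]
  rw [h2]
  simp only [wr, mul_zero, zero_add, Finset.mul_sum]
  rw [Finset.sum_comm]
  exact Finset.sum_congr rfl fun h _ => Finset.sum_congr rfl fun x _ => by ring

theorem PP_eq {K : Type*} [Fintype K] (w : K → K → F) (c d : K → F) :
    PP w c d = ∑ y, d y * ∑ x, c x * w x y := by
  rw [PP, Finset.sum_comm]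
  refine Finset.sum_congr rfl fun y _ => ?_
  rw [Finset.mul_sum]
  exact Finset.sum_congr rfl fun x _ => by ring

theorem PP_lft (hH : ∀ x ∈ H, ∀ y ∈ H, w x y = 0) (c d : KK H → F) :
    PP (wr w H c₀) c d = PP w (lft H c₀ c) (lft H c₀ d) := by
  rw [PP_eq, PP_eq, sum_KK, sum_split H]
  congr 1
  · rw [sum_wr_none hH, Finset.mul_sum]
    exact Finset.sum_congr rfl fun x hx => by rw [lft_mem hx, mul_assoc]
  · exact Finset.sum_congr rfl fun x _ => by rw [lft_some x.2, sum_wr_some]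

theorem wr_alt (hw : AltM w) : AltM (wr w H c₀) where
  swap := by
    rintro (_ | x) (_ | y)
    · simp [wr]
    · simp only [wr, ← Finset.sum_neg_distrib]
      exact Finset.sum_congr rfl fun h _ => by rw [hw.swap h y]; ring
    · simp only [wr, ← Finset.sum_neg_distrib]
      exact Finset.sum_congr rfl fun h _ => by rw [hw.swap x h]; ring
    · exact hw.swap x y
  same := by
    rintro (_ | x)
    · rfl
    · exact hw.same x

/-- spans in the reduced configuration -/
theorem sp_vv (X : Finset (KK H)) : sp F (vv v H c₀) X =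
    sp F v (dn X) ⊔ (if (none : KK H) ∈ X then Submodule.span F {∑ y ∈ H, c₀ y • v y} else ⊥) := by
  apply le_antisymm
  · rw [sp_le]
    rintro (_ | x) hx
    · rw [if_pos hx]
      exact Submodule.mem_sup_right (Submodule.mem_span_singleton_self _)
    · exact Submodule.mem_sup_left (mem_sp (v := v) (some_mem.1 hx))
  · apply sup_le
    · rw [sp_le]
      intro x hx
      obtain ⟨h, h'⟩ := mem_dn.1 hx
      exact mem_sp (v := vv v H c₀) h'
    · split_ifs with hn
      · rw [Submodule.span_singleton_le_iff_mem]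
        exact mem_sp (v := vv v H c₀) hn
      · exact bot_le

theorem sp_vv_of_notMem {X : Finset (KK H)} (h : (none : KK H) ∉ X) :
    sp F (vv v H c₀) X = sp F v (dn X) := by
  rw [sp_vv, if_neg h, sup_bot_eq]

theorem sp_vv_of_mem_sp {X : Finset (KK H)} (h : ∑ y ∈ H, c₀ y • v y ∈ sp F v (dn X)) :
    sp F (vv v H c₀) X = sp F v (dn X) := by
  rw [sp_vv]
  split_ifs
  · rw [sup_eq_left, Submodule.span_singleton_le_iff_mem]
    exact h
  · rw [sup_bot_eq]

theorem sp_vv_of_mem {X : Finset (KK H)} (h : (none : KK H) ∈ X) :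
    sp F (vv v H c₀) X = sp F v (dn X) ⊔ Submodule.span F {∑ y ∈ H, c₀ y • v y} := by
  rw [sp_vv, if_pos h]

/-- modularity -/
theorem rk_of_inf_le {X : Finset K} (hX : X ⊆ Hᶜ) (h : sp F v H ⊓ sp F v Hᶜ ≤ sp F v X) :
    rk F v (H ∪ X) + rk F v Hᶜ = rk F v univ + rk F v X := by
  have h1 := Submodule.finrank_sup_add_finrank_inf_eq (sp F v H) (sp F v X)
  have h2 := Submodule.finrank_sup_add_finrank_inf_eq (sp F v H) (sp F v Hᶜ)
  rw [← sp_union] at h1 h2
  have h3 : sp F v H ⊓ sp F v X = sp F v H ⊓ sp F v Hᶜ :=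
    le_antisymm (le_inf inf_le_left (inf_le_right.trans (sp_mono hX))) (le_inf inf_le_left h)
  rw [h3] at h1
  rw [Finset.union_compl] at h2
  rw [rk_eq, rk_eq, rk_eq, rk_eq]
  omega

theorem inf_le_of_rk {S : Finset K} (hS : S ⊆ Hᶜ)
    (h : rk F v Sᶜ + rk F v Hᶜ = rk F v univ + rk F v (Hᶜ \ S)) :
    sp F v H ⊓ sp F v Hᶜ ≤ sp F v (Hᶜ \ S) := by
  have h1 := Submodule.finrank_sup_add_finrank_inf_eq (sp F v Sᶜ) (sp F v Hᶜ)
  rw [← sp_union] at h1
  have h2 : Sᶜ ∪ Hᶜ = univ := by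
    ext x
    simp only [Finset.mem_union, Finset.mem_compl, Finset.mem_univ, iff_true]
    by_contra hx
    rw [not_or, not_not, not_not] at hx
    exact (Finset.mem_compl.1 (hS hx.1)) hx.2
  rw [h2] at h1
  have h3 : sp F v (Hᶜ \ S) ≤ sp F v Sᶜ ⊓ sp F v Hᶜ := by
    apply le_inf
    · apply sp_mono
      intro x hx
      exact Finset.mem_compl.2 (Finset.mem_sdiff.1 hx).2
    · exact sp_mono Finset.sdiff_subset
  have h4 : sp F v (Hᶜ \ S) = sp F v Sᶜ ⊓ sp F v Hᶜ := by
    apply Submodule.eq_of_le_of_finrank_le h3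
    rw [rk_eq, rk_eq, rk_eq, rk_eq] at h
    omega
  rw [h4]
  apply inf_le_inf_right
  apply sp_mono
  intro x hx
  exact Finset.mem_compl.2 fun h5 => (Finset.mem_compl.1 (hS h5)) hx

end Pool.Agent.MP_d4f4ab_ag.W.H
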