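import Pool.Agent.MP_d4f4ab_ag.W.H7

/-! [WR-H8] section 11.2 (characteristic 2): the condition (b) for the reduced configuration. -/

set_option linter.unusedSectionVars false

open Finset

namespace Pool.Agent.MP_d4f4ab_ag.W.H

variable {F : Type*} [Field F] {K : Type*} [Fintype K] [DecidableEq K]
  {V : Type*} [AddCommGroup V] [Module F V] [FiniteDimensional F V] {v : K → V} {w : K → K → F}
  {H : Finset K} {c₀ : K → F}

theorem mem_sp_iff {X : Finset K} {z : V} : z ∈ sp F v X ↔
    ∃ r : K → F, Supp r X ∧ ∑ y, r y • v y = z := by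
  rw [sp, Submodule.mem_span_image_finset_iff_exists_fun']
  constructor
  · rintro ⟨c, rfl⟩
    refine ⟨fun y => if y ∈ X then c y else 0, fun y hy => if_neg hy, ?_⟩
    rw [← Finset.sum_subset (Finset.subset_univ X)]
    · refine Finset.sum_congr rfl fun y hy => ?_
      show (if y ∈ X then c y else 0) • v y = _
      rw [if_pos hy]
    · intro y _ hy
      show (if y ∈ X then c y else 0) • v y = _
      rw [if_neg hy, zero_smul]
  · rintro ⟨r, hr, rfl⟩
    refine ⟨r, ?_⟩
    apply Finset.sum_subset (Finset.subset_univ X)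
    intro y _ hy
    rw [hr y hy, zero_smul]

/-- the data of a special class -/
structure Sp (v : K → V) (w : K → K → F) (H : Finset K) (m kap : ℕ) : Prop where
  m_pos : 1 ≤ m
  rkb : rk F (vb F v H) H = kap
  card : H.card = (m + 1) * kap + 1
  small : ∀ X, X ⊂ H → X.card ≤ (m + 1) * rk F (vb F v H) X
  alt : AltM w
  cls : ∀ x ∈ H, ∀ y ∈ H, w x y = 0
  one : ∀ y ∈ H, ∀ c, IsRel v c → (∀ h ∈ H, c h = 0) → ∑ x, c x * w x y = 0
  b : CB v w m (rk F v univ)
  rku : rk F v univ = rk F v Hᶜ + kap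

section

variable {m kap : ℕ} (h : Sp v w H m kap)
include h

theorem Sp.scls_card {x : K} {P : K → Option (Fin m)} (hs : IsState F (vb F v H) H x P)
    (c : Option (Fin m)) : (scls H x P c).card = kap :=
  state_card h.rkb (by rw [h.card]; simp) hs c

theorem Sp.sp_eq_univ {x : K} {P : K → Option (Fin m)} (hs : IsState F (vb F v H) H x P)
    (c : Option (Fin m)) {Y : Finset K} (hW : sp F v Hᶜ ≤ sp F v Y) (hY : scls H x P c ⊆ Y) :
    sp F v Y = sp F v univ :=
  le_antisymm (sp_mono (Finset.subset_univ _))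
    (sp_univ_le hW (state_span h.rkb (by rw [h.card]; simp) hs c) (sp_mono hY))

theorem Sp.base {x : K} {P : K → Option (Fin m)} (hs : IsState F (vb F v H) H x P)
    (c : Option (Fin m)) {Y : Finset K} (hW : sp F v Hᶜ ≤ sp F v Y) (hY : scls H x P c ⊆ Y)
    (hc : Y.card = rk F v univ) : LinearIndepOn F v (Y : Set K) := by
  rw [← rk_eq_card_iff, hc, rk_eq, rk_eq, h.sp_eq_univ hs c hW hY]

/-- first gluing -/
theorem Sp.glueA {R₀ : Finset K} (hR₀ : R₀ ⊆ Hᶜ) {x : K} {P : K → Option (Fin m)}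
    (hs : IsState F (vb F v H) H x P) {Q₀ : K → Fin m}
    (hsp : ∀ i, sp F v ((Hᶜ \ R₀).filter fun y => Q₀ y = i) = sp F v Hᶜ)
    (hcard : ∀ i, ((Hᶜ \ R₀).filter fun y => Q₀ y = i).card = rk F v Hᶜ)
    (hW : sp F v Hᶜ ≤ sp F v (R₀ ∪ insert x (scls H x P none))) (c d : K → F) (hc : IsRel v c)
    (hd : IsRel v d) (hcs : Supp c (R₀ ∪ insert x (scls H x P none)))
    (hds : Supp d (R₀ ∪ insert x (scls H x P none))) : PP w c d = 0 := by
  classical
  have hsub : scls H x P none ⊆ R₀ ∪ insert x (scls H x P none) :=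
    (Finset.subset_insert _ _).trans Finset.subset_union_right
  have hcl : ∀ i, (R₀ ∪ insert x (scls H x P none))ᶜ.filter
      (fun y => (if y ∈ H then (P y).getD ⟨0, h.m_pos⟩ else Q₀ y) = i) =
      (Hᶜ \ R₀).filter (fun y => Q₀ y = i) ∪ scls H x P (some i) := by
    intro i
    ext y
    simp only [Finset.mem_filter, Finset.mem_compl, Finset.mem_union, Finset.mem_insert, mem_scls,
      Finset.mem_sdiff]
    by_cases hyH : y ∈ H
    · have hyR : y ∉ R₀ := fun h' => Finset.mem_compl.1 (hR₀ h') hyH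
      by_cases hyx : y = x
      · simp [hyx, hs.1]
      · rcases hP : P y with _ | j
        · simp [hyH, hyR, hyx]
        · simp [hyH, hyR, hyx]
    · have hyx : y ≠ x := fun h' => hyH (h' ▸ hs.1)
      simp [hyH, hyx]
  refine h.b (R₀ ∪ insert x (scls H x P none))
    (fun y => if y ∈ H then (P y).getD ⟨0, h.m_pos⟩ else Q₀ y) ?_ ?_ ?_ c d hc hd hcs hds
  · rw [rk_eq, rk_eq, h.sp_eq_univ hs none hW hsub]
  · intro i
    rw [hcl i]
    refine h.base hs (some i) ?_ Finset.subset_union_right ?_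
    · rw [← hsp i]
      exact sp_mono Finset.subset_union_left
    · rw [Finset.card_union_of_disjoint, hcard, h.scls_card hs, h.rku]
      rw [Finset.disjoint_left]
      intro y hy hy'
      rw [Finset.mem_filter, Finset.mem_sdiff, Finset.mem_compl] at hy
      exact hy.1.1 (mem_scls.1 hy').1.2
  · intro i
    rw [hcl i, Finset.card_union_of_disjoint, hcard, h.scls_card hs, h.rku]
    rw [Finset.disjoint_left]
    intro y hy hy'
    rw [Finset.mem_filter, Finset.mem_sdiff, Finset.mem_compl] at hy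
    exact hy.1.1 (mem_scls.1 hy').1.2

/-- second gluing -/
theorem Sp.glueB {R₀ : Finset K} (hR₀ : R₀ ⊆ Hᶜ) (hR₀s : sp F v R₀ = sp F v Hᶜ) {x : K}
    {P : K → Option (Fin m)} (hs : IsState F (vb F v H) H x P) {Q₀ : K → Fin m} (i₀ : Fin m)
    (hsp : ∀ i, i ≠ i₀ → sp F v ((Hᶜ \ R₀).filter fun y => Q₀ y = i) = sp F v Hᶜ)
    (hcard : ∀ i, i ≠ i₀ → ((Hᶜ \ R₀).filter fun y => Q₀ y = i).card = rk F v Hᶜ)
    (hcard₀ : ((Hᶜ \ R₀).filter fun y => Q₀ y = i₀).card + 1 = rk F v Hᶜ)
    (hW : sp F v Hᶜ ≤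
      sp F v (((Hᶜ \ R₀).filter fun y => Q₀ y = i₀) ∪ insert x (scls H x P none)))
    (c d : K → F) (hc : IsRel v c) (hd : IsRel v d) (hcs : Supp c R₀) (hds : Supp d R₀) :
    PP w c d = 0 := by
  classical
  have hcl₀ : (R₀ ∪ scls H x P (some i₀))ᶜ.filter
      (fun y => (if y ∈ H then (if y = x then i₀ else (P y).getD i₀) else Q₀ y) = i₀) =
      (Hᶜ \ R₀).filter (fun y => Q₀ y = i₀) ∪ insert x (scls H x P none) := by
    ext y
    simp only [Finset.mem_filter, Finset.mem_compl, Finset.mem_union, Finset.mem_insert, mem_scls,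
      Finset.mem_sdiff]
    by_cases hyH : y ∈ H
    · have hyR : y ∉ R₀ := fun h' => Finset.mem_compl.1 (hR₀ h') hyH
      by_cases hyx : y = x
      · have hxR : x ∉ R₀ := hyx ▸ hyR
        simp [hyx, hs.1, hxR]
      · rcases hP : P y with _ | j
        · simp [hyH, hyR, hyx]
        · simp [hyH, hyR, hyx]
    · have hyx : y ≠ x := fun h' => hyH (h' ▸ hs.1)
      simp [hyH, hyx]
  have hcl : ∀ i, i ≠ i₀ → (R₀ ∪ scls H x P (some i₀))ᶜ.filter
      (fun y => (if y ∈ H then (if y = x then i₀ else (P y).getD i₀) else Q₀ y) = i) =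
      (Hᶜ \ R₀).filter (fun y => Q₀ y = i) ∪ scls H x P (some i) := by
    intro i hi
    ext y
    simp only [Finset.mem_filter, Finset.mem_compl, Finset.mem_union, Finset.mem_insert, mem_scls,
      Finset.mem_sdiff]
    by_cases hyH : y ∈ H
    · have hyR : y ∉ R₀ := fun h' => Finset.mem_compl.1 (hR₀ h') hyH
      by_cases hyx : y = x
      · simp [hyx, hs.1, hi.symm]
      · rcases hP : P y with _ | j
        · simp [hyH, hyR, hyx, hi.symm]
        · simp [hyH, hyR, hyx]
          rintro rfl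
          exact hi
    · have hyx : y ≠ x := fun h' => hyH (h' ▸ hs.1)
      simp [hyH]
  have hdis : ∀ i, Disjoint ((Hᶜ \ R₀).filter fun y => Q₀ y = i) (scls H x P (some i)) := by
    intro i
    rw [Finset.disjoint_left]
    intro y hy hy'
    rw [Finset.mem_filter, Finset.mem_sdiff, Finset.mem_compl] at hy
    exact hy.1.1 (mem_scls.1 hy').1.2
  have hdis₀ : Disjoint ((Hᶜ \ R₀).filter fun y => Q₀ y = i₀) (insert x (scls H x P none)) := by
    rw [Finset.disjoint_left]
    intro y hy hy'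
    rw [Finset.mem_filter, Finset.mem_sdiff, Finset.mem_compl] at hy
    rw [Finset.mem_insert] at hy'
    rcases hy' with rfl | hy'
    · exact hy.1.1 hs.1
    · exact hy.1.1 (mem_scls.1 hy').1.2
  have hcardi : ∀ i, ((R₀ ∪ scls H x P (some i₀))ᶜ.filter
      (fun y => (if y ∈ H then (if y = x then i₀ else (P y).getD i₀) else Q₀ y) = i)).card =
      rk F v univ := by
    intro i
    by_cases hi : i = i₀
    · rw [hi, hcl₀, Finset.card_union_of_disjoint hdis₀, Finset.card_insert_of_notMem,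
        h.scls_card hs, h.rku]
      · omega
      · intro h'
        exact (mem_scls.1 h').1.1 rfl
    · rw [hcl i hi, Finset.card_union_of_disjoint (hdis i), hcard i hi, h.scls_card hs, h.rku]
  refine h.b (R₀ ∪ scls H x P (some i₀))
    (fun y => if y ∈ H then (if y = x then i₀ else (P y).getD i₀) else Q₀ y) ?_ ?_ hcardi c d hc hd
    (hcs.mono Finset.subset_union_left) (hds.mono Finset.subset_union_left)
  · rw [rk_eq, rk_eq, h.sp_eq_univ hs (some i₀) _ Finset.subset_union_right]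
    rw [← hR₀s]
    exact sp_mono Finset.subset_union_left
  · intro i
    by_cases hi : i = i₀
    · have h1 := hcardi i
      rw [hi, hcl₀] at h1 ⊢
      exact h.base hs none hW ((Finset.subset_insert _ _).trans Finset.subset_union_right) h1
    · have h1 := hcardi i
      rw [hcl i hi] at h1 ⊢
      refine h.base hs (some i) ?_ Finset.subset_union_right h1
      rw [← hsp i hi]
      exact sp_mono Finset.subset_union_left


/-- a state for which the circuit completes the span -/
theorem Sp.exists_complete {N : Submodule F V} (hc₀ : ∑ y ∈ H, c₀ y • v y ∈ sp F v Hᶜ)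
    (hsp : N ⊔ Submodule.span F {∑ y ∈ H, c₀ y • v y} = sp F v Hᶜ) :
    ∃ (x : K) (P : K → Option (Fin m)), IsState F (vb F v H) H x P ∧
      sp F v Hᶜ ≤ N ⊔ sp F v (insert x (scls H x P none)) := by
  by_cases hu : ∑ y ∈ H, c₀ y • v y ∈ N
  · obtain ⟨x, P, hs⟩ := exists_state (F := F) (v := v) (H := H) (C := Option (Fin m))
      (kap := kap) (by rw [h.card]; simp) (by simpa using h.small)
    refine ⟨x, P, hs, ?_⟩
    rw [← hsp, sup_eq_left.2 ((Submodule.span_singleton_le_iff_mem _ _).2 hu)]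
    exact le_sup_left
  · obtain ⟨x, P, hs, u, hu1, hu2, hu3⟩ := exists_circ h.rkb h.card h.small N c₀ hc₀ hu
    refine ⟨x, P, hs, ?_⟩
    have h1 : N ⊔ Submodule.span F {u} ≤ N ⊔ sp F v (insert x (scls H x P none)) :=
      sup_le_sup_left ((Submodule.span_singleton_le_iff_mem _ _).2 hu1) _
    refine le_trans ?_ h1
    rw [← hsp] at hu2 ⊢
    rw [Submodule.mem_sup] at hu2
    obtain ⟨a, ha, b, hb, hab⟩ := hu2
    rw [Submodule.mem_span_singleton] at hb
    obtain ⟨t, rfl⟩ := hb
    have ht : t ≠ 0 := by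
      rintro rfl
      rw [zero_smul, add_zero] at hab
      exact hu3 (hab ▸ ha)
    apply sup_le le_sup_left
    rw [Submodule.span_singleton_le_iff_mem]
    have h2 : ∑ y ∈ H, c₀ y • v y = t⁻¹ • (u - a) := by
      rw [← hab, add_sub_cancel_left, smul_smul, inv_mul_cancel₀ ht, one_smul]
    rw [h2]
    apply Submodule.smul_mem
    exact Submodule.sub_mem _ (Submodule.mem_sup_right (Submodule.mem_span_singleton_self _))
      (Submodule.mem_sup_left ha)

/-- the first case: `none ∈ R` -/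
theorem Sp.caseA {R₀ : Finset K} (hR₀ : R₀ ⊆ Hᶜ) {Q₀ : K → Fin m}
    (hsp : ∀ i, sp F v ((Hᶜ \ R₀).filter fun y => Q₀ y = i) = sp F v Hᶜ)
    (hcard : ∀ i, ((Hᶜ \ R₀).filter fun y => Q₀ y = i).card = rk F v Hᶜ)
    (hc₀ : ∑ y ∈ H, c₀ y • v y ∈ sp F v Hᶜ)
    (hR : sp F v R₀ ⊔ Submodule.span F {∑ y ∈ H, c₀ y • v y} = sp F v Hᶜ)
    (c d : KK H → F) (hc : IsRel v (lft H c₀ c)) (hd : IsRel v (lft H c₀ d))
    (hcs : Supp (lft H c₀ c) (R₀ ∪ H)) (hds : Supp (lft H c₀ d) (R₀ ∪ H)) :
    PP w (lft H c₀ c) (lft H c₀ d) = 0 := by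
  classical
  -- relations supported in `R₀`
  have hA1 : ∀ a b : K → F, IsRel v a → IsRel v b → Supp a R₀ → Supp b R₀ → PP w a b = 0 := by
    obtain ⟨x, P, hs, hx⟩ := h.exists_complete hc₀ hR
    intro a b ha hb has hbs
    refine h.glueA hR₀ hs hsp hcard ?_ a b ha hb (has.mono Finset.subset_union_left)
      (hbs.mono Finset.subset_union_left)
    rw [sp_union]
    exact hx
  -- a relation with nonzero `none`-part and a relation supported in `R₀`
  have hA2 : ∀ c : KK H → F, c none ≠ 0 → IsRel v (lft H c₀ c) → Supp (lft H c₀ c) (R₀ ∪ H) →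
      ∀ b : K → F, IsRel v b → Supp b R₀ → PP w (lft H c₀ c) b = 0 := by
    intro c hc0 hc hcs b hb hbs
    have hbH : ∀ y ∈ H, b y = 0 := fun y hy => hbs y fun h' => Finset.mem_compl.1 (hR₀ h') hy
    -- the part of `c` outside `H`
    set r₁ : K → F := fun y => if y ∈ H then 0 else lft H c₀ c y with hr₁
    have hr₁s : Supp r₁ R₀ := by
      intro y hy
      rw [hr₁]
      simp only
      split_ifs with hyH
      · rfl
      · exact hcs y (by rw [Finset.mem_union, not_or]; exact ⟨hy, hyH⟩)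
    have hsumc : c none • (∑ y ∈ H, c₀ y • v y) + ∑ y, r₁ y • v y = 0 := by
      rw [IsRel, sum_split H] at hc
      rw [← hc, sum_split H (fun y => r₁ y • v y)]
      congr 1
      · rw [Finset.smul_sum]
        exact Finset.sum_congr rfl fun x hx => by rw [lft_mem hx, mul_smul]
      · have : ∑ x ∈ H, r₁ x • v x = 0 := Finset.sum_eq_zero fun x hx => by
          rw [hr₁]
          simp only
          rw [if_pos hx, zero_smul]
        rw [this, zero_add]
        refine Finset.sum_congr rfl fun x _ => ?_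
        rw [hr₁]
        simp only
        rw [if_neg x.2]
    have huR : ∑ y ∈ H, c₀ y • v y ∈ sp F v R₀ := by
      have h1 : ∑ y ∈ H, c₀ y • v y = -(c none)⁻¹ • ∑ y, r₁ y • v y := by
        have h2 : ∑ y, r₁ y • v y = - (c none • (∑ y ∈ H, c₀ y • v y)) := by
          rw [eq_neg_iff_add_eq_zero, add_comm]
          exact hsumc
        rw [h2, smul_neg, neg_smul, neg_neg, smul_smul, inv_mul_cancel₀ hc0, one_smul]
      rw [h1]
      exact Submodule.smul_mem _ _ (mem_sp_iff.2 ⟨r₁, hr₁s, rfl⟩)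
    have hspR : sp F v R₀ = sp F v Hᶜ := by
      rw [← hR, sup_eq_left.2 ((Submodule.span_singleton_le_iff_mem _ _).2 huR)]
    -- the subspace `T`
    let ψ : K → F := fun x => ∑ y, b y * w x y
    have hψH : ∀ x ∈ H, ψ x = 0 := by
      intro x hx
      have h1 := h.one x hx b hb hbH
      show ∑ y, b y * w x y = 0
      rw [← neg_eq_zero, ← Finset.sum_neg_distrib, ← h1]
      exact Finset.sum_congr rfl fun y _ => by rw [h.alt.swap x y]; ring
    have hPψ : ∀ a : K → F, PP w a b = ∑ x, a x * ψ x := by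
      intro a
      rw [PP]
      refine Finset.sum_congr rfl fun x _ => ?_
      show _ = a x * ∑ y, b y * w x y
      rw [Finset.mul_sum]
      exact Finset.sum_congr rfl fun y _ => by ring
    let T : Submodule F V :=
      { carrier := {z | ∃ r : K → F, Supp r R₀ ∧ ∑ y, r y • v y = z ∧ ∑ y, r y * ψ y = 0}
        add_mem' := by
          rintro _ _ ⟨r, hr, rfl, hr'⟩ ⟨s, hs, rfl, hs'⟩
          refine ⟨r + s, hr.add hs, ?_, ?_⟩
          · simp only [Pi.add_apply, add_smul, Finset.sum_add_distrib]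
          · simp only [Pi.add_apply, add_mul, Finset.sum_add_distrib, hr', hs', add_zero]
        zero_mem' := ⟨0, fun y _ => rfl, by simp, by simp⟩
        smul_mem' := by
          rintro t _ ⟨r, hr, rfl, hr'⟩
          refine ⟨t • r, hr.smul t, ?_, ?_⟩
          · simp only [Pi.smul_apply, smul_eq_mul, mul_smul, ← Finset.smul_sum]
          · simp only [Pi.smul_apply, smul_eq_mul, mul_assoc, ← Finset.mul_sum, hr', mul_zero] }
    have hT := circ h.rkb h.card h.small T (by
      intro x P hs l hl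
      -- the relation
      have hl' := hl
      rw [← hspR] at hl'
      obtain ⟨r, hr, hr'⟩ := mem_sp_iff.1 hl'
      refine ⟨r, hr, hr', ?_⟩
      have hxS : x ∉ scls H x P none := fun h' => (mem_scls.1 h').1.1 rfl
      set g : K → F := fun y => (if y = x then 1 else 0) -
        (if y ∈ scls H x P none then l y else 0) - r y with hg
      have hgr : IsRel v g := by
        rw [IsRel, hg]
        simp only [sub_smul, Finset.sum_sub_distrib, ite_smul, one_smul, zero_smul]
        rw [Finset.sum_ite_eq' univ x, if_pos (Finset.mem_univ x), hr', ← Finset.sum_filter,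
          Finset.filter_mem_eq_inter, Finset.univ_inter, sub_self]
      have hgs : Supp g (R₀ ∪ insert x (scls H x P none)) := by
        intro y hy
        rw [Finset.mem_union, not_or, Finset.mem_insert, not_or] at hy
        rw [hg]
        simp only
        rw [if_neg hy.2.1, if_neg hy.2.2, hr y hy.1]
        ring
      have h1 := h.glueA hR₀ hs hsp hcard (by
        rw [sp_union, hspR]
        exact le_sup_left) g b hgr hb hgs (hbs.mono Finset.subset_union_left)
      rw [hPψ] at h1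
      have h2 : ∀ y, g y * ψ y = - (r y * ψ y) := by
        intro y
        by_cases hyH : y ∈ H
        · rw [hψH y hyH, mul_zero, mul_zero, neg_zero]
        · rw [hg]
          simp only
          rw [if_neg (show ¬ y = x from fun h' => hyH (h' ▸ hs.1)),
            if_neg (show ¬ y ∈ scls H x P none from fun h' => hyH (scls_subset _ _ _ _ h'))]
          ring
      rw [Finset.sum_congr rfl fun y _ => h2 y, Finset.sum_neg_distrib, neg_eq_zero] at h1
      exact h1) c₀ hc₀
    obtain ⟨r, hr, hr', hrψ⟩ := hT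
    have h3 : IsRel v (r₁ + c none • r) := by
      rw [IsRel]
      simp only [Pi.add_apply, Pi.smul_apply, add_smul, Finset.sum_add_distrib, smul_eq_mul,
        mul_smul, ← Finset.smul_sum]
      rw [hr', add_comm]
      exact hsumc
    have h4 := hA1 (r₁ + c none • r) b h3 hb (hr₁s.add (hr.smul _)) hbs
    rw [PP_add_left, PP_smul_left, hPψ r, hrψ, mul_zero, add_zero, hPψ] at h4
    rw [hPψ, ← h4]
    refine Finset.sum_congr rfl fun y _ => ?_
    by_cases hyH : y ∈ H
    · rw [hψH y hyH, mul_zero, mul_zero]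
    · rw [hr₁]
      simp only
      rw [if_neg hyH]
  have hsub : ∀ c d : KK H → F, IsRel v (lft H c₀ c) → IsRel v (lft H c₀ d) →
      Supp (lft H c₀ c) (R₀ ∪ H) → Supp (lft H c₀ d) (R₀ ∪ H) → c none ≠ 0 →
      PP w (lft H c₀ c) (lft H c₀ d) = 0 := by
    intro c d hc hd hcs hds hc0
    set b : K → F := lft H c₀ d - (d none / c none) • lft H c₀ c with hb
    have hbr : IsRel v b := hd.sub (hc.smul _)
    have hbs : Supp b R₀ := by
      intro y hy
      by_cases hyH : y ∈ H
      · rw [hb, Pi.sub_apply, Pi.smul_apply, smul_eq_mul, lft_mem hyH, lft_mem hyH]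
        field_simp
        ring
      · exact (hds.sub (hcs.smul _)) y (by rw [Finset.mem_union, not_or]; exact ⟨hy, hyH⟩)
    have h1 := hA2 c hc0 hc hcs b hbr hbs
    rw [hb, PP_sub_right, PP_smul_right, PP_self h.alt, mul_zero, sub_zero] at h1
    exact h1
  by_cases hc0 : c none = 0
  · by_cases hd0 : d none = 0
    · have h1 : ∀ c : KK H → F, c none = 0 → Supp (lft H c₀ c) (R₀ ∪ H) →
          Supp (lft H c₀ c) R₀ := by
        intro c hc0 hcs y hy
        by_cases hyH : y ∈ H
        · rw [lft_mem hyH, hc0, zero_mul]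
        · exact hcs y (by rw [Finset.mem_union, not_or]; exact ⟨hy, hyH⟩)
      exact hA1 _ _ hc hd (h1 c hc0 hcs) (h1 d hd0 hds)
    · rw [PP_swap h.alt, hsub d c hd hc hds hcs hd0, neg_zero]
  · exact hsub c d hc hd hcs hds hc0

/-- the second case: `none ∉ R` -/
theorem Sp.caseB {R₀ : Finset K} (hR₀ : R₀ ⊆ Hᶜ) (hR₀s : sp F v R₀ = sp F v Hᶜ) {Q₀ : K → Fin m}
    (i₀ : Fin m)
    (hsp : ∀ i, i ≠ i₀ → sp F v ((Hᶜ \ R₀).filter fun y => Q₀ y = i) = sp F v Hᶜ)
    (hcard : ∀ i, i ≠ i₀ → ((Hᶜ \ R₀).filter fun y => Q₀ y = i).card = rk F v Hᶜ)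
    (hcard₀ : ((Hᶜ \ R₀).filter fun y => Q₀ y = i₀).card + 1 = rk F v Hᶜ)
    (hc₀ : ∑ y ∈ H, c₀ y • v y ∈ sp F v Hᶜ)
    (hT : sp F v ((Hᶜ \ R₀).filter fun y => Q₀ y = i₀) ⊔
      Submodule.span F {∑ y ∈ H, c₀ y • v y} = sp F v Hᶜ)
    (c d : K → F) (hc : IsRel v c) (hd : IsRel v d) (hcs : Supp c R₀) (hds : Supp d R₀) :
    PP w c d = 0 := by
  classical
  obtain ⟨x, P, hs, hx⟩ := h.exists_complete hc₀ hT
  refine h.glueB hR₀ hR₀s hs i₀ hsp hcard hcard₀ ?_ c d hc hd hcs hds
  rw [sp_union]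
  exact hx

/-- (b) for the reduced configuration -/
theorem Sp.b_red (hc₀ : ∑ y ∈ H, c₀ y • v y ∈ sp F v Hᶜ) :
    CB (vv v H c₀) (wr w H c₀) m (rk F (vv v H c₀) univ) := by
  classical
  have hspu : sp F (vv v H c₀) univ = sp F v Hᶜ := by
    rw [sp_vv_of_mem_sp (by rw [dn_univ]; exact hc₀), dn_univ]
  have hrku : rk F (vv v H c₀) univ = rk F v Hᶜ := by rw [rk_eq, hspu, rk_eq]
  intro R Q hR hQ hQc c d hc hd hcs hds
  rw [PP_lft h.cls]
  rw [hrku] at hR hQc
  have hspR : sp F (vv v H c₀) R = sp F v Hᶜ := by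
    rw [← hspu]
    apply sp_eq_of_rk_le (Finset.subset_univ R)
    rw [hR, hrku]
  let Q₀ : K → Fin m := fun y => if hy : y ∉ H then Q (some ⟨y, hy⟩) else ⟨0, h.m_pos⟩
  have hR₀ : dn R ⊆ Hᶜ := dn_subset R
  have hdn : ∀ i, dn (Rᶜ.filter fun y => Q y = i) = (Hᶜ \ dn R).filter fun y => Q₀ y = i := by
    intro i
    ext y
    rw [mem_dn, Finset.mem_filter, Finset.mem_sdiff, Finset.mem_compl, mem_dn]
    constructor
    · rintro ⟨hy, hy'⟩
      rw [Finset.mem_filter, Finset.mem_compl] at hy'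
      refine ⟨⟨hy, fun ⟨_, h2⟩ => hy'.1 h2⟩, ?_⟩
      show (if hy : y ∉ H then Q (some ⟨y, hy⟩) else ⟨0, h.m_pos⟩) = i
      rw [dif_pos hy]
      exact hy'.2
    · rintro ⟨⟨hy, hy'⟩, hy2⟩
      refine ⟨hy, ?_⟩
      rw [Finset.mem_filter, Finset.mem_compl]
      refine ⟨fun h2 => hy' ⟨hy, h2⟩, ?_⟩
      change (if hy : y ∉ H then Q (some ⟨y, hy⟩) else ⟨0, h.m_pos⟩) = i at hy2
      rwa [dif_pos hy] at hy2
  have hspi : ∀ i, sp F (vv v H c₀) (Rᶜ.filter fun y => Q y = i) = sp F v Hᶜ := by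
    intro i
    rw [← hspu]
    apply sp_eq_of_rk_le (Finset.subset_univ _)
    rw [hrku, (rk_eq_card_iff F (vv v H c₀) _).2 (hQ i), hQc i]
  have hsupp : ∀ c : KK H → F, Supp c R → Supp (lft H c₀ c) (dn R ∪ H) := by
    intro c hcs y hy
    rw [Finset.mem_union, not_or] at hy
    rw [lft_some hy.2]
    apply hcs
    intro h'
    exact hy.1 (mem_dn.2 ⟨hy.2, h'⟩)
  by_cases hn : (none : KK H) ∈ R
  · have hni : ∀ i, (none : KK H) ∉ Rᶜ.filter fun y => Q y = i := by
      intro i h'
      rw [Finset.mem_filter, Finset.mem_compl] at h'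
      exact h'.1 hn
    refine h.caseA hR₀ (Q₀ := Q₀) ?_ ?_ hc₀ ?_ c d (isRel_lft.2 hc) (isRel_lft.2 hd)
      (hsupp c hcs) (hsupp d hds)
    · intro i
      rw [← hdn i, ← hspi i, sp_vv_of_notMem (hni i)]
    · intro i
      have h1 := card_eq (Rᶜ.filter fun y => Q y = i)
      rw [if_neg (hni i), add_zero] at h1
      rw [← hdn i, ← h1, hQc i]
    · rw [← hspR, sp_vv_of_mem hn]
  · have hspR' : sp F v (dn R) = sp F v Hᶜ := by rw [← hspR, sp_vv_of_notMem hn]
    have hni : ∀ i, i ≠ Q none → (none : KK H) ∉ Rᶜ.filter fun y => Q y = i := by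
      intro i hi h'
      rw [Finset.mem_filter] at h'
      exact hi h'.2.symm
    have hni₀ : (none : KK H) ∈ Rᶜ.filter fun y => Q y = Q none := by
      rw [Finset.mem_filter, Finset.mem_compl]
      exact ⟨hn, rfl⟩
    have hsupp' : ∀ c : KK H → F, Supp c R → Supp (lft H c₀ c) (dn R) := by
      intro c hcs y hy
      by_cases hyH : y ∈ H
      · rw [lft_mem hyH, hcs none hn, zero_mul]
      · exact hsupp c hcs y (by rw [Finset.mem_union, not_or]; exact ⟨hy, hyH⟩)
    refine h.caseB hR₀ hspR' (Q₀ := Q₀) (Q none) ?_ ?_ ?_ hc₀ ?_ _ _ (isRel_lft.2 hc)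
      (isRel_lft.2 hd) (hsupp' c hcs) (hsupp' d hds)
    · intro i hi
      rw [← hdn i, ← hspi i, sp_vv_of_notMem (hni i hi)]
    · intro i hi
      have h1 := card_eq (Rᶜ.filter fun y => Q y = i)
      rw [if_neg (hni i hi), add_zero] at h1
      rw [← hdn i, ← h1, hQc i]
    · have h1 := card_eq (Rᶜ.filter fun y => Q y = Q none)
      rw [if_pos hni₀] at h1
      rw [← hdn, ← h1, hQc]
    · rw [← hdn, ← hspi (Q none), sp_vv_of_mem hni₀]

end

end Pool.Agent.MP_d4f4ab_ag.W.H
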