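import Pool.Agent.MP_d4f4ab_ag.W.H8

/-! [WR-H9] section 11.2 (characteristic 2): the reduced configuration is a configuration. -/

set_option linter.unusedSectionVars false

open Finset

namespace Pool.Agent.MP_d4f4ab_ag.W.H

variable {F : Type*} [Field F] {K : Type*} [Fintype K] [DecidableEq K]
  {V : Type*} [AddCommGroup V] [Module F V] [FiniteDimensional F V] {v : K → V} {w : K → K → F}
  {e : ℕ} {H : Finset K} {c₀ : K → F}

/-- `n(S ∪ H) - n(H)` -/
theorem nn_union_sub {S : Finset K} (hS : S ⊆ Hᶜ) :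
    nn (rel F v) e (S ∪ H) - nn (rel F v) e H =
      (S.card : ℤ) - e * ((rk F v Hᶜ : ℤ) - rk F v (Hᶜ \ S)) := by
  rw [nn_eq, nn_eq]
  have h1 : (S ∪ H)ᶜ = Hᶜ \ S := by
    ext x
    simp only [Finset.mem_compl, Finset.mem_union, Finset.mem_sdiff]
    tauto
  have h2 : (S ∪ H).card = S.card + H.card := by
    apply Finset.card_union_of_disjoint
    rw [Finset.disjoint_left]
    intro x hx
    exact Finset.mem_compl.1 (hS hx)
  rw [h1, h2]
  push_cast
  ring

/-- the data of a class -/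
theorem Cf.spc (h : Cf v e w) (hH : H ∈ clss F v e) :
    Sp v w H (e - 1) (rk F (vb F v H) H) := by
  rw [mem_clss] at hH
  have he := h.dense.two_le
  have hm : e - 1 + 1 = e := by omega
  have hrk : ∀ X, rk F (vb F v H) X + rk F v Hᶜ = rk F v (X ∪ Hᶜ) := fun X => rk_mkQ v Hᶜ X
  have hrku : rk F v univ = rk F v Hᶜ + rk F (vb F v H) H := by
    rw [add_comm, hrk, Finset.union_compl]
  have hcard : (H.card : ℤ) = e * rk F (vb F v H) H + 1 := by
    have h1 := hH.2
    rw [nn_eq, hrku] at h1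
    push_cast at h1
    linarith
  refine ⟨by omega, rfl, ?_, ?_, h.alt, h.cls H hH.2, h.one H hH.1 hH.2, h.b, hrku⟩
  · rw [hm]
    exact_mod_cast hcard
  · intro X hX
    rw [hm]
    have hne : (H \ X).Nonempty := by
      rw [Finset.sdiff_nonempty]
      exact fun h' => hX.2 h'
    have h1 := h.dense.pos _ hne
    have h2 : (H \ X)ᶜ = X ∪ Hᶜ := by
      ext x
      simp only [Finset.mem_compl, Finset.mem_union, Finset.mem_sdiff]
      tauto
    have h3 : ((H \ X).card : ℤ) = H.card - X.card := by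
      rw [Finset.card_sdiff_of_subset hX.1]
      push_cast [Nat.cast_sub (Finset.card_le_card hX.1)]
      ring
    rw [nn_eq, h2, ← hrk X, h3, hcard, hrku] at h1
    push_cast at h1
    have : (X.card : ℤ) ≤ ((e * rk F (vb F v H) X : ℕ) : ℤ) := by
      push_cast
      nlinarith
    exact_mod_cast this

section

variable (h : Cf v e w) (hH : H ∈ clss F v e) (hc₀ : ∑ y ∈ H, c₀ y • v y ∈ sp F v Hᶜ)

theorem rk_vv_univ (hc₀ : ∑ y ∈ H, c₀ y • v y ∈ sp F v Hᶜ) :
    rk F (vv v H c₀) univ = rk F v Hᶜ := by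
  rw [rk_eq, sp_vv_of_mem_sp (by rw [dn_univ]; exact hc₀), dn_univ, rk_eq]

include hc₀

theorem nn_vv_of_mem {X : Finset (KK H)} (hX : (none : KK H) ∈ X) :
    nn (rel F (vv v H c₀)) e X = nn (rel F v) e (dn X ∪ H) - nn (rel F v) e H + 1 := by
  rw [nn_eq, nn_union_sub (dn_subset X), rk_vv_univ hc₀, card_eq, if_pos hX]
  have h1 : (none : KK H) ∉ Xᶜ := by rwa [Finset.mem_compl, not_not]
  have h2 : rk F (vv v H c₀) Xᶜ = rk F v (Hᶜ \ dn X) := by
    rw [rk_eq, sp_vv_of_notMem h1, dn_compl, rk_eq]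
  rw [h2]
  push_cast
  ring

theorem nn_vv_of_mem_sp {X : Finset (KK H)} (hX : (none : KK H) ∉ X)
    (hu : ∑ y ∈ H, c₀ y • v y ∈ sp F v (Hᶜ \ dn X)) :
    nn (rel F (vv v H c₀)) e X = nn (rel F v) e (dn X ∪ H) - nn (rel F v) e H := by
  rw [nn_eq, nn_union_sub (dn_subset X), rk_vv_univ hc₀, card_eq, if_neg hX]
  have h2 : rk F (vv v H c₀) Xᶜ = rk F v (Hᶜ \ dn X) := by
    rw [rk_eq, sp_vv_of_mem_sp (by rw [dn_compl]; exact hu), dn_compl, rk_eq]
  rw [h2]
  push_cast
  ring

theorem nn_vv_of_notMem_sp (he : 0 < (e : ℤ)) {X : Finset (KK H)} (hX : (none : KK H) ∉ X)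
    (hu : ∑ y ∈ H, c₀ y • v y ∉ sp F v (Hᶜ \ dn X)) :
    nn (rel F v) e (dn X ∪ H) - nn (rel F v) e H + e ≤ nn (rel F (vv v H c₀)) e X := by
  rw [nn_union_sub (dn_subset X), nn_eq, rk_vv_univ hc₀, card_eq, if_neg hX]
  have h2 : rk F v (Hᶜ \ dn X) + 1 ≤ rk F (vv v H c₀) Xᶜ := by
    rw [rk_eq, rk_eq]
    apply Submodule.finrank_lt_finrank_of_lt
    rw [sp_vv_of_mem (Finset.mem_compl.2 hX), dn_compl]
    refine lt_of_le_of_ne le_sup_left fun h' => hu ?_
    rw [h']
    exact Submodule.mem_sup_right (Submodule.mem_span_singleton_self _)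
  have h3 : (rk F v (Hᶜ \ dn X) : ℤ) + 1 ≤ rk F (vv v H c₀) Xᶜ := by exact_mod_cast h2
  push_cast
  nlinarith

include h hH

theorem Cf.nn_union_ge {S : Finset K} (hS : S ⊆ Hᶜ) (hne : S.Nonempty) :
    nn (rel F v) e H + 1 ≤ nn (rel F v) e (S ∪ H) := by
  rw [mem_clss] at hH
  rw [Finset.union_comm]
  apply hH.1.nn_union
  intro h'
  obtain ⟨x, hx⟩ := hne
  exact Finset.mem_compl.1 (hS hx) (h' hx)

theorem dn_nonempty {X : Finset (KK H)} (hX : (none : KK H) ∉ X) (hne : X.Nonempty) :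
    (dn X).Nonempty := by
  rw [← Finset.card_pos]
  have h1 := card_eq X
  rw [if_neg hX, add_zero] at h1
  rw [← h1]
  exact Finset.card_pos.2 hne

theorem Cf.dense_red : Dense (rel F (vv v H c₀)) e where
  two_le := h.dense.two_le
  pos := by
    intro X hX
    have hHn := (mem_clss.1 hH).2
    have he := h.e_pos
    by_cases hn : (none : KK H) ∈ X
    · rw [nn_vv_of_mem hc₀ hn]
      by_cases h1 : (dn X).Nonempty
      · have := h.nn_union_ge hH hc₀ (dn_subset X) h1
        linarith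
      · rw [Finset.not_nonempty_iff_eq_empty] at h1
        rw [h1, Finset.empty_union]
        linarith
    · have h1 := dn_nonempty h hH hc₀ hn hX
      have h2 := h.nn_union_ge hH hc₀ (dn_subset X) h1
      by_cases hu : ∑ y ∈ H, c₀ y • v y ∈ sp F v (Hᶜ \ dn X)
      · rw [nn_vv_of_mem_sp hc₀ hn hu]
        linarith
      · have := nn_vv_of_notMem_sp hc₀ he hn hu
        linarith

theorem Cf.eq_none_of_nn {X : Finset (KK H)} (hn : (none : KK H) ∈ X)
    (h1 : nn (rel F (vv v H c₀)) e X = 1) : X = {none} := by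
  rw [nn_vv_of_mem hc₀ hn] at h1
  have h2 : ¬ (dn X).Nonempty := by
    intro h2
    have := h.nn_union_ge hH hc₀ (dn_subset X) h2
    linarith
  rw [Finset.not_nonempty_iff_eq_empty] at h2
  have h3 := card_eq X
  rw [if_pos hn, h2, Finset.card_empty, zero_add, Finset.card_eq_one] at h3
  obtain ⟨z, hz⟩ := h3
  rw [hz, Finset.mem_singleton] at hn
  rw [hz, ← hn]

theorem Cf.nn_none : nn (rel F (vv v H c₀)) e {none} = 1 := by
  rw [nn_vv_of_mem hc₀ (Finset.mem_singleton_self _)]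
  have h1 : dn ({none} : Finset (KK H)) = ∅ := by
    ext x
    rw [mem_dn]
    simp
  rw [h1, Finset.empty_union]
  ring

theorem Cf.none_mem : ({none} : Finset (KK H)) ∈ clss F (vv v H c₀) e := by
  rw [mem_clss]
  refine ⟨?_, h.nn_none hH hc₀⟩
  intro G hG
  rw [h.nn_none hH hc₀]
  have hn : (none : KK H) ∈ G := hG.1 (Finset.mem_singleton_self _)
  have h1 := (h.dense_red hH hc₀).pos G ⟨_, hn⟩
  refine lt_of_le_of_ne h1 fun h2 => ?_
  have h3 := h.eq_none_of_nn hH hc₀ hn h2.symm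
  exact hG.2 (by rw [h3])

variable (hgen : ∀ X, X ⊆ Hᶜ → ∑ y ∈ H, c₀ y • v y ∈ sp F v X → sp F v H ⊓ sp F v Hᶜ ≤ sp F v X)
include hgen

theorem Cf.nn_dn {X : Finset (KK H)} (hn : (none : KK H) ∉ X)
    (h1 : nn (rel F (vv v H c₀)) e X = 1) : nn (rel F v) e (dn X) = 1 := by
  have he := h.dense.two_le
  have hne : X.Nonempty := by
    rw [Finset.nonempty_iff_ne_empty]
    rintro rfl
    rw [nn_empty] at h1
    omega
  have h2 := h.nn_union_ge hH hc₀ (dn_subset X) (dn_nonempty h hH hc₀ hn hne)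
  by_cases hu : ∑ y ∈ H, c₀ y • v y ∈ sp F v (Hᶜ \ dn X)
  · rw [nn_vv_of_mem_sp hc₀ hn hu, nn_union_sub (dn_subset X)] at h1
    have h3 := rk_of_inf_le (H := H) Finset.sdiff_subset (hgen _ Finset.sdiff_subset hu)
    have h4 : H ∪ (Hᶜ \ dn X) = (dn X)ᶜ := by
      ext x
      simp only [Finset.mem_compl, Finset.mem_union, Finset.mem_sdiff]
      constructor
      · rintro (h5 | h5)
        · exact fun h6 => Finset.mem_compl.1 (dn_subset X h6) h5
        · exact h5.2
      · intro h5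
        tauto
    rw [h4] at h3
    have h5 : (rk F v (dn X)ᶜ : ℤ) + rk F v Hᶜ = rk F v univ + rk F v (Hᶜ \ dn X) := by
      exact_mod_cast h3
    rw [nn_eq, ← h1]
    have h6 : (rk F v univ : ℤ) - rk F v (dn X)ᶜ = rk F v Hᶜ - rk F v (Hᶜ \ dn X) := by linarith
    rw [h6]
  · have h3 := nn_vv_of_notMem_sp hc₀ h.e_pos hn hu
    have h4 : (2 : ℤ) ≤ e := by exact_mod_cast he
    linarith

omit hc₀ hgen in
theorem Cf.rk_pair {T : Finset K} (hT : T ∈ clss F v e) (hne : T ≠ H) :
    T ⊆ Hᶜ ∧ rk F v Tᶜ + rk F v Hᶜ = rk F v univ + rk F v (Hᶜ \ T) := by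
  rw [mem_clss] at hH hT
  have h1 := h.disj hT.1 hT.2 hH.1 hH.2 hne
  have h2 := h.union_two hT.1 hT.2 hH.1 hH.2 hne
  have hTH : T ⊆ Hᶜ := by
    intro x hx
    rw [Finset.mem_compl]
    intro hx'
    have : x ∈ T ∩ H := Finset.mem_inter.2 ⟨hx, hx'⟩
    rw [h1] at this
    exact absurd this (Finset.notMem_empty x)
  refine ⟨hTH, ?_⟩
  have h3 := nn_union_sub (F := F) (v := v) (e := e) hTH
  have h4 := nn_eq (F := F) v e T
  rw [h2, hH.2] at h3
  rw [hT.2] at h4
  have he := h.e_pos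
  have h5 : (e : ℤ) * (((rk F v Tᶜ : ℤ) + rk F v Hᶜ) - (rk F v univ + rk F v (Hᶜ \ T))) = 0 := by
    linarith
  rcases mul_eq_zero.1 h5 with h6 | h6
  · omega
  · have : (rk F v Tᶜ : ℤ) + rk F v Hᶜ = rk F v univ + rk F v (Hᶜ \ T) := by linarith
    exact_mod_cast this

theorem Cf.up_mem {T : Finset K} (hT : T ∈ clss F v e) (hne : T ≠ H)
    (hu : ∑ y ∈ H, c₀ y • v y ∈ sp F v H) :
    up H T ∈ clss F (vv v H c₀) e := by
  obtain ⟨hTH, hrk⟩ := h.rk_pair hH hT hne
  have h1 := inf_le_of_rk hTH hrk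
  have h2 : ∑ y ∈ H, c₀ y • v y ∈ sp F v (Hᶜ \ T) := h1 ⟨hu, hc₀⟩
  have hT' := mem_clss.1 hT
  have hH' := mem_clss.1 hH
  have h3 : nn (rel F (vv v H c₀)) e (up H T) = 1 := by
    rw [nn_vv_of_mem_sp hc₀ none_notMem_up (by rw [dn_up hTH]; exact h2), dn_up hTH,
      h.union_two hT'.1 hT'.2 hH'.1 hH'.2 hne, hH'.2]
    norm_num
  rw [mem_clss]
  refine ⟨?_, h3⟩
  intro G hG
  rw [h3]
  have hTne := h.nonempty hT'.2
  have hGne : G.Nonempty := by
    obtain ⟨x, hx⟩ := hTne
    exact ⟨some ⟨x, Finset.mem_compl.1 (hTH hx)⟩, hG.1 (some_mem_up.2 hx)⟩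
  have h4 := (h.dense_red hH hc₀).pos G hGne
  refine lt_of_le_of_ne h4 fun h5 => ?_
  by_cases hn : (none : KK H) ∈ G
  · have h6 := h.eq_none_of_nn hH hc₀ hn h5.symm
    obtain ⟨x, hx⟩ := hTne
    have h7 : (some ⟨x, Finset.mem_compl.1 (hTH hx)⟩ : KK H) ∈ G := hG.1 (some_mem_up.2 hx)
    rw [h6, Finset.mem_singleton] at h7
    exact absurd h7 (by simp)
  · have h6 := h.nn_dn hH hc₀ hgen hn h5.symm
    have h7 : T ⊂ dn G := by
      rw [Finset.ssubset_iff_subset_ne]
      constructor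
      · rw [← dn_up hTH]
        exact dn_mono hG.1
      · intro h8
        apply hG.2
        rintro (_ | x) hx
        · exact absurd hx hn
        · rw [some_mem_up, h8]
          exact some_mem.1 hx
    have h8 := hT'.1.nn_lt h7
    rw [h6, hT'.2] at h8
    exact lt_irrefl _ h8

/-- the reduced configuration -/
theorem Cf.red (hu : ∑ y ∈ H, c₀ y • v y ∈ sp F v H) : Cf (vv v H c₀) e (wr w H c₀) where
  dense := h.dense_red hH hc₀
  two := by
    rw [nn_vv_of_mem hc₀ (Finset.mem_univ _), dn_univ, Finset.union_comm, Finset.union_compl,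
      h.two, (mem_clss.1 hH).2]
    norm_num
  alt := wr_alt h.alt
  cls := by
    intro X h1 y hy z hz
    by_cases hn : (none : KK H) ∈ X
    · have h2 := h.eq_none_of_nn hH hc₀ hn h1
      rw [h2, Finset.mem_singleton] at hy hz
      rw [hy, hz, wr]
    · have h2 := h.nn_dn hH hc₀ hgen hn h1
      rcases y with _ | y
      · exact absurd hy hn
      · rcases z with _ | z
        · exact absurd hz hn
        · exact h.cls _ h2 _ (some_mem.1 hy) _ (some_mem.1 hz)
  one := by
    intro X hX h1 y hy c hc h0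
    have hH' := mem_clss.1 hH
    by_cases hn : (none : KK H) ∈ X
    · have h2 := h.eq_none_of_nn hH hc₀ hn h1
      rw [h2, Finset.mem_singleton] at hy
      rw [hy, sum_wr_none (h.cls H hH'.2)]
      refine Finset.sum_eq_zero fun x hx => ?_
      rw [h.one H hH'.1 hH'.2 x hx _ (isRel_lft.2 hc), mul_zero]
      intro z hz
      rw [lft_mem hz, h0 none hn, zero_mul]
    · rcases y with _ | y
      · exact absurd hy hn
      · have h2 := h.nn_dn hH hc₀ hgen hn h1
        have hyX : (y : K) ∈ dn X := some_mem.1 hy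
        obtain ⟨h3, h4, h5⟩ := h.cl_singleton (y : K)
        have h6 : cl (rel F v) e (dn X) = cl (rel F v) e {(y : K)} := by
          apply h.eq_cl (isFlat_cl _)
          · apply le_antisymm
            · rw [← h2]
              exact nn_cl_le (subset_refl _)
            · exact h.dense.pos _ ⟨_, subset_cl _ hyX⟩
          · exact subset_cl _ hyX
        have h7 : cl (rel F v) e {(y : K)} ∈ clss F v e := mem_clss.2 ⟨h3, h4⟩
        have h8 : cl (rel F v) e {(y : K)} ≠ H := by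
          intro h9
          rw [h9] at h5
          exact y.2 h5
        have h9 := h.up_mem hH hc₀ hgen h7 h8 hu
        have h10 : X = up H (cl (rel F v) e {(y : K)}) := by
          by_contra hne
          have h11 : X ⊂ up H (cl (rel F v) e {(y : K)}) := by
            rw [Finset.ssubset_iff_subset_ne]
            refine ⟨?_, hne⟩
            rintro (_ | z) hz
            · exact absurd hz hn
            · rw [some_mem_up, ← h6]
              exact subset_cl _ (some_mem.1 hz)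
          have h12 := hX.nn_lt h11
          rw [h1, (mem_clss.1 h9).2] at h12
          exact lt_irrefl _ h12
        rw [sum_wr_some]
        refine h.one _ h3 h4 _ h5 _ (isRel_lft.2 hc) ?_
        intro z hz
        have hzH : z ∉ H := Finset.mem_compl.1 ((h.rk_pair hH h7 h8).1 hz)
        rw [lft_some hzH]
        apply h0
        rw [h10, some_mem_up]
        exact hz
  b := (h.spc hH).b_red hc₀

end

end Pool.Agent.MP_d4f4ab_ag.W.H
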