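import Pool.Agent.MP_d4f4ab_ag.W.Main
import Pool.Agent.MP_d4f4ab_ag.W.H0
import Pool.Agent.MP_d4f4ab_ag.W.H11

open Set

universe u

namespace Pool.Agent.MP_d4f4ab_ag.W

theorem vconn_all {F : Type*} [Field F] [IsAlgClosed F] (k d : ℕ)
    (K : Type u) [Fintype K] [DecidableEq K] (v : K → Fin k → F) (P Q : K → Fin d)
    (hP : Val F v P) (hQ : Val F v Q) : VConn F v P Q := by
  refine vconn_of_two (k := k) ?_ d K v (Fin d) (Fintype.card_fin d) P Q hP hQ
  intro K _ _ v e he C' _ _ hC' P₀ hP₀ ih Z hZ hlen H hH hG hn c hc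
  have hC : Fintype.card (Option C') = e + 1 := by rw [Fintype.card_option, hC']
  have : Infinite F := IsAlgClosed.instInfinite
  have hn2 : nn (rel F v) e Finset.univ = (k : ℤ) := by
    rw [nn_rel_univ hP₀ hC, Module.finrank_fin_fun]
  exact Pool.Agent.MP_d4f4ab_ag.W.H.two_of_b (n := k) (dense_rel hP₀ hC he) hn2 (ww_alt v P₀) (ww_ind hC hP₀)
    (fun Z hZ hlen c hc => ww_one he hC' hP₀ ih Z hZ hlen c hc)
    (fun Z hZ hlen R Q hR hRr hQ hQc c hc c' hc' h1 h2 =>
      ww_b he hC' hP₀ ih Z hZ hlen R Q hR hRr hQ hQc c hc c' hc' h1 h2) Z hZ hlen H hH hG hn c hc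

/-- the toric ideal of a representable matroid is generated by quadrics -/
theorem main_all (K : Type*) [Field K] {α : Type u} (M : Matroid α) [M.Finite] [M.RankPos]
    {F : Type*} [Field F] {V : Type*} [AddCommGroup V] [Module F V]
    (u : α → V) (hu : ∀ I ⊆ M.E, M.Indep I ↔ LinearIndepOn F u I) :
    toricIdeal K M = Ideal.span
      {f : MvPolynomial (BaseOf M) K | f ∈ toricIdeal K M ∧ f.IsHomogeneous 2} := by
  refine quadrics_of_vconn (F := F) ?_ K M u hu
  intro k d K' _ _ v P Q hP hQ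
  exact vconn_all k d K' v P Q hP hQ

end Pool.Agent.MP_d4f4ab_ag.W
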